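import Pool.Agent.L0h12.FF.Peel

set_option autoImplicit false
set_option linter.unusedSectionVars false

/-!
# The Lie algebra is semisimple; the strings of an irreducible space
-/

open Module

noncomputable section

namespace Pool.Agent.L0h12.FF

attribute [local instance 100] LieRing.ofAssociativeRing

variable {V : Type} [AddCommGroup V] [Module ℂ V] [FiniteDimensional ℂ V]
  {L : LieSubalgebra ℂ (Module.End ℂ V)} {ω : V →ₗ[ℂ] V →ₗ[ℂ] ℂ}

/-- The form is nondegenerate on the subspace. -/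
def Nd (ω : V →ₗ[ℂ] V →ₗ[ℂ] ℂ) (W : Submodule ℂ V) : Prop :=
  ∀ u ∈ W, (∀ w ∈ W, ω u w = 0) → u = 0

/-- The radical acts by scalars on an irreducible subspace. -/
theorem rad_scalar {W : Submodule ℂ V} (hW : Irr L.toSubmodule W) {x : L}
    (hx : x ∈ LieAlgebra.radical ℂ L) : ∃ c : ℂ, ∀ w ∈ W, x.1 w = c • w := by
  let M : LieSubmodule ℂ L V := { W with lie_mem := fun {y m} hm => hW.st y.1 y.2 m hm }
  have hM : Nontrivial M := Submodule.nontrivial_iff_ne_bot.2 hW.ne
  have hirr : LieModule.IsIrreducible ℂ L M := by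
    refine LieModule.IsIrreducible.mk fun N hN => ?_
    let U : Submodule ℂ V := (N : Submodule ℂ M).map (M : Submodule ℂ V).subtype
    have hU : U ≤ W := by
      rintro _ ⟨u, _, rfl⟩
      exact u.2
    have hst : Stable L.toSubmodule U := by
      rintro X hX _ ⟨u, hu, rfl⟩
      let u' : M := u
      have h1 : ⁅(⟨X, hX⟩ : L), u'⁆ ∈ N := N.lie_mem hu
      let z : M := ⁅(⟨X, hX⟩ : L), u'⁆
      exact ⟨z, h1, rfl⟩
    rcases hW.irr U hU hst with h | h
    · exfalso
      apply hN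
      rw [LieSubmodule.eq_bot_iff]
      intro m hm
      have h1 : (m : V) ∈ U := ⟨m, hm, rfl⟩
      rw [h, Submodule.mem_bot] at h1
      exact Subtype.ext h1
    · rw [eq_top_iff]
      intro m _
      have h1 : (m : V) ∈ U := by
        rw [h]
        exact m.2
      obtain ⟨m', hm', h2⟩ := h1
      have h3 : m' = m := Subtype.ext h2
      rw [← h3]
      exact hm'
  obtain ⟨χ, hχ⟩ : ∃ χ : Module.Dual ℂ (LieAlgebra.radical ℂ L),
      Nontrivial (LieModule.weightSpace M χ) :=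
    LieModule.exists_nontrivial_weightSpace_of_isSolvable ℂ (LieAlgebra.radical ℂ L) M
  let N : LieSubmodule ℂ L M := LieModule.weightSpaceOfIsLieTower ℂ M χ
  replace hχ : Nontrivial N := hχ
  replace hχ : N = ⊤ := N.eq_top_of_isIrreducible ℂ L M
  refine ⟨χ ⟨x, hx⟩, fun w hw => ?_⟩
  have hm : ∀ (y : L) (hy : y ∈ LieAlgebra.radical ℂ L), ⁅y, (⟨w, hw⟩ : M)⁆ = χ ⟨y, hy⟩ • (⟨w, hw⟩ : M) := by
    simpa [N, LieModule.weightSpaceOfIsLieTower, LieModule.mem_weightSpace] using
      (hχ ▸ LieSubmodule.mem_top _ : (⟨w, hw⟩ : M) ∈ N)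
  exact congrArg (fun z : M => (z : V)) (hm x hx)

theorem isKilling {J : Type} {W : J → Submodule ℂ V} (hW : ∀ j, Irr L.toSubmodule (W j))
    (hnd : ∀ j, Nd ω (W j)) (hsup : ⨆ j, W j = ⊤) (hsk : ∀ X ∈ L, Skew ω X) :
    LieAlgebra.IsKilling ℂ L := by
  have h1 : LieAlgebra.HasTrivialRadical ℂ L := by
    rw [LieAlgebra.hasTrivialRadical_iff, LieSubmodule.eq_bot_iff]
    intro x hx
    have h2 : ∀ j, W j ≤ LinearMap.ker x.1 := by
      intro j w hw
      obtain ⟨c, hc⟩ := rad_scalar (hW j) hx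
      have h3 : c = 0 := by
        by_contra hne
        apply (hW j).ne
        rw [Submodule.eq_bot_iff]
        intro u hu
        refine hnd j u hu fun w hw => ?_
        have h4 := hsk x.1 x.2 u w
        rw [hc u hu, hc w hw, map_smul, map_smul, LinearMap.smul_apply, smul_eq_mul] at h4
        have h5 : (2 * c) * ω u w = 0 := by linear_combination h4
        exact (mul_eq_zero.1 h5).resolve_left (mul_ne_zero two_ne_zero hne)
      rw [LinearMap.mem_ker, hc w hw, h3, zero_smul]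
    have h3 : (⊤ : Submodule ℂ V) ≤ LinearMap.ker x.1 := by
      rw [← hsup]
      exact iSup_le h2
    apply Subtype.ext
    refine LinearMap.ext fun v => ?_
    exact h3 (Submodule.mem_top (x := v))
  infer_instance

variable (P : Prin L)

theorem Prin.sl (alt : ∀ x, ω x x = 0) (hsk : ∀ X ∈ L, Skew ω X) : Sl ω P.oe P.oh P.of where
  he := P.rel_e
  hf := P.rel_f
  ef := P.rel_ef
  alt := alt
  se := hsk _ P.e.2
  sh := hsk _ P.h.2
  sf := hsk _ P.f.2

/-- A sum of eigenvectors for other eigenvalues is not an eigenvector. -/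
theorem eig_zero {h : Module.End ℂ V} {T : Set V} {C : Set ℂ} (hT : ∀ w ∈ T, ∃ c ∈ C, h w = c • w)
    {x : V} (hx : x ∈ Submodule.span ℂ T) {a : ℂ} (ha : a ∉ C) (hxa : h x = a • x) : x = 0 := by
  have h1 : Submodule.span ℂ T ≤ ⨆ c ∈ C, Module.End.eigenspace h c := by
    rw [Submodule.span_le]
    intro w hw
    obtain ⟨c, hc, h2⟩ := hT w hw
    exact Submodule.mem_iSup_of_mem c (Submodule.mem_iSup_of_mem hc
      (Module.End.mem_eigenspace_iff.2 h2))
  have h2 := (Module.End.eigenspaces_iSupIndep h).disjoint_biSup (x := a) (y := C) ha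
  exact (Submodule.disjoint_def.1 h2) x (Module.End.mem_eigenspace_iff.2 hxa) (h1 hx)

/-- An irreducible nondegenerate subspace contains only one string for the largest eigenvalue, and
all eigenvalues are odd. -/
theorem Irr.strings (alt : ∀ x, ω x x = 0) (hsk : ∀ X ∈ L, Skew ω X) {W : Submodule ℂ V}
    (hW : Irr L.toSubmodule W) (hnd : Nd ω W) :
    Nice ω P.oe P.oh P.of W ∧ ∃ (v : V) (d : ℕ), Str ω P.oe P.oh P.of W v d ∧
      ∀ c : ℂ, ∀ w ∈ Rest ω P.of W v d, w ≠ 0 → P.oh w = c • w → ∃ m : ℤ, c = m ∧ m < d := by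
  have S := P.sl alt hsk
  obtain ⟨v, hvW, hv0, n', hvn, hve, hspan⟩ := top P W hW
  obtain ⟨n, rfl, hn1, hn2⟩ := S.exists_nat hvn hve hv0
  have hmf : ∀ u ∈ W, P.of u ∈ W := fun u hu => hW.st _ P.f.2 u hu
  -- n is odd
  have hne : ω ((P.of ^ n) v) v ≠ 0 := by
    intro h0
    refine hn1 n le_rfl (hnd _ (pow_mem hmf hvW n) fun w hw => ?_)
    have h1 := hspan hw
    clear hw
    induction h1 using Submodule.span_induction with
    | mem y hy' =>
      rcases hy' with hy' | ⟨_, m, hm, hy⟩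
      · rw [Set.mem_singleton_iff] at hy'
        rw [hy', h0]
      · refine S.w_orth (S.h_pow hvn n) hy fun h2 => ?_
        have h3 : (m : ℂ) = 0 := by linear_combination (-1 / 2 : ℂ) * h2
        have h4 : m = 0 := by exact_mod_cast h3
        omega
    | zero => exact map_zero _
    | add a b _ _ ha hb => rw [map_add, ha, hb, add_zero]
    | smul c a _ ha => rw [map_smul, ha, smul_zero]
  have hodd : Odd n := by
    by_contra h1
    rw [Nat.not_odd_iff_even] at h1
    have h2 := S.skew_pow v v n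
    rw [h1.neg_one_pow, one_mul, anti alt v] at h2
    apply hne
    linear_combination (1 / 2 : ℂ) * h2
  have hnice : Nice ω P.oe P.oh P.of W := by
    refine ⟨fun u hu => hW.st _ P.e.2 u hu, fun u hu => hW.st _ P.h.2 u hu, hmf, hnd, ?_⟩
    refine hspan.trans (Submodule.span_mono ?_)
    rintro w (hw | ⟨hw, m, hm, hwm⟩)
    · rw [Set.mem_singleton_iff] at hw
      rw [hw]
      exact ⟨hvW, n, by exact_mod_cast hodd, by rw [hvn]; norm_num⟩
    · refine ⟨hw, n - 2 * m, ?_, ?_⟩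
      · have : Odd (n : ℤ) := by exact_mod_cast hodd
        exact this.sub_even (even_two_mul _)
      · rw [hwm]
        push_cast
        rfl
  refine ⟨hnice, ?_⟩
  obtain ⟨v', d, T, hmax⟩ := hnice.exists_str S hW.ne
  -- d = n
  have hC : ∀ w ∈ ({v} ∪ {w | w ∈ W ∧ ∃ m : ℕ, 1 ≤ m ∧ P.oh w = ((n : ℂ) - 2 * m) • w} : Set V),
      ∃ c ∈ {c : ℂ | ∃ m : ℕ, c = (n : ℂ) - 2 * m}, P.oh w = c • w := by
    rintro w (hw | ⟨_, m, _, hwm⟩)
    · rw [Set.mem_singleton_iff] at hw
      rw [hw]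
      exact ⟨n, ⟨0, by simp⟩, hvn⟩
    · exact ⟨_, ⟨m, rfl⟩, hwm⟩
  have hv'0 : v' ≠ 0 := by
    rintro rfl
    have := T.one
    rw [map_zero, LinearMap.zero_apply] at this
    exact zero_ne_one this
  have hdn : d = n := by
    obtain ⟨m, h1, h2⟩ := hmax _ v hvW hv0 hvn
    have h3 : (n : ℤ) = m := by exact_mod_cast h1
    have h4 : (d : ℂ) ∈ {c : ℂ | ∃ m : ℕ, c = (n : ℂ) - 2 * m} := by
      by_contra h5
      exact hv'0 (eig_zero hC (hspan T.mem) h5 T.hv)
    obtain ⟨m', h5⟩ := h4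
    have h6 : (d : ℤ) = n - 2 * m' := by exact_mod_cast h5
    omega
  subst hdn
  -- uniqueness
  have huniq : ∀ w ∈ W, P.oh w = (d : ℂ) • w → ∃ c : ℂ, w = c • v := by
    intro w hw hwd
    have h1 := hspan hw
    rw [Submodule.span_union] at h1
    obtain ⟨a, ha, r, hr, h2⟩ := Submodule.mem_sup.1 h1
    obtain ⟨c, rfl⟩ := Submodule.mem_span_singleton.1 ha
    have h3 : r = 0 := by
      refine eig_zero (h := P.oh) (C := {c : ℂ | ∃ m : ℕ, 1 ≤ m ∧ c = (d : ℂ) - 2 * m}) (a := d)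
        ?_ hr ?_ ?_
      · rintro w ⟨_, m, hm, hwm⟩
        exact ⟨_, ⟨m, hm, rfl⟩, hwm⟩
      · rintro ⟨m, hm, h4⟩
        have h5 : (m : ℂ) = 0 := by linear_combination (1 / 2 : ℂ) * h4
        have h6 : m = 0 := by exact_mod_cast h5
        omega
      · have h4 : r = w - c • v := by rw [← h2]; abel
        rw [h4, map_sub, map_smul, hwd, hvn, smul_sub, smul_comm]
    exact ⟨c, by rw [← h2, h3, add_zero]⟩
  refine ⟨v', d, T, fun c w hw hw0 hc => ?_⟩
  obtain ⟨m, h1, h2⟩ := hmax c w hw.1 hw0 hc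
  refine ⟨m, h1, lt_of_le_of_ne h2 fun h3 => hw0 ?_⟩
  rw [h1, h3] at hc
  obtain ⟨a, ha⟩ := huniq w hw.1 (by rw [hc]; norm_num)
  obtain ⟨a', ha'⟩ := huniq v' T.mem T.hv
  have ha'0 : a' ≠ 0 := by
    rintro rfl
    rw [zero_smul] at ha'
    exact hv'0 ha'
  have h4 : w = (a * a'⁻¹) • v' := by
    rw [ha', smul_smul, mul_assoc, inv_mul_cancel₀ ha'0, mul_one, ha]
  have h5 := hw.2 d le_rfl
  rw [h4, map_smul, anti alt, T.one, smul_eq_mul] at h5
  have h6 : a * a'⁻¹ = 0 := by linear_combination -h5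
  rw [h4, h6, zero_smul]

end Pool.Agent.L0h12.FF
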