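import Pool.Agent.L0h12.FF.Fin44
import Pool.Agent.L0h12.FF.Kill

set_option autoImplicit false
set_option linter.unusedSectionVars false
set_option linter.unusedSimpArgs false
set_option maxRecDepth 100000

/-!
# The strings of an eight-dimensional space
-/

open Module

noncomputable section

namespace Pool.Agent.L0h12.FF

variable {V : Type} [AddCommGroup V] [Module ℂ V] [FiniteDimensional ℂ V]
  {ω : V →ₗ[ℂ] V →ₗ[ℂ] ℂ} {e h f : Module.End ℂ V}

/-- Vectors with a nondegenerate Gram matrix span. -/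
theorem span_of_gram (hV : finrank ℂ V = 8) {b : Fin 8 → V} (σ : Fin 8 → Fin 8)
    (h0 : ∀ i j, i ≠ j → ω (b i) (b (σ j)) = 0) (h1 : ∀ j, ω (b j) (b (σ j)) ≠ 0) :
    (⊤ : Submodule ℂ V) ≤ Submodule.span ℂ (Set.range b) := by
  have hli : LinearIndependent ℂ b := by
    rw [Fintype.linearIndependent_iff]
    intro c hc j
    have h2 := congrArg (fun x => ω x (b (σ j))) hc
    simp only [map_sum, map_smul, LinearMap.sum_apply, LinearMap.smul_apply, map_zero,
      LinearMap.zero_apply, smul_eq_mul] at h2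
    rw [Finset.sum_eq_single j] at h2
    · exact (mul_eq_zero.1 h2).resolve_right (h1 j)
    · intro i _ hi
      rw [h0 i j hi, mul_zero]
    · intro h3
      exact absurd (Finset.mem_univ _) h3
  rw [hli.span_eq_top_of_card_eq_finrank (by rw [hV, Fintype.card_fin])]

theorem Rest.pow {U : Submodule ℂ V} {v : V} {d : ℕ} (T : Str ω e h f U v d) {w : V}
    (hw : w ∈ Rest ω f U v d) (i : ℕ) : ω ((f ^ i) v) w = 0 := by
  rcases Nat.lt_or_ge d i with h1 | h1
  · obtain ⟨k, rfl⟩ := Nat.exists_eq_add_of_le h1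
    have h2 : (f ^ (d + 1 + k)) v = 0 := by
      rw [add_comm, pow_add, Module.End.mul_apply, T.fv, map_zero]
    rw [Nat.succ_eq_add_one, h2, map_zero, LinearMap.zero_apply]
  · exact hw.2 i h1

theorem Nice.even (S : Sl ω e h f) : ∀ (n : ℕ) (U : Submodule ℂ V), Nice ω e h f U →
    finrank ℂ U = n → Even n := by
  intro n
  induction n using Nat.strong_induction_on with
  | _ n ih =>
    intro U hU hn
    by_cases h0 : U = ⊥
    · rw [h0, finrank_bot] at hn
      rw [← hn]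
      exact Even.zero
    · obtain ⟨v, d, T, _⟩ := hU.exists_str S h0
      have h1 := T.finrank_rest S hU.mf
      rw [hn] at h1
      have h2 := ih (finrank ℂ (Rest ω f U v d)) (by omega) _ (T.rest_nice S hU) rfl
      have h3 := T.odd
      rw [← h1]
      exact h2.add h3.add_one

theorem Nice.two (S : Sl ω e h f) {U : Submodule ℂ V} (hU : Nice ω e h f U)
    (h2 : finrank ℂ U = 2) : ∃ v, Str ω e h f U v 1 := by
  have h0 : U ≠ ⊥ := by
    rintro rfl
    rw [finrank_bot] at h2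
    omega
  obtain ⟨v, d, T, _⟩ := hU.exists_str S h0
  have h1 := T.finrank_rest S hU.mf
  have h3 := T.odd
  have h4 : d = 1 := by
    obtain ⟨k, hk⟩ := h3
    omega
  subst h4
  exact ⟨v, T⟩

theorem Nice.four (S : Sl ω e h f) {U : Submodule ℂ V} (hU : Nice ω e h f U)
    (h4 : finrank ℂ U = 4) : (∃ v, Str ω e h f U v 3) ∨
      ∃ v v', Str ω e h f U v 1 ∧ Str ω e h f (Rest ω f U v 1) v' 1 := by
  have h0 : U ≠ ⊥ := by
    rintro rfl
    rw [finrank_bot] at h4
    omega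
  obtain ⟨v, d, T, _⟩ := hU.exists_str S h0
  have h1 := T.finrank_rest S hU.mf
  have h3 := T.odd
  have h5 : d = 1 ∨ d = 3 := by
    obtain ⟨k, hk⟩ := h3
    omega
  rcases h5 with rfl | rfl
  · right
    obtain ⟨v', T'⟩ := (T.rest_nice S hU).two S (by omega)
    exact ⟨v, v', T, T'⟩
  · left
    exact ⟨v, T⟩

variable {L : Submodule ℂ (Module.End ℂ V)} {α : V → V → V → V → ℂ}

theorem asm8 (D : Dat L ω h f α) (S : Sl ω e h f) (hV : finrank ℂ V = 8) {U : Submodule ℂ V}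
    {v : V} (T : Str ω e h f U v 7) : α ∈ WS L := by
  have hF := T.form S
  let b : Fin 8 → V := ![(f ^ 0) v, (f ^ 1) v, (f ^ 2) v, (f ^ 3) v, (f ^ 4) v, (f ^ 5) v,
    (f ^ 6) v, (f ^ 7) v]
  have hG : ∀ i j, ω (b i) (b j) = G8 i j := by
    intro i j
    fin_cases i <;> fin_cases j <;>
      simp only [b, G8, Fin.zero_eta, Fin.mk_one, Fin.reduceFinMk, Matrix.cons_val, hF] <;> norm_num
  have hs : ∀ k, f ((f ^ k) v) = (f ^ (k + 1)) v := fun k => by
    rw [pow_succ', Module.End.mul_apply]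
  have hw : ∀ i, h (b i) = (w8 i : ℂ) • b i := by
    intro i
    fin_cases i <;>
      simp only [b, w8, Fin.zero_eta, Fin.mk_one, Fin.reduceFinMk, Matrix.cons_val,
        S.h_pow T.hv] <;> congr 1 <;> norm_num
  have hb : (⊤ : Submodule ℂ V) ≤ Submodule.span ℂ (Set.range b) := by
    refine span_of_gram (ω := ω) hV ![7, 6, 5, 4, 3, 2, 1, 0] ?_ ?_
    · intro i j hij
      rw [hG]
      fin_cases i <;> fin_cases j <;>
        first
          | exact absurd rfl hij
          | rfl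
    · intro j
      rw [hG]
      fin_cases j <;> simp [G8]
  exact fin8 D hb hw (hs 0) (hs 1) (hs 2) (hs 3) (hs 4) (hs 5) (hs 6) ((hs 7).trans T.fv) hG


theorem cross_symm {x y : V} (alt : ∀ x, ω x x = 0) (h : ω x y = 0) : ω y x = 0 := by
  rw [anti alt, h, neg_zero]

theorem asm62 (D : Dat L ω h f α) (S : Sl ω e h f) (hV : finrank ℂ V = 8) {U U' : Submodule ℂ V}
    {v v' : V} (T : Str ω e h f U v 5) (T' : Str ω e h f U' v' 1)
    (hc : ∀ i j, ω ((f ^ i) v) ((f ^ j) v') = 0) : α ∈ WS L := by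
  have hF := T.form S
  have hF' := T'.form S
  have hc' : ∀ i j, ω ((f ^ i) v') ((f ^ j) v) = 0 := fun i j => cross_symm S.alt (hc j i)
  let b : Fin 8 → V := ![(f ^ 0) v, (f ^ 1) v, (f ^ 2) v, (f ^ 3) v, (f ^ 4) v, (f ^ 5) v,
    (f ^ 0) v', (f ^ 1) v']
  have hG : ∀ i j, ω (b i) (b j) = G62 i j := by
    intro i j
    fin_cases i <;> fin_cases j <;>
      simp only [b, G62, Fin.zero_eta, Fin.mk_one, Fin.reduceFinMk, Matrix.cons_val, hF, hF', hc,
        hc'] <;> norm_num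
  have hs : ∀ k, f ((f ^ k) v) = (f ^ (k + 1)) v := fun k => by
    rw [pow_succ', Module.End.mul_apply]
  have hs' : ∀ k, f ((f ^ k) v') = (f ^ (k + 1)) v' := fun k => by
    rw [pow_succ', Module.End.mul_apply]
  have hw : ∀ i, h (b i) = (w62 i : ℂ) • b i := by
    intro i
    fin_cases i <;>
      simp only [b, w62, Fin.zero_eta, Fin.mk_one, Fin.reduceFinMk, Matrix.cons_val,
        S.h_pow T.hv, S.h_pow T'.hv] <;> congr 1 <;> norm_num
  have hb : (⊤ : Submodule ℂ V) ≤ Submodule.span ℂ (Set.range b) := by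
    refine span_of_gram (ω := ω) hV ![5, 4, 3, 2, 1, 0, 7, 6] ?_ ?_
    · intro i j hij
      rw [hG]
      fin_cases i <;> fin_cases j <;>
        first
          | exact absurd rfl hij
          | rfl
    · intro j
      rw [hG]
      fin_cases j <;> simp [G62]
  exact fin62 D hb hw (hs 0) (hs 1) (hs 2) (hs 3) (hs 4) ((hs 5).trans T.fv) (hs' 0)
    ((hs' 1).trans T'.fv) hG

theorem asm422 (D : Dat L ω h f α) (S : Sl ω e h f) (hV : finrank ℂ V = 8)
    {U U1 U2 : Submodule ℂ V} {v v1 v2 : V} (T : Str ω e h f U v 3) (T1 : Str ω e h f U1 v1 1)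
    (T2 : Str ω e h f U2 v2 1) (hc1 : ∀ i j, ω ((f ^ i) v) ((f ^ j) v1) = 0)
    (hc2 : ∀ i j, ω ((f ^ i) v) ((f ^ j) v2) = 0)
    (hc3 : ∀ i j, ω ((f ^ i) v1) ((f ^ j) v2) = 0) : α ∈ WS L := by
  have hF := T.form S
  have hF1 := T1.form S
  have hF2 := T2.form S
  have hc1' : ∀ i j, ω ((f ^ i) v1) ((f ^ j) v) = 0 := fun i j => cross_symm S.alt (hc1 j i)
  have hc2' : ∀ i j, ω ((f ^ i) v2) ((f ^ j) v) = 0 := fun i j => cross_symm S.alt (hc2 j i)
  have hc3' : ∀ i j, ω ((f ^ i) v2) ((f ^ j) v1) = 0 := fun i j => cross_symm S.alt (hc3 j i)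
  let b : Fin 8 → V := ![(f ^ 0) v, (f ^ 1) v, (f ^ 2) v, (f ^ 3) v, (f ^ 0) v1, (f ^ 1) v1,
    (f ^ 0) v2, (f ^ 1) v2]
  have hG : ∀ i j, ω (b i) (b j) = G422 i j := by
    intro i j
    fin_cases i <;> fin_cases j <;>
      simp only [b, G422, Fin.zero_eta, Fin.mk_one, Fin.reduceFinMk, Matrix.cons_val, hF, hF1,
        hF2, hc1, hc2, hc3, hc1', hc2', hc3'] <;> norm_num
  have hs : ∀ w : V, ∀ k, f ((f ^ k) w) = (f ^ (k + 1)) w := fun w k => by
    rw [pow_succ', Module.End.mul_apply]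
  have hw : ∀ i, h (b i) = (w422 i : ℂ) • b i := by
    intro i
    fin_cases i <;>
      simp only [b, w422, Fin.zero_eta, Fin.mk_one, Fin.reduceFinMk, Matrix.cons_val,
        S.h_pow T.hv, S.h_pow T1.hv, S.h_pow T2.hv] <;> congr 1 <;> norm_num
  have hb : (⊤ : Submodule ℂ V) ≤ Submodule.span ℂ (Set.range b) := by
    refine span_of_gram (ω := ω) hV ![3, 2, 1, 0, 5, 4, 7, 6] ?_ ?_
    · intro i j hij
      rw [hG]
      fin_cases i <;> fin_cases j <;>
        first
          | exact absurd rfl hij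
          | rfl
    · intro j
      rw [hG]
      fin_cases j <;> simp [G422]
  exact fin422 D hb hw (hs v 0) (hs v 1) (hs v 2) ((hs v 3).trans T.fv) (hs v1 0)
    ((hs v1 1).trans T1.fv) (hs v2 0) ((hs v2 1).trans T2.fv) hG

theorem asm44 (D : Dat L ω h f α) (S : Sl ω e h f) (hV : finrank ℂ V = 8)
    {U U' : Submodule ℂ V} {v v' : V} (T : Str ω e h f U v 3) (T' : Str ω e h f U' v' 3)
    (hU : ∀ u ∈ U, f u ∈ U) (hU' : ∀ u ∈ U', f u ∈ U')
    (hc : ∀ X ∈ L, ∀ x ∈ U, ∀ y ∈ U', ω (X x) y = 0) (hc0 : ∀ x ∈ U, ∀ y ∈ U', ω x y = 0) :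
    α ∈ WS L := by
  have hF := T.form S
  have hF' := T'.form S
  have m1 : ∀ i, (f ^ i) v ∈ U := fun i => pow_mem hU T.mem i
  have m2 : ∀ i, (f ^ i) v' ∈ U' := fun i => pow_mem hU' T'.mem i
  have hc1 : ∀ i j, ω ((f ^ i) v) ((f ^ j) v') = 0 := fun i j => hc0 _ (m1 i) _ (m2 j)
  have hc' : ∀ i j, ω ((f ^ i) v') ((f ^ j) v) = 0 := fun i j => cross_symm S.alt (hc1 j i)
  let b : Fin 8 → V := ![(f ^ 0) v, (f ^ 1) v, (f ^ 2) v, (f ^ 3) v, (f ^ 0) v', (f ^ 1) v',
    (f ^ 2) v', (f ^ 3) v']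
  have hG : ∀ i j, ω (b i) (b j) = G44 i j := by
    intro i j
    fin_cases i <;> fin_cases j <;>
      simp only [b, G44, Fin.zero_eta, Fin.mk_one, Fin.reduceFinMk, Matrix.cons_val, hF, hF', hc1,
        hc'] <;> norm_num
  have hs : ∀ w : V, ∀ k, f ((f ^ k) w) = (f ^ (k + 1)) w := fun w k => by
    rw [pow_succ', Module.End.mul_apply]
  have hw : ∀ i, h (b i) = (w44 i : ℂ) • b i := by
    intro i
    fin_cases i <;>
      simp only [b, w44, Fin.zero_eta, Fin.mk_one, Fin.reduceFinMk, Matrix.cons_val,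
        S.h_pow T.hv, S.h_pow T'.hv] <;> congr 1 <;> norm_num
  have hb : (⊤ : Submodule ℂ V) ≤ Submodule.span ℂ (Set.range b) := by
    refine span_of_gram (ω := ω) hV ![3, 2, 1, 0, 7, 6, 5, 4] ?_ ?_
    · intro i j hij
      rw [hG]
      fin_cases i <;> fin_cases j <;>
        first
          | exact absurd rfl hij
          | rfl
    · intro j
      rw [hG]
      fin_cases j <;> simp [G44]
  refine fin44 D hb hw (hs v 0) (hs v 1) (hs v 2) ((hs v 3).trans T.fv) (hs v' 0)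
    (hs v' 1) (hs v' 2) ((hs v' 3).trans T'.fv) hG fun X hX i u hi hu => ?_
  refine hc X hX _ ?_ _ ?_
  · rcases four_lo i hi with rfl | rfl | rfl | rfl
    exacts [m1 0, m1 1, m1 2, m1 3]
  · rcases four_hi u hu with rfl | rfl | rfl | rfl
    exacts [m2 0, m2 1, m2 2, m2 3]

end Pool.Agent.L0h12.FF
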