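import Pool.Agent.L0h12.FF.Fin8

set_option autoImplicit false
set_option linter.unusedSectionVars false
set_option linter.unusedSimpArgs false
set_option maxRecDepth 100000

/-!
# The form on a string of length four
-/

open Module

noncomputable section

namespace Pool.Agent.L0h12.FF

variable {V : Type} [AddCommGroup V] [Module ℂ V] [FiniteDimensional ℂ V]

/-- The form on the first four vectors. -/
def om3 (ω : V →ₗ[ℂ] V →ₗ[ℂ] ℂ) (b : Fin 8 → V) : V →ₗ[ℂ] V →ₗ[ℂ] ℂ :=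
  el ω (b 0) (b 3) - el ω (b 1) (b 2)

theorem om3_apply (ω : V →ₗ[ℂ] V →ₗ[ℂ] ℂ) (b : Fin 8 → V) (x y : V) :
    om3 ω b x y = (ω x (b 0) * ω y (b 3) - ω x (b 3) * ω y (b 0)) -
      (ω x (b 1) * ω y (b 2) - ω x (b 2) * ω y (b 1)) := rfl

theorem om3_alt (ω : V →ₗ[ℂ] V →ₗ[ℂ] ℂ) (b : Fin 8 → V) (x : V) : om3 ω b x x = 0 := by
  rw [om3_apply]
  ring

/-- The values of the form on the first four vectors, and on the others. -/
structure Blk (ω : V →ₗ[ℂ] V →ₗ[ℂ] ℂ) (b : Fin 8 → V) : Prop where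
  lo : ∀ i : Fin 8, i < 4 → ∀ y, om3 ω b (b i) y = ω (b i) y
  hi : ∀ i : Fin 8, 4 ≤ i → ∀ y, om3 ω b (b i) y = 0

theorem Blk.mk' {ω : V →ₗ[ℂ] V →ₗ[ℂ] ℂ} (alt : ∀ x, ω x x = 0) {b : Fin 8 → V}
    {G : Fin 8 → Fin 8 → ℂ} (hG : ∀ i j, ω (b i) (b j) = G i j)
    (G03 : G 0 3 = 1) (G12 : G 1 2 = -1) (G30 : G 3 0 = -1) (G21 : G 2 1 = 1)
    (G00 : G 0 0 = 0) (G01 : G 0 1 = 0) (G02 : G 0 2 = 0) (G10 : G 1 0 = 0) (G11 : G 1 1 = 0)
    (G13 : G 1 3 = 0) (G20 : G 2 0 = 0) (G22 : G 2 2 = 0) (G23 : G 2 3 = 0) (G31 : G 3 1 = 0)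
    (G32 : G 3 2 = 0) (G33 : G 3 3 = 0)
    (hc : ∀ i j : Fin 8, 4 ≤ i → j < 4 → G i j = 0) : Blk ω b := by
  constructor
  · intro i hi y
    rw [om3_apply, hG, hG, hG, hG]
    obtain rfl | rfl | rfl | rfl : i = 0 ∨ i = 1 ∨ i = 2 ∨ i = 3 := by
      revert i; decide
    · rw [G00, G03, G01, G02, anti alt (b 0) y]; ring
    · rw [G10, G13, G11, G12, anti alt (b 1) y]; ring
    · rw [G20, G23, G21, G22, anti alt (b 2) y]; ring
    · rw [G30, G33, G31, G32, anti alt (b 3) y]; ring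
  · intro i hi y
    rw [om3_apply, hG, hG, hG, hG, hc i 0 hi (by decide), hc i 1 hi (by decide),
      hc i 2 hi (by decide), hc i 3 hi (by decide)]
    ring

namespace Blk

variable {ω : V →ₗ[ℂ] V →ₗ[ℂ] ℂ} {b : Fin 8 → V} (B : Blk ω b)
include B

theorem lo' {i : Fin 8} (hi : i < 4) (y : V) : (ω - om3 ω b) (b i) y = 0 := by
  rw [LinearMap.sub_apply, LinearMap.sub_apply, B.lo i hi, sub_self]

theorem hi' {i : Fin 8} (hi : 4 ≤ i) (y : V) : (ω - om3 ω b) (b i) y = ω (b i) y := by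
  rw [LinearMap.sub_apply, LinearMap.sub_apply, B.hi i hi, sub_zero]

theorem cross {i u : Fin 8} (hi : i < 4) (hu : 4 ≤ u) :
    ω (b i) (b u) = 0 := by
  rw [← B.lo i hi, anti (om3_alt ω b), B.hi u hu, neg_zero]

/-- The form on the block is invariant if the block is stable. -/
theorem inv2 (alt : ∀ x, ω x x = 0) (hb : (⊤ : Submodule ℂ V) ≤ Submodule.span ℂ (Set.range b))
    {X : Module.End ℂ V} (hsk : Skew ω X)
    (hz : ∀ i u : Fin 8, i < 4 → 4 ≤ u → ω (X (b i)) (b u) = 0) : Inv2 X (om3 ω b) := by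
  have hlo : ∀ i : Fin 8, i < 4 → ∀ y, om3 ω b y (b i) = ω y (b i) := fun i hi y => by
    rw [anti (om3_alt ω b), B.lo i hi, anti alt y]
  have hhi : ∀ i : Fin 8, 4 ≤ i → ∀ y, om3 ω b y (b i) = 0 := fun i hi y => by
    rw [anti (om3_alt ω b), B.hi i hi, neg_zero]
  refine inv2_of hb fun i j => ?_
  rcases lt_or_ge i 4 with hi | hi <;> rcases lt_or_ge j 4 with hj | hj
  · rw [hlo j hj, B.lo i hi]
    exact hsk _ _
  · rw [hhi j hj, B.lo i hi, zero_add]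
    have h1 := hsk (b i) (b j)
    rw [hz i j hi hj, zero_add] at h1
    exact h1
  · rw [hlo j hj, B.hi i hi, add_zero]
    have h1 := hsk (b j) (b i)
    rw [hz j i hj hi, zero_add] at h1
    rw [anti alt, h1, neg_zero]
  · rw [hhi j hj, B.hi i hi, add_zero]

end Blk

/-- The derivative of a bilinear form. -/
def lb (X : Module.End ℂ V) (β : V →ₗ[ℂ] V →ₗ[ℂ] ℂ) : V →ₗ[ℂ] V →ₗ[ℂ] ℂ :=
  β.comp X + β.compl₂ X

theorem lb_apply (X : Module.End ℂ V) (β : V →ₗ[ℂ] V →ₗ[ℂ] ℂ) (x y : V) :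
    lb X β x y = β (X x) y + β x (X y) := rfl

theorem wd_lb (X : Module.End ℂ V) (β γ : V →ₗ[ℂ] V →ₗ[ℂ] ℂ) (x y z w : V) :
    wd β γ (X x) y z w + wd β γ x (X y) z w + wd β γ x y (X z) w + wd β γ x y z (X w) =
      wd (lb X β) γ x y z w + wd β (lb X γ) x y z w := by
  simp only [wd, lb_apply]
  ring

end Pool.Agent.L0h12.FF
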