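import Pool.Agent.L0h12.FF.Asm

set_option autoImplicit false
set_option linter.unusedSectionVars false
set_option linter.unusedSimpArgs false

/-!
# The invariants of an eight-dimensional symplectic representation without multiplicities
-/

open Module

noncomputable section

namespace Pool.Agent.L0h12.FF

attribute [local instance 100] LieRing.ofAssociativeRing

variable {V : Type} [AddCommGroup V] [Module ℂ V] [FiniteDimensional ℂ V]
  {ω : V →ₗ[ℂ] V →ₗ[ℂ] ℂ} {L : LieSubalgebra ℂ (Module.End ℂ V)} {α : V → V → V → V → ℂ}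

/-- The vectors orthogonal to a subspace. -/
def perp (ω : V →ₗ[ℂ] V →ₗ[ℂ] ℂ) (W : Submodule ℂ V) : Submodule ℂ V where
  carrier := {y | ∀ x ∈ W, ω x y = 0}
  zero_mem' := fun _ _ => map_zero _
  add_mem' := fun {a b} ha hb x hx => by rw [map_add, ha x hx, hb x hx, add_zero]
  smul_mem' := fun c a ha x hx => by rw [map_smul, ha x hx, smul_zero]

/-- An orthogonal sum of nice subspaces is nice. -/
theorem nice_iSup {e h f : Module.End ℂ V} {J : Type}
    {W : J → Submodule ℂ V} (hW : ∀ j, Nice ω e h f (W j))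
    (horth : ∀ i j, i ≠ j → ∀ x ∈ W i, ∀ y ∈ W j, ω x y = 0) : Nice ω e h f (⨆ j, W j) := by
  have stab : ∀ T : Module.End ℂ V, (∀ j, ∀ u ∈ W j, T u ∈ W j) → ∀ u ∈ ⨆ j, W j,
      T u ∈ ⨆ j, W j := by
    intro T hT u hu
    have h1 : (⨆ j, W j).map T ≤ ⨆ j, W j := by
      rw [Submodule.map_iSup]
      refine iSup_mono fun j => ?_
      rintro _ ⟨x, hx, rfl⟩
      exact hT j x hx
    exact h1 ⟨u, hu, rfl⟩
  refine ⟨stab e fun j => (hW j).me, stab h fun j => (hW j).mh, stab f fun j => (hW j).mf, ?_, ?_⟩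
  · intro u hu h0
    -- the components
    classical
    obtain ⟨c, hc, hcu⟩ := (Submodule.mem_iSup_iff_exists_finsupp W u).1 hu
    have h1 : ∀ j, c j = 0 := by
      intro j
      refine (hW j).nd _ (hc j) fun w hw => ?_
      have h2 := h0 w (Submodule.mem_iSup_of_mem j hw)
      rw [← hcu, Finsupp.sum, map_sum, LinearMap.sum_apply] at h2
      by_cases hj : j ∈ c.support
      · rw [Finset.sum_eq_single j] at h2
        · exact h2
        · intro i _ hi
          exact horth i j hi _ (hc i) _ hw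
        · intro h3
          exact absurd hj h3
      · rw [Finsupp.notMem_support_iff.1 hj, map_zero, LinearMap.zero_apply]
    rw [← hcu, Finsupp.sum]
    exact Finset.sum_eq_zero fun j _ => h1 j
  · refine iSup_le fun j => (hW j).odd.trans (Submodule.span_mono ?_)
    rintro w ⟨hw, hm⟩
    exact ⟨Submodule.mem_iSup_of_mem j hw, hm⟩

theorem main_cx (hV : finrank ℂ V = 8) (alt : ∀ x, ω x x = 0)
    (hsk : ∀ X ∈ L, Skew ω X) {J : Type} {W : J → Submodule ℂ V}
    (hW : ∀ j, Irr L.toSubmodule (W j)) (hN : ∀ j, Nd ω (W j))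
    (horth : ∀ i j, i ≠ j → ∀ x ∈ W i, ∀ y ∈ W j, ω x y = 0) (hsup : ⨆ j, W j = ⊤) (j0 : J)
    (hj0 : 4 ≤ finrank ℂ (W j0)) (hα : Alt4 ℂ α) (hinv : ∀ X ∈ L, Inv4 X α) :
    α ∈ WS L.toSubmodule := by
  classical
  have hK : LieAlgebra.IsKilling ℂ L := isKilling hW hN hsup hsk
  obtain ⟨P⟩ : Nonempty (Prin L) := exists_prin L
  have S := P.sl alt hsk
  have D : Dat L.toSubmodule ω P.oh P.of α := ⟨alt, hsk, P.h.2, P.f.2, hα, hinv⟩
  obtain ⟨nice0, v, d, T, hlt⟩ := (hW j0).strings P alt hsk (hN j0)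
  let W' : Submodule ℂ V := ⨆ j : {j : J // j ≠ j0}, W j
  have nice' : Nice ω P.oe P.oh P.of W' := nice_iSup
    (fun j => ((hW j.1).strings P alt hsk (hN j.1)).1)
    fun i j hij => horth i.1 j.1 fun h1 => hij (Subtype.ext h1)
  have horth0 : ∀ x ∈ W j0, ∀ y ∈ W', ω x y = 0 := by
    have h1 : W' ≤ perp ω (W j0) := iSup_le fun j y hy x hx =>
      horth j0 j.1 (Ne.symm j.2) x hx y hy
    exact fun x hx y hy => h1 hy x hx
  have hsum : finrank ℂ (W j0) + finrank ℂ W' = 8 := by
    have h1 : W j0 ⊔ W' = ⊤ := by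
      rw [eq_top_iff, ← hsup]
      refine iSup_le fun j => ?_
      by_cases hj : j = j0
      · rw [hj]
        exact le_sup_left
      · exact (le_iSup (fun j : {j : J // j ≠ j0} => W j) ⟨j, hj⟩).trans le_sup_right
    have h2 : W j0 ⊓ W' = ⊥ := by
      rw [eq_bot_iff]
      rintro x ⟨hx, hx'⟩
      rw [Submodule.mem_bot]
      exact hN j0 x hx fun w hw => by rw [anti alt, horth0 w hw x hx', neg_zero]
    have h3 := Submodule.finrank_sup_add_finrank_inf_eq (W j0) W'
    rw [h1, h2, finrank_bot, finrank_top, hV] at h3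
    omega
  have hrest := T.finrank_rest S nice0.mf
  have niceR := T.rest_nice S nice0
  have e1 := nice'.even S _ _ rfl
  have e2 := niceR.even S _ _ rfl
  -- the string and the rest of the block
  have hcR : ∀ w ∈ Rest ω P.of (W j0) v d, ∀ i, ω ((P.of ^ i) v) w = 0 := fun w hw i =>
    Rest.pow T hw i
  have hcW : ∀ w ∈ W', ∀ i, ω ((P.of ^ i) v) w = 0 := fun w hw i =>
    horth0 _ (pow_mem nice0.mf T.mem i) w hw
  obtain ⟨k, hk⟩ := T.odd
  obtain ⟨a1, ha1⟩ := e1
  obtain ⟨a2, ha2⟩ := e2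
  have hd : d = 1 ∨ d = 3 ∨ d = 5 ∨ d = 7 := by omega
  rcases hd with rfl | rfl | rfl | rfl
  · -- impossible
    exfalso
    have h0 : Rest ω P.of (W j0) v 1 ≠ ⊥ := by
      intro h1
      rw [h1, finrank_bot] at hrest
      omega
    obtain ⟨v', d', T', _⟩ := niceR.exists_str S h0
    have hv'0 : v' ≠ 0 := by
      rintro rfl
      have := T'.one
      rw [map_zero, LinearMap.zero_apply] at this
      exact zero_ne_one this
    obtain ⟨m, h2, h3⟩ := hlt _ v' T'.mem hv'0 T'.hv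
    have h4 : (d' : ℤ) = m := by exact_mod_cast h2
    obtain ⟨k', hk'⟩ := T'.odd
    have h5 : (1 : ℤ) ≤ d' := by exact_mod_cast (show 1 ≤ d' by omega)
    rw [← h4] at h3
    exact absurd h3 (not_lt.2 h5)
  · -- `d = 3`
    have hcases : (finrank ℂ (Rest ω P.of (W j0) v 3) = 4 ∧ finrank ℂ W' = 0) ∨
        (finrank ℂ (Rest ω P.of (W j0) v 3) = 2 ∧ finrank ℂ W' = 2) ∨
        (finrank ℂ (Rest ω P.of (W j0) v 3) = 0 ∧ finrank ℂ W' = 4) := by omega
    rcases hcases with ⟨h1, h2⟩ | ⟨h1, h2⟩ | ⟨h1, h2⟩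
    · rcases niceR.four S h1 with ⟨v1, T1⟩ | ⟨v1, v2, T1, T2⟩
      · exfalso
        have hv'0 : v1 ≠ 0 := by
          rintro rfl
          have := T1.one
          rw [map_zero, LinearMap.zero_apply] at this
          exact zero_ne_one this
        obtain ⟨m, h2, h3⟩ := hlt _ v1 T1.mem hv'0 T1.hv
        have h4 : ((3 : ℕ) : ℤ) = m := by exact_mod_cast h2
        omega
      · refine asm422 D S hV T T1 T2 (fun i j => hcR _ (pow_mem niceR.mf T1.mem j) i)
          (fun i j => hcR _ ?_ i) (fun i j => ?_)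
        · exact (pow_mem (T1.rest_nice S niceR).mf T2.mem j).1
        · exact Rest.pow T1 (pow_mem (T1.rest_nice S niceR).mf T2.mem j) i
    · obtain ⟨v1, T1⟩ := niceR.two S h1
      obtain ⟨v2, T2⟩ := nice'.two S h2
      refine asm422 D S hV T T1 T2 (fun i j => hcR _ (pow_mem niceR.mf T1.mem j) i)
        (fun i j => hcW _ (pow_mem nice'.mf T2.mem j) i) (fun i j => ?_)
      exact horth0 _ (pow_mem niceR.mf T1.mem i).1 _ (pow_mem nice'.mf T2.mem j)
    · rcases nice'.four S h2 with ⟨v1, T1⟩ | ⟨v1, v2, T1, T2⟩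
      · refine asm44 D S hV T T1 nice0.mf nice'.mf (fun X hX x hx y hy => ?_) horth0
        exact horth0 _ ((hW j0).st X hX x hx) y hy
      · refine asm422 D S hV T T1 T2 (fun i j => hcW _ (pow_mem nice'.mf T1.mem j) i)
          (fun i j => hcW _ (pow_mem (T1.rest_nice S nice').mf T2.mem j).1 i) (fun i j => ?_)
        exact Rest.pow T1 (pow_mem (T1.rest_nice S nice').mf T2.mem j) i
  · -- `d = 5`
    have hcases : (finrank ℂ (Rest ω P.of (W j0) v 5) = 2) ∨ finrank ℂ W' = 2 := by omega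
    rcases hcases with h1 | h1
    · obtain ⟨v1, T1⟩ := niceR.two S h1
      exact asm62 D S hV T T1 fun i j => hcR _ (pow_mem niceR.mf T1.mem j) i
    · obtain ⟨v1, T1⟩ := nice'.two S h1
      exact asm62 D S hV T T1 fun i j => hcW _ (pow_mem nice'.mf T1.mem j) i
  · exact asm8 D S hV T

end Pool.Agent.L0h12.FF
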