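import Pool.Agent.Y102.AV12
import Pool.Agent.Y102.V10
import Pool.Agent.L0h12.FF.MainC

set_option autoImplicit false
set_option linter.unusedSectionVars false
set_option linter.unusedSimpArgs false

/-!
# The blocks of the complex homology
-/

open Module Function Polynomial TensorProduct

noncomputable section

namespace Pool.Agent.L0h12.FF

open Pool.Agent.Y102 Pool.Agent.W516.DR Pool.Agent.H204R3.GP Pool.Agent.W516.KC
  Pool.Agent.H204R3.SP

attribute [local instance 100] LieRing.ofAssociativeRing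

variable {g : ℕ}

/-- Commuting symmetric endomorphisms such that all endomorphisms which commute with them are
symmetric. -/
structure Sys (A : AbVar g) {r : ℕ} (P : Fin r → Module.End ℚ A.H1) : Prop where
  mem : ∀ i, P i ∈ A.EA
  comm : ∀ i j, P i * P j = P j * P i
  sym : ∀ i u v, A.om (P i u) v = A.om u (P i v)
  real : ∀ Q ∈ A.EA, (∀ i, Q * P i = P i * Q) → ∀ u v, A.om (Q u) v = A.om u (Q v)

/-- The endomorphisms which commute with the given ones. -/
def ZZ (A : AbVar g) {r : ℕ} (P : Fin r → Module.End ℚ A.H1) : Submodule ℚ (Module.End ℚ A.H1) where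
  carrier := {Q | Q ∈ A.EA ∧ ∀ i, Q * P i = P i * Q}
  zero_mem' := ⟨A.EA.zero_mem, fun i => by rw [zero_mul, mul_zero]⟩
  add_mem' := fun {Q R} hQ hR => ⟨A.EA.add_mem hQ.1 hR.1, fun i => by
    rw [add_mul, mul_add, hQ.2, hR.2]⟩
  smul_mem' := fun c Q hQ => ⟨A.EA.smul_mem c hQ.1, fun i => by
    rw [smul_mul_assoc, mul_smul_comm, hQ.2]⟩

namespace Sys

variable {A : AbVar g} {r : ℕ} {P : Fin r → Module.End ℚ A.H1} (H : Sys A P)
include H

theorem memZ (i : Fin r) : P i ∈ ZZ A P := ⟨H.mem i, fun j => H.comm i j⟩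

theorem symZ {Q : Module.End ℚ A.H1} (hQ : Q ∈ ZZ A P) (u v : A.H1) :
    A.om (Q u) v = A.om u (Q v) := H.real Q hQ.1 hQ.2 u v

theorem mulZ {Q R : Module.End ℚ A.H1} (hQ : Q ∈ ZZ A P) (hR : R ∈ ZZ A P) : Q * R ∈ ZZ A P :=
  ⟨A.EA_mul hQ.1 hR.1, fun i => by rw [mul_assoc, hR.2, ← mul_assoc, hQ.2, mul_assoc]⟩

theorem oneZ : (1 : Module.End ℚ A.H1) ∈ ZZ A P :=
  ⟨A.EA_one, fun i => by rw [one_mul, mul_one]⟩

theorem commZ {Q R : Module.End ℚ A.H1} (hQ : Q ∈ ZZ A P) (hR : R ∈ ZZ A P) : Q * R = R * Q := by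
  refine LinearMap.ext fun v => ?_
  rw [← sub_eq_zero]
  apply A.om_nondeg
  intro w
  have h1 := H.symZ (H.mulZ hQ hR) v w
  have h2 := H.symZ hR v (Q w)
  have h3 := H.symZ hQ (R v) w
  have h4 := H.symZ (H.mulZ hR hQ) v w
  have h5 := H.symZ hR (Q v) w
  have h6 := H.symZ hQ v (R w)
  simp only [Module.End.mul_apply] at h1 h4 ⊢
  rw [map_sub, LinearMap.sub_apply]
  linear_combination h3 + h2 - h4

theorem powZ {Q : Module.End ℚ A.H1} (hQ : Q ∈ ZZ A P) (n : ℕ) : Q ^ n ∈ ZZ A P := by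
  induction n with
  | zero => rw [pow_zero]; exact H.oneZ
  | succ n ih => rw [pow_succ]; exact H.mulZ ih hQ

theorem aevalZ {Q : Module.End ℚ A.H1} (hQ : Q ∈ ZZ A P) (p : ℚ[X]) : aeval Q p ∈ ZZ A P := by
  rw [aeval_eq_sum_range]
  exact Submodule.sum_mem _ fun i _ => Submodule.smul_mem _ _ (H.powZ hQ i)

theorem reduced {Q : Module.End ℚ A.H1} (hQ : Q ∈ ZZ A P) (p : ℚ[X])
    (h : aeval Q p * aeval Q p = 0) : aeval Q p = 0 :=
  A.eq_zero_of_adj (H.aevalZ hQ p).1 (fun u v => H.symZ (H.aevalZ hQ p) u v) h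

end Sys

/-- The polarization on the complex homology. -/
def omC (A : AbVar g) : ℂ ⊗[ℚ] A.H1 →ₗ[ℂ] ℂ ⊗[ℚ] A.H1 →ₗ[ℂ] ℂ :=
  LinearMap.BilinForm.baseChange ℂ A.om

theorem omC_one (A : AbVar g) (u v : A.H1) :
    omC A ((1 : ℂ) ⊗ₜ[ℚ] u) ((1 : ℂ) ⊗ₜ[ℚ] v) = algebraMap ℚ ℂ (A.om u v) := by
  change LinearMap.BilinForm.baseChange ℂ A.om _ _ = _
  rw [LinearMap.BilinForm.baseChange_tmul]
  simp

theorem omC_nondeg (A : AbVar g) (z : ℂ ⊗[ℚ] A.H1) (hz : ∀ z', omC A z z' = 0) : z = 0 :=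
  nondeg_ext A.om (omC A) (omC_one A) (fun _ hu => A.om_nondeg hu) z hz

theorem omC_anti (A : AbVar g) (u v : ℂ ⊗[ℚ] A.H1) : omC A u v = -omC A v u := by
  have h1 : omC A = -(omC A).flip := by
    apply bilin_ext
    intro u v
    rw [LinearMap.neg_apply, LinearMap.neg_apply, LinearMap.flip_apply, omC_one, omC_one,
      A.om_anti, map_neg]
  exact congrArg (fun B : ℂ ⊗[ℚ] A.H1 →ₗ[ℂ] ℂ ⊗[ℚ] A.H1 →ₗ[ℂ] ℂ => B u v) h1

theorem omC_alt (A : AbVar g) (u : ℂ ⊗[ℚ] A.H1) : omC A u u = 0 := by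
  have h1 := omC_anti A u u
  have h2 : (2 : ℂ) * omC A u u = 0 := by linear_combination h1
  exact (mul_eq_zero.1 h2).resolve_left two_ne_zero

theorem omC_skew (A : AbVar g) {X : Module.End ℂ (ℂ ⊗[ℚ] A.H1)} (hX : X ∈ cx A.LA) :
    Skew (omC A) X := by
  induction hX using Submodule.span_induction with
  | mem X hX =>
    obtain ⟨P, hP, rfl⟩ := hX
    exact fun u w => skew_ext A.om (omC A) (omC_one A) (A.LA_skew hP) u w
  | zero => intro u w; simp
  | add a b _ _ ha hb =>
    intro u w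
    have e1 := ha u w
    have e2 := hb u w
    simp only [LinearMap.add_apply, map_add]
    linear_combination e1 + e2
  | smul c a _ ha =>
    intro u w
    have e1 := ha u w
    simp only [LinearMap.smul_apply, map_smul, smul_eq_mul]
    linear_combination c * e1

theorem omC_sym (A : AbVar g) {Q : Module.End ℚ A.H1} (hQ : ∀ u v, A.om (Q u) v = A.om u (Q v))
    (u v : ℂ ⊗[ℚ] A.H1) : omC A (Q.baseChange ℂ u) v = omC A u (Q.baseChange ℂ v) := by
  have h1 : (omC A).comp (Q.baseChange ℂ) = (omC A).compl₂ (Q.baseChange ℂ) := by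
    apply bilin_ext
    intro u v
    rw [LinearMap.comp_apply, LinearMap.compl₂_apply, LinearMap.baseChange_tmul,
      LinearMap.baseChange_tmul, omC_one, omC_one, hQ]
  exact congrArg (fun B : ℂ ⊗[ℚ] A.H1 →ₗ[ℂ] ℂ ⊗[ℚ] A.H1 →ₗ[ℂ] ℂ => B u v) h1

/-- The Lie algebra over the complex numbers. -/
def LC (A : AbVar g) : LieSubalgebra ℂ (Module.End ℂ (ℂ ⊗[ℚ] A.H1)) :=
  { cx A.LA with
    lie_mem' := fun {X Y} hX hY => by
      have h1 := cx_br (S := A.LA) (T := cx A.LA) (fun X hX Y hY => by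
        rw [← bc_br]
        exact bc_mem (A.LA_bracket hX hY)) X hX Y hY
      exact h1 }

theorem LC_toSubmodule (A : AbVar g) : (LC A).toSubmodule = cx A.LA := rfl

theorem mem_LC (A : AbVar g) {X : Module.End ℂ (ℂ ⊗[ℚ] A.H1)} : X ∈ LC A ↔ X ∈ cx A.LA := Iff.rfl

/-- A stable subspace for the Lie algebra is complemented by its orthogonal complement. -/
theorem semi_sup {A : AbVar g} {r : ℕ} {P : Fin r → Module.End ℚ A.H1} (H : Sys A P) :
    Semi (A.LA ⊔ Submodule.span ℚ (Set.range P)) := by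
  intro U hU
  have h0 : IsDeRhamBettiSubspace QBar A.dR U := by
    rw [← A.coe_basis]
    refine sub_of_stable A.basis (τ := Pool.Agent.Y102.tau) U fun D lam u hu => ?_
    refine hU _ (Submodule.mem_sup_left ?_) u hu
    rw [A.LA_eq]
    exact X0_mem A.basis AbVar.tau_ne D lam
  refine ⟨LinearMap.BilinForm.orthogonal (A.om : LinearMap.BilinForm ℚ A.H1) U, ?_,
    A.isCompl_of_sub h0⟩
  intro X hX w hw
  obtain ⟨Y, hY, Q, hQ, rfl⟩ := Submodule.mem_sup.1 hX
  rw [LinearMap.add_apply]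
  refine Submodule.add_mem _ (fun u hu => ?_) ?_
  · have h1 := A.LA_skew hY u w
    have h2 : A.om (Y u) w = 0 := hw _ (hU Y (Submodule.mem_sup_left hY) u hu)
    rw [h2, zero_add] at h1
    exact h1
  · have hQs : ∀ u v, A.om (Q u) v = A.om u (Q v) := by
      clear hX
      induction hQ using Submodule.span_induction with
      | mem Q hQ => obtain ⟨i, rfl⟩ := hQ; exact H.sym i
      | zero => intro u v; simp
      | add a b _ _ ha hb =>
        intro u v
        rw [LinearMap.add_apply, LinearMap.add_apply, map_add, LinearMap.add_apply, map_add, ha, hb]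
      | smul c a _ ha =>
        intro u v
        rw [LinearMap.smul_apply, LinearMap.smul_apply, map_smul, LinearMap.smul_apply, map_smul,
          ha]
    intro u hu
    have h2 : A.om (Q u) w = 0 := hw _ (hU Q (Submodule.mem_sup_right hQ) u hu)
    rw [hQs] at h2
    exact h2

/-- Endomorphisms which commute with all elements of `ZZ` belong to the algebra generated by the Lie
algebra and the given endomorphisms. -/
theorem mem_adjoin_of_ZZ {A : AbVar g} {r : ℕ} {P : Fin r → Module.End ℚ A.H1} (H : Sys A P)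
    {T : Module.End ℚ A.H1} (hT : ∀ Q ∈ ZZ A P, T * Q = Q * T) :
    T ∈ Algebra.adjoin ℚ ((A.LA ⊔ Submodule.span ℚ (Set.range P) :
      Submodule ℚ (Module.End ℚ A.H1)) : Set (Module.End ℚ A.H1)) := by
  refine mem_adjoin_of_comm (semi_sup H) fun Q hQ => hT Q ⟨fun X hX => ?_, fun i => ?_⟩
  · exact hQ X (Submodule.mem_sup_left hX)
  · exact (hQ (P i) (Submodule.mem_sup_right (Submodule.subset_span ⟨i, rfl⟩))).symm

/-- The same over the complex numbers. -/
theorem cx_mem_of_ZZ {A : AbVar g} {r : ℕ} {P : Fin r → Module.End ℚ A.H1} (H : Sys A P)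
    {T : Module.End ℂ (ℂ ⊗[ℚ] A.H1)}
    (hT : ∀ Q ∈ ZZ A P, T * Q.baseChange ℂ = Q.baseChange ℂ * T) (U : Submodule ℂ (ℂ ⊗[ℚ] A.H1))
    (hU : ∀ X ∈ cx A.LA, ∀ u ∈ U, X u ∈ U) (hUP : ∀ i, ∀ u ∈ U, (P i).baseChange ℂ u ∈ U) :
    ∀ u ∈ U, T u ∈ U := by
  have h1 : T ∈ extEnd ℂ (fun X => X ∈ Algebra.adjoin ℚ
      ((A.LA ⊔ Submodule.span ℚ (Set.range P) : Submodule ℚ (Module.End ℚ A.H1)) :
        Set (Module.End ℚ A.H1))) :=
    end_mem_span _ T fun lam => mem_adjoin_of_ZZ H fun Q hQ => comm_cmp (hT Q hQ) lam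
  -- stability under the rational elements
  have h2 : ∀ X ∈ Algebra.adjoin ℚ ((A.LA ⊔ Submodule.span ℚ (Set.range P) :
      Submodule ℚ (Module.End ℚ A.H1)) : Set (Module.End ℚ A.H1)), ∀ u ∈ U,
        X.baseChange ℂ u ∈ U := by
    intro X hX
    refine Algebra.adjoin_induction (p := fun X _ => ∀ u ∈ U, X.baseChange ℂ u ∈ U) ?_ ?_ ?_ ?_ hX
    · intro X hX u hu
      obtain ⟨Y, hY, Q, hQ, rfl⟩ := Submodule.mem_sup.1 hX
      rw [LinearMap.baseChange_add, LinearMap.add_apply]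
      refine U.add_mem (hU _ (bc_mem hY) u hu) ?_
      clear hX
      induction hQ using Submodule.span_induction with
      | mem Q hQ => obtain ⟨i, rfl⟩ := hQ; exact hUP i u hu
      | zero => rw [LinearMap.baseChange_zero, LinearMap.zero_apply]; exact U.zero_mem
      | add a b _ _ ha hb =>
        rw [LinearMap.baseChange_add, LinearMap.add_apply]
        exact U.add_mem ha hb
      | smul c a _ ha =>
        rw [LinearMap.baseChange_smul, LinearMap.smul_apply]
        have h3 : c • (a.baseChange ℂ u) = (c : ℂ) • (a.baseChange ℂ u) :=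
          (Rat.cast_smul_eq_qsmul ℂ c _).symm
        rw [h3]
        exact U.smul_mem _ ha
    · intro c u hu
      have h3 : (algebraMap ℚ (Module.End ℚ A.H1) c).baseChange ℂ u = (c : ℂ) • u := by
        rw [Algebra.algebraMap_eq_smul_one, LinearMap.baseChange_smul, LinearMap.smul_apply,
          Rat.cast_smul_eq_qsmul]
        congr 1
        exact LinearMap.congr_fun (LinearMap.baseChange_id (R := ℚ) (A := ℂ) (M := A.H1)) u
      rw [h3]
      exact U.smul_mem _ hu
    · intro a b _ _ ha hb u hu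
      rw [LinearMap.baseChange_add, LinearMap.add_apply]
      exact U.add_mem (ha u hu) (hb u hu)
    · intro a b _ _ ha hb u hu
      rw [bc_mul, Module.End.mul_apply]
      exact ha _ (hb u hu)
  unfold extEnd at h1
  clear hT
  induction h1 using Submodule.span_induction with
  | mem T hT' =>
    obtain ⟨X, hX, rfl⟩ := hT'
    exact h2 X hX
  | zero => intro u _; exact U.zero_mem
  | add a b _ _ ha hb => intro u hu; exact U.add_mem (ha u hu) (hb u hu)
  | smul c a _ ha => intro u hu; exact U.smul_mem _ (ha u hu)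

end Pool.Agent.L0h12.FF
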