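import Pool.Agent.L0h12.FF.Blocks

set_option autoImplicit false
set_option linter.unusedSectionVars false
set_option linter.unusedSimpArgs false

/-!
# The blocks of the complex homology, continued
-/

open Module Function Polynomial TensorProduct

noncomputable section

namespace Pool.Agent.L0h12.FF

open Pool.Agent.Y102 Pool.Agent.W516.DR Pool.Agent.H204R3.GP Pool.Agent.W516.KC
  Pool.Agent.H204R3.SP

attribute [local instance 100] LieRing.ofAssociativeRing

variable {g : ℕ}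

/-- The joint eigenspaces. -/
def EE (A : AbVar g) {r : ℕ} (P : Fin r → Module.End ℚ A.H1) (χ : ZZ A P → ℂ) :
    Submodule ℂ (ℂ ⊗[ℚ] A.H1) :=
  ⨅ R : ZZ A P, Module.End.eigenspace ((R : Module.End ℚ A.H1).baseChange ℂ) (χ R)

theorem mem_EE {A : AbVar g} {r : ℕ} {P : Fin r → Module.End ℚ A.H1} {χ : ZZ A P → ℂ}
    {x : ℂ ⊗[ℚ] A.H1} :
    x ∈ EE A P χ ↔ ∀ R : ZZ A P, (R : Module.End ℚ A.H1).baseChange ℂ x = χ R • x := by
  unfold EE
  rw [Submodule.mem_iInf]
  exact forall_congr' fun R => Module.End.mem_eigenspace_iff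

namespace Sys

variable {A : AbVar g} {r : ℕ} {P : Fin r → Module.End ℚ A.H1} (H : Sys A P)
include H

theorem iSup_EE : ⨆ χ, EE A P χ = ⊤ := by
  have hcomm : ∀ R R' : ZZ A P, Commute ((R : Module.End ℚ A.H1).baseChange ℂ)
      ((R' : Module.End ℚ A.H1).baseChange ℂ) := by
    intro R R'
    change (R : Module.End ℚ A.H1).baseChange ℂ ∘ₗ (R' : Module.End ℚ A.H1).baseChange ℂ =
      (R' : Module.End ℚ A.H1).baseChange ℂ ∘ₗ (R : Module.End ℚ A.H1).baseChange ℂ
    rw [← LinearMap.baseChange_comp, ← LinearMap.baseChange_comp]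
    congr 1
    exact H.commZ R.2 R'.2
  have htop := Module.End.iSup_iInf_maxGenEigenspace_eq_top_of_iSup_maxGenEigenspace_eq_top_of_commute
    (fun R : ZZ A P => ((R : Module.End ℚ A.H1).baseChange ℂ : Module.End ℂ (ℂ ⊗[ℚ] A.H1)))
    (fun i j _ => hcomm i j)
    (fun i => Module.End.iSup_maxGenEigenspace_eq_top _)
  rw [← htop]
  refine iSup_congr fun χ => iInf_congr fun R => ?_
  rw [(semisimple_of_reduced _ (H.reduced R.2)).isFinitelySemisimple.maxGenEigenspace_eq_eigenspace]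

theorem EE_orth {χ χ' : ZZ A P → ℂ} (hne : χ ≠ χ') {x y : ℂ ⊗[ℚ] A.H1} (hx : x ∈ EE A P χ)
    (hy : y ∈ EE A P χ') : omC A x y = 0 := by
  obtain ⟨R, hR⟩ := Function.ne_iff.1 hne
  have h1 := omC_sym A (H.symZ R.2) x y
  rw [mem_EE.1 hx R, mem_EE.1 hy R, map_smul, map_smul, LinearMap.smul_apply, smul_eq_mul,
    smul_eq_mul] at h1
  have h2 : (χ R - χ' R) * omC A x y = 0 := by linear_combination h1
  exact (mul_eq_zero.1 h2).resolve_left (sub_ne_zero.2 hR)

theorem EE_nd (χ : ZZ A P → ℂ) : Nd (omC A) (EE A P χ) := by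
  intro u hu h0
  apply omC_nondeg
  have h1 : (⊤ : Submodule ℂ (ℂ ⊗[ℚ] A.H1)) ≤ LinearMap.ker (omC A u) := by
    rw [← H.iSup_EE]
    refine iSup_le fun χ' y hy => ?_
    rw [LinearMap.mem_ker]
    by_cases h : χ = χ'
    · exact h0 y (h ▸ hy)
    · exact H.EE_orth h hu hy
  exact fun z => h1 (Submodule.mem_top (x := z))

theorem EE_st (χ : ZZ A P → ℂ) : Stable (LC A).toSubmodule (EE A P χ) := by
  intro X hX u hu
  rw [mem_EE] at hu ⊢
  intro R
  have h1 : (R : Module.End ℚ A.H1).baseChange ℂ * X = X * (R : Module.End ℚ A.H1).baseChange ℂ := by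
    refine cx_comm (S := A.LA) (fun Y hY => ?_) X hX
    rw [← bc_mul, ← bc_mul]
    congr 1
    exact (R.2.1 Y hY).symm
  have h2 := LinearMap.congr_fun h1 u
  rw [Module.End.mul_apply, Module.End.mul_apply, hu R, map_smul] at h2
  exact h2

theorem EE_irr {χ : ZZ A P → ℂ} (hne : EE A P χ ≠ ⊥) : Irr (LC A).toSubmodule (EE A P χ) := by
  refine ⟨hne, H.EE_st χ, fun U hU hst => ?_⟩
  by_cases h0 : U = ⊥
  · exact Or.inl h0
  right
  refine le_antisymm hU fun w hw => ?_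
  obtain ⟨u, hu, hu0⟩ := Submodule.exists_mem_ne_zero_of_ne_bot h0
  obtain ⟨u', hu', h1⟩ : ∃ u' ∈ EE A P χ, omC A u' u ≠ 0 := by
    by_contra hcon
    push Not at hcon
    refine hu0 (H.EE_nd χ u (hU hu) fun y hy => ?_)
    rw [omC_anti, hcon y hy, neg_zero]
  let T : Module.End ℂ (ℂ ⊗[ℚ] A.H1) := (omC A u').smulRight w
  have hT : ∀ x, T x = omC A u' x • w := fun _ => rfl
  have h2 : T u ∈ U := by
    refine cx_mem_of_ZZ H (T := T) (fun Q hQ => ?_) U hst (fun i x hx => ?_) u hu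
    · refine LinearMap.ext fun x => ?_
      rw [Module.End.mul_apply, Module.End.mul_apply, hT, hT, map_smul,
        mem_EE.1 hw ⟨Q, hQ⟩, ← omC_sym A (H.symZ hQ), mem_EE.1 hu' ⟨Q, hQ⟩, map_smul,
        LinearMap.smul_apply, smul_eq_mul, mul_smul]
      exact smul_comm _ _ _
    · have h3 := mem_EE.1 (hU hx) ⟨P i, H.memZ i⟩
      change (P i).baseChange ℂ x ∈ U
      rw [h3]
      exact U.smul_mem _ hx
  rw [hT] at h2
  have h3 := U.smul_mem (omC A u' u)⁻¹ h2
  rwa [smul_smul, inv_mul_cancel₀ h1, one_smul] at h3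

end Sys

end Pool.Agent.L0h12.FF
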