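import Pool.Agent.L0h12.FF.Blocks2

set_option autoImplicit false
set_option linter.unusedSectionVars false
set_option linter.unusedSimpArgs false

/-!
# The number of the blocks
-/

open Module Function Polynomial TensorProduct

noncomputable section

namespace Pool.Agent.L0h12.FF

open Pool.Agent.Y102 Pool.Agent.W516.DR Pool.Agent.H204R3.GP Pool.Agent.W516.KC
  Pool.Agent.H204R3.SP

attribute [local instance 100] LieRing.ofAssociativeRing

variable {g : ℕ}

/-- Extensions of linearly independent endomorphisms. -/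
theorem bc_indep {W : Type} [AddCommGroup W] [Module ℚ W] [FiniteDimensional ℚ W] {n : ℕ}
    (z : Fin n → Module.End ℚ W) (hz : LinearIndependent ℚ z) (c : Fin n → ℂ)
    (h : ∑ i, c i • (z i).baseChange ℂ = (0 : Module.End ℂ (ℂ ⊗[ℚ] W))) : c = 0 := by
  funext i
  rw [Pi.zero_apply]
  apply eq_zero_of_dual (k := ℚ)
  intro lam
  have h1 : ∑ i, lam (c i) • (z i) = 0 := by
    refine LinearMap.ext fun w => ?_
    have h2 := LinearMap.congr_fun h ((1 : ℂ) ⊗ₜ[ℚ] w)
    rw [LinearMap.sum_apply, LinearMap.zero_apply] at h2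
    have h3 := congrArg (Pool.Agent.W516.DR.cmp lam) h2
    rw [map_sum, map_zero] at h3
    rw [LinearMap.sum_apply, LinearMap.zero_apply, ← h3]
    refine Finset.sum_congr rfl fun i _ => ?_
    rw [LinearMap.smul_apply, LinearMap.smul_apply, LinearMap.baseChange_tmul, smul_tmul',
      smul_eq_mul, mul_one, cmp_tmul]
  exact Fintype.linearIndependent_iff.1 hz (fun i => lam (c i)) h1 i

theorem sum_apply_zero {W : Type} [AddCommGroup W] [Module ℚ W] {n : ℕ}
    (z : Fin n → Module.End ℚ W) (c χ : Fin n → ℂ) (x : ℂ ⊗[ℚ] W)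
    (hx : ∀ i, (z i).baseChange ℂ x = χ i • x) (h : ∑ i, c i * χ i = 0) :
    (∑ i, c i • (z i).baseChange ℂ : Module.End ℂ (ℂ ⊗[ℚ] W)) x = 0 := by
  rw [LinearMap.sum_apply]
  have h2 : ∀ i, (c i • (z i).baseChange ℂ : Module.End ℂ (ℂ ⊗[ℚ] W)) x = (c i * χ i) • x := by
    intro i
    rw [LinearMap.smul_apply, hx i, smul_smul]
  rw [Finset.sum_congr rfl fun i _ => h2 i, ← Finset.sum_smul, h, zero_smul]

theorem li_sub {W : Type} [AddCommGroup W] [Module ℚ W] {n : ℕ}
    {S : Submodule ℚ (Module.End ℚ W)} (z : Basis (Fin n) ℚ S) :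
    LinearIndependent ℚ (fun i => (z i : Module.End ℚ W)) :=
  z.linearIndependent.map' S.subtype (Submodule.ker_subtype _)

theorem ext_top {V J : Type} [AddCommGroup V] [Module ℂ V] {E : J → Submodule ℂ V}
    (hE : ⨆ j, E j = ⊤) {T : Module.End ℂ V} (h : ∀ j, ∀ x ∈ E j, T x = 0) : T = 0 := by
  have h1 : (⊤ : Submodule ℂ V) ≤ LinearMap.ker T := by
    rw [← hE]
    exact iSup_le fun j x hx => LinearMap.mem_ker.2 (h j x hx)
  exact LinearMap.ext fun x => h1 (Submodule.mem_top (x := x))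

/-- A basis of a space of endomorphisms. -/
theorem exists_bas {W : Type} [AddCommGroup W] [Module ℚ W] [FiniteDimensional ℚ W]
    (S : Submodule ℚ (Module.End ℚ W)) : Nonempty (Basis (Fin (finrank ℚ S)) ℚ S) :=
  ⟨Module.finBasis ℚ S⟩

/-- The characters which occur. -/
abbrev JJ (A : AbVar g) {r : ℕ} (P : Fin r → Module.End ℚ A.H1) : Type :=
  {χ : ZZ A P → ℂ // EE A P χ ≠ ⊥}

namespace Sys

variable {A : AbVar g} {r : ℕ} {P : Fin r → Module.End ℚ A.H1} (H : Sys A P)
include H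

theorem iSup_JJ : ⨆ j : JJ A P, EE A P j.1 = ⊤ := by
  rw [eq_top_iff, ← H.iSup_EE]
  refine iSup_le fun χ => ?_
  by_cases h : EE A P χ = ⊥
  · rw [h]
    exact bot_le
  · exact le_iSup (fun j : JJ A P => EE A P j.1) ⟨χ, h⟩

theorem orth_JJ : ∀ i j : JJ A P, i ≠ j → ∀ x ∈ EE A P i.1, ∀ y ∈ EE A P j.1, omC A x y = 0 :=
  fun _ _ hij _ hx _ hy => H.EE_orth (fun h => hij (Subtype.ext h)) hx hy

theorem indep_JJ : iSupIndep fun j : JJ A P => EE A P j.1 := by
  intro j
  rw [disjoint_iff, eq_bot_iff]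
  rintro x ⟨hx, hx'⟩
  rw [Submodule.mem_bot]
  refine H.EE_nd j.1 x hx fun w hw => ?_
  have h1 : (⨆ (i : JJ A P) (_ : i ≠ j), EE A P i.1) ≤ perp (omC A) (EE A P j.1) :=
    iSup_le fun i => iSup_le fun hij y hy z hz => H.orth_JJ j i (Ne.symm hij) z hz y hy
  rw [omC_anti, h1 hx' w hw, neg_zero]

theorem char_one (j : JJ A P) : j.1 ⟨1, H.oneZ⟩ = 1 := by
  obtain ⟨x, hx, hx0⟩ := Submodule.exists_mem_ne_zero_of_ne_bot j.2
  have h1 := mem_EE.1 hx ⟨1, H.oneZ⟩
  have h2 : (1 : Module.End ℚ A.H1).baseChange ℂ x = x :=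
    LinearMap.congr_fun (LinearMap.baseChange_id (R := ℚ) (A := ℂ) (M := A.H1)) x
  change (1 : Module.End ℚ A.H1).baseChange ℂ x = _ at h1
  rw [h2] at h1
  have h3 : (j.1 ⟨1, H.oneZ⟩ - 1) • x = 0 := by rw [sub_smul, one_smul, ← h1, sub_self]
  exact sub_eq_zero.1 ((smul_eq_zero.1 h3).resolve_right hx0)

theorem char_mul (j : JJ A P) {Q R : Module.End ℚ A.H1} (hQ : Q ∈ ZZ A P) (hR : R ∈ ZZ A P) :
    j.1 ⟨Q * R, H.mulZ hQ hR⟩ = j.1 ⟨Q, hQ⟩ * j.1 ⟨R, hR⟩ := by
  obtain ⟨x, hx, hx0⟩ := Submodule.exists_mem_ne_zero_of_ne_bot j.2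
  have h1 := mem_EE.1 hx ⟨Q * R, H.mulZ hQ hR⟩
  have h2 := mem_EE.1 hx ⟨Q, hQ⟩
  have h3 := mem_EE.1 hx ⟨R, hR⟩
  change (Q * R).baseChange ℂ x = _ at h1
  change Q.baseChange ℂ x = _ at h2
  change R.baseChange ℂ x = _ at h3
  rw [bc_mul, Module.End.mul_apply, h3, map_smul, h2, smul_smul] at h1
  have h4 : (j.1 ⟨R, hR⟩ * j.1 ⟨Q, hQ⟩ - j.1 ⟨Q * R, H.mulZ hQ hR⟩) • x = 0 := by
    rw [sub_smul, h1, sub_self]
  rw [← sub_eq_zero.1 ((smul_eq_zero.1 h4).resolve_right hx0), mul_comm]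

theorem char_add (j : JJ A P) (Q R : ZZ A P) : j.1 (Q + R) = j.1 Q + j.1 R := by
  obtain ⟨x, hx, hx0⟩ := Submodule.exists_mem_ne_zero_of_ne_bot j.2
  have h1 := mem_EE.1 hx (Q + R)
  rw [Submodule.coe_add, LinearMap.baseChange_add, LinearMap.add_apply, mem_EE.1 hx Q,
    mem_EE.1 hx R, ← add_smul] at h1
  have h4 : (j.1 Q + j.1 R - j.1 (Q + R)) • x = 0 := by rw [sub_smul, h1, sub_self]
  exact (sub_eq_zero.1 ((smul_eq_zero.1 h4).resolve_right hx0)).symm

theorem char_smul (j : JJ A P) (c : ℚ) (Q : ZZ A P) : j.1 (c • Q) = c • j.1 Q := by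
  obtain ⟨x, hx, hx0⟩ := Submodule.exists_mem_ne_zero_of_ne_bot j.2
  have h1 := mem_EE.1 hx (c • Q)
  rw [Submodule.coe_smul, LinearMap.baseChange_smul, LinearMap.smul_apply, mem_EE.1 hx Q,
    ← smul_assoc] at h1
  have h4 : (c • j.1 Q - j.1 (c • Q)) • x = 0 := by rw [sub_smul, h1, sub_self]
  exact (sub_eq_zero.1 ((smul_eq_zero.1 h4).resolve_right hx0)).symm

/-- The character as a linear map. -/
def lin (j : JJ A P) : ZZ A P →ₗ[ℚ] ℂ where
  toFun := j.1
  map_add' := H.char_add j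
  map_smul' := H.char_smul j

/-- The characters are linearly independent. -/
theorem char_indep {n : ℕ} (z : Basis (Fin n) ℚ (ZZ A P)) :
    LinearIndependent ℂ (fun j : JJ A P => fun i : Fin n => j.1 (z i)) := by
  let M : Submonoid (Module.End ℚ A.H1) :=
    { carrier := ZZ A P
      one_mem' := H.oneZ
      mul_mem' := fun hQ hR => H.mulZ hQ hR }
  let φ : JJ A P → (M →* ℂ) := fun j =>
    { toFun := fun Q => j.1 ⟨Q.1, Q.2⟩
      map_one' := H.char_one j
      map_mul' := fun Q R => H.char_mul j Q.2 R.2 }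
  have hφ : Function.Injective φ := by
    intro i j hij
    apply Subtype.ext
    funext R
    exact DFunLike.congr_fun hij (⟨R.1, R.2⟩ : M)
  have h1 : LinearIndependent ℂ (fun j : JJ A P => ((φ j : M →* ℂ) : M → ℂ)) :=
    (linearIndependent_monoidHom M ℂ).comp φ hφ
  let Φ : (Fin n → ℂ) →ₗ[ℂ] (M → ℂ) :=
    { toFun := fun a R => ∑ i, ((z.repr ⟨R.1, R.2⟩ i : ℚ) : ℂ) * a i
      map_add' := fun a b => by
        funext R
        simp only [Pi.add_apply, mul_add, Finset.sum_add_distrib]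
      map_smul' := fun c a => by
        funext R
        simp only [Pi.smul_apply, smul_eq_mul, RingHom.id_apply, Finset.mul_sum]
        refine Finset.sum_congr rfl fun i _ => ?_
        ring }
  refine LinearIndependent.of_comp Φ ?_
  have h2 : (Φ ∘ fun j : JJ A P => fun i : Fin n => j.1 (z i)) =
      fun j : JJ A P => ((φ j : M →* ℂ) : M → ℂ) := by
    funext j R
    change ∑ i, ((z.repr ⟨R.1, R.2⟩ i : ℚ) : ℂ) * j.1 (z i) = j.1 ⟨R.1, R.2⟩
    have h3 := congrArg (H.lin j) (z.sum_repr ⟨R.1, R.2⟩)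
    rw [map_sum] at h3
    change _ = j.1 ⟨R.1, R.2⟩ at h3
    rw [← h3]
    refine Finset.sum_congr rfl fun i _ => ?_
    rw [map_smul, Rat.smul_def]
    rfl
  rw [h2]
  exact h1

/-- The characters separate the elements. -/
theorem char_sep {n : ℕ} (z : Basis (Fin n) ℚ (ZZ A P)) (c : Fin n → ℂ)
    (h : ∀ j : JJ A P, ∑ i, c i * j.1 (z i) = 0) : c = 0 := by
  refine bc_indep (fun i => (z i : Module.End ℚ A.H1)) (li_sub z) c ?_
  · refine ext_top H.iSup_JJ fun j x hx => ?_
    exact sum_apply_zero (fun i => (z i : Module.End ℚ A.H1)) c (fun i => j.1 (z i)) x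
      (fun i => mem_EE.1 hx (z i)) (h j)

/-- The number of the blocks is the dimension of the algebra. -/
theorem card_JJ : ∃ _ : Fintype (JJ A P), Fintype.card (JJ A P) = finrank ℚ (ZZ A P) := by
  obtain ⟨z⟩ := exists_bas (ZZ A P)
  have h1 := H.char_indep z
  have hfin : Finite (JJ A P) := h1.finite_of_isNoetherian
  let inst : Fintype (JJ A P) := Fintype.ofFinite _
  refine ⟨inst, le_antisymm ?_ ?_⟩
  · have h2 := h1.fintype_card_le_finrank
    rwa [Module.finrank_fin_fun] at h2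
  · let Θ : (Fin (finrank ℚ (ZZ A P)) → ℂ) →ₗ[ℂ] (JJ A P → ℂ) :=
      { toFun := fun c j => ∑ i, c i * j.1 (z i)
        map_add' := fun a b => by
          funext j
          simp only [Pi.add_apply, add_mul, Finset.sum_add_distrib]
        map_smul' := fun c a => by
          funext j
          simp only [Pi.smul_apply, smul_eq_mul, RingHom.id_apply, Finset.mul_sum, mul_assoc] }
    have hΘ : Function.Injective Θ := by
      rw [injective_iff_map_eq_zero]
      intro c hc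
      exact H.char_sep z c fun j => congrFun hc j
    have h3 := LinearMap.finrank_le_finrank_of_injective hΘ
    rwa [Module.finrank_fin_fun, Module.finrank_fintype_fun_eq_card] at h3

/-- The sum of the dimensions of the blocks. -/
theorem sum_finrank [Fintype (JJ A P)] :
    ∑ j : JJ A P, finrank ℂ (EE A P j.1) = 2 * g := by
  classical
  have h1 := DirectSum.isInternal_submodule_of_iSupIndep_of_iSup_eq_top H.indep_JJ H.iSup_JJ
  have h2 := (LinearEquiv.ofBijective (DirectSum.coeLinearMap fun j : JJ A P => EE A P j.1)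
    h1).finrank_eq
  rw [Module.finrank_directSum] at h2
  rw [h2, Module.finrank_baseChange, Module.finrank_fin_fun]

end Sys

end Pool.Agent.L0h12.FF
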