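import Pool.Agent.L0h12.FF.Four

set_option autoImplicit false
set_option linter.unusedSectionVars false
set_option linter.unusedSimpArgs false
set_option maxRecDepth 100000

/-!
# Invariant forms in four variables on an eight-dimensional representation of `sl(2)`
-/

open Module

noncomputable section

namespace Pool.Agent.L0h12.FF

variable {V : Type} [AddCommGroup V] [Module ℂ V]

theorem wt_zero {α : V → V → V → V → ℂ} (hα : Alt4 ℂ α) {h : Module.End ℂ V} (hh : Inv4 h α)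
    {b : Fin 8 → V} {w : Fin 8 → ℤ} (hw : ∀ i, h (b i) = (w i : ℂ) • b i) (i j l m : Fin 8)
    (hne : w i + w j + w l + w m ≠ 0) : α (b i) (b j) (b l) (b m) = 0 := by
  have h1 := hh (b i) (b j) (b l) (b m)
  rw [hw, hw, hw, hw, hα.s1, hα.s2, hα.s3, hα.s4] at h1
  have h2 : ((w i + w j + w l + w m : ℤ) : ℂ) * α (b i) (b j) (b l) (b m) = 0 := by
    push_cast
    linear_combination h1
  exact (mul_eq_zero.1 h2).resolve_left (by exact_mod_cast hne)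

section c8

/-- the weights of the string of length eight -/
def w8 : Fin 8 → ℤ := ![7, 5, 3, 1, -1, -3, -5, -7]

theorem enum8 : ∀ i j l m : Fin 8, i < j → j < l → l < m → w8 i + w8 j + w8 l + w8 m = 0 →
    (i, j, l, m) = (0, 1, 6, 7) ∨ (i, j, l, m) = (0, 2, 5, 7) ∨ (i, j, l, m) = (0, 3, 4, 7) ∨
    (i, j, l, m) = (0, 3, 5, 6) ∨ (i, j, l, m) = (1, 2, 4, 7) ∨ (i, j, l, m) = (1, 2, 5, 6) ∨
    (i, j, l, m) = (1, 3, 4, 6) ∨ (i, j, l, m) = (2, 3, 4, 5) := by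
  decide

theorem case8 {α : V → V → V → V → ℂ} (hα : Alt4 ℂ α) {h f : Module.End ℂ V} (hh : Inv4 h α)
    (hf : Inv4 f α) {b : Fin 8 → V} (hw : ∀ i, h (b i) = (w8 i : ℂ) • b i)
    (f0 : f (b 0) = b 1) (f1 : f (b 1) = b 2) (f2 : f (b 2) = b 3) (f3 : f (b 3) = b 4)
    (f4 : f (b 4) = b 5) (f5 : f (b 5) = b 6) (f6 : f (b 6) = b 7) (f7 : f (b 7) = 0)
    (n1 : α (b 0) (b 1) (b 6) (b 7) = 0) (i j l m : Fin 8) :
    α (b i) (b j) (b l) (b m) = 0 := by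
  have F : ∀ i j l m : Fin 8, α (f (b i)) (b j) (b l) (b m) + α (b i) (f (b j)) (b l) (b m) +
      α (b i) (b j) (f (b l)) (b m) + α (b i) (b j) (b l) (f (b m)) = 0 := fun i j l m =>
    hf _ _ _ _
  have L := hα.toLin4
  have e1 := F 0 1 5 7
  have e2 := F 0 2 4 7
  have e3 := F 0 2 5 6
  have e4 := F 0 3 4 6
  have e5 := F 1 2 3 7
  have e6 := F 1 2 4 6
  have e7 := F 1 3 4 5
  simp only [f0, f1, f2, f3, f4, f5, f6, f7, hα.z1, hα.z2, hα.z3, L.z4, add_zero, zero_add]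
    at e1 e2 e3 e4 e5 e6 e7
  refine hα.sorted b (fun i j l m h1 h2 h3 => ?_) i j l m
  by_cases h4 : w8 i + w8 j + w8 l + w8 m = 0
  · rcases enum8 i j l m h1 h2 h3 h4 with h5 | h5 | h5 | h5 | h5 | h5 | h5 | h5 <;>
      simp only [Prod.mk.injEq] at h5 <;> obtain ⟨rfl, rfl, rfl, rfl⟩ := h5
    all_goals grind
  · exact wt_zero hα hh hw i j l m h4

end c8

section cc

/-- the weights -/
def w62 : Fin 8 → ℤ := ![5, 3, 1, -1, -3, -5, 1, -1]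

theorem enum62 : ∀ i j l m : Fin 8, i < j → j < l → l < m → w62 i + w62 j + w62 l + w62 m = 0 →
    (i, j, l, m) ∈ ([(0, 1, 4, 5),
    (0, 2, 3, 5),
    (0, 2, 5, 7),
    (0, 3, 4, 7),
    (0, 3, 5, 6),
    (0, 5, 6, 7),
    (1, 2, 3, 4),
    (1, 2, 4, 7),
    (1, 2, 5, 6),
    (1, 3, 4, 6),
    (1, 4, 6, 7),
    (2, 3, 6, 7)] : List (Fin 8 × Fin 8 × Fin 8 × Fin 8)) := by
  decide

theorem case62 {α : V → V → V → V → ℂ} (hα : Alt4 ℂ α) {h f : Module.End ℂ V} (hh : Inv4 h α)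
    (hf : Inv4 f α) {b : Fin 8 → V} (hw : ∀ i, h (b i) = (w62 i : ℂ) • b i)
    (f0 : f (b 0) = b 1)
    (f1 : f (b 1) = b 2)
    (f2 : f (b 2) = b 3)
    (f3 : f (b 3) = b 4)
    (f4 : f (b 4) = b 5)
    (f5 : f (b 5) = 0)
    (f6 : f (b 6) = b 7)
    (f7 : f (b 7) = 0)
    (n1 : α (b 0) (b 1) (b 4) (b 5) = 0)
    (n2 : α (b 0) (b 5) (b 6) (b 7) = 0) (i j l m : Fin 8) :
    α (b i) (b j) (b l) (b m) = 0 := by
  have F : ∀ i j l m : Fin 8, α (f (b i)) (b j) (b l) (b m) + α (b i) (f (b j)) (b l) (b m) +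
      α (b i) (b j) (f (b l)) (b m) + α (b i) (b j) (b l) (f (b m)) = 0 := fun i j l m =>
    hf _ _ _ _
  have L := hα.toLin4
  have e1 := F 0 1 3 5
  have e2 := F 0 1 5 7
  have e3 := F 0 2 3 4
  have e4 := F 0 2 4 7
  have e5 := F 0 2 5 6
  have e6 := F 0 3 4 6
  have e7 := F 0 4 6 7
  have e8 := F 1 2 3 7
  have e9 := F 1 2 4 6
  have e10 := F 1 3 6 7
  simp only [f0, f1, f2, f3, f4, f5, f6, f7, hα.z1, hα.z2, hα.z3, L.z1, L.z2, L.z3, L.z4,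
    add_zero, zero_add] at e1 e2 e3 e4 e5 e6 e7 e8 e9 e10
  refine hα.sorted b (fun i j l m h1 h2 h3 => ?_) i j l m
  by_cases h4 : w62 i + w62 j + w62 l + w62 m = 0
  · have h6 := enum62 i j l m h1 h2 h3 h4
    simp only [List.mem_cons, List.not_mem_nil, or_false, Prod.mk.injEq] at h6
    rcases h6 with h5 | h5 | h5 | h5 | h5 | h5 | h5 | h5 | h5 | h5 | h5 | h5 <;> obtain ⟨rfl, rfl, rfl, rfl⟩ := h5
    all_goals grind
  · exact wt_zero hα hh hw i j l m h4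

/-- the weights -/
def w422 : Fin 8 → ℤ := ![3, 1, -1, -3, 1, -1, 1, -1]

theorem enum422 : ∀ i j l m : Fin 8, i < j → j < l → l < m → w422 i + w422 j + w422 l + w422 m = 0 →
    (i, j, l, m) ∈ ([(0, 1, 2, 3),
    (0, 1, 3, 5),
    (0, 1, 3, 7),
    (0, 2, 3, 4),
    (0, 2, 3, 6),
    (0, 2, 5, 7),
    (0, 3, 4, 5),
    (0, 3, 4, 7),
    (0, 3, 5, 6),
    (0, 3, 6, 7),
    (1, 2, 4, 5),
    (1, 2, 4, 7),
    (1, 2, 5, 6),
    (1, 2, 6, 7),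
    (1, 3, 4, 6),
    (1, 4, 5, 7),
    (1, 5, 6, 7),
    (2, 4, 5, 6),
    (2, 4, 6, 7),
    (4, 5, 6, 7)] : List (Fin 8 × Fin 8 × Fin 8 × Fin 8)) := by
  decide

theorem case422 {α : V → V → V → V → ℂ} (hα : Alt4 ℂ α) {h f : Module.End ℂ V} (hh : Inv4 h α)
    (hf : Inv4 f α) {b : Fin 8 → V} (hw : ∀ i, h (b i) = (w422 i : ℂ) • b i)
    (f0 : f (b 0) = b 1)
    (f1 : f (b 1) = b 2)
    (f2 : f (b 2) = b 3)
    (f3 : f (b 3) = 0)
    (f4 : f (b 4) = b 5)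
    (f5 : f (b 5) = 0)
    (f6 : f (b 6) = b 7)
    (f7 : f (b 7) = 0)
    (n1 : α (b 0) (b 1) (b 2) (b 3) = 0)
    (n2 : α (b 0) (b 3) (b 4) (b 5) = 0)
    (n3 : α (b 0) (b 3) (b 4) (b 7) = 0)
    (n4 : α (b 0) (b 3) (b 6) (b 7) = 0)
    (n5 : α (b 4) (b 5) (b 6) (b 7) = 0) (i j l m : Fin 8) :
    α (b i) (b j) (b l) (b m) = 0 := by
  have F : ∀ i j l m : Fin 8, α (f (b i)) (b j) (b l) (b m) + α (b i) (f (b j)) (b l) (b m) +
      α (b i) (b j) (f (b l)) (b m) + α (b i) (b j) (b l) (f (b m)) = 0 := fun i j l m =>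
    hf _ _ _ _
  have L := hα.toLin4
  have e1 := F 0 1 2 5
  have e2 := F 0 1 2 7
  have e3 := F 0 1 3 4
  have e4 := F 0 1 3 6
  have e5 := F 0 1 5 7
  have e6 := F 0 2 4 5
  have e7 := F 0 2 4 7
  have e8 := F 0 2 5 6
  have e9 := F 0 2 6 7
  have e10 := F 0 3 4 6
  have e11 := F 0 4 5 7
  have e12 := F 0 5 6 7
  have e13 := F 1 2 4 6
  have e14 := F 1 4 5 6
  have e15 := F 1 4 6 7
  simp only [f0, f1, f2, f3, f4, f5, f6, f7, hα.z1, hα.z2, hα.z3, L.z1, L.z2, L.z3, L.z4,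
    add_zero, zero_add] at e1 e2 e3 e4 e5 e6 e7 e8 e9 e10 e11 e12 e13 e14 e15
  refine hα.sorted b (fun i j l m h1 h2 h3 => ?_) i j l m
  by_cases h4 : w422 i + w422 j + w422 l + w422 m = 0
  · have h6 := enum422 i j l m h1 h2 h3 h4
    simp only [List.mem_cons, List.not_mem_nil, or_false, Prod.mk.injEq] at h6
    rcases h6 with h5 | h5 | h5 | h5 | h5 | h5 | h5 | h5 | h5 | h5 | h5 | h5 | h5 | h5 | h5 | h5 | h5 | h5 | h5 | h5 <;> obtain ⟨rfl, rfl, rfl, rfl⟩ := h5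
    all_goals grind
  · exact wt_zero hα hh hw i j l m h4

/-- the weights -/
def w44 : Fin 8 → ℤ := ![3, 1, -1, -3, 3, 1, -1, -3]

theorem enum44 : ∀ i j l m : Fin 8, i < j → j < l → l < m → w44 i + w44 j + w44 l + w44 m = 0 →
    (i, j, l, m) ∈ ([(0, 1, 2, 3),
    (0, 1, 2, 7),
    (0, 1, 3, 6),
    (0, 1, 6, 7),
    (0, 2, 3, 5),
    (0, 2, 5, 7),
    (0, 3, 4, 7),
    (0, 3, 5, 6),
    (0, 5, 6, 7),
    (1, 2, 3, 4),
    (1, 2, 4, 7),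
    (1, 2, 5, 6),
    (1, 3, 4, 6),
    (1, 4, 6, 7),
    (2, 3, 4, 5),
    (2, 4, 5, 7),
    (3, 4, 5, 6),
    (4, 5, 6, 7)] : List (Fin 8 × Fin 8 × Fin 8 × Fin 8)) := by
  decide

theorem case44 {α : V → V → V → V → ℂ} (hα : Alt4 ℂ α) {h f : Module.End ℂ V} (hh : Inv4 h α)
    (hf : Inv4 f α) {b : Fin 8 → V} (hw : ∀ i, h (b i) = (w44 i : ℂ) • b i)
    (f0 : f (b 0) = b 1)
    (f1 : f (b 1) = b 2)
    (f2 : f (b 2) = b 3)
    (f3 : f (b 3) = 0)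
    (f4 : f (b 4) = b 5)
    (f5 : f (b 5) = b 6)
    (f6 : f (b 6) = b 7)
    (f7 : f (b 7) = 0)
    (n1 : α (b 0) (b 1) (b 2) (b 3) = 0)
    (n2 : α (b 4) (b 5) (b 6) (b 7) = 0)
    (n3 : α (b 0) (b 1) (b 2) (b 7) = 0)
    (n4 : α (b 0) (b 5) (b 6) (b 7) = 0)
    (n5 : α (b 0) (b 3) (b 4) (b 7) = 0)
    (n6 : α (b 0) (b 1) (b 6) (b 7) = 0) (i j l m : Fin 8) :
    α (b i) (b j) (b l) (b m) = 0 := by
  have F : ∀ i j l m : Fin 8, α (f (b i)) (b j) (b l) (b m) + α (b i) (f (b j)) (b l) (b m) +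
      α (b i) (b j) (f (b l)) (b m) + α (b i) (b j) (b l) (f (b m)) = 0 := fun i j l m =>
    hf _ _ _ _
  have L := hα.toLin4
  have e1 := F 0 1 2 6
  have e2 := F 0 1 3 5
  have e3 := F 0 1 5 7
  have e4 := F 0 2 3 4
  have e5 := F 0 2 4 7
  have e6 := F 0 2 5 6
  have e7 := F 0 3 4 6
  have e8 := F 0 4 6 7
  have e9 := F 1 2 4 6
  have e10 := F 1 3 4 5
  have e11 := F 1 4 5 7
  have e12 := F 2 4 5 6
  simp only [f0, f1, f2, f3, f4, f5, f6, f7, hα.z1, hα.z2, hα.z3, L.z1, L.z2, L.z3, L.z4,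
    add_zero, zero_add] at e1 e2 e3 e4 e5 e6 e7 e8 e9 e10 e11 e12
  refine hα.sorted b (fun i j l m h1 h2 h3 => ?_) i j l m
  by_cases h4 : w44 i + w44 j + w44 l + w44 m = 0
  · have h6 := enum44 i j l m h1 h2 h3 h4
    simp only [List.mem_cons, List.not_mem_nil, or_false, Prod.mk.injEq] at h6
    rcases h6 with h5 | h5 | h5 | h5 | h5 | h5 | h5 | h5 | h5 | h5 | h5 | h5 | h5 | h5 | h5 | h5 | h5 | h5 <;> obtain ⟨rfl, rfl, rfl, rfl⟩ := h5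
    all_goals grind
  · exact wt_zero hα hh hw i j l m h4


end cc

end Pool.Agent.L0h12.FF
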