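import Pool.Agent.L0h12.FF.Kill

set_option autoImplicit false
set_option linter.unusedSectionVars false
set_option linter.unusedVariables false

/-!
# Decompositions of the Lie algebra and the principal triple
-/

open Module

noncomputable section

namespace Pool.Agent.L0h12.FF

attribute [local instance 100] LieRing.ofAssociativeRing

variable {V : Type} [AddCommGroup V] [Module ℂ V] [FiniteDimensional ℂ V]
  {L : LieSubalgebra ℂ (Module.End ℂ V)} {ω : V →ₗ[ℂ] V →ₗ[ℂ] ℂ}

/-- The projections onto the summands of decompositions into ideals. -/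
structure Cen (L : LieSubalgebra ℂ (Module.End ℂ V)) (π : L →ₗ[ℂ] L) : Prop where
  idem : ∀ x, π (π x) = π x
  left : ∀ x y : L, π ⁅x, y⁆ = ⁅π x, y⁆

namespace Cen

variable {π π' : L →ₗ[ℂ] L}

theorem right (C : Cen L π) (x y : L) : π ⁅x, y⁆ = ⁅x, π y⁆ := by
  rw [← lie_skew, map_neg, C.left, lie_skew]

theorem compl (C : Cen L π) : Cen L (LinearMap.id - π) where
  idem x := by
    simp only [LinearMap.sub_apply, LinearMap.id_apply, map_sub, C.idem]
    abel
  left x y := by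
    simp only [LinearMap.sub_apply, LinearMap.id_apply, sub_lie, C.left]

theorem comm [LieAlgebra.IsKilling ℂ L] (C : Cen L π) (C' : Cen L π') (x : L) :
    π (π' x) = π' (π x) := by
  have h1 : ∀ z : L, ⁅π (π' x) - π' (π x), z⁆ = 0 := by
    intro z
    have e1 : ⁅π (π' x), z⁆ = ⁅π x, π' z⁆ := by rw [← C.left, ← C'.left, C'.right, C.left]
    have e2 : ⁅π' (π x), z⁆ = ⁅π x, π' z⁆ := by rw [← C'.left, C'.right]
    rw [sub_lie, e1, e2, sub_self]
  have h2 : π (π' x) - π' (π x) ∈ LieAlgebra.center ℂ L := by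
    rw [LieModule.mem_maxTrivSubmodule]
    intro z
    rw [← lie_skew, h1, neg_zero]
  rw [LieAlgebra.center_eq_bot, LieSubmodule.mem_bot] at h2
  exact sub_eq_zero.1 h2

theorem mul [LieAlgebra.IsKilling ℂ L] (C : Cen L π) (C' : Cen L π') : Cen L (π ∘ₗ π') where
  idem x := by
    rw [LinearMap.comp_apply, LinearMap.comp_apply, ← C.comm C' (π' x), C.idem, C'.idem]
  left x y := by
    rw [LinearMap.comp_apply, LinearMap.comp_apply, C'.left, C.left]

end Cen

/-- The elements which act trivially on a stable subspace. -/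
def kerI {W : Submodule ℂ V} (hW : Stable L.toSubmodule W) : LieIdeal ℂ L where
  carrier := {x | ∀ w ∈ W, x.1 w = 0}
  zero_mem' := fun w _ => rfl
  add_mem' := fun {a b} ha hb w hw => by
    change a.1 w + b.1 w = 0
    rw [ha w hw, hb w hw, add_zero]
  smul_mem' := fun c a ha w hw => by
    change c • a.1 w = 0
    rw [ha w hw, smul_zero]
  lie_mem := fun {x m} hm w hw => by
    change x.1 (m.1 w) - m.1 (x.1 w) = 0
    rw [hm w hw, hm _ (hW x.1 x.2 w hw), map_zero, sub_zero]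

theorem mem_kerI {W : Submodule ℂ V} (hW : Stable L.toSubmodule W) {x : L} :
    x ∈ kerI hW ↔ ∀ w ∈ W, x.1 w = 0 := Iff.rfl

theorem exists_cen [LieAlgebra.IsKilling ℂ L] (K : LieIdeal ℂ L) :
    ∃ π : L →ₗ[ℂ] L, Cen L π ∧ (∀ x, π x ∈ K) ∧ ∀ x ∈ K, π x = x := by
  have h0 := LieIdeal.isCompl_killingCompl K
  have h1 : IsCompl (K : Submodule ℂ L) (K.killingCompl : Submodule ℂ L) :=
    LieSubmodule.isCompl_toSubmodule.2 h0
  let π : L →ₗ[ℂ] L := Submodule.projection _ _ h1
  have hm : ∀ x, π x ∈ K := fun x => Submodule.projection_apply_mem h1 x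
  have hid : ∀ x ∈ K, π x = x := fun x hx => Submodule.projection_apply_of_mem_left h1 hx
  have hsub : ∀ x, x - π x ∈ K.killingCompl := fun x => Submodule.sub_projection_mem h1 x
  have hz : ∀ x ∈ K.killingCompl, π x = 0 := by
    intro x hx
    have h2 : π x ∈ K.killingCompl := by
      have h3 := K.killingCompl.sub_mem hx (hsub x)
      rwa [sub_sub_cancel] at h3
    have h3 : π x ∈ K ⊓ K.killingCompl := ⟨hm x, h2⟩
    rwa [h0.inf_eq_bot, LieSubmodule.mem_bot] at h3
  have hbr : ∀ x ∈ K, ∀ y ∈ K.killingCompl, ⁅y, x⁆ = 0 := by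
    intro x hx y hy
    have h3 : ⁅y, x⁆ ∈ K ⊓ K.killingCompl := by
      refine ⟨K.lie_mem hx, ?_⟩
      rw [← lie_skew]
      exact K.killingCompl.neg_mem (K.killingCompl.lie_mem hy)
    rwa [h0.inf_eq_bot, LieSubmodule.mem_bot] at h3
  refine ⟨π, ⟨fun x => hid _ (hm x), fun x y => ?_⟩, hm, hid⟩
  have e1 : ⁅x, y⁆ = ⁅π x, y⁆ + ⁅x - π x, y⁆ := by rw [← add_lie, add_sub_cancel]
  have e2 : π ⁅π x, y⁆ = ⁅π x, y⁆ := by
    refine hid _ ?_
    rw [← lie_skew]
    exact K.neg_mem (K.lie_mem (hm x))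
  have e3 : π ⁅x - π x, y⁆ = 0 := by
    refine hz _ ?_
    rw [← lie_skew]
    exact K.killingCompl.neg_mem (K.killingCompl.lie_mem (hsub x))
  rw [e1, map_add, e2, e3, add_zero]

/-- A stable subspace which consists of one string. -/
structure SB (P : Prin L) (ω : V →ₗ[ℂ] V →ₗ[ℂ] ℂ) (W : Submodule ℂ V) (v : V) (d : ℕ) : Prop where
  str : Str ω P.oe P.oh P.of W v d
  full : ∀ u ∈ W, u = Str.prj ω P.of v d u
  st : Stable L.toSubmodule W
  alt : ∀ x, ω x x = 0
  sk : ∀ X ∈ L, Skew ω X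

namespace SB

variable {P : Prin L} {W : Submodule ℂ V} {v : V} {d : ℕ} (B : SB P ω W v d)
include B

theorem sl : Sl ω P.oe P.oh P.of := P.sl B.alt B.sk

theorem mf : ∀ u ∈ W, P.of u ∈ W := fun u hu => B.st _ P.f.2 u hu

theorem me : ∀ u ∈ W, P.oe u ∈ W := fun u hu => B.st _ P.e.2 u hu

theorem mh : ∀ u ∈ W, P.oh u ∈ W := fun u hu => B.st _ P.h.2 u hu

theorem pm (k : ℕ) : (P.of ^ k) v ∈ W := pow_mem B.mf B.str.mem k

theorem v0 : v ≠ 0 := by
  rintro rfl
  have := B.str.one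
  rw [map_zero, LinearMap.zero_apply] at this
  exact zero_ne_one this

theorem pv0 {k : ℕ} (hk : k ≤ d) : (P.of ^ k) v ≠ 0 := by
  intro h
  have h1 := B.str.form B.sl (d - k) k
  rw [h, map_zero, if_pos (by omega)] at h1
  exact pow_ne_zero _ (by norm_num : (-1 : ℂ) ≠ 0) h1.symm

theorem wt_zero {w : V} (hw : w ∈ W) {c : ℂ} (hc : P.oh w = c • w)
    (h : ∀ i ≤ d, c ≠ (d : ℂ) - 2 * i) : w = 0 := by
  rw [B.full w hw, Str.prj_apply]
  refine Finset.sum_eq_zero fun i hi => ?_
  rw [Finset.mem_range] at hi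
  rw [B.sl.w_orth (B.sl.h_pow B.str.hv (d - i)) hc, mul_zero, zero_smul]
  intro h1
  refine h i (by omega) ?_
  have h2 : ((d - i : ℕ) : ℂ) = d - i := by rw [Nat.cast_sub (by omega)]
  rw [h2] at h1
  linear_combination h1

theorem wt_one {w : V} (hw : w ∈ W) {i : ℕ} (hi : i ≤ d) (hc : P.oh w = ((d : ℂ) - 2 * i) • w) :
    ∃ t : ℂ, w = t • (P.of ^ i) v := by
  refine ⟨(-1) ^ (d - i) * ω ((P.of ^ (d - i)) v) w, ?_⟩
  have h1 := B.full w hw
  rw [Str.prj_apply, Finset.sum_eq_single i] at h1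
  · exact h1
  · intro j hj hji
    rw [Finset.mem_range] at hj
    rw [B.sl.w_orth (B.sl.h_pow B.str.hv (d - j)) hc, mul_zero, zero_smul]
    intro h2
    apply hji
    have h3 : ((d - j : ℕ) : ℂ) = d - j := by rw [Nat.cast_sub (by omega)]
    rw [h3] at h2
    have h4 : (j : ℂ) = i := by linear_combination (1 / 2 : ℂ) * h2
    exact_mod_cast h4
  · intro h2
    exact absurd (Finset.mem_range.2 (by omega)) h2

/-- Operators which agree on the string agree. -/
theorem ext {V' : Type} [AddCommGroup V'] [Module ℂ V'] {X Y : V →ₗ[ℂ] V'}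
    (h : ∀ k ≤ d, X ((P.of ^ k) v) = Y ((P.of ^ k) v)) : ∀ w ∈ W, X w = Y w := by
  intro w hw
  rw [B.full w hw, Str.prj_apply, map_sum, map_sum]
  refine Finset.sum_congr rfl fun i hi => ?_
  rw [Finset.mem_range] at hi
  rw [map_smul, map_smul, h i (by omega)]

end SB

/-- The projection of the principal triple acts as a multiple of the triple. -/
structure Val (P : Prin L) (π : L →ₗ[ℂ] L) (W : Submodule ℂ V) (b : ℂ) : Prop where
  vf : ∀ w ∈ W, (π P.f).1 w = b • P.of w
  vh : ∀ w ∈ W, (π P.h).1 w = b • P.oh w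
  ve : ∀ w ∈ W, (π P.e).1 w = b • P.oe w

theorem lie_one {x y : L} (w : V) : (⁅x, y⁆ : L).1 w = x.1 (y.1 w) - y.1 (x.1 w) := rfl

namespace SB

variable {P : Prin L} {W : Submodule ℂ V} {v : V} {d : ℕ} (B : SB P ω W v d)
include B

theorem hv0 : P.oh v ≠ 0 := by
  rw [B.str.hv]
  refine smul_ne_zero ?_ B.v0
  have h1 := B.str.odd
  have h2 : d ≠ 0 := by
    rintro rfl
    exact absurd h1 (by decide)
  exact_mod_cast h2

theorem val_uniq {π : L →ₗ[ℂ] L} {b c : ℂ} (h : Val P π W b) (h' : Val P π W c) : b = c := by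
  have h1 := h.vh v B.str.mem
  rw [h'.vh v B.str.mem] at h1
  have h2 : (c - b) • P.oh v = 0 := by rw [sub_smul, h1, sub_self]
  exact (sub_eq_zero.1 ((smul_eq_zero.1 h2).resolve_right B.hv0)).symm

theorem exists_val {π : L →ₗ[ℂ] L} (C : Cen L π) : ∃ b : ℂ, (b = 0 ∨ b = 1) ∧ Val P π W b := by
  have hodd := B.str.odd
  have hd1 : 1 ≤ d := by
    obtain ⟨k, hk⟩ := hodd
    omega
  -- the lowering operator
  have hX : ⁅P.h, π P.f⁆ = (-2 : ℂ) • π P.f := by rw [← C.right, P.hf, map_smul]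
  have h1 : P.oh ((π P.f).1 v) = ((d : ℂ) - 2 * (1 : ℕ)) • (π P.f).1 v := by
    rw [P.shift hX B.str.hv]
    congr 1
    push_cast
    ring
  obtain ⟨b, hb⟩ := B.wt_one (B.st _ (π P.f).2 v B.str.mem) hd1 h1
  rw [pow_one] at hb
  have hcf : ∀ w, (π P.f).1 (P.of w) = P.of ((π P.f).1 w) := by
    intro w
    have h2 : ⁅π P.f, P.f⁆ = 0 := by rw [← C.left, lie_self, map_zero]
    have h3 : (⁅π P.f, P.f⁆ : L).1 w = 0 := by rw [h2]; rfl
    rw [lie_one] at h3
    exact sub_eq_zero.1 h3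
  have hf : ∀ w ∈ W, (π P.f).1 w = (b • P.of) w := by
    refine B.ext fun k _ => ?_
    have h2 : ∀ k : ℕ, (π P.f).1 ((P.of ^ k) v) = b • (P.of ^ (k + 1)) v := by
      intro k
      induction k with
      | zero => simpa using hb
      | succ k ih =>
        rw [pow_succ', Module.End.mul_apply, hcf, ih, map_smul, pow_succ' P.of (k + 1),
          Module.End.mul_apply]
    rw [h2, pow_succ', Module.End.mul_apply]
    rfl
  have hh : ∀ w ∈ W, (π P.h).1 w = b • P.oh w := by
    intro w hw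
    have h2 : π P.h = ⁅P.e, π P.f⁆ := by rw [← C.right, P.ef]
    rw [h2, lie_one]
    change P.oe ((π P.f).1 w) - (π P.f).1 (P.oe w) = b • P.oh w
    rw [hf w hw, hf _ (B.me w hw)]
    change P.oe (b • P.of w) - b • P.of (P.oe w) = b • P.oh w
    rw [map_smul, ← smul_sub]
    congr 1
    exact congrArg (fun z : Module.End ℂ V => z w) P.rel_ef
  have he : ∀ w ∈ W, (π P.e).1 w = b • P.oe w := by
    intro w hw
    have h2 : (2 : ℂ) • π P.e = ⁅π P.h, P.e⁆ := by rw [← C.left, P.he, map_smul]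
    have h3 : (2 : ℂ) • (π P.e).1 w = (⁅π P.h, P.e⁆ : L).1 w := by rw [← h2]; rfl
    rw [lie_one] at h3
    change _ = (π P.h).1 (P.oe w) - P.oe ((π P.h).1 w) at h3
    rw [hh w hw, hh _ (B.me w hw)] at h3
    rw [map_smul, ← smul_sub] at h3
    have h4 : P.oh (P.oe w) - P.oe (P.oh w) = (2 : ℂ) • P.oe w :=
      congrArg (fun z : Module.End ℂ V => z w) P.rel_e
    rw [h4, smul_comm] at h3
    exact smul_right_injective _ two_ne_zero h3
  have hb2 : b * b = b := by
    have h2 : π P.h = ⁅π P.e, π P.f⁆ := by rw [← C.left, C.right, C.idem, ← C.right, P.ef]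
    have h3 := hh v B.str.mem
    rw [h2, lie_one, hf v B.str.mem, he v B.str.mem] at h3
    change (π P.e).1 (b • P.of v) - (π P.f).1 (b • P.oe v) = b • P.oh v at h3
    rw [B.str.ev, smul_zero, map_zero, sub_zero, map_smul, he _ (B.mf v B.str.mem), smul_smul] at h3
    have h4 : P.oe (P.of v) = P.oh v := by
      rw [B.sl.e_f, B.str.ev, map_zero, zero_add]
    rw [h4] at h3
    have h5 : (b * b - b) • P.oh v = 0 := by rw [sub_smul, h3, sub_self]
    exact sub_eq_zero.1 ((smul_eq_zero.1 h5).resolve_right B.hv0)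
  refine ⟨b, ?_, ⟨fun w hw => hf w hw, hh, he⟩⟩
  have h6 : b * (b - 1) = 0 := by rw [mul_sub, hb2, mul_one, sub_self]
  rcases mul_eq_zero.1 h6 with h7 | h7
  · exact Or.inl h7
  · exact Or.inr (sub_eq_zero.1 h7)

theorem val_mul [LieAlgebra.IsKilling ℂ L] {π π' : L →ₗ[ℂ] L} (C : Cen L π) (C' : Cen L π')
    {b b' : ℂ} (h : Val P π W b) (h' : Val P π' W b') : Val P (π ∘ₗ π') W (b * b') := by
  obtain ⟨c, _, hc⟩ := B.exists_val (C.mul C')
  have h1 : c = b * b' := by
    have h2 : (π ∘ₗ π') P.h = ⁅π P.e, π' P.f⁆ := by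
      rw [LinearMap.comp_apply, ← C.left, ← C'.right, P.ef]
    have h3 := hc.vh v B.str.mem
    rw [h2, lie_one, h'.vf v B.str.mem, h.ve v B.str.mem, B.str.ev, smul_zero, map_zero, sub_zero,
      map_smul, h.ve _ (B.mf v B.str.mem), B.sl.e_f, B.str.ev, map_zero, zero_add, smul_smul] at h3
    have h5 : (b' * b - c) • P.oh v = 0 := by rw [sub_smul, h3, sub_self]
    rw [← sub_eq_zero.1 ((smul_eq_zero.1 h5).resolve_right B.hv0), mul_comm]
  rw [← h1]
  exact hc

omit B in
theorem _root_.Pool.Agent.L0h12.FF.Val.compl {π : L →ₗ[ℂ] L} {b : ℂ} (h : Val P π W b) :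
    Val P (LinearMap.id - π) W (1 - b) where
  vf w hw := by
    change P.f.1 w - (π P.f).1 w = _
    rw [h.vf w hw, sub_smul, one_smul]
    rfl
  vh w hw := by
    change P.h.1 w - (π P.h).1 w = _
    rw [h.vh w hw, sub_smul, one_smul]
    rfl
  ve w hw := by
    change P.e.1 w - (π P.e).1 w = _
    rw [h.ve w hw, sub_smul, one_smul]
    rfl

end SB

/-- If the projection of the principal triple acts as zero on an irreducible subspace, so does the
whole ideal. -/
theorem val_zero {P : Prin L} {W : Submodule ℂ V} (hW : Irr L.toSubmodule W) (hN : Nd ω W)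
    (hsk : ∀ X ∈ L, Skew ω X) {π : L →ₗ[ℂ] L} (C : Cen L π) (h : Val P π W 0) (x : L) :
    ∀ w ∈ W, (π x).1 w = 0 := by
  -- eigenvectors
  have h1 : ∀ (y : L) (c : ℂ), c ≠ 0 → ⁅P.h, y⁆ = c • y → ∀ w ∈ W, (π y).1 w = 0 := by
    intro y c hc hy w hw
    have h2 : c • π y = ⁅π P.h, y⁆ := by rw [← C.left, hy, map_smul]
    have h3 : c • (π y).1 w = (⁅π P.h, y⁆ : L).1 w := by rw [← h2]; rfl
    rw [lie_one, h.vh w hw, h.vh _ (hW.st _ y.2 w hw), zero_smul, zero_smul, map_zero,
      sub_zero] at h3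
    exact (smul_eq_zero.1 h3).resolve_left hc
  have hN1 : ∀ y ∈ Submodule.span ℂ {y : L | ∃ m : ℕ, 1 ≤ m ∧ ⁅P.h, y⁆ = (-(2 * m) : ℂ) • y},
      ∀ w ∈ W, (π y).1 w = 0 := by
    intro y hy w hw
    induction hy using Submodule.span_induction with
    | mem y hy =>
      obtain ⟨m, hm, hy⟩ := hy
      refine h1 y _ ?_ hy w hw
      rw [neg_ne_zero]
      exact mul_ne_zero two_ne_zero (by exact_mod_cast (show m ≠ 0 by omega))
    | zero => rw [map_zero]; rfl
    | add a b _ _ ha hb =>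
      rw [map_add]
      change (π a).1 w + (π b).1 w = 0
      rw [ha, hb, add_zero]
    | smul c a _ ha =>
      rw [map_smul]
      change c • (π a).1 w = 0
      rw [ha, smul_zero]
  have hN2 : ∀ y ∈ Submodule.span ℂ {y : L | ∃ m : ℕ, 1 ≤ m ∧ ⁅P.h, y⁆ = (2 * m : ℂ) • y},
      ∀ w ∈ W, (π y).1 w = 0 := by
    intro y hy w hw
    induction hy using Submodule.span_induction with
    | mem y hy =>
      obtain ⟨m, hm, hy⟩ := hy
      refine h1 y _ ?_ hy w hw
      exact mul_ne_zero two_ne_zero (by exact_mod_cast (show m ≠ 0 by omega))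
    | zero => rw [map_zero]; rfl
    | add a b _ _ ha hb =>
      rw [map_add]
      change (π a).1 w + (π b).1 w = 0
      rw [ha, hb, add_zero]
    | smul c a _ ha =>
      rw [map_smul]
      change c • (π a).1 w = 0
      rw [ha, smul_zero]
  -- brackets with elements of the Cartan subalgebra
  have h2 : ∀ t ∈ P.H, ∀ z : L, ∀ w ∈ W, (π ⁅t, z⁆).1 w = 0 := by
    intro t ht z w hw
    have hth : ⁅t, P.h⁆ = 0 := P.ab t ht _ P.hH
    have hbr : ∀ (y : L) (c : ℂ), ⁅P.h, y⁆ = c • y → ⁅P.h, ⁅t, y⁆⁆ = c • ⁅t, y⁆ := by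
      intro y c hy
      rw [leibniz_lie, ← lie_skew P.h t, hth, neg_zero, zero_lie, zero_add, hy, lie_smul]
    obtain ⟨a, ha, b, hb, rfl⟩ := Submodule.mem_sup.1 (P.dec (Submodule.mem_top (x := z)))
    obtain ⟨s, hs, c, hc, rfl⟩ := Submodule.mem_sup.1 hb
    have e1 : (π ⁅t, a⁆).1 w = 0 := by
      refine hN1 _ ?_ w hw
      clear hb
      induction ha using Submodule.span_induction with
      | mem y hy =>
        obtain ⟨m, hm, hy⟩ := hy
        exact Submodule.subset_span ⟨m, hm, hbr y _ hy⟩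
      | zero => rw [lie_zero]; exact Submodule.zero_mem _
      | add a b _ _ ha hb => rw [lie_add]; exact Submodule.add_mem _ ha hb
      | smul c a _ ha => rw [lie_smul]; exact Submodule.smul_mem _ _ ha
    have e2 : (π ⁅t, s⁆).1 w = 0 := by
      rw [P.ab t ht s hs, map_zero]
      rfl
    have e3 : (π ⁅t, c⁆).1 w = 0 := by
      refine hN2 _ ?_ w hw
      clear hb
      induction hc using Submodule.span_induction with
      | mem y hy =>
        obtain ⟨m, hm, hy⟩ := hy
        exact Submodule.subset_span ⟨m, hm, hbr y _ hy⟩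
      | zero => rw [lie_zero]; exact Submodule.zero_mem _
      | add a b _ _ ha hb => rw [lie_add]; exact Submodule.add_mem _ ha hb
      | smul c a _ ha => rw [lie_smul]; exact Submodule.smul_mem _ _ ha
    rw [lie_add, lie_add, map_add, map_add]
    change (π ⁅t, a⁆).1 w + ((π ⁅t, s⁆).1 w + (π ⁅t, c⁆).1 w) = 0
    rw [e1, e2, e3, add_zero, add_zero]
  have h3 : ∀ t ∈ P.H, ∀ w ∈ W, (π t).1 w = 0 := by
    intro t ht
    have hcomm : ∀ z : L, ∀ w ∈ W, (π t).1 (z.1 w) = z.1 ((π t).1 w) := by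
      intro z w hw
      have h4 := h2 t ht z w hw
      rw [C.left, lie_one] at h4
      exact sub_eq_zero.1 h4
    -- an eigenvalue
    have hnt : Nontrivial W := Submodule.nontrivial_iff_ne_bot.2 hW.ne
    obtain ⟨c, hc⟩ := Module.End.exists_eigenvalue ((π t).1.restrict
      (fun w hw => hW.st _ (π t).2 w hw))
    obtain ⟨⟨w0, hw0⟩, hw⟩ := hc.exists_hasEigenvector
    have hw1 : (π t).1 w0 = c • w0 := congrArg (fun z : W => (z : V)) hw.apply_eq_smul
    have hw2 : w0 ≠ 0 := fun h4 => hw.2 (Subtype.ext h4)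
    have hU : W ⊓ Module.End.eigenspace (π t).1 c = W := by
      refine (hW.irr _ inf_le_left fun X hX u hu => ?_).resolve_left fun h4 => ?_
      · refine ⟨hW.st X hX u hu.1, Module.End.mem_eigenspace_iff.2 ?_⟩
        rw [hcomm ⟨X, hX⟩ u hu.1, Module.End.mem_eigenspace_iff.1 hu.2, map_smul]
      · apply hw2
        have h5 : w0 ∈ W ⊓ Module.End.eigenspace (π t).1 c :=
          ⟨hw0, Module.End.mem_eigenspace_iff.2 hw1⟩
        rwa [h4, Submodule.mem_bot] at h5
    have hsc : ∀ w ∈ W, (π t).1 w = c • w := by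
      intro w hw
      rw [← hU] at hw
      exact Module.End.mem_eigenspace_iff.1 hw.2
    have hc0 : c = 0 := by
      by_contra hne
      apply hw2
      refine hN w0 hw0 fun w hw => ?_
      have h4 := hsk _ (π t).2 w0 w
      rw [hsc w0 hw0, hsc w hw, map_smul, map_smul, LinearMap.smul_apply, smul_eq_mul] at h4
      have h5 : (2 * c) * ω w0 w = 0 := by linear_combination h4
      exact (mul_eq_zero.1 h5).resolve_left (mul_ne_zero two_ne_zero hne)
    intro w hw
    rw [hsc w hw, hc0, zero_smul]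
  intro w hw
  obtain ⟨a, ha, b, hb, rfl⟩ := Submodule.mem_sup.1 (P.dec (Submodule.mem_top (x := x)))
  obtain ⟨s, hs, c, hc, rfl⟩ := Submodule.mem_sup.1 hb
  rw [map_add, map_add]
  change (π a).1 w + ((π s).1 w + (π c).1 w) = 0
  rw [hN1 a ha w hw, h3 s hs w hw, hN2 c hc w hw, add_zero, add_zero]

end Pool.Agent.L0h12.FF
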