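import Mathlib

set_option autoImplicit false
set_option linter.unusedSectionVars false
set_option linter.unusedVariables false

/-!
# Alternating invariants of several strings of lengths two and four: combinatorics
-/

open Finset Function

noncomputable section

namespace Pool.Agent.L0h12.FF

variable {κ J : Type} [Fintype κ] [DecidableEq κ]

open Classical in
/-- The coefficients of an alternating form on the strings `r ↦ (j, r)`, `r ≤ d j`, where `d j` is
one or three. For every `j` there is a triple of operators acting on the strings `i` with `S j i`. -/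
structure Cb (d : J → ℕ) (S : J → J → Prop) (F : (κ → J × ℕ) → ℂ) : Prop where
  hd : ∀ j, d j = 1 ∨ d j = 3
  self : ∀ j, S j j
  uniq : ∀ j i k, S j i → S j k → d i = d k → i = k
  big : ∀ I a, d (I a).1 < (I a).2 → F I = 0
  alt : ∀ I a b, a ≠ b → I a = I b → F I = 0
  swp : ∀ (I : κ → J × ℕ) a b, a ≠ b → F (fun x => I (Equiv.swap a b x)) = - F I
  wt : ∀ j I, (∑ a, if S j (I a).1 then ((d (I a).1 : ℂ) - 2 * (I a).2) else 0) * F I = 0
  low : ∀ j I, ∑ a, (if S j (I a).1 then F (update I a ((I a).1, (I a).2 + 1)) else 0) = 0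

namespace Cb

variable {d : J → ℕ} {S : J → J → Prop} {F : (κ → J × ℕ) → ℂ} (C : Cb d S F)

open Classical in
/-- The positions of a string. -/
def Tj (I : κ → J × ℕ) (j : J) : Finset κ := univ.filter fun a => (I a).1 = j

theorem mem_Tj {I : κ → J × ℕ} {j : J} {a : κ} : a ∈ Tj I j ↔ (I a).1 = j := by
  classical
  unfold Tj
  rw [mem_filter]
  exact ⟨fun h => h.2, fun h => ⟨mem_univ _, h⟩⟩

include C

theorem card_le {I : κ → J × ℕ} (h : F I ≠ 0) (j : J) : (Tj I j).card ≤ d j + 1 := by
  have h1 : (Tj I j).card ≤ (Finset.range (d j + 1)).card := by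
    refine Finset.card_le_card_of_injOn (fun a => (I a).2) ?_ ?_
    · intro a ha
      have h2 := mem_Tj.1 (Finset.mem_coe.1 ha)
      rw [Finset.mem_coe, Finset.mem_range]
      by_contra h3
      refine h (C.big I a ?_)
      rw [h2]
      have h4 : ¬ (I a).2 < d j + 1 := h3
      omega
    · intro a ha b hb hab
      have h2 := mem_Tj.1 (Finset.mem_coe.1 ha)
      have h3 := mem_Tj.1 (Finset.mem_coe.1 hb)
      by_contra h4
      exact h (C.alt I a b h4 (Prod.ext (h2.trans h3.symm) hab))
  rwa [Finset.card_range] at h1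

open Classical in
theorem par {I : κ → J × ℕ} (j : J) (h : Odd (univ.filter fun a => S j (I a).1).card) : F I = 0 := by
  by_contra hF
  have h1 := (mul_eq_zero.1 (C.wt j I)).resolve_right hF
  rw [← Finset.sum_filter] at h1
  set A := univ.filter fun a => S j (I a).1 with hA
  have h2 : Odd (∑ a ∈ A, d (I a).1) := by
    rw [Finset.odd_sum_iff_odd_card_odd]
    have h3 : A.filter (fun a => Odd (d (I a).1)) = A := by
      refine Finset.filter_true_of_mem fun a _ => ?_
      rcases C.hd (I a).1 with h | h <;> rw [h] <;> decide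
    rw [h3]
    exact h
  have h3 : ((∑ a ∈ A, d (I a).1 : ℕ) : ℂ) = ((2 * ∑ a ∈ A, (I a).2 : ℕ) : ℂ) := by
    push_cast
    rw [Finset.mul_sum, ← sub_eq_zero, ← Finset.sum_sub_distrib, ← h1]
  have h4 : ∑ a ∈ A, d (I a).1 = 2 * ∑ a ∈ A, (I a).2 := by exact_mod_cast h3
  rw [h4] at h2
  exact (Nat.not_odd_iff_even.2 (even_two_mul _)) h2

open Classical in
/-- Both strings occur an odd number of times. -/
theorem odd_odd {I : κ → J × ℕ} {j p q : J} (hp : d p = 3) (hq : d q = 1)
    (hS : ∀ i, S j i ↔ i = p ∨ i = q) (h1 : Odd (Tj I p).card) (h2 : Odd (Tj I q).card) :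
    F I = 0 := by
  by_contra hF
  have hpq : p ≠ q := by
    rintro rfl
    omega
  have e1 := C.card_le hF p
  have e2 := C.card_le hF q
  have e3 : (Tj I q).card = 1 := by
    obtain ⟨k, hk⟩ := h2
    omega
  obtain ⟨b, hb⟩ := Finset.card_eq_one.1 e3
  have hbq : (I b).1 = q := mem_Tj.1 (by rw [hb]; exact Finset.mem_singleton_self b)
  have e4 : (Tj I p).card = 1 ∨ (Tj I p).card = 3 := by
    obtain ⟨k, hk⟩ := h1
    omega
  rcases e4 with e4 | e4
  · obtain ⟨a, ha⟩ := Finset.card_eq_one.1 e4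
    have hap : (I a).1 = p := mem_Tj.1 (by rw [ha]; exact Finset.mem_singleton_self a)
    have hab : a ≠ b := by
      rintro rfl
      exact hpq (hap.symm.trans hbq)
    have hother : ∀ x, x ≠ a → x ≠ b → ¬ S j (I x).1 := by
      intro x hxa hxb hx
      rcases (hS _).1 hx with h | h
      · have : x ∈ Tj I p := mem_Tj.2 h
        rw [ha, Finset.mem_singleton] at this
        exact hxa this
      · have : x ∈ Tj I q := mem_Tj.2 h
        rw [hb, Finset.mem_singleton] at this
        exact hxb this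
    let K : ℕ → ℕ → κ → J × ℕ := fun r s x => if x = a then (p, r) else if x = b then (q, s) else I x
    have Ka : ∀ r s, K r s a = (p, r) := fun r s => if_pos rfl
    have Kb : ∀ r s, K r s b = (q, s) := fun r s => by
      change (if b = a then _ else _) = _
      rw [if_neg (Ne.symm hab), if_pos rfl]
    have Kx : ∀ r s x, x ≠ a → x ≠ b → K r s x = I x := fun r s x hxa hxb => by
      change (if x = a then _ else _) = _
      rw [if_neg hxa, if_neg hxb]
    have hsum : ∀ (M : Type) [AddCommMonoid M] (f : κ → M), (∀ x, x ≠ a → x ≠ b → f x = 0) →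
        ∑ x, f x = f a + f b := by
      intro M _ f hf
      rw [← Finset.sum_pair hab]
      symm
      refine Finset.sum_subset (Finset.subset_univ _) fun x _ hx => ?_
      rw [Finset.mem_insert, Finset.mem_singleton, not_or] at hx
      exact hf x hx.1 hx.2
    have hSp : S j p := (hS p).2 (Or.inl rfl)
    have hSq : S j q := (hS q).2 (Or.inr rfl)
    let G : ℕ → ℕ → ℂ := fun r s => F (K r s)
    have gb1 : ∀ r s, 3 < r → G r s = 0 := fun r s h => C.big _ a (by rw [Ka, hp]; exact h)
    have gb2 : ∀ r s, 1 < s → G r s = 0 := fun r s h => C.big _ b (by rw [Kb, hq]; exact h)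
    have gw : ∀ r s : ℕ, (4 - 2 * ((r : ℂ) + s)) * G r s = 0 := by
      intro r s
      have h3 := C.wt j (K r s)
      rw [hsum ℂ _ (fun x hxa hxb => by rw [Kx r s x hxa hxb, if_neg (hother x hxa hxb)]), Ka, Kb,
        if_pos hSp, if_pos hSq, hp, hq] at h3
      rw [← h3]
      push_cast
      ring
    have gl : ∀ r s, G (r + 1) s + G r (s + 1) = 0 := by
      intro r s
      have h3 := C.low j (K r s)
      rw [hsum ℂ _ (fun x hxa hxb => by rw [Kx r s x hxa hxb, if_neg (hother x hxa hxb)]), Ka, Kb,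
        if_pos hSp, if_pos hSq] at h3
      have u1 : update (K r s) a (p, r + 1) = K (r + 1) s := by
        funext x
        by_cases hxa : x = a
        · rw [hxa, update_self, Ka]
        · rw [update_of_ne hxa]
          by_cases hxb : x = b
          · rw [hxb, Kb, Kb]
          · rw [Kx _ _ x hxa hxb, Kx _ _ x hxa hxb]
      have u2 : update (K r s) b (q, s + 1) = K r (s + 1) := by
        funext x
        by_cases hxb : x = b
        · rw [hxb, update_self, Kb]
        · rw [update_of_ne hxb]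
          by_cases hxa : x = a
          · rw [hxa, Ka, Ka]
          · rw [Kx _ _ x hxa hxb, Kx _ _ x hxa hxb]
      rw [u1, u2] at h3
      exact h3
    have g11 : G 1 1 = 0 := by
      have := gl 0 1
      rwa [gb2 0 2 (by omega), add_zero] at this
    have g20 : G 2 0 = 0 := by
      have := gl 1 0
      rwa [g11, add_zero] at this
    have hall : ∀ r s, G r s = 0 := by
      intro r s
      by_cases hr : 3 < r
      · exact gb1 r s hr
      by_cases hs : 1 < s
      · exact gb2 r s hs
      by_cases hrs : r + s = 2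
      · have : (r = 1 ∧ s = 1) ∨ (r = 2 ∧ s = 0) := by omega
        rcases this with ⟨rfl, rfl⟩ | ⟨rfl, rfl⟩
        · exact g11
        · exact g20
      · refine (mul_eq_zero.1 (gw r s)).resolve_left fun h3 => hrs ?_
        have h4 : ((r + s : ℕ) : ℂ) = ((2 : ℕ) : ℂ) := by
          push_cast
          linear_combination (-1 / 2 : ℂ) * h3
        exact_mod_cast h4
    apply hF
    have hI : I = K (I a).2 (I b).2 := by
      funext x
      by_cases hxa : x = a
      · rw [hxa, Ka, ← hap]
      · by_cases hxb : x = b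
        · rw [hxb, Kb, ← hbq]
        · rw [Kx _ _ x hxa hxb]
    rw [hI]
    exact hall _ _
  · obtain ⟨a1, a2, a3, h12, h13, h23, ha⟩ := Finset.card_eq_three.1 e4
    have hap1 : (I a1).1 = p := mem_Tj.1 (by rw [ha]; simp)
    have hap2 : (I a2).1 = p := mem_Tj.1 (by rw [ha]; simp)
    have hap3 : (I a3).1 = p := mem_Tj.1 (by rw [ha]; simp)
    have hb1 : a1 ≠ b := by rintro rfl; exact hpq (hap1.symm.trans hbq)
    have hb2 : a2 ≠ b := by rintro rfl; exact hpq (hap2.symm.trans hbq)
    have hb3 : a3 ≠ b := by rintro rfl; exact hpq (hap3.symm.trans hbq)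
    have hother : ∀ x, x ≠ a1 → x ≠ a2 → x ≠ a3 → x ≠ b → ¬ S j (I x).1 := by
      intro x hx1 hx2 hx3 hxb hx
      rcases (hS _).1 hx with h | h
      · have : x ∈ Tj I p := mem_Tj.2 h
        rw [ha] at this
        simp only [Finset.mem_insert, Finset.mem_singleton] at this
        tauto
      · have : x ∈ Tj I q := mem_Tj.2 h
        rw [hb, Finset.mem_singleton] at this
        exact hxb this
    let K : ℕ → ℕ → ℕ → ℕ → κ → J × ℕ := fun r1 r2 r3 s x => if x = a1 then (p, r1) else
      if x = a2 then (p, r2) else if x = a3 then (p, r3) else if x = b then (q, s) else I x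
    have K1 : ∀ r1 r2 r3 s, K r1 r2 r3 s a1 = (p, r1) := fun _ _ _ _ => if_pos rfl
    have K2 : ∀ r1 r2 r3 s, K r1 r2 r3 s a2 = (p, r2) := fun _ _ _ _ => by
      change (if a2 = a1 then _ else _) = _
      rw [if_neg (Ne.symm h12), if_pos rfl]
    have K3 : ∀ r1 r2 r3 s, K r1 r2 r3 s a3 = (p, r3) := fun _ _ _ _ => by
      change (if a3 = a1 then _ else _) = _
      rw [if_neg (Ne.symm h13), if_neg (Ne.symm h23), if_pos rfl]
    have Kb : ∀ r1 r2 r3 s, K r1 r2 r3 s b = (q, s) := fun _ _ _ _ => by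
      change (if b = a1 then _ else _) = _
      rw [if_neg (Ne.symm hb1), if_neg (Ne.symm hb2), if_neg (Ne.symm hb3), if_pos rfl]
    have Kx : ∀ r1 r2 r3 s x, x ≠ a1 → x ≠ a2 → x ≠ a3 → x ≠ b → K r1 r2 r3 s x = I x :=
      fun _ _ _ _ x hx1 hx2 hx3 hxb => by
        change (if x = a1 then _ else _) = _
        rw [if_neg hx1, if_neg hx2, if_neg hx3, if_neg hxb]
    have hsum : ∀ (f : κ → ℂ), (∀ x, x ≠ a1 → x ≠ a2 → x ≠ a3 → x ≠ b → f x = 0) →
        ∑ x, f x = f a1 + f a2 + f a3 + f b := by
      intro f hf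
      have h5 : ∑ x ∈ ({a1, a2, a3, b} : Finset κ), f x = f a1 + f a2 + f a3 + f b := by
        rw [Finset.sum_insert (by simp [h12, h13, hb1]), Finset.sum_insert (by simp [h23, hb2]),
          Finset.sum_pair hb3]
        ring
      rw [← h5]
      symm
      refine Finset.sum_subset (Finset.subset_univ _) fun x _ hx => ?_
      simp only [Finset.mem_insert, Finset.mem_singleton, not_or] at hx
      exact hf x hx.1 hx.2.1 hx.2.2.1 hx.2.2.2
    have hSp : S j p := (hS p).2 (Or.inl rfl)
    have hSq : S j q := (hS q).2 (Or.inr rfl)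
    let G : ℕ → ℕ → ℕ → ℕ → ℂ := fun r1 r2 r3 s => F (K r1 r2 r3 s)
    have gb1 : ∀ r1 r2 r3 s, 3 < r1 → G r1 r2 r3 s = 0 := fun _ _ _ _ h =>
      C.big _ a1 (by rw [K1, hp]; exact h)
    have gb2 : ∀ r1 r2 r3 s, 3 < r2 → G r1 r2 r3 s = 0 := fun _ _ _ _ h =>
      C.big _ a2 (by rw [K2, hp]; exact h)
    have gb3 : ∀ r1 r2 r3 s, 3 < r3 → G r1 r2 r3 s = 0 := fun _ _ _ _ h =>
      C.big _ a3 (by rw [K3, hp]; exact h)
    have gbs : ∀ r1 r2 r3 s, 1 < s → G r1 r2 r3 s = 0 := fun _ _ _ _ h =>
      C.big _ b (by rw [Kb, hq]; exact h)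
    have ga12 : ∀ r r3 s, G r r r3 s = 0 := fun _ _ _ => C.alt _ a1 a2 h12 (by rw [K1, K2])
    have ga13 : ∀ r r2 s, G r r2 r s = 0 := fun _ _ _ => C.alt _ a1 a3 h13 (by rw [K1, K3])
    have ga23 : ∀ r1 r s, G r1 r r s = 0 := fun _ _ _ => C.alt _ a2 a3 h23 (by rw [K2, K3])
    have gw : ∀ r1 r2 r3 s : ℕ, (10 - 2 * ((r1 : ℂ) + r2 + r3 + s)) * G r1 r2 r3 s = 0 := by
      intro r1 r2 r3 s
      have h3 := C.wt j (K r1 r2 r3 s)
      rw [hsum _ (fun x hx1 hx2 hx3 hxb => by
        rw [Kx r1 r2 r3 s x hx1 hx2 hx3 hxb, if_neg (hother x hx1 hx2 hx3 hxb)]), K1, K2, K3, Kb,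
        if_pos hSp, if_pos hSp, if_pos hSp, if_pos hSq, hp, hq] at h3
      rw [← h3]
      push_cast
      ring
    have gl : ∀ r1 r2 r3 s, G (r1 + 1) r2 r3 s + G r1 (r2 + 1) r3 s + G r1 r2 (r3 + 1) s +
        G r1 r2 r3 (s + 1) = 0 := by
      intro r1 r2 r3 s
      have h3 := C.low j (K r1 r2 r3 s)
      rw [hsum _ (fun x hx1 hx2 hx3 hxb => by
        rw [Kx r1 r2 r3 s x hx1 hx2 hx3 hxb, if_neg (hother x hx1 hx2 hx3 hxb)]), K1, K2, K3, Kb,
        if_pos hSp, if_pos hSp, if_pos hSp, if_pos hSq] at h3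
      have u1 : update (K r1 r2 r3 s) a1 (p, r1 + 1) = K (r1 + 1) r2 r3 s := by
        funext x
        by_cases hx1 : x = a1
        · rw [hx1, update_self, K1]
        · rw [update_of_ne hx1]
          by_cases hx2 : x = a2
          · rw [hx2, K2, K2]
          · by_cases hx3 : x = a3
            · rw [hx3, K3, K3]
            · by_cases hxb : x = b
              · rw [hxb, Kb, Kb]
              · rw [Kx _ _ _ _ x hx1 hx2 hx3 hxb, Kx _ _ _ _ x hx1 hx2 hx3 hxb]
      have u2 : update (K r1 r2 r3 s) a2 (p, r2 + 1) = K r1 (r2 + 1) r3 s := by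
        funext x
        by_cases hx2 : x = a2
        · rw [hx2, update_self, K2]
        · rw [update_of_ne hx2]
          by_cases hx1 : x = a1
          · rw [hx1, K1, K1]
          · by_cases hx3 : x = a3
            · rw [hx3, K3, K3]
            · by_cases hxb : x = b
              · rw [hxb, Kb, Kb]
              · rw [Kx _ _ _ _ x hx1 hx2 hx3 hxb, Kx _ _ _ _ x hx1 hx2 hx3 hxb]
      have u3 : update (K r1 r2 r3 s) a3 (p, r3 + 1) = K r1 r2 (r3 + 1) s := by
        funext x
        by_cases hx3 : x = a3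
        · rw [hx3, update_self, K3]
        · rw [update_of_ne hx3]
          by_cases hx1 : x = a1
          · rw [hx1, K1, K1]
          · by_cases hx2 : x = a2
            · rw [hx2, K2, K2]
            · by_cases hxb : x = b
              · rw [hxb, Kb, Kb]
              · rw [Kx _ _ _ _ x hx1 hx2 hx3 hxb, Kx _ _ _ _ x hx1 hx2 hx3 hxb]
      have u4 : update (K r1 r2 r3 s) b (q, s + 1) = K r1 r2 r3 (s + 1) := by
        funext x
        by_cases hxb : x = b
        · rw [hxb, update_self, Kb]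
        · rw [update_of_ne hxb]
          by_cases hx1 : x = a1
          · rw [hx1, K1, K1]
          · by_cases hx2 : x = a2
            · rw [hx2, K2, K2]
            · by_cases hx3 : x = a3
              · rw [hx3, K3, K3]
              · rw [Kx _ _ _ _ x hx1 hx2 hx3 hxb, Kx _ _ _ _ x hx1 hx2 hx3 hxb]
      rw [u1, u2, u3, u4] at h3
      exact h3
    have m1 : G 0 1 3 1 = 0 ∧ G 0 3 1 1 = 0 ∧ G 1 0 3 1 = 0 ∧ G 3 0 1 1 = 0 ∧ G 1 3 0 1 = 0 ∧
        G 3 1 0 1 = 0 := by
      have l1 := gl 0 1 2 1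
      have l2 := gl 0 2 1 1
      have l3 := gl 1 0 2 1
      have l4 := gl 2 0 1 1
      have l5 := gl 1 2 0 1
      have l6 := gl 2 1 0 1
      simp only [Nat.reduceAdd, zero_add, ga12, ga13, ga23, gbs _ _ _ 2 (by omega), add_zero] at l1 l2 l3 l4 l5 l6
      exact ⟨l1, l2, l3, l4, l5, l6⟩
    obtain ⟨m11, m12, m13, m14, m15, m16⟩ := m1
    have m2 : G 0 2 3 0 = 0 ∧ G 0 3 2 0 = 0 ∧ G 2 0 3 0 = 0 ∧ G 3 0 2 0 = 0 ∧ G 2 3 0 0 = 0 ∧
        G 3 2 0 0 = 0 := by
      have l1 := gl 0 1 3 0
      have l2 := gl 0 3 1 0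
      have l3 := gl 1 0 3 0
      have l4 := gl 3 0 1 0
      have l5 := gl 1 3 0 0
      have l6 := gl 3 1 0 0
      simp only [Nat.reduceAdd, zero_add, ga12, ga13, ga23, gb1 4 _ _ _ (by omega),
        gb2 _ 4 _ _ (by omega), gb3 _ _ 4 _ (by omega), add_zero, m11, m12, m13, m14, m15, m16]
        at l1 l2 l3 l4 l5 l6
      exact ⟨l1, l2, l3, l4, l5, l6⟩
    obtain ⟨m21, m22, m23, m24, m25, m26⟩ := m2
    have hall : ∀ r1 r2 r3 s, G r1 r2 r3 s = 0 := by
      intro r1 r2 r3 s
      by_cases hr1 : 3 < r1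
      · exact gb1 _ _ _ _ hr1
      by_cases hr2 : 3 < r2
      · exact gb2 _ _ _ _ hr2
      by_cases hr3 : 3 < r3
      · exact gb3 _ _ _ _ hr3
      by_cases hs : 1 < s
      · exact gbs _ _ _ _ hs
      by_cases hrs : r1 + r2 + r3 + s = 5
      · have c1 : r1 = 0 ∨ r1 = 1 ∨ r1 = 2 ∨ r1 = 3 := by omega
        have c2 : r2 = 0 ∨ r2 = 1 ∨ r2 = 2 ∨ r2 = 3 := by omega
        have c3 : r3 = 0 ∨ r3 = 1 ∨ r3 = 2 ∨ r3 = 3 := by omega
        have c4 : s = 0 ∨ s = 1 := by omega
        rcases c1 with rfl | rfl | rfl | rfl <;> rcases c2 with rfl | rfl | rfl | rfl <;>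
          rcases c3 with rfl | rfl | rfl | rfl <;> rcases c4 with rfl | rfl <;>
          first | exact absurd hrs (by omega) | assumption | exact ga12 _ _ _ | exact ga13 _ _ _ | exact ga23 _ _ _
      · refine (mul_eq_zero.1 (gw r1 r2 r3 s)).resolve_left fun h3 => hrs ?_
        have h4 : ((r1 + r2 + r3 + s : ℕ) : ℂ) = ((5 : ℕ) : ℂ) := by
          push_cast
          linear_combination (-1 / 2 : ℂ) * h3
        exact_mod_cast h4
    apply hF
    have hI : I = K (I a1).2 (I a2).2 (I a3).2 (I b).2 := by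
      funext x
      by_cases hx1 : x = a1
      · rw [hx1, K1, ← hap1]
      · by_cases hx2 : x = a2
        · rw [hx2, K2, ← hap2]
        · by_cases hx3 : x = a3
          · rw [hx3, K3, ← hap3]
          · by_cases hxb : x = b
            · rw [hxb, Kb, ← hbq]
            · rw [Kx _ _ _ _ x hx1 hx2 hx3 hxb]
    rw [hI]
    exact hall _ _ _ _

open Classical in
/-- All strings occur an even number of times. -/
theorem odd_zero {I : κ → J × ℕ} {j : J} (h : Odd (Tj I j).card) : F I = 0 := by
  by_cases hk : ∃ k, S j k ∧ k ≠ j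
  · obtain ⟨k, hk, hkj⟩ := hk
    have hdk : d k ≠ d j := fun h1 => hkj (C.uniq j k j hk (C.self j) h1)
    have hS : ∀ i, S j i → i = j ∨ i = k := by
      intro i hi
      by_cases h1 : d i = d j
      · exact Or.inl (C.uniq j i j hi (C.self j) h1)
      · right
        refine C.uniq j i k hi hk ?_
        rcases C.hd i with e1 | e1 <;> rcases C.hd j with e2 | e2 <;> rcases C.hd k with e3 | e3 <;>
          omega
    have hfil : (univ.filter fun a => S j (I a).1) = Tj I j ∪ Tj I k := by
      ext a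
      rw [Finset.mem_filter, Finset.mem_union, mem_Tj, mem_Tj]
      constructor
      · rintro ⟨_, h1⟩
        exact hS _ h1
      · rintro (h1 | h1)
        · exact ⟨mem_univ _, by rw [h1]; exact C.self j⟩
        · exact ⟨mem_univ _, by rw [h1]; exact hk⟩
    have hdis : Disjoint (Tj I j) (Tj I k) := by
      rw [Finset.disjoint_left]
      intro a ha hb
      exact hkj ((mem_Tj.1 hb).symm.trans (mem_Tj.1 ha))
    have hcard : (univ.filter fun a => S j (I a).1).card = (Tj I j).card + (Tj I k).card := by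
      rw [hfil, Finset.card_union_of_disjoint hdis]
    rcases Nat.even_or_odd (Tj I k).card with h1 | h1
    · exact C.par j (by rw [hcard]; exact h.add_even h1)
    · rcases C.hd j with e2 | e2
      · have e3 : d k = 3 := by rcases C.hd k with e3 | e3 <;> omega
        refine C.odd_odd (j := j) e3 e2 (fun i => ⟨fun hi => (hS i hi).symm, ?_⟩) h1 h
        rintro (rfl | rfl)
        · exact hk
        · exact C.self _
      · have e3 : d k = 1 := by rcases C.hd k with e3 | e3 <;> omega
        refine C.odd_odd (j := j) e2 e3 (fun i => ⟨hS i, ?_⟩) h h1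
        rintro (rfl | rfl)
        · exact C.self _
        · exact hk
  · push Not at hk
    refine C.par j ?_
    have hfil : (univ.filter fun a => S j (I a).1) = Tj I j := by
      ext a
      rw [Finset.mem_filter, mem_Tj]
      constructor
      · rintro ⟨_, h1⟩
        exact hk _ h1
      · intro h1
        exact ⟨mem_univ _, by rw [h1]; exact C.self j⟩
    rw [hfil]
    exact h

end Cb

end Pool.Agent.L0h12.FF
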