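import Pool.Agent.L0h12.FF.Comb

set_option autoImplicit false
set_option linter.unusedSectionVars false
set_option linter.unusedVariables false

/-!
# Alternating invariants of several strings: the symplectic Lie algebras
-/

open Finset Function

noncomputable section

namespace Pool.Agent.L0h12.FF

variable {κ J : Type} [Fintype κ] [DecidableEq κ]

namespace Cb

variable {d : J → ℕ} {S : J → J → Prop} {F : (κ → J × ℕ) → ℂ} (C : Cb d S F)

include C

/-- A string of length two occurs twice or not at all. -/
theorem two {I : κ → J × ℕ} (hF : F I ≠ 0) {k : J} (hk : d k = 1) : Tj I k = ∅ ∨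
    ∃ c c', c ≠ c' ∧ Tj I k = {c, c'} ∧ I c = (k, 0) ∧ I c' = (k, 1) := by
  classical
  have h1 := C.card_le hF k
  have h2 : ¬ Odd (Tj I k).card := fun h => hF (C.odd_zero h)
  rw [Nat.not_odd_iff_even] at h2
  have h3 : (Tj I k).card = 0 ∨ (Tj I k).card = 2 := by
    obtain ⟨m, hm⟩ := h2
    omega
  rcases h3 with h3 | h3
  · exact Or.inl (Finset.card_eq_zero.1 h3)
  · right
    obtain ⟨c, c', hcc, hT⟩ := Finset.card_eq_two.1 h3
    have e1 : (I c).1 = k := mem_Tj.1 (by rw [hT]; simp)
    have e2 : (I c').1 = k := mem_Tj.1 (by rw [hT]; simp)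
    have l1 : (I c).2 ≤ 1 := by
      by_contra h4
      refine hF (C.big I c ?_)
      rw [e1, hk]
      omega
    have l2 : (I c').2 ≤ 1 := by
      by_contra h4
      refine hF (C.big I c' ?_)
      rw [e2, hk]
      omega
    have l3 : (I c).2 ≠ (I c').2 := fun h4 => hF (C.alt I c c' hcc (Prod.ext (e1.trans e2.symm) h4))
    have l4 : ((I c).2 = 0 ∧ (I c').2 = 1) ∨ ((I c).2 = 1 ∧ (I c').2 = 0) := by omega
    rcases l4 with ⟨l5, l6⟩ | ⟨l5, l6⟩
    · exact ⟨c, c', hcc, hT, Prod.ext e1 l5, Prod.ext e2 l6⟩
    · exact ⟨c', c, Ne.symm hcc, by rw [hT, Finset.pair_comm], Prod.ext e2 l6, Prod.ext e1 l5⟩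

/-- A string of length four which occurs twice. -/
theorem pair3 {I : κ → J × ℕ} {j : J} (hj : d j = 3) {a b : κ} (hab : a ≠ b)
    (hT : Tj I j = {a, b}) (r s : ℕ) :
    F (fun x => if x = a then (j, r) else if x = b then (j, s) else I x) =
      if r + s = 3 then (-1) ^ r * F (fun x => if x = a then (j, 0) else if x = b then (j, 3) else I x)
      else 0 := by
  classical
  let K : ℕ → ℕ → κ → J × ℕ := fun r s x => if x = a then (j, r) else if x = b then (j, s) else I x
  have Ka : ∀ r s, K r s a = (j, r) := fun r s => if_pos rfl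
  have Kb : ∀ r s, K r s b = (j, s) := fun r s => by
    change (if b = a then _ else _) = _
    rw [if_neg (Ne.symm hab), if_pos rfl]
  have Kx : ∀ r s x, x ≠ a → x ≠ b → K r s x = I x := fun r s x hxa hxb => by
    change (if x = a then _ else _) = _
    rw [if_neg hxa, if_neg hxb]
  let E : Finset κ := univ.filter fun x => S j (I x).1 ∧ x ≠ a ∧ x ≠ b
  have hE : ∀ x, x ∈ E ↔ S j (I x).1 ∧ x ≠ a ∧ x ≠ b := fun x => by
    change x ∈ univ.filter _ ↔ _
    rw [Finset.mem_filter]
    exact ⟨fun h => h.2, fun h => ⟨mem_univ _, h⟩⟩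
  have hsum : ∀ f : κ → ℂ, (∀ x, x ≠ a → x ≠ b → x ∉ E → f x = 0) →
      ∑ x, f x = f a + f b + ∑ x ∈ E, f x := by
    intro f hf
    have hd : Disjoint ({a, b} : Finset κ) E := by
      rw [Finset.disjoint_left]
      intro x hx hxE
      have h1 := (hE x).1 hxE
      simp only [Finset.mem_insert, Finset.mem_singleton] at hx
      rcases hx with hx | hx
      · exact h1.2.1 hx
      · exact h1.2.2 hx
    rw [← Finset.sum_pair hab, ← Finset.sum_union hd]
    symm
    refine Finset.sum_subset (Finset.subset_univ _) fun x _ hx => ?_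
    simp only [Finset.mem_union, Finset.mem_insert, Finset.mem_singleton, not_or] at hx
    exact hf x hx.1.1 hx.1.2 hx.2
  -- the other positions
  have hext : ∀ r s, F (K r s) ≠ 0 → ∑ x ∈ E, ((d (I x).1 : ℂ) - 2 * (I x).2) = 0 ∧
      ∀ r' s', ∑ x ∈ E, F (update (K r' s') x ((I x).1, (I x).2 + 1)) = 0 := by
    intro r s hF
    rcases Finset.eq_empty_or_nonempty E with h0 | ⟨x0, hx0⟩
    · rw [h0]
      exact ⟨Finset.sum_empty, fun _ _ => Finset.sum_empty⟩
    · have h1 := (hE x0).1 hx0
      set k := (I x0).1 with hk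
      have hkj : k ≠ j := by
        intro h2
        have h3 : x0 ∈ Tj I j := mem_Tj.2 h2
        rw [hT] at h3
        simp only [Finset.mem_insert, Finset.mem_singleton] at h3
        rcases h3 with h3 | h3
        · exact h1.2.1 h3
        · exact h1.2.2 h3
      have hdk : d k = 1 := by
        rcases C.hd k with h2 | h2
        · exact h2
        · exact absurd (C.uniq j k j h1.1 (C.self j) (h2.trans hj.symm)) hkj
      have hEk : ∀ x, x ∈ E ↔ (I x).1 = k := by
        intro x
        rw [hE]
        constructor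
        · rintro ⟨h2, h3, h4⟩
          rcases C.hd (I x).1 with h5 | h5
          · exact C.uniq j _ k h2 h1.1 (h5.trans hdk.symm)
          · exfalso
            have h6 : x ∈ Tj I j := mem_Tj.2 (C.uniq j _ j h2 (C.self j) (h5.trans hj.symm))
            rw [hT] at h6
            simp only [Finset.mem_insert, Finset.mem_singleton] at h6
            rcases h6 with h6 | h6
            · exact h3 h6
            · exact h4 h6
        · intro h2
          have h3 : x ∉ Tj I j := fun h3 => hkj (h2.symm.trans (mem_Tj.1 h3))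
          rw [hT] at h3
          simp only [Finset.mem_insert, Finset.mem_singleton, not_or] at h3
          exact ⟨by rw [h2]; exact h1.1, h3.1, h3.2⟩
      have hTk : Tj (K r s) k = E := by
        ext x
        rw [mem_Tj, hEk]
        by_cases hxa : x = a
        · rw [hxa, Ka]
          have : (I a).1 = j := mem_Tj.1 (by rw [hT]; simp)
          rw [this]
        · by_cases hxb : x = b
          · rw [hxb, Kb]
            have : (I b).1 = j := mem_Tj.1 (by rw [hT]; simp)
            rw [this]
          · rw [Kx r s x hxa hxb]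
      have hKE : ∀ r s, ∀ x ∈ E, K r s x = I x := fun r s x hx => Kx r s x ((hE x).1 hx).2.1
        ((hE x).1 hx).2.2
      rcases C.two hF hdk with h2 | ⟨c, c', hcc, h2, h3, h4⟩
      · rw [← hTk, h2] at hx0
        exact absurd hx0 (Finset.notMem_empty _)
      · rw [hTk] at h2
        have hcE : c ∈ E := by rw [h2]; simp
        have hcE' : c' ∈ E := by rw [h2]; simp
        rw [hKE r s c hcE] at h3
        rw [hKE r s c' hcE'] at h4
        constructor
        · rw [h2, Finset.sum_pair hcc, h3, h4]
          simp only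
          rw [hdk]
          push_cast
          ring
        · intro r' s'
          rw [h2, Finset.sum_pair hcc, h3, h4]
          have e1 : F (update (K r' s') c (k, 0 + 1)) = 0 := by
            refine C.alt _ c c' hcc ?_
            rw [update_self, update_of_ne (Ne.symm hcc), hKE r' s' c' hcE', h4]
          have e2 : F (update (K r' s') c' (k, 1 + 1)) = 0 := by
            refine C.big _ c' ?_
            rw [update_self]
            simp only
            omega
          rw [e1, e2, add_zero]
  have hSj := C.self j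
  let G : ℕ → ℕ → ℂ := fun r s => F (K r s)
  have gb1 : ∀ r s, 3 < r → G r s = 0 := fun r s h => C.big _ a (by rw [Ka, hj]; exact h)
  have gb2 : ∀ r s, 3 < s → G r s = 0 := fun r s h => C.big _ b (by rw [Kb, hj]; exact h)
  have gw : ∀ r s, r + s ≠ 3 → G r s = 0 := by
    intro r s hrs
    by_contra hF
    have h1 := (mul_eq_zero.1 (C.wt j (K r s))).resolve_right hF
    rw [hsum _ (fun x hxa hxb hxE => by
      rw [Kx r s x hxa hxb, if_neg]
      exact fun h => hxE ((hE x).2 ⟨h, hxa, hxb⟩)), Ka, Kb, if_pos hSj, if_pos hSj, hj] at h1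
    have h2 : ∑ x ∈ E, (if S j (K r s x).1 then ((d (K r s x).1 : ℂ) - 2 * (K r s x).2) else 0) = 0 := by
      rw [← (hext r s hF).1]
      refine Finset.sum_congr rfl fun x hx => ?_
      have h3 := (hE x).1 hx
      rw [Kx r s x h3.2.1 h3.2.2, if_pos h3.1]
    rw [h2] at h1
    apply hrs
    have h4 : ((r + s : ℕ) : ℂ) = ((3 : ℕ) : ℂ) := by
      push_cast at h1 ⊢
      linear_combination (-1 / 2 : ℂ) * h1
    exact_mod_cast h4
  have gl : ∀ r s, G (r + 1) s + G r (s + 1) = 0 := by
    intro r s
    by_cases h0 : G (r + 1) s = 0 ∧ G r (s + 1) = 0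
    · rw [h0.1, h0.2, add_zero]
    · have h1 := C.low j (K r s)
      rw [hsum _ (fun x hxa hxb hxE => by
        rw [Kx r s x hxa hxb, if_neg]
        exact fun h => hxE ((hE x).2 ⟨h, hxa, hxb⟩)), Ka, Kb, if_pos hSj, if_pos hSj] at h1
      have h2 : ∑ x ∈ E, (if S j (K r s x).1 then
          F (update (K r s) x ((K r s x).1, (K r s x).2 + 1)) else 0) = 0 := by
        have h3 : ∃ r s, F (K r s) ≠ 0 := by
          rw [not_and_or] at h0
          rcases h0 with h0 | h0
          · exact ⟨_, _, h0⟩
          · exact ⟨_, _, h0⟩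
        obtain ⟨r1, s1, h3⟩ := h3
        rw [← (hext r1 s1 h3).2 r s]
        refine Finset.sum_congr rfl fun x hx => ?_
        have h4 := (hE x).1 hx
        rw [Kx r s x h4.2.1 h4.2.2, if_pos h4.1]
      rw [h2, add_zero] at h1
      have u1 : update (K r s) a (j, r + 1) = K (r + 1) s := by
        funext x
        by_cases hxa : x = a
        · rw [hxa, update_self, Ka]
        · rw [update_of_ne hxa]
          by_cases hxb : x = b
          · rw [hxb, Kb, Kb]
          · rw [Kx _ _ x hxa hxb, Kx _ _ x hxa hxb]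
      have u2 : update (K r s) b (j, s + 1) = K r (s + 1) := by
        funext x
        by_cases hxb : x = b
        · rw [hxb, update_self, Kb]
        · rw [update_of_ne hxb]
          by_cases hxa : x = a
          · rw [hxa, Ka, Ka]
          · rw [Kx _ _ x hxa hxb, Kx _ _ x hxa hxb]
      rw [u1, u2] at h1
      exact h1
  change G r s = if r + s = 3 then (-1) ^ r * G 0 3 else 0
  split_ifs with hrs
  · have c1 : (r = 0 ∧ s = 3) ∨ (r = 1 ∧ s = 2) ∨ (r = 2 ∧ s = 1) ∨ (r = 3 ∧ s = 0) := by omega
    have l1 := gl 0 2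
    have l2 := gl 1 1
    have l3 := gl 2 0
    simp only [Nat.reduceAdd, zero_add] at l1 l2 l3
    rcases c1 with ⟨rfl, rfl⟩ | ⟨rfl, rfl⟩ | ⟨rfl, rfl⟩ | ⟨rfl, rfl⟩
    · ring
    · linear_combination l1
    · linear_combination l2 - l1
    · linear_combination l3 - l2 + l1
  · exact gw r s hrs

/-- A string of length two which occurs twice. -/
theorem pair1 {I : κ → J × ℕ} {j : J} (hj : d j = 1) {a b : κ} (hab : a ≠ b) (r s : ℕ) :
    F (fun x => if x = a then (j, r) else if x = b then (j, s) else I x) =
      if r + s = 1 then (-1) ^ r * F (fun x => if x = a then (j, 0) else if x = b then (j, 1) else I x)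
      else 0 := by
  let K : ℕ → ℕ → κ → J × ℕ := fun r s x => if x = a then (j, r) else if x = b then (j, s) else I x
  have Ka : ∀ r s, K r s a = (j, r) := fun r s => if_pos rfl
  have Kb : ∀ r s, K r s b = (j, s) := fun r s => by
    change (if b = a then _ else _) = _
    rw [if_neg (Ne.symm hab), if_pos rfl]
  have Kx : ∀ r s x, x ≠ a → x ≠ b → K r s x = I x := fun r s x hxa hxb => by
    change (if x = a then _ else _) = _
    rw [if_neg hxa, if_neg hxb]
  have gb1 : ∀ r s, 1 < r → F (K r s) = 0 := fun r s h => C.big _ a (by rw [Ka, hj]; exact h)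
  have gb2 : ∀ r s, 1 < s → F (K r s) = 0 := fun r s h => C.big _ b (by rw [Kb, hj]; exact h)
  have ga : ∀ r, F (K r r) = 0 := fun r => C.alt _ a b hab (by rw [Ka, Kb])
  have gs : F (K 1 0) = -F (K 0 1) := by
    rw [← C.swp (K 0 1) a b hab]
    congr 1
    funext x
    by_cases hxa : x = a
    · rw [hxa, Equiv.swap_apply_left, Ka, Kb]
    · by_cases hxb : x = b
      · rw [hxb, Equiv.swap_apply_right, Ka, Kb]
      · rw [Equiv.swap_apply_of_ne_of_ne hxa hxb, Kx _ _ x hxa hxb, Kx _ _ x hxa hxb]
  change F (K r s) = if r + s = 1 then (-1) ^ r * F (K 0 1) else 0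
  split_ifs with hrs
  · have c1 : (r = 0 ∧ s = 1) ∨ (r = 1 ∧ s = 0) := by omega
    rcases c1 with ⟨rfl, rfl⟩ | ⟨rfl, rfl⟩
    · ring
    · rw [gs]
      ring
  · by_cases h1 : 1 < r
    · exact gb1 r s h1
    · by_cases h2 : 1 < s
      · exact gb2 r s h2
      · have h3 : r = s := by omega
        rw [h3]
        exact ga s

theorem pairs {I : κ → J × ℕ} {j : J} {a b : κ} (hab : a ≠ b)
    (hT : Tj I j = {a, b}) (r s : ℕ) :
    F (fun x => if x = a then (j, r) else if x = b then (j, s) else I x) =
      if r + s = d j then (-1) ^ r *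
        F (fun x => if x = a then (j, 0) else if x = b then (j, d j) else I x)
      else 0 := by
  rcases C.hd j with h | h
  · rw [h]
    exact C.pair1 h hab r s
  · rw [h]
    exact C.pair3 h hab hT r s

end Cb

end Pool.Agent.L0h12.FF
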