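import Pool.Agent.L0h12.FF.Comb2

set_option autoImplicit false
set_option linter.unusedSectionVars false
set_option linter.unusedVariables false

/-!
# Alternating invariants of several strings: invariance under the symplectic Lie algebras
-/

open Finset Function

noncomputable section

namespace Pool.Agent.L0h12.FF

variable {κ J : Type} [Fintype κ] [DecidableEq κ]

namespace Cb

variable {d : J → ℕ} {S : J → J → Prop} {F : (κ → J × ℕ) → ℂ} (C : Cb d S F)

theorem Tj_update {I : κ → J × ℕ} {j : J} {a : κ} (ha : (I a).1 = j) (y : ℕ) :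
    Tj (update I a (j, y)) j = Tj I j := by
  ext x
  rw [mem_Tj, mem_Tj]
  by_cases hx : x = a
  · rw [hx, update_self, ha]
  · rw [update_of_ne hx]

include C

open Classical in
theorem inv_noninj {I : κ → J × ℕ} (hI : ¬ Injective I) (j : J) (p q : ℕ) :
    ∑ a, ((if (I a).1 = j ∧ p + (I a).2 = d j then (-1) ^ p * F (update I a (j, q)) else 0) +
      (if (I a).1 = j ∧ q + (I a).2 = d j then (-1) ^ q * F (update I a (j, p)) else 0)) = 0 := by
  unfold Injective at hI
  push Not at hI
  obtain ⟨a1, a2, h12, hne⟩ := hI
  have h0 : ∀ x, x ≠ a1 → x ≠ a2 → ∀ y, F (update I x y) = 0 := by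
    intro x h1 h2 y
    refine C.alt _ a1 a2 hne ?_
    rw [update_of_ne (Ne.symm h1), update_of_ne (Ne.symm h2), h12]
  have h1 : ∀ y, F (update I a2 y) = -F (update I a1 y) := by
    intro y
    rw [← C.swp (update I a1 y) a1 a2 hne]
    congr 1
    funext x
    by_cases hx1 : x = a1
    · rw [hx1, Equiv.swap_apply_left, update_of_ne hne, update_of_ne (Ne.symm hne), h12]
    · by_cases hx2 : x = a2
      · rw [hx2, Equiv.swap_apply_right, update_self, update_self]
      · rw [Equiv.swap_apply_of_ne_of_ne hx1 hx2, update_of_ne hx1, update_of_ne hx2]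
  have hsub : ∑ a ∈ ({a1, a2} : Finset κ),
      ((if (I a).1 = j ∧ p + (I a).2 = d j then (-1) ^ p * F (update I a (j, q)) else 0) +
      (if (I a).1 = j ∧ q + (I a).2 = d j then (-1) ^ q * F (update I a (j, p)) else 0)) =
      ∑ a, ((if (I a).1 = j ∧ p + (I a).2 = d j then (-1) ^ p * F (update I a (j, q)) else 0) +
      (if (I a).1 = j ∧ q + (I a).2 = d j then (-1) ^ q * F (update I a (j, p)) else 0)) := by
    refine Finset.sum_subset (Finset.subset_univ _) fun x _ hx => ?_
    simp only [Finset.mem_insert, Finset.mem_singleton, not_or] at hx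
    rw [h0 x hx.1 hx.2, h0 x hx.1 hx.2, mul_zero, mul_zero, ite_self, ite_self, add_zero]
  rw [← hsub, Finset.sum_pair hne, h1, h1, ← h12]
  split_ifs <;> ring

open Classical in
theorem inv (j : J) {p q : ℕ} (hp : p ≤ d j) (hq : q ≤ d j) (I : κ → J × ℕ) :
    ∑ a, ((if (I a).1 = j ∧ p + (I a).2 = d j then (-1) ^ p * F (update I a (j, q)) else 0) +
      (if (I a).1 = j ∧ q + (I a).2 = d j then (-1) ^ q * F (update I a (j, p)) else 0)) = 0 := by
  by_cases hI : Injective I
  swap
  · exact C.inv_noninj hI j p q
  have hodd : Odd (d j) := by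
    rcases C.hd j with h | h <;> rw [h] <;> decide
  -- if all values vanish
  have hzero : (∀ a, (I a).1 = j → ∀ y, F (update I a (j, y)) = 0) →
      ∑ a, ((if (I a).1 = j ∧ p + (I a).2 = d j then (-1) ^ p * F (update I a (j, q)) else 0) +
      (if (I a).1 = j ∧ q + (I a).2 = d j then (-1) ^ q * F (update I a (j, p)) else 0)) = 0 := by
    intro h
    refine Finset.sum_eq_zero fun a _ => ?_
    by_cases ha : (I a).1 = j
    · rw [h a ha, h a ha, mul_zero, mul_zero, ite_self, ite_self, add_zero]
    · rw [if_neg (fun h1 => ha h1.1), if_neg (fun h1 => ha h1.1), add_zero]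
  rcases Nat.even_or_odd (Tj I j).card with hc | hc
  swap
  · refine hzero fun a ha y => C.odd_zero (j := j) ?_
    rw [Tj_update ha]
    exact hc
  by_cases hbig : d j + 1 < (Tj I j).card
  · refine hzero fun a ha y => ?_
    by_contra hF
    have h1 := C.card_le hF j
    rw [Tj_update ha] at h1
    omega
  have hcases : (Tj I j).card = 0 ∨ (Tj I j).card = 2 ∨ ((Tj I j).card = 4 ∧ d j = 3) := by
    obtain ⟨m, hm⟩ := hc
    rcases C.hd j with h | h <;> omega
  rcases hcases with h0 | h2 | ⟨h4, hd3⟩
  · refine Finset.sum_eq_zero fun a _ => ?_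
    have h1 : (I a).1 ≠ j := by
      intro h1
      have h2 : a ∈ Tj I j := mem_Tj.2 h1
      rw [Finset.card_eq_zero.1 h0] at h2
      exact absurd h2 (Finset.notMem_empty _)
    rw [if_neg (fun h => h1 h.1), if_neg (fun h => h1 h.1), add_zero]
  · obtain ⟨a, b, hab, hT⟩ := Finset.card_eq_two.1 h2
    have ha : (I a).1 = j := mem_Tj.1 (by rw [hT]; simp)
    have hb : (I b).1 = j := mem_Tj.1 (by rw [hT]; simp)
    have hsub : ∑ x ∈ ({a, b} : Finset κ),
        ((if (I x).1 = j ∧ p + (I x).2 = d j then (-1) ^ p * F (update I x (j, q)) else 0) +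
        (if (I x).1 = j ∧ q + (I x).2 = d j then (-1) ^ q * F (update I x (j, p)) else 0)) =
        ∑ x, ((if (I x).1 = j ∧ p + (I x).2 = d j then (-1) ^ p * F (update I x (j, q)) else 0) +
        (if (I x).1 = j ∧ q + (I x).2 = d j then (-1) ^ q * F (update I x (j, p)) else 0)) := by
      refine Finset.sum_subset (Finset.subset_univ _) fun x _ hx => ?_
      rw [← hT, mem_Tj] at hx
      rw [if_neg (fun h => hx h.1), if_neg (fun h => hx h.1), add_zero]
    let K : ℕ → ℕ → κ → J × ℕ := fun r s x => if x = a then (j, r) else if x = b then (j, s) else I x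
    have Ka : ∀ r s, K r s a = (j, r) := fun r s => if_pos rfl
    have Kb : ∀ r s, K r s b = (j, s) := fun r s => by
      change (if b = a then _ else _) = _
      rw [if_neg (Ne.symm hab), if_pos rfl]
    have Kx : ∀ r s x, x ≠ a → x ≠ b → K r s x = I x := fun r s x hxa hxb => by
      change (if x = a then _ else _) = _
      rw [if_neg hxa, if_neg hxb]
    have ua : ∀ y, update I a (j, y) = K y (I b).2 := by
      intro y
      funext x
      by_cases hxa : x = a
      · rw [hxa, update_self, Ka]
      · rw [update_of_ne hxa]
        by_cases hxb : x = b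
        · rw [hxb, Kb, ← hb]
        · rw [Kx _ _ x hxa hxb]
    have ub : ∀ y, update I b (j, y) = K (I a).2 y := by
      intro y
      funext x
      by_cases hxb : x = b
      · rw [hxb, update_self, Kb]
      · rw [update_of_ne hxb]
        by_cases hxa : x = a
        · rw [hxa, Ka, ← ha]
        · rw [Kx _ _ x hxa hxb]
    have hG : ∀ r s, F (K r s) = if r + s = d j then (-1) ^ r * F (K 0 (d j)) else 0 :=
      fun r s => C.pairs hab hT r s
    rw [← hsub, Finset.sum_pair hab, ua, ua, ub, ub]
    set r := (I a).2
    set s := (I b).2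
    set G := F (K 0 (d j))
    rw [hG q s, hG p s, hG r q, hG r p]
    have hpar : ∀ x y : ℕ, x + y = d j → (-1 : ℂ) ^ y = -(-1) ^ x := by
      intro x y hxy
      have h1 : (-1 : ℂ) ^ x * (-1) ^ y = -1 := by
        rw [← pow_add, hxy, hodd.neg_one_pow]
      have h2 : (-1 : ℂ) ^ x * (-1) ^ x = 1 := by
        rw [← mul_pow]
        simp
      linear_combination (-1 : ℂ) ^ x * h1 - (-1 : ℂ) ^ y * h2
    simp only [ha, hb, true_and]
    by_cases e1 : p + r = d j
    · by_cases e2 : q + s = d j
      · have c1 := hpar p r e1
        by_cases e3 : q + r = d j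
        · by_cases e4 : p + s = d j
          · have e5 : r + q = d j := by omega
            have e6 : r + p = d j := by omega
            rw [if_pos e1, if_pos e2, if_pos e3, if_pos e4, if_pos e4, if_pos e5, if_pos e2,
              if_pos e6, c1]
            have c2 := hpar q r e3
            have c3 : (-1 : ℂ) ^ p = (-1) ^ q := by linear_combination c1 - c2
            rw [c3]
            ring
          · have e5 : r + q = d j := by omega
            have e6 : r + p = d j := by omega
            rw [if_pos e1, if_pos e2, if_pos e3, if_neg e4, if_neg e4, if_pos e2, if_pos e6, c1]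
            ring
        · have e5 : r + q ≠ d j := by omega
          have e6 : r + p = d j := by omega
          by_cases e4 : p + s = d j
          · rw [if_pos e1, if_pos e2, if_neg e3, if_pos e4, if_neg e5, if_pos e2, if_pos e6, c1]
            ring
          · rw [if_pos e1, if_pos e2, if_neg e3, if_neg e4, if_pos e2, if_pos e6, c1]
            ring
      · have c1 := hpar p r e1
        by_cases e3 : q + r = d j
        · by_cases e4 : p + s = d j
          · have e5 : r + q = d j := by omega
            have c2 := hpar q r e3
            rw [if_pos e1, if_neg e2, if_pos e3, if_pos e4, if_pos e4, if_pos e5, if_neg e2, c2]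
            ring
          · rw [if_pos e1, if_neg e2, if_pos e3, if_neg e4, if_neg e4, if_neg e2]
            ring
        · have e5 : r + q ≠ d j := by omega
          by_cases e4 : p + s = d j
          · rw [if_pos e1, if_neg e2, if_neg e3, if_pos e4, if_neg e5, if_neg e2]
            ring
          · rw [if_pos e1, if_neg e2, if_neg e3, if_neg e4, if_neg e2]
            ring
    · have e6 : r + p ≠ d j := by omega
      by_cases e3 : q + r = d j
      · have e5 : r + q = d j := by omega
        have c2 := hpar q r e3
        by_cases e4 : p + s = d j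
        · by_cases e2 : q + s = d j
          · rw [if_neg e1, if_pos e3, if_pos e4, if_pos e4, if_pos e5, if_pos e2, if_neg e6, c2]
            ring
          · rw [if_neg e1, if_pos e3, if_pos e4, if_pos e4, if_pos e5, if_neg e2, c2]
            ring
        · by_cases e2 : q + s = d j
          · rw [if_neg e1, if_pos e3, if_neg e4, if_neg e4, if_pos e2, if_neg e6]
            ring
          · rw [if_neg e1, if_pos e3, if_neg e4, if_neg e4, if_neg e2]
            ring
      · have e5 : r + q ≠ d j := by omega
        rw [if_neg e1, if_neg e3, if_neg e5, if_neg e6]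
        simp
  · -- the full block
    by_cases hle : ∀ a ∈ Tj I j, (I a).2 ≤ d j
    swap
    · push Not at hle
      obtain ⟨x0, hx0, hx1⟩ := hle
      have hx2 := mem_Tj.1 hx0
      refine Finset.sum_eq_zero fun a _ => ?_
      by_cases hax : a = x0
      · rw [if_neg (fun h => by rw [hax] at h; omega), if_neg (fun h => by rw [hax] at h; omega),
          add_zero]
      · have h5 : ∀ y, F (update I a y) = 0 := fun y => C.big _ x0 (by
          rw [update_of_ne (Ne.symm hax), hx2]
          exact hx1)
        rw [h5, h5, mul_zero, mul_zero, ite_self, ite_self, add_zero]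
    have hsurj : ∀ y ≤ d j, ∃ a, I a = (j, y) := by
      intro y hy
      have h5 : (Tj I j).image (fun a => (I a).2) = Finset.range (d j + 1) := by
        refine Finset.eq_of_subset_of_card_le ?_ ?_
        · intro z hz
          obtain ⟨a, ha, rfl⟩ := Finset.mem_image.1 hz
          have := hle a ha
          rw [Finset.mem_range]
          omega
        · rw [Finset.card_range, Finset.card_image_of_injOn, h4, hd3]
          intro a ha b hb hab
          exact hI (Prod.ext ((mem_Tj.1 (Finset.mem_coe.1 ha)).trans
            (mem_Tj.1 (Finset.mem_coe.1 hb)).symm) hab)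
      have h6 : y ∈ (Tj I j).image (fun a => (I a).2) := by
        rw [h5, Finset.mem_range]
        omega
      obtain ⟨a, ha, h7⟩ := Finset.mem_image.1 h6
      exact ⟨a, Prod.ext (mem_Tj.1 ha) h7⟩
    have key : ∀ p q : ℕ, p ≤ d j → q ≤ d j →
        ∑ a, (if (I a).1 = j ∧ p + (I a).2 = d j then (-1) ^ p * F (update I a (j, q)) else 0) =
          if p + q = d j then (-1) ^ p * F I else 0 := by
      intro p q hp hq
      obtain ⟨a0, ha0⟩ := hsurj (d j - p) (Nat.sub_le _ _)
      have h7 : p + (d j - p) = d j := by omega
      rw [Finset.sum_eq_single a0]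
      · rw [ha0, if_pos ⟨rfl, h7⟩]
        split_ifs with hpq
        · congr 2
          have h8 : q = d j - p := by omega
          rw [h8, ← ha0, update_eq_self]
        · obtain ⟨b0, hb0⟩ := hsurj q hq
          have hne : b0 ≠ a0 := by
            rintro rfl
            rw [ha0] at hb0
            have : d j - p = q := congrArg Prod.snd hb0
            omega
          rw [C.alt _ a0 b0 (Ne.symm hne) (by rw [update_self, update_of_ne hne, hb0]), mul_zero]
      · intro b _ hb
        rw [if_neg]
        rintro ⟨h8, h9⟩
        apply hb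
        apply hI
        rw [ha0]
        exact Prod.ext h8 (by simp only; omega)
      · intro h8
        exact absurd (Finset.mem_univ _) h8
    rw [Finset.sum_add_distrib, key p q hp hq, key q p hq hp]
    by_cases hpq : p + q = d j
    · have hqp : q + p = d j := by omega
      rw [if_pos hpq, if_pos hqp]
      have h1 : (-1 : ℂ) ^ p * (-1) ^ q = -1 := by
        rw [← pow_add, hpq, hodd.neg_one_pow]
      have h2 : (-1 : ℂ) ^ p * (-1) ^ p = 1 := by
        rw [← mul_pow]
        simp
      have h3 : (-1 : ℂ) ^ q = -(-1) ^ p := by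
        linear_combination (-1 : ℂ) ^ p * h1 - (-1 : ℂ) ^ q * h2
      rw [h3]
      ring
    · have hqp : q + p ≠ d j := by omega
      rw [if_neg hpq, if_neg hqp, add_zero]

end Cb

end Pool.Agent.L0h12.FF
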