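import Pool.Agent.L0h12.FF.Top

set_option autoImplicit false
set_option linter.unusedSectionVars false

/-!
# Symplectic representations of `sl(2)`: splitting off a string
-/

open Module

noncomputable section

namespace Pool.Agent.L0h12.FF

variable {V : Type} [AddCommGroup V] [Module ℂ V] [FiniteDimensional ℂ V]

/-- An infinitesimal isometry. -/
def Skew (ω : V →ₗ[ℂ] V →ₗ[ℂ] ℂ) (X : Module.End ℂ V) : Prop :=
  ∀ u w, ω (X u) w + ω u (X w) = 0

/-- A representation of `sl(2)` with an invariant alternating form. -/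
structure Sl (ω : V →ₗ[ℂ] V →ₗ[ℂ] ℂ) (e h f : Module.End ℂ V) : Prop where
  he : h * e - e * h = (2 : ℂ) • e
  hf : h * f - f * h = (-2 : ℂ) • f
  ef : e * f - f * e = h
  alt : ∀ x, ω x x = 0
  se : Skew ω e
  sh : Skew ω h
  sf : Skew ω f

variable {ω : V →ₗ[ℂ] V →ₗ[ℂ] ℂ} {e h f : Module.End ℂ V}

theorem anti (alt : ∀ x, ω x x = 0) (x y : V) : ω x y = -ω y x := by
  have h1 := alt (x + y)
  simp only [map_add, LinearMap.add_apply, alt, zero_add, add_zero] at h1
  exact eq_neg_of_add_eq_zero_right h1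

namespace Sl

variable (S : Sl ω e h f)
include S

theorem h_e {x : V} {c : ℂ} (hx : h x = c • x) : h (e x) = (c + 2) • e x := by
  have h1 := congrArg (fun z : Module.End ℂ V => z x) S.he
  change h (e x) - e (h x) = (2 : ℂ) • e x at h1
  rw [hx, map_smul, sub_eq_iff_eq_add] at h1
  rw [h1, add_smul, add_comm]

theorem h_f {x : V} {c : ℂ} (hx : h x = c • x) : h (f x) = (c - 2) • f x := by
  have h1 := congrArg (fun z : Module.End ℂ V => z x) S.hf
  change h (f x) - f (h x) = (-2 : ℂ) • f x at h1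
  rw [hx, map_smul, sub_eq_iff_eq_add] at h1
  rw [h1, sub_smul, neg_smul]
  abel

theorem h_pow {x : V} {c : ℂ} (hx : h x = c • x) (k : ℕ) :
    h ((f ^ k) x) = (c - 2 * k) • (f ^ k) x := by
  induction k with
  | zero => simpa using hx
  | succ k ih =>
    rw [pow_succ', Module.End.mul_apply, S.h_f ih]
    congr 1
    push_cast
    ring

theorem e_f (x : V) : e (f x) = f (e x) + h x := by
  have h1 := congrArg (fun z : Module.End ℂ V => z x) S.ef
  change e (f x) - f (e x) = h x at h1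
  rw [← h1]
  abel

theorem e_pow {x : V} {c : ℂ} (hx : h x = c • x) (hex : e x = 0) (k : ℕ) :
    e ((f ^ (k + 1)) x) = (((k : ℂ) + 1) * (c - k)) • (f ^ k) x := by
  induction k with
  | zero => rw [pow_one, S.e_f, hex, map_zero, hx]; simp
  | succ k ih =>
    rw [pow_succ' f (k + 1), Module.End.mul_apply, S.e_f, ih, map_smul, S.h_pow hx (k + 1),
      pow_succ' f k, Module.End.mul_apply, ← add_smul]
    congr 1
    push_cast
    ring

theorem e_pow' {x : V} {c : ℂ} (hx : h x = c • x) (hex : e x = 0) (k : ℕ) :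
    e ((f ^ k) x) = ((k : ℂ) * (c - k + 1)) • (f ^ (k - 1)) x := by
  cases k with
  | zero => rw [pow_zero, Module.End.one_apply, hex]; simp
  | succ k =>
    rw [S.e_pow hx hex, Nat.add_sub_cancel]
    congr 1
    push_cast
    ring

theorem w_orth {x y : V} {a b : ℂ} (hx : h x = a • x) (hy : h y = b • y) (hab : a + b ≠ 0) :
    ω x y = 0 := by
  have h1 := S.sh x y
  rw [hx, hy, map_smul, LinearMap.smul_apply, map_smul, smul_eq_mul, smul_eq_mul, ← add_mul] at h1
  exact (mul_eq_zero.1 h1).resolve_left hab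

/-- The strings are finite. -/
theorem exists_nat {x : V} {c : ℂ} (hx : h x = c • x) (hex : e x = 0) (hx0 : x ≠ 0) :
    ∃ n : ℕ, c = n ∧ (∀ k ≤ n, (f ^ k) x ≠ 0) ∧ (f ^ (n + 1)) x = 0 := by
  have h1 : ∃ k : ℕ, (f ^ k) x = 0 := by
    by_contra hne
    push Not at hne
    have h2 : Set.range (fun k : ℕ => c - 2 * (k : ℂ)) ⊆ {a | h.HasEigenvalue a} := by
      rintro _ ⟨k, rfl⟩
      exact Module.End.hasEigenvalue_of_hasEigenvector (x := (f ^ k) x)
        ⟨Module.End.mem_eigenspace_iff.2 (S.h_pow hx k), hne k⟩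
    have h3 : (Set.range (fun k : ℕ => c - 2 * (k : ℂ))).Infinite := by
      refine Set.infinite_range_of_injective fun a b hab => ?_
      have : (a : ℂ) = b := by
        have h4 : c - 2 * (a : ℂ) = c - 2 * (b : ℂ) := hab
        linear_combination (-1 / 2 : ℂ) * h4
      exact_mod_cast this
    exact h3 ((Module.End.finite_hasEigenvalue h).subset h2)
  classical
  let n := Nat.find h1
  have hn : (f ^ n) x = 0 := Nat.find_spec h1
  have hn' : ∀ k < n, (f ^ k) x ≠ 0 := fun k hk => Nat.find_min h1 hk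
  obtain ⟨m, hm⟩ : ∃ m, n = m + 1 := by
    refine Nat.exists_eq_succ_of_ne_zero fun h0 => ?_
    rw [h0, pow_zero, Module.End.one_apply] at hn
    exact hx0 hn
  rw [hm] at hn hn'
  have h2 := S.e_pow hx hex m
  rw [hn, map_zero] at h2
  have h3 := (smul_eq_zero.1 h2.symm).resolve_right (hn' m (Nat.lt_succ_self m))
  have h4 : (m : ℂ) + 1 ≠ 0 := by exact_mod_cast Nat.succ_ne_zero m
  refine ⟨m, sub_eq_zero.1 ((mul_eq_zero.1 h3).resolve_left h4), fun k hk => hn' k (by omega), hn⟩

theorem skew_pow (x y : V) (k : ℕ) : ω ((f ^ k) x) y = (-1) ^ k * ω x ((f ^ k) y) := by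
  induction k generalizing y with
  | zero => simp
  | succ k ih =>
    have h1 : (f ^ (k + 1)) x = f ((f ^ k) x) := by rw [pow_succ', Module.End.mul_apply]
    have h2 : (f ^ (k + 1)) y = (f ^ k) (f y) := by rw [pow_succ, Module.End.mul_apply]
    rw [h1, h2, eq_neg_of_add_eq_zero_left (S.sf ((f ^ k) x) y), ih, pow_succ]
    ring

end Sl

/-- A stable nondegenerate subspace spanned by eigenvectors of `h` with odd eigenvalues. -/
structure Nice (ω : V →ₗ[ℂ] V →ₗ[ℂ] ℂ) (e h f : Module.End ℂ V) (U : Submodule ℂ V) : Prop where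
  me : ∀ u ∈ U, e u ∈ U
  mh : ∀ u ∈ U, h u ∈ U
  mf : ∀ u ∈ U, f u ∈ U
  nd : ∀ u ∈ U, (∀ w ∈ U, ω u w = 0) → u = 0
  odd : U ≤ Submodule.span ℂ {w | w ∈ U ∧ ∃ m : ℤ, Odd m ∧ h w = (m : ℂ) • w}

/-- The complement of a string. -/
def Rest (ω : V →ₗ[ℂ] V →ₗ[ℂ] ℂ) (f : Module.End ℂ V) (U : Submodule ℂ V) (v : V) (d : ℕ) :
    Submodule ℂ V where
  carrier := {w | w ∈ U ∧ ∀ i ≤ d, ω ((f ^ i) v) w = 0}
  zero_mem' := ⟨U.zero_mem, fun i _ => map_zero _⟩
  add_mem' := fun {a b} ha hb => ⟨U.add_mem ha.1 hb.1, fun i hi => by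
    rw [map_add, ha.2 i hi, hb.2 i hi, add_zero]⟩
  smul_mem' := fun c a ha => ⟨U.smul_mem c ha.1, fun i hi => by
    rw [map_smul, ha.2 i hi, smul_zero]⟩

/-- A string, generated by `v`. -/
structure Str (ω : V →ₗ[ℂ] V →ₗ[ℂ] ℂ) (e h f : Module.End ℂ V) (U : Submodule ℂ V) (v : V) (d : ℕ) :
    Prop where
  mem : v ∈ U
  ev : e v = 0
  hv : h v = (d : ℂ) • v
  odd : Odd d
  fv : (f ^ (d + 1)) v = 0
  one : ω v ((f ^ d) v) = 1

theorem pow_mem {U : Submodule ℂ V} (hU : ∀ u ∈ U, f u ∈ U) {v : V} (hv : v ∈ U) (k : ℕ) :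
    (f ^ k) v ∈ U := by
  induction k with
  | zero => simpa using hv
  | succ k ih =>
    rw [pow_succ', Module.End.mul_apply]
    exact hU _ ih

/-- The component along the string. -/
def Str.prj (ω : V →ₗ[ℂ] V →ₗ[ℂ] ℂ) (f : Module.End ℂ V) (v : V) (d : ℕ) : V →ₗ[ℂ] V :=
  ∑ i ∈ Finset.range (d + 1), (((-1 : ℂ) ^ (d - i)) • (ω ((f ^ (d - i)) v))).smulRight ((f ^ i) v)

theorem Str.prj_apply (ω : V →ₗ[ℂ] V →ₗ[ℂ] ℂ) (f : Module.End ℂ V) (v : V) (d : ℕ) (u : V) :
    Str.prj ω f v d u = ∑ i ∈ Finset.range (d + 1),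
      ((-1 : ℂ) ^ (d - i) * ω ((f ^ (d - i)) v) u) • (f ^ i) v := by
  unfold Str.prj
  rw [LinearMap.sum_apply]
  rfl

namespace Str

variable {U : Submodule ℂ V} {v : V} {d : ℕ} (S : Sl ω e h f) (T : Str ω e h f U v d)
include S T

theorem form (i j : ℕ) : ω ((f ^ i) v) ((f ^ j) v) = if i + j = d then (-1) ^ i else 0 := by
  rw [S.skew_pow, ← Module.End.mul_apply, ← pow_add]
  split_ifs with hij
  · rw [hij, T.one, mul_one]
  · rw [S.w_orth T.hv (S.h_pow T.hv (i + j)), mul_zero]
    intro h1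
    apply hij
    have h2 : ((i + j : ℕ) : ℂ) = (d : ℂ) := by linear_combination (-1 / 2 : ℂ) * h1
    exact_mod_cast h2

theorem rest_mem {u : V} (hu : u ∈ U) (hf : ∀ u ∈ U, f u ∈ U) :
    u - prj ω f v d u ∈ Rest ω f U v d := by
  refine ⟨U.sub_mem hu ?_, fun j hj => ?_⟩
  · rw [prj_apply]
    exact U.sum_mem fun i _ => U.smul_mem _ (pow_mem hf T.mem i)
  · rw [map_sub, prj_apply, map_sum, Finset.sum_eq_single (d - j)]
    · rw [map_smul, smul_eq_mul, T.form S, if_pos (by omega), Nat.sub_sub_self hj]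
      have h1 : (-1 : ℂ) ^ j * (-1) ^ j = 1 := by rw [← mul_pow]; simp
      linear_combination (-(ω ((f ^ j) v)) u) * h1
    · intro i hi hij
      rw [Finset.mem_range] at hi
      rw [map_smul, T.form S, if_neg (by omega), smul_zero]
    · intro h1
      exact absurd (Finset.mem_range.2 (by omega)) h1

theorem rest_nice (hU : Nice ω e h f U) : Nice ω e h f (Rest ω f U v d) where
  me := fun w hw => by
    refine ⟨hU.me w hw.1, fun i hi => ?_⟩
    rw [eq_neg_of_add_eq_zero_right (S.se ((f ^ i) v) w), S.e_pow' T.hv T.ev, map_smul,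
      LinearMap.smul_apply, hw.2 (i - 1) (by omega), smul_zero, neg_zero]
  mh := fun w hw => by
    refine ⟨hU.mh w hw.1, fun i hi => ?_⟩
    rw [eq_neg_of_add_eq_zero_right (S.sh ((f ^ i) v) w), S.h_pow T.hv, map_smul,
      LinearMap.smul_apply, hw.2 i hi, smul_zero, neg_zero]
  mf := fun w hw => by
    refine ⟨hU.mf w hw.1, fun i hi => ?_⟩
    rw [eq_neg_of_add_eq_zero_right (S.sf ((f ^ i) v) w), ← Module.End.mul_apply, ← pow_succ']
    rcases Nat.lt_or_ge i d with h1 | h1
    · rw [hw.2 (i + 1) (by omega), neg_zero]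
    · have h2 : i = d := by omega
      rw [h2, T.fv, map_zero, LinearMap.zero_apply, neg_zero]
  nd := fun u hu h0 => by
    refine hU.nd u hu.1 fun w hw => ?_
    have h1 : w = (w - prj ω f v d w) + prj ω f v d w := by abel
    rw [h1, map_add, h0 _ (T.rest_mem S hw hU.mf), zero_add, prj_apply, map_sum]
    refine Finset.sum_eq_zero fun i hi => ?_
    rw [Finset.mem_range] at hi
    have h2 : ω u ((f ^ i) v) = 0 := by rw [anti S.alt, hu.2 i (by omega), neg_zero]
    rw [map_smul, h2, smul_zero]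
  odd := by
    intro w hw
    have h1 := hU.odd hw.1
    have key : ∀ u ∈ Submodule.span ℂ {w | w ∈ U ∧ ∃ m : ℤ, Odd m ∧ h w = (m : ℂ) • w},
        u - prj ω f v d u ∈ Submodule.span ℂ {w | w ∈ Rest ω f U v d ∧
          ∃ m : ℤ, Odd m ∧ h w = (m : ℂ) • w} := by
      intro u hu
      induction hu using Submodule.span_induction with
      | mem u hu =>
        obtain ⟨huU, m, hm, hu⟩ := hu
        refine Submodule.subset_span ⟨T.rest_mem S huU hU.mf, m, hm, ?_⟩
        rw [map_sub, hu, smul_sub]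
        congr 1
        rw [prj_apply, map_sum, Finset.smul_sum]
        refine Finset.sum_congr rfl fun i hi => ?_
        rw [Finset.mem_range] at hi
        rw [map_smul, S.h_pow T.hv, smul_smul, smul_smul]
        congr 1
        by_cases hm2 : ((d : ℂ) - 2 * i) = m
        · rw [hm2, mul_comm]
        · have h2 : ω ((f ^ (d - i)) v) u = 0 := by
            refine S.w_orth (S.h_pow T.hv (d - i)) hu fun h3 => hm2 ?_
            have h4 : ((d - i : ℕ) : ℂ) = d - i := by
              rw [Nat.cast_sub (by omega)]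
            rw [h4] at h3
            linear_combination -h3
          rw [h2, mul_zero, zero_mul, mul_zero]
      | zero => rw [map_zero, sub_zero]; exact Submodule.zero_mem _
      | add a b _ _ ha hb =>
        have h2 : a + b - prj ω f v d (a + b) = (a - prj ω f v d a) + (b - prj ω f v d b) := by
          rw [map_add]; abel
        rw [h2]
        exact Submodule.add_mem _ ha hb
      | smul c a _ ha =>
        rw [map_smul, ← smul_sub]
        exact Submodule.smul_mem _ _ ha
    have h2 := key w h1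
    have h3 : prj ω f v d w = 0 := by
      rw [prj_apply]
      refine Finset.sum_eq_zero fun i _ => ?_
      rw [hw.2 (d - i) (Nat.sub_le _ _), mul_zero, zero_smul]
    rwa [h3, sub_zero] at h2

theorem indep : LinearIndependent ℂ (fun i : Fin (d + 1) => (f ^ (i : ℕ)) v) := by
  rw [Fintype.linearIndependent_iff]
  intro g hg i
  have h1 := congrArg (fun x => ω ((f ^ (d - (i : ℕ))) v) x) hg
  simp only [map_sum, map_smul, map_zero, smul_eq_mul] at h1
  rw [Finset.sum_eq_single i] at h1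
  · rw [T.form S, if_pos (by omega)] at h1
    exact (mul_eq_zero.1 h1).resolve_right (pow_ne_zero _ (by norm_num))
  · intro j _ hj
    rw [T.form S, if_neg, mul_zero]
    intro h2
    apply hj
    apply Fin.ext
    omega
  · intro h2
    exact absurd (Finset.mem_univ _) h2

theorem finrank_rest (hf : ∀ u ∈ U, f u ∈ U) :
    finrank ℂ (Rest ω f U v d) + (d + 1) = finrank ℂ U := by
  let Q : Submodule ℂ V := Submodule.span ℂ (Set.range fun i : Fin (d + 1) => (f ^ (i : ℕ)) v)
  have h1 : finrank ℂ Q = d + 1 := by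
    have := finrank_span_eq_card (T.indep S)
    rwa [Fintype.card_fin] at this
  have h2 : Rest ω f U v d ⊔ Q = U := by
    refine le_antisymm (sup_le (fun w hw => hw.1) (Submodule.span_le.2 ?_)) fun u hu => ?_
    · rintro _ ⟨i, rfl⟩
      exact pow_mem hf T.mem i
    · have h3 : u = (u - prj ω f v d u) + prj ω f v d u := by abel
      rw [h3]
      refine Submodule.add_mem _ (Submodule.mem_sup_left (T.rest_mem S hu hf))
        (Submodule.mem_sup_right ?_)
      rw [prj_apply]
      refine Submodule.sum_mem _ fun i hi => Submodule.smul_mem _ _ (Submodule.subset_span ?_)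
      exact ⟨⟨i, Finset.mem_range.1 hi⟩, rfl⟩
  have h3 : Rest ω f U v d ⊓ Q = ⊥ := by
    rw [eq_bot_iff]
    rintro w ⟨hw, hwQ⟩
    rw [Submodule.mem_bot]
    obtain ⟨c, rfl⟩ := (Submodule.mem_span_range_iff_exists_fun ℂ).1 hwQ
    refine Finset.sum_eq_zero fun i _ => ?_
    have h4 := hw.2 (d - i) (Nat.sub_le _ _)
    rw [map_sum, Finset.sum_eq_single i] at h4
    · rw [map_smul, T.form S, if_pos (by omega)] at h4
      have h5 : c i = 0 := (mul_eq_zero.1 h4).resolve_right (pow_ne_zero _ (by norm_num))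
      rw [h5, zero_smul]
    · intro j _ hj
      rw [map_smul, T.form S, if_neg, smul_zero]
      intro h2
      apply hj
      apply Fin.ext
      omega
    · intro h2
      exact absurd (Finset.mem_univ _) h2
  have h4 := Submodule.finrank_sup_add_finrank_inf_eq (Rest ω f U v d) Q
  rw [h2, h3, finrank_bot, add_zero, h1] at h4
  exact h4.symm

end Str

/-- A nonzero nice subspace contains a string for its largest eigenvalue. -/
theorem Nice.exists_str (S : Sl ω e h f) {U : Submodule ℂ V} (hU : Nice ω e h f U) (h0 : U ≠ ⊥) :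
    ∃ (v : V) (d : ℕ), Str ω e h f U v d ∧ ∀ c : ℂ, ∀ w ∈ U, w ≠ 0 → h w = c • w →
      ∃ m : ℤ, c = m ∧ m ≤ d := by
  classical
  have key : ∀ w ∈ U, w ≠ 0 → ∃ y ∈ U, ∃ m : ℤ, Odd m ∧ h y = (m : ℂ) • y ∧ ω w y ≠ 0 := by
    intro w hw hw0
    by_contra hne
    push Not at hne
    refine hw0 (hU.nd w hw fun y hy => ?_)
    have h1 := hU.odd hy
    clear hy
    induction h1 using Submodule.span_induction with
    | mem y hy' =>
      obtain ⟨hy, m, hm, hy'⟩ := hy'
      exact hne y hy m hm hy'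
    | zero => exact map_zero _
    | add a b _ _ ha hb => rw [map_add, ha, hb, add_zero]
    | smul c a _ ha => rw [map_smul, ha, smul_zero]
  -- all eigenvalues are odd integers
  have hint : ∀ c : ℂ, ∀ w ∈ U, w ≠ 0 → h w = c • w → ∃ m : ℤ, Odd m ∧ c = m := by
    intro c w hw hw0 hc
    obtain ⟨y, _, m, hm, hy, hne⟩ := key w hw hw0
    refine ⟨-m, hm.neg, ?_⟩
    by_contra h1
    refine hne (S.w_orth hc hy fun h2 => h1 ?_)
    push_cast
    linear_combination h2
  -- the largest eigenvalue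
  let Z : Set ℤ := {m | ∃ w ∈ U, w ≠ 0 ∧ h w = (m : ℂ) • w}
  have hZfin : Z.Finite := by
    have h1 := Module.End.finite_hasEigenvalue h
    have h2 : Z ⊆ (fun m : ℤ => (m : ℂ)) ⁻¹' {a | h.HasEigenvalue a} := by
      rintro m ⟨w, _, hw0, hw⟩
      exact Module.End.hasEigenvalue_of_hasEigenvector (x := w)
        ⟨Module.End.mem_eigenspace_iff.2 hw, hw0⟩
    exact (h1.preimage (fun a _ b _ hab => by exact_mod_cast hab)).subset h2
  obtain ⟨u0, hu0, hu00⟩ := Submodule.exists_mem_ne_zero_of_ne_bot h0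
  have hZne : Z.Nonempty := by
    obtain ⟨y, hy, m, _, hym, hne⟩ := key u0 hu0 hu00
    exact ⟨m, y, hy, fun h1 => hne (by rw [h1, map_zero]), hym⟩
  obtain ⟨n, ⟨u, huU, hu0', hun⟩, hmax⟩ := hZfin.exists_maximalFor id Z hZne
  have hmax' : ∀ c : ℂ, ∀ w ∈ U, w ≠ 0 → h w = c • w → ∃ m : ℤ, c = m ∧ m ≤ n := by
    intro c w hw hw0 hc
    obtain ⟨m, _, rfl⟩ := hint c w hw hw0 hc
    refine ⟨m, rfl, ?_⟩
    by_contra h1
    have h2 := hmax (j := m) ⟨w, hw, hw0, hc⟩ (not_le.1 h1).le
    exact h1 h2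
  have htop : ∀ w ∈ U, h w = (n : ℂ) • w → e w = 0 := by
    intro w hw hwn
    by_contra h1
    obtain ⟨m, h2, h3⟩ := hmax' _ _ (hU.me w hw) h1 (S.h_e hwn)
    have h4 : m = n + 2 := by exact_mod_cast h2.symm
    omega
  obtain ⟨d, hd, hd1, hd2⟩ := S.exists_nat hun (htop u huU hun) hu0'
  have hnd : n = d := by exact_mod_cast hd
  subst hnd
  obtain ⟨n', hn', h2'⟩ := hint _ u huU hu0' hun
  have hodd : Odd d := by
    have h3 : (d : ℤ) = n' := by exact_mod_cast h2'
    rw [← h3] at hn'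
    exact_mod_cast hn'
  have hsymm : ∀ x y : V, ω x ((f ^ d) y) = ω y ((f ^ d) x) := by
    intro x y
    rw [anti S.alt, S.skew_pow, hodd.neg_one_pow]
    ring
  -- a vector which is not isotropic
  obtain ⟨v, hvU, hvn, hv1⟩ : ∃ v ∈ U, h v = ((d : ℤ) : ℂ) • v ∧ ω v ((f ^ d) v) ≠ 0 := by
    obtain ⟨y, hyU, m, hm, hy, hne⟩ := key ((f ^ d) u) (pow_mem hU.mf huU d) (hd1 d le_rfl)
    have hmd : m = d := by
      by_contra h1
      refine hne (S.w_orth (S.h_pow hun d) hy fun h2 => h1 ?_)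
      have h3 : (m : ℂ) = d := by
        push_cast at h2
        linear_combination h2
      exact_mod_cast h3
    subst hmd
    have hne' : ω u ((f ^ d) y) ≠ 0 := by
      intro h1
      apply hne
      rw [S.skew_pow, h1, mul_zero]
    by_contra hall
    push Not at hall
    have e1 := hall u huU hun
    have e2 := hall y hyU hy
    have e3 := hall (u + y) (U.add_mem huU hyU) (by rw [map_add, hun, hy, smul_add])
    have e4 := hsymm y u
    simp only [map_add, LinearMap.add_apply] at e3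
    apply hne'
    linear_combination (1 / 2 : ℂ) * e3 - (1 / 2 : ℂ) * e1 - (1 / 2 : ℂ) * e2 - (1 / 2 : ℂ) * e4
  obtain ⟨t, ht⟩ := IsAlgClosed.exists_pow_nat_eq (ω v ((f ^ d) v)) (n := 2) (by norm_num)
  have ht0 : t ≠ 0 := by
    rintro rfl
    apply hv1
    rw [← ht]
    norm_num
  have hvn' : h v = (d : ℂ) • v := by
    rw [hvn]
    norm_num
  refine ⟨t⁻¹ • v, d, ⟨U.smul_mem _ hvU, ?_, ?_, hodd, ?_, ?_⟩, ?_⟩
  · rw [map_smul, htop v hvU hvn, smul_zero]
  · rw [map_smul, hvn', smul_comm]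
  · by_cases hv0 : v = 0
    · rw [hv0, smul_zero, map_zero]
    · obtain ⟨d', h3, _, h5⟩ := S.exists_nat hvn (htop v hvU hvn) hv0
      have h6 : d' = d := by exact_mod_cast h3.symm
      rw [map_smul, ← h6, h5, smul_zero]
  · rw [map_smul, map_smul, LinearMap.smul_apply, map_smul, smul_eq_mul, smul_eq_mul, ← ht]
    field_simp
  · exact hmax'

end Pool.Agent.L0h12.FF
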