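import Pool.Agent.L0h12.FF.Case8
import Pool.Agent.L0h12.FF.Peel

set_option autoImplicit false
set_option linter.unusedSectionVars false

/-!
# Invariant bilinear forms and contractions
-/

open Module

noncomputable section

namespace Pool.Agent.L0h12.FF

variable {V : Type} [AddCommGroup V] [Module ℂ V]

/-- The invariant alternating bilinear forms. -/
def GS (L : Submodule ℂ (Module.End ℂ V)) : Submodule ℂ (V →ₗ[ℂ] V →ₗ[ℂ] ℂ) where
  carrier := {β | (∀ x, β x x = 0) ∧ ∀ X ∈ L, Inv2 X β}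
  zero_mem' := ⟨fun _ => rfl, fun _ _ _ _ => add_zero _⟩
  add_mem' := fun {β γ} hβ hγ => ⟨fun x => by rw [LinearMap.add_apply, LinearMap.add_apply, hβ.1,
    hγ.1, add_zero], fun X hX x y => by
      simp only [LinearMap.add_apply]
      linear_combination hβ.2 X hX x y + hγ.2 X hX x y⟩
  smul_mem' := fun c β hβ => ⟨fun x => by rw [LinearMap.smul_apply, LinearMap.smul_apply, hβ.1,
    smul_zero], fun X hX x y => by
      simp only [LinearMap.smul_apply, smul_eq_mul]
      linear_combination c * hβ.2 X hX x y⟩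

/-- The combinations of products of two invariant alternating bilinear forms. -/
def WS (L : Submodule ℂ (Module.End ℂ V)) : Submodule ℂ (V → V → V → V → ℂ) :=
  Submodule.span ℂ {ψ | ∃ β ∈ GS L, ∃ γ ∈ GS L, ψ = wd β γ}

theorem wd_mem {L : Submodule ℂ (Module.End ℂ V)} {β γ : V →ₗ[ℂ] V →ₗ[ℂ] ℂ} (hβ : β ∈ GS L)
    (hγ : γ ∈ GS L) : wd β γ ∈ WS L := Submodule.subset_span ⟨β, hβ, γ, hγ, rfl⟩

/-- The alternating forms. -/
def AltS (V : Type) [AddCommGroup V] [Module ℂ V] : Submodule ℂ (V → V → V → V → ℂ) where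
  carrier := {α | Alt4 ℂ α}
  zero_mem' := by
    constructor
    · constructor <;> intros <;> simp
    all_goals intros; rfl
  add_mem' := fun {α β} hα hβ => by
    have h1 := hα.sub (hβ.smul (-1))
    have h2 : (fun x y z w => α x y z w - -1 * β x y z w) = α + β := by
      funext x y z w
      change α x y z w - -1 * β x y z w = α x y z w + β x y z w
      ring
    change Alt4 ℂ (α + β)
    rw [← h2]
    exact h1
  smul_mem' := fun c α hα => hα.smul c

/-- The forms killed by an operator. -/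
def InvS (X : Module.End ℂ V) : Submodule ℂ (V → V → V → V → ℂ) where
  carrier := {α | Inv4 X α}
  zero_mem' := fun _ _ _ _ => by simp
  add_mem' := fun {α β} hα hβ x y z w => by
    simp only [Pi.add_apply]
    linear_combination hα x y z w + hβ x y z w
  smul_mem' := fun c α hα x y z w => by
    simp only [Pi.smul_apply, smul_eq_mul]
    linear_combination c * hα x y z w

theorem mem_AltS {α : V → V → V → V → ℂ} : α ∈ AltS V ↔ Alt4 ℂ α := Iff.rfl
theorem mem_InvS {X : Module.End ℂ V} {α : V → V → V → V → ℂ} : α ∈ InvS X ↔ Inv4 X α := Iff.rfl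

theorem wd_AltS {β γ : V →ₗ[ℂ] V →ₗ[ℂ] ℂ} (hβ : ∀ x, β x x = 0) (hγ : ∀ x, γ x x = 0) :
    wd β γ ∈ AltS V := wd_alt hβ hγ

theorem wd_InvS {X : Module.End ℂ V} {β γ : V →ₗ[ℂ] V →ₗ[ℂ] ℂ} (hβ : Inv2 X β) (hγ : Inv2 X γ) :
    wd β γ ∈ InvS X := wd_inv hβ hγ

/-- The contraction. -/
def CT {ι : Type} [Fintype ι] (b b' : ι → V) {α : V → V → V → V → ℂ} (hα : Alt4 ℂ α) :
    V →ₗ[ℂ] V →ₗ[ℂ] ℂ :=
  LinearMap.mk₂ ℂ (fun x y => ∑ i, α (b i) (b' i) x y)
    (fun x x' y => by simp only [hα.a3, Finset.sum_add_distrib])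
    (fun c x y => by simp only [hα.s3, smul_eq_mul, Finset.mul_sum])
    (fun x y y' => by simp only [hα.a4, Finset.sum_add_distrib])
    (fun c x y => by simp only [hα.s4, smul_eq_mul, Finset.mul_sum])

theorem CT_apply {ι : Type} [Fintype ι] (b b' : ι → V) {α : V → V → V → V → ℂ} (hα : Alt4 ℂ α)
    (x y : V) : CT b b' hα x y = ∑ i, α (b i) (b' i) x y := rfl

theorem CT_alt {ι : Type} [Fintype ι] (b b' : ι → V) {α : V → V → V → V → ℂ} (hα : Alt4 ℂ α)
    (x : V) : CT b b' hα x x = 0 := by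
  rw [CT_apply]
  exact Finset.sum_eq_zero fun i _ => hα.z3 _ _ _

theorem Lin4.sum1 {α : V → V → V → V → ℂ} (hα : Lin4 ℂ α) {ι : Type} (s : Finset ι) (c : ι → ℂ)
    (b : ι → V) (y z w : V) : α (∑ i ∈ s, c i • b i) y z w = ∑ i ∈ s, c i * α (b i) y z w := by
  classical
  induction s using Finset.induction_on with
  | empty => simp [hα.z1]
  | insert a s ha ih => rw [Finset.sum_insert ha, Finset.sum_insert ha, hα.a1, hα.s1, ih]

theorem Lin4.sum2 {α : V → V → V → V → ℂ} (hα : Lin4 ℂ α) {ι : Type} (s : Finset ι) (c : ι → ℂ)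
    (b : ι → V) (x z w : V) : α x (∑ i ∈ s, c i • b i) z w = ∑ i ∈ s, c i * α x (b i) z w := by
  classical
  induction s using Finset.induction_on with
  | empty => simp [hα.z2]
  | insert a s ha ih => rw [Finset.sum_insert ha, Finset.sum_insert ha, hα.a2, hα.s2, ih]

theorem CT_inv {ι : Type} [Fintype ι] {b b' : ι → V} {α : V → V → V → V → ℂ} (hα : Alt4 ℂ α)
    {X : Module.End ℂ V} (hX : Inv4 X α) (c : ι → ι → ℂ) (hb : ∀ i, X (b i) = ∑ j, c i j • b j)
    (hb' : ∀ i, X (b' i) = ∑ j, (-c j i) • b' j) : Inv2 X (CT b b' hα) := by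
  intro x y
  rw [CT_apply, CT_apply, ← Finset.sum_add_distrib]
  have h1 : ∑ i, (α (X (b i)) (b' i) x y + α (b i) (X (b' i)) x y) = 0 := by
    have h2 : ∀ i, α (X (b i)) (b' i) x y + α (b i) (X (b' i)) x y =
        ∑ j, c i j * α (b j) (b' i) x y - ∑ j, c j i * α (b i) (b' j) x y := by
      intro i
      rw [hb, hb', hα.toLin4.sum1, hα.toLin4.sum2, sub_eq_add_neg, ← Finset.sum_neg_distrib]
      congr 1
      refine Finset.sum_congr rfl fun j _ => ?_
      ring
    simp only [h2]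
    rw [Finset.sum_sub_distrib, Finset.sum_comm (f := fun i j => c j i * α (b i) (b' j) x y)]
    exact sub_self _
  have h2 : ∑ i, (α (b i) (b' i) (X x) y + α (b i) (b' i) x (X y)) +
      ∑ i, (α (X (b i)) (b' i) x y + α (b i) (X (b' i)) x y) = 0 := by
    rw [← Finset.sum_add_distrib]
    refine Finset.sum_eq_zero fun i _ => ?_
    linear_combination hX (b i) (b' i) x y
  rw [h1, add_zero] at h2
  exact h2

/-- The two families are dual bases of a subspace. -/
structure Du (ω : V →ₗ[ℂ] V →ₗ[ℂ] ℂ) {ι : Type} [Fintype ι] (U : Submodule ℂ V) (b b' : ι → V) :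
    Prop where
  mb : ∀ i, b i ∈ U
  mb' : ∀ i, b' i ∈ U
  ex : ∀ x ∈ U, x = ∑ j, ω x (b' j) • b j
  ex' : ∀ x ∈ U, x = ∑ j, ω (b j) x • b' j

theorem Du.mk' {ω : V →ₗ[ℂ] V →ₗ[ℂ] ℂ} {ι : Type} [Fintype ι] [DecidableEq ι] {U : Submodule ℂ V}
    {b b' : ι → V} (mb : ∀ i, b i ∈ U) (mb' : ∀ i, b' i ∈ U)
    (hs : U ≤ Submodule.span ℂ (Set.range b)) (hs' : U ≤ Submodule.span ℂ (Set.range b'))
    (hG : ∀ i j, ω (b i) (b' j) = if i = j then 1 else 0) : Du ω U b b' where
  mb := mb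
  mb' := mb'
  ex := fun x hx => by
    obtain ⟨c, rfl⟩ := (Submodule.mem_span_range_iff_exists_fun ℂ).1 (hs hx)
    refine Finset.sum_congr rfl fun j _ => ?_
    congr 1
    rw [map_sum, LinearMap.sum_apply, Finset.sum_eq_single j]
    · rw [map_smul, LinearMap.smul_apply, hG, if_pos rfl, smul_eq_mul, mul_one]
    · intro i _ hi
      rw [map_smul, LinearMap.smul_apply, hG, if_neg hi, smul_zero]
    · intro h1
      exact absurd (Finset.mem_univ _) h1
  ex' := fun x hx => by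
    obtain ⟨c, rfl⟩ := (Submodule.mem_span_range_iff_exists_fun ℂ).1 (hs' hx)
    refine Finset.sum_congr rfl fun j _ => ?_
    congr 1
    rw [map_sum, Finset.sum_eq_single j]
    · rw [map_smul, hG, if_pos rfl, smul_eq_mul, mul_one]
    · intro i _ hi
      rw [map_smul, hG, if_neg (Ne.symm hi), smul_zero]
    · intro h1
      exact absurd (Finset.mem_univ _) h1

theorem Du.ct {ω : V →ₗ[ℂ] V →ₗ[ℂ] ℂ} {ι : Type} [Fintype ι] {U : Submodule ℂ V}
    {b b' : ι → V} (D : Du ω U b b') {α : V → V → V → V → ℂ} (hα : Alt4 ℂ α)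
    {X : Module.End ℂ V} (hX : Inv4 X α) (hsk : Skew ω X) (hst : ∀ x ∈ U, X x ∈ U) :
    Inv2 X (CT b b' hα) := by
  refine CT_inv hα hX (fun i j => ω (X (b i)) (b' j)) (fun i => D.ex _ (hst _ (D.mb i))) fun i => ?_
  have h1 := D.ex' _ (hst _ (D.mb' i))
  rw [h1]
  refine Finset.sum_congr rfl fun j _ => ?_
  congr 1
  exact eq_neg_of_add_eq_zero_right (hsk (b j) (b' i))

/-- An elementary alternating form. -/
def el (ω : V →ₗ[ℂ] V →ₗ[ℂ] ℂ) (u v : V) : V →ₗ[ℂ] V →ₗ[ℂ] ℂ :=
  LinearMap.mk₂ ℂ (fun x y => ω x u * ω y v - ω x v * ω y u)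
    (fun x x' y => by simp only [map_add, LinearMap.add_apply]; ring)
    (fun c x y => by simp only [map_smul, LinearMap.smul_apply, smul_eq_mul]; ring)
    (fun x y y' => by simp only [map_add, LinearMap.add_apply]; ring)
    (fun c x y => by simp only [map_smul, LinearMap.smul_apply, smul_eq_mul]; ring)

theorem el_apply (ω : V →ₗ[ℂ] V →ₗ[ℂ] ℂ) (u v x y : V) :
    el ω u v x y = ω x u * ω y v - ω x v * ω y u := rfl

theorem el_alt (ω : V →ₗ[ℂ] V →ₗ[ℂ] ℂ) (u v x : V) : el ω u v x x = 0 := by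
  rw [el_apply]
  ring

theorem el_inv {ω : V →ₗ[ℂ] V →ₗ[ℂ] ℂ} {X : Module.End ℂ V} (hsk : Skew ω X) (u v x y : V) :
    el ω u v (X x) y + el ω u v x (X y) = -(el ω (X u) v x y + el ω u (X v) x y) := by
  simp only [el_apply]
  have h1 := hsk x u
  have h2 := hsk x v
  have h3 := hsk y u
  have h4 := hsk y v
  linear_combination ω y v * h1 - ω y u * h2 - ω x v * h3 + ω x u * h4

/-- Bilinear forms which agree on a spanning set are equal. -/
theorem ext2 {ι : Type} {b : ι → V} (hb : (⊤ : Submodule ℂ V) ≤ Submodule.span ℂ (Set.range b))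
    {β γ : V →ₗ[ℂ] V →ₗ[ℂ] ℂ} (h : ∀ i j, β (b i) (b j) = γ (b i) (b j)) : β = γ := by
  have h1 : ∀ i, β (b i) = γ (b i) := by
    intro i
    refine LinearMap.ext fun y => ?_
    have hy := hb (Submodule.mem_top (x := y))
    induction hy using Submodule.span_induction with
    | mem w hw => obtain ⟨m, rfl⟩ := hw; exact h i m
    | zero => rw [map_zero, map_zero]
    | add a b _ _ ha hb => rw [map_add, map_add, ha, hb]
    | smul c a _ ha => rw [map_smul, map_smul, ha]
  refine LinearMap.ext fun y => ?_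
  have hy := hb (Submodule.mem_top (x := y))
  induction hy using Submodule.span_induction with
  | mem w hw => obtain ⟨m, rfl⟩ := hw; exact h1 m
  | zero => rw [map_zero, map_zero]
  | add a b _ _ ha hb => rw [map_add, map_add, ha, hb]
  | smul c a _ ha => rw [map_smul, map_smul, ha]

/-- To check invariance it suffices to consider a spanning set. -/
theorem inv2_of {ι : Type} {b : ι → V} (hb : (⊤ : Submodule ℂ V) ≤ Submodule.span ℂ (Set.range b))
    {X : Module.End ℂ V} {β : V →ₗ[ℂ] V →ₗ[ℂ] ℂ}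
    (h : ∀ i j, β (X (b i)) (b j) + β (b i) (X (b j)) = 0) : Inv2 X β := by
  have h1 : β.comp X + β.compl₂ X = 0 := by
    refine ext2 hb fun i j => ?_
    exact h i j
  intro x y
  exact congrArg (fun F : V →ₗ[ℂ] V →ₗ[ℂ] ℂ => F x y) h1

/-- The final argument. -/
theorem eq_of_vanish {b : Fin 8 → V} (hb : (⊤ : Submodule ℂ V) ≤ Submodule.span ℂ (Set.range b))
    {α Φ : V → V → V → V → ℂ} (hα : Alt4 ℂ (α - Φ))
    (h : ∀ i j l m, (α - Φ) (b i) (b j) (b l) (b m) = 0) : α = Φ := by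
  funext x y z w
  exact sub_eq_zero.1 (hα.toLin4.ext hb h x y z w)

end Pool.Agent.L0h12.FF
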