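import Pool.Agent.L0h12.FF.Form

set_option autoImplicit false
set_option linter.unusedSectionVars false
set_option linter.unusedSimpArgs false

/-!
# Descent to the rational numbers
-/

open Module Function Polynomial TensorProduct

noncomputable section

namespace Pool.Agent.L0h12.FF

open Pool.Agent.Y102 Pool.Agent.W516.DR Pool.Agent.H204R3.GP Pool.Agent.W516.KC
  Pool.Agent.H204R3.SP

attribute [local instance 100] LieRing.ofAssociativeRing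

variable {g : ℕ} (A : AbVar g)

/-- The complex combinations of the forms given by endomorphisms. -/
def BQ : Submodule ℂ (A.H1 → A.H1 → ℂ) :=
  Submodule.span ℂ {f | ∃ Q ∈ A.EA, f = fun u v => algebraMap ℚ ℂ (A.om (Q u) v)}

theorem exists_end (β : ℂ ⊗[ℚ] A.H1 →ₗ[ℂ] ℂ ⊗[ℚ] A.H1 →ₗ[ℂ] ℂ) :
    ∃ T : Module.End ℂ (ℂ ⊗[ℚ] A.H1), ∀ x y, omC A (T x) y = β x y := by
  have h1 : Function.Injective (omC A) := by
    rw [injective_iff_map_eq_zero]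
    intro u hu
    apply omC_nondeg
    intro v
    rw [hu]
    rfl
  have h2 : Function.Surjective (omC A) := by
    rw [← LinearMap.injective_iff_surjective_of_finrank_eq_finrank]
    · exact h1
    · rw [← Subspace.dual_finrank_eq]
  let e := LinearEquiv.ofBijective (omC A) ⟨h1, h2⟩
  refine ⟨e.symm.toLinearMap ∘ₗ β, fun x y => ?_⟩
  have h3 : omC A (e.symm (β x)) = β x := e.apply_symm_apply (β x)
  exact congrArg (fun F : ℂ ⊗[ℚ] A.H1 →ₗ[ℂ] ℂ => F y) h3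

theorem mem_BQ {β : ℂ ⊗[ℚ] A.H1 →ₗ[ℂ] ℂ ⊗[ℚ] A.H1 →ₗ[ℂ] ℂ}
    (hβ : β ∈ GS (LC A).toSubmodule) :
    (fun u v => β ((1 : ℂ) ⊗ₜ[ℚ] u) ((1 : ℂ) ⊗ₜ[ℚ] v)) ∈ BQ A := by
  obtain ⟨T, hT⟩ := exists_end A β
  have h1 : T ∈ extEnd ℂ (fun Q => Q ∈ A.EA) := by
    refine end_mem_span _ T fun lam X hX => ?_
    refine (comm_cmp ?_ lam).symm
    refine LinearMap.ext fun x => ?_
    rw [← sub_eq_zero]
    apply omC_nondeg
    intro y
    have hXs := omC_skew A (bc_mem hX) (T x) y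
    have hb := hβ.2 _ (bc_mem hX) x y
    rw [← hT, ← hT] at hb
    rw [Module.End.mul_apply, Module.End.mul_apply, map_sub, LinearMap.sub_apply]
    linear_combination hb - hXs
  have h2 : (fun u v => β ((1 : ℂ) ⊗ₜ[ℚ] u) ((1 : ℂ) ⊗ₜ[ℚ] v)) =
      fun u v => omC A (T ((1 : ℂ) ⊗ₜ[ℚ] u)) ((1 : ℂ) ⊗ₜ[ℚ] v) := by
    funext u v
    rw [hT]
  rw [h2]
  clear hT h2
  unfold extEnd at h1
  induction h1 using Submodule.span_induction with
  | mem T hT =>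
    obtain ⟨Q, hQ, rfl⟩ := hT
    refine Submodule.subset_span ⟨Q, hQ, ?_⟩
    funext u v
    rw [LinearMap.baseChange_tmul, omC_one]
  | zero =>
    simp only [LinearMap.zero_apply, map_zero]
    exact Submodule.zero_mem _
  | add a b _ _ ha hb =>
    have h3 : (fun u v => omC A ((a + b) ((1 : ℂ) ⊗ₜ[ℚ] u)) ((1 : ℂ) ⊗ₜ[ℚ] v)) =
        (fun u v => omC A (a ((1 : ℂ) ⊗ₜ[ℚ] u)) ((1 : ℂ) ⊗ₜ[ℚ] v)) +
        fun u v => omC A (b ((1 : ℂ) ⊗ₜ[ℚ] u)) ((1 : ℂ) ⊗ₜ[ℚ] v) := by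
      funext u v
      rw [Pi.add_apply, Pi.add_apply, LinearMap.add_apply, map_add, LinearMap.add_apply]
    rw [h3]
    exact Submodule.add_mem _ ha hb
  | smul c a _ ha =>
    have h3 : (fun u v => omC A ((c • a) ((1 : ℂ) ⊗ₜ[ℚ] u)) ((1 : ℂ) ⊗ₜ[ℚ] v)) =
        c • fun u v => omC A (a ((1 : ℂ) ⊗ₜ[ℚ] u)) ((1 : ℂ) ⊗ₜ[ℚ] v) := by
      funext u v
      rw [Pi.smul_apply, Pi.smul_apply, LinearMap.smul_apply, map_smul, LinearMap.smul_apply]
    rw [h3]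
    exact Submodule.smul_mem _ _ ha

/-- The functions given by products. -/
def SP4 : Submodule ℂ ((Fin 2 × Fin 2 → A.H1) → ℂ) :=
  Submodule.span ℂ {f | ∃ ψ ∈ AbVar.LefProd A A.EA 2, f = fun v => algebraMap ℚ ℂ (ψ v)}

theorem prod_mem (σ : Equiv.Perm (Fin 2 × Fin 2)) {Q R : Module.End ℚ A.H1} (hQ : Q ∈ A.EA)
    (hR : R ∈ A.EA) :
    (fun v : Fin 2 × Fin 2 → A.H1 => algebraMap ℚ ℂ (A.om (Q (v (σ (0, 0)))) (v (σ (0, 1)))) *
      algebraMap ℚ ℂ (A.om (R (v (σ (1, 0)))) (v (σ (1, 1))))) ∈ SP4 A := by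
  refine Submodule.subset_span ⟨mmG σ (fun l => A.om.comp (![Q, R] l)), ⟨σ, ![Q, R], ?_,
    fun v => ?_⟩, ?_⟩
  · intro l
    fin_cases l
    · exact hQ
    · exact hR
  · rw [mmG_apply]
    rfl
  · funext v
    rw [mmG_apply, Fin.prod_univ_two, map_mul]
    rfl

/-- The same for combinations. -/
theorem prod_mem' (σ : Equiv.Perm (Fin 2 × Fin 2)) {b c : A.H1 → A.H1 → ℂ} (hb : b ∈ BQ A)
    (hc : c ∈ BQ A) :
    (fun v : Fin 2 × Fin 2 → A.H1 => b (v (σ (0, 0))) (v (σ (0, 1))) *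
      c (v (σ (1, 0))) (v (σ (1, 1)))) ∈ SP4 A := by
  unfold BQ at hb
  induction hb using Submodule.span_induction with
  | mem b hb =>
    obtain ⟨Q, hQ, rfl⟩ := hb
    unfold BQ at hc
    induction hc using Submodule.span_induction with
    | mem c hc =>
      obtain ⟨R, hR, rfl⟩ := hc
      exact prod_mem A σ hQ hR
    | zero =>
      simp only [Pi.zero_apply, mul_zero]
      exact Submodule.zero_mem _
    | add a b _ _ ha hb =>
      have h1 := Submodule.add_mem _ ha hb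
      refine (congrArg (· ∈ SP4 A) ?_).mp h1
      funext v
      simp only [Pi.add_apply]
      ring
    | smul t a _ ha =>
      have h1 := Submodule.smul_mem _ t ha
      refine (congrArg (· ∈ SP4 A) ?_).mp h1
      funext v
      simp only [Pi.smul_apply, smul_eq_mul]
      ring
  | zero =>
    simp only [Pi.zero_apply, zero_mul]
    exact Submodule.zero_mem _
  | add a b _ _ ha hb =>
    have h1 := Submodule.add_mem _ ha hb
    refine (congrArg (· ∈ SP4 A) ?_).mp h1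
    funext v
    simp only [Pi.add_apply]
    ring
  | smul t a _ ha =>
    have h1 := Submodule.smul_mem _ t ha
    refine (congrArg (· ∈ SP4 A) ?_).mp h1
    funext v
    simp only [Pi.smul_apply, smul_eq_mul]
    ring

/-- The restriction to the rational vectors. -/
def resQ : ((ℂ ⊗[ℚ] A.H1) → (ℂ ⊗[ℚ] A.H1) → (ℂ ⊗[ℚ] A.H1) → (ℂ ⊗[ℚ] A.H1) → ℂ) →ₗ[ℂ]
    ((Fin 2 × Fin 2 → A.H1) → ℂ) where
  toFun α v := α ((1 : ℂ) ⊗ₜ[ℚ] v (0, 0)) ((1 : ℂ) ⊗ₜ[ℚ] v (0, 1)) ((1 : ℂ) ⊗ₜ[ℚ] v (1, 0))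
    ((1 : ℂ) ⊗ₜ[ℚ] v (1, 1))
  map_add' _ _ := rfl
  map_smul' _ _ := rfl

theorem resQ_mem {α : (ℂ ⊗[ℚ] A.H1) → (ℂ ⊗[ℚ] A.H1) → (ℂ ⊗[ℚ] A.H1) → (ℂ ⊗[ℚ] A.H1) → ℂ}
    (hα : α ∈ WS (LC A).toSubmodule) : resQ A α ∈ SP4 A := by
  unfold WS at hα
  induction hα using Submodule.span_induction with
  | mem α hα =>
    obtain ⟨β, hβ, γ, hγ, rfl⟩ := hα
    have b1 := mem_BQ A hβ
    have b2 := mem_BQ A hγ
    have c1 := prod_mem' A 1 b1 b2
    have c2 := prod_mem' A (Equiv.swap (0, 1) (1, 0)) b1 b2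
    have c3 := prod_mem' A (Equiv.swap (0, 1) (1, 1) * Equiv.swap (1, 0) (1, 1)) b1 b2
    have c4 := prod_mem' A 1 b2 b1
    have c5 := prod_mem' A (Equiv.swap (0, 1) (1, 0)) b2 b1
    have c6 := prod_mem' A (Equiv.swap (0, 1) (1, 1) * Equiv.swap (1, 0) (1, 1)) b2 b1
    have s1 : (Equiv.swap (0, 1) (1, 0) : Equiv.Perm (Fin 2 × Fin 2)) (0, 0) = (0, 0) := by decide
    have s2 : (Equiv.swap (0, 1) (1, 0) : Equiv.Perm (Fin 2 × Fin 2)) (0, 1) = (1, 0) := by decide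
    have s3 : (Equiv.swap (0, 1) (1, 0) : Equiv.Perm (Fin 2 × Fin 2)) (1, 0) = (0, 1) := by decide
    have s4 : (Equiv.swap (0, 1) (1, 0) : Equiv.Perm (Fin 2 × Fin 2)) (1, 1) = (1, 1) := by decide
    have t1 : (Equiv.swap (0, 1) (1, 1) * Equiv.swap (1, 0) (1, 1) : Equiv.Perm (Fin 2 × Fin 2))
      (0, 0) = (0, 0) := by decide
    have t2 : (Equiv.swap (0, 1) (1, 1) * Equiv.swap (1, 0) (1, 1) : Equiv.Perm (Fin 2 × Fin 2))
      (0, 1) = (1, 1) := by decide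
    have t3 : (Equiv.swap (0, 1) (1, 1) * Equiv.swap (1, 0) (1, 1) : Equiv.Perm (Fin 2 × Fin 2))
      (1, 0) = (0, 1) := by decide
    have t4 : (Equiv.swap (0, 1) (1, 1) * Equiv.swap (1, 0) (1, 1) : Equiv.Perm (Fin 2 × Fin 2))
      (1, 1) = (1, 0) := by decide
    rw [s1, s2, s3, s4] at c2 c5
    rw [t1, t2, t3, t4] at c3 c6
    have h1 := Submodule.add_mem _ (Submodule.add_mem _ (Submodule.sub_mem _ c1 c2) c3)
      (Submodule.add_mem _ (Submodule.sub_mem _ c4 c5) c6)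
    refine (congrArg (· ∈ SP4 A) ?_).mp h1
    funext v
    change _ = wd β γ ((1 : ℂ) ⊗ₜ[ℚ] v (0, 0)) ((1 : ℂ) ⊗ₜ[ℚ] v (0, 1)) ((1 : ℂ) ⊗ₜ[ℚ] v (1, 0))
      ((1 : ℂ) ⊗ₜ[ℚ] v (1, 1))
    simp only [Pi.add_apply, Pi.sub_apply, Equiv.Perm.one_apply, wd]
    ring
  | zero => rw [map_zero]; exact Submodule.zero_mem _
  | add a b _ _ ha hb => rw [map_add]; exact Submodule.add_mem _ ha hb
  | smul c a _ ha => rw [map_smul]; exact Submodule.smul_mem _ _ ha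

/-- Descent. -/
theorem descend {φ : MultilinearMap ℚ (fun _ : Fin 2 × Fin 2 => A.H1) ℚ}
    (h : (fun v => algebraMap ℚ ℂ (φ v)) ∈ SP4 A) :
    φ ∈ Submodule.span ℚ (AbVar.LefProd A A.EA 2) := by
  let inc : MultilinearMap ℚ (fun _ : Fin 2 × Fin 2 => A.H1) ℚ →ₗ[ℚ]
      ((Fin 2 × Fin 2 → A.H1) → ℚ) :=
    { toFun := fun ψ v => ψ v
      map_add' := fun _ _ => rfl
      map_smul' := fun _ _ => rfl }
  have h1 : (fun v => φ v) ∈ Submodule.span ℚ (inc '' AbVar.LefProd A A.EA 2) := by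
    refine span_descent_k (k := ℚ) (Ω := ℂ) _ _ ?_
    refine Submodule.span_mono ?_ h
    rintro _ ⟨ψ, hψ, rfl⟩
    exact ⟨_, ⟨ψ, hψ, rfl⟩, rfl⟩
  rw [← Submodule.map_span] at h1
  obtain ⟨ψ, hψ, hψ'⟩ := h1
  have h2 : ψ = φ := MultilinearMap.ext fun v => congrFun hψ' v
  rw [← h2]
  exact hψ

end Pool.Agent.L0h12.FF
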