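import Pool.Agent.L0h12.FF.Blk

set_option autoImplicit false
set_option linter.unusedSectionVars false
set_option linter.unusedSimpArgs false
set_option maxRecDepth 100000

/-!
# The invariants in the third case
-/

open Module

noncomputable section

namespace Pool.Agent.L0h12.FF

variable {V : Type} [AddCommGroup V] [Module ℂ V] [FiniteDimensional ℂ V]

/-- the Gram matrix -/
def G422 : Fin 8 → Fin 8 → ℂ := ![![0, 0, 0, 1, 0, 0, 0, 0], ![0, 0, -1, 0, 0, 0, 0, 0],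
  ![0, 1, 0, 0, 0, 0, 0, 0], ![-1, 0, 0, 0, 0, 0, 0, 0], ![0, 0, 0, 0, 0, 1, 0, 0],
  ![0, 0, 0, 0, -1, 0, 0, 0], ![0, 0, 0, 0, 0, 0, 0, 1], ![0, 0, 0, 0, 0, 0, -1, 0]]

theorem G422_cross : ∀ i j : Fin 8, 4 ≤ i → j < 4 → G422 i j = 0 := by
  intro i j hi hj
  fin_cases i <;> fin_cases j <;> first | rfl | (exfalso; revert hi hj; decide)

theorem om3_h {ω : V →ₗ[ℂ] V →ₗ[ℂ] ℂ} {h : Module.End ℂ V} (hsk : Skew ω h) {b : Fin 8 → V}
    (h0 : h (b 0) = (3 : ℂ) • b 0) (h1 : h (b 1) = (1 : ℂ) • b 1) (h2 : h (b 2) = (-1 : ℂ) • b 2)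
    (h3 : h (b 3) = (-3 : ℂ) • b 3) : Inv2 h (om3 ω b) := by
  intro x y
  have e1 := el_inv hsk (b 0) (b 3) x y
  have e2 := el_inv hsk (b 1) (b 2) x y
  rw [h0, h3] at e1
  rw [h1, h2] at e2
  simp only [el_apply, map_smul, LinearMap.smul_apply, smul_eq_mul] at e1 e2
  simp only [om3_apply]
  linear_combination e1 - e2

theorem om3_f {ω : V →ₗ[ℂ] V →ₗ[ℂ] ℂ} {f : Module.End ℂ V} (hsk : Skew ω f) {b : Fin 8 → V}
    (f0 : f (b 0) = b 1) (f1 : f (b 1) = b 2) (f2 : f (b 2) = b 3) (f3 : f (b 3) = 0) :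
    Inv2 f (om3 ω b) := by
  intro x y
  have e1 := el_inv hsk (b 0) (b 3) x y
  have e2 := el_inv hsk (b 1) (b 2) x y
  rw [f0, f3] at e1
  rw [f1, f2] at e2
  simp only [el_apply, map_zero] at e1 e2
  simp only [om3_apply]
  linear_combination e1 - e2

theorem fin422 {L : Submodule ℂ (Module.End ℂ V)} {ω : V →ₗ[ℂ] V →ₗ[ℂ] ℂ} {h f : Module.End ℂ V}
    {α : V → V → V → V → ℂ} (D : Dat L ω h f α) {b : Fin 8 → V}
    (hb : (⊤ : Submodule ℂ V) ≤ Submodule.span ℂ (Set.range b))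
    (hw : ∀ i, h (b i) = (w422 i : ℂ) • b i)
    (f0 : f (b 0) = b 1) (f1 : f (b 1) = b 2) (f2 : f (b 2) = b 3) (f3 : f (b 3) = 0)
    (f4 : f (b 4) = b 5) (f5 : f (b 5) = 0) (f6 : f (b 6) = b 7) (f7 : f (b 7) = 0)
    (hG : ∀ i j, ω (b i) (b j) = G422 i j) : α ∈ WS L := by
  have B : Blk ω b := by
    refine Blk.mk' D.alt hG ?_ ?_ ?_ ?_ ?_ ?_ ?_ ?_ ?_ ?_ ?_ ?_ ?_ ?_ ?_ ?_ G422_cross <;>
      simp [G422]
  have h3alt := om3_alt ω b
  have h3h : Inv2 h (om3 ω b) := by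
    refine om3_h (D.sk h D.hL) ?_ ?_ ?_ ?_ <;> rw [hw] <;> simp [w422]
  have h3f : Inv2 f (om3 ω b) := om3_f (D.sk f D.fL) f0 f1 f2 f3
  let ω' := ω - om3 ω b
  have h'eq : ∀ x y, ω' x y = ω x y - om3 ω b x y := fun _ _ => rfl
  have h'alt : ∀ x, ω' x x = 0 := fun x => by rw [h'eq, D.alt, h3alt, sub_zero]
  have h'h : Inv2 h ω' := fun x y => by
    rw [h'eq, h'eq]
    linear_combination D.sk h D.hL x y - h3h x y
  have h'f : Inv2 f ω' := fun x y => by
    rw [h'eq, h'eq]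
    linear_combination D.sk f D.fL x y - h3f x y
  -- the contraction
  let b' : Fin 8 → V := ![b 3, -b 2, b 1, -b 0, b 5, -b 4, b 7, -b 6]
  have hDu : Du ω ⊤ b b' := by
    refine Du.mk' (fun _ => Submodule.mem_top) (fun _ => Submodule.mem_top) hb ?_ ?_
    · refine hb.trans (Submodule.span_le.2 ?_)
      rintro _ ⟨i, rfl⟩
      have hm : ∀ j, b' j ∈ Submodule.span ℂ (Set.range b') := fun j =>
        Submodule.subset_span ⟨j, rfl⟩
      have hn : ∀ j, -b' j ∈ Submodule.span ℂ (Set.range b') := fun j =>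
        Submodule.neg_mem _ (hm j)
      fin_cases i
      · simpa [b'] using hn 3
      · simpa [b'] using hm 2
      · simpa [b'] using hn 1
      · simpa [b'] using hm 0
      · simpa [b'] using hn 5
      · simpa [b'] using hm 4
      · simpa [b'] using hn 7
      · simpa [b'] using hm 6
    · intro i j
      fin_cases i <;> fin_cases j <;> simp [b', hG, G422]
  let C : V →ₗ[ℂ] V →ₗ[ℂ] ℂ := CT b b' D.hα
  have hC : C ∈ GS L := ⟨CT_alt b b' D.hα, fun X hX =>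
    hDu.ct _ (D.inv X hX) (D.sk X hX) fun _ _ => Submodule.mem_top⟩
  have hCeq : ∀ x y, C x y = 2 * α (b 0) (b 3) x y - 2 * α (b 1) (b 2) x y +
      2 * α (b 4) (b 5) x y + 2 * α (b 6) (b 7) x y := by
    intro x y
    have h1 : C x y = ∑ i, α (b i) (b' i) x y := rfl
    have hb' : b' 0 = b 3 ∧ b' 1 = -b 2 ∧ b' 2 = b 1 ∧ b' 3 = -b 0 ∧ b' 4 = b 5 ∧ b' 5 = -b 4 ∧
        b' 6 = b 7 ∧ b' 7 = -b 6 := ⟨rfl, rfl, rfl, rfl, rfl, rfl, rfl, rfl⟩
    obtain ⟨c0, c1, c2, c3, c4, c5, c6, c7⟩ := hb'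
    have hneg : ∀ p q, α p (-q) x y = -α p q x y := fun p q => by
      have := D.hα.s2 (-1) p q x y
      rw [neg_one_smul] at this
      rw [this]; ring
    rw [h1, Fin.sum_univ_eight, c0, c1, c2, c3, c4, c5, c6, c7, hneg, hneg, hneg, hneg,
      D.hα.w1 (b 2) (b 1), D.hα.w1 (b 3) (b 0), D.hα.w1 (b 5) (b 4), D.hα.w1 (b 7) (b 6)]
    ring
  let R : V →ₗ[ℂ] V →ₗ[ℂ] ℂ := C - (C (b 0) (b 3)) • ω
  have hR : R ∈ GS L := Submodule.sub_mem _ hC (Submodule.smul_mem _ _ D.om)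
  have hReq : ∀ x y, R x y = C x y - C (b 0) (b 3) * ω x y := fun _ _ => rfl
  -- values
  let A0 := α (b 0) (b 1) (b 2) (b 3)
  let T11 := α (b 0) (b 3) (b 4) (b 5)
  let T12 := α (b 0) (b 3) (b 4) (b 7)
  let T22 := α (b 0) (b 3) (b 6) (b 7)
  let C0 := α (b 4) (b 5) (b 6) (b 7)
  have F : ∀ i j l m : Fin 8, α (f (b i)) (b j) (b l) (b m) + α (b i) (f (b j)) (b l) (b m) +
      α (b i) (b j) (f (b l)) (b m) + α (b i) (b j) (b l) (f (b m)) = 0 := fun i j l m =>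
    D.inv f D.fL _ _ _ _
  have L4 := D.hα.toLin4
  have e1 : α (b 1) (b 2) (b 4) (b 5) = -T11 := by
    have := F 0 2 4 5
    rw [f0, f2, f4, f5, D.hα.z3, L4.z4] at this
    simp only [T11]
    linear_combination this
  have e0 : α (b 0) (b 2) (b 5) (b 7) = 0 := by
    have := F 0 1 5 7
    rw [f0, f1, f5, f7, D.hα.z1, L4.z3, L4.z4] at this
    linear_combination this
  have e2 : α (b 1) (b 2) (b 4) (b 7) = -T12 := by
    have := F 0 2 4 7
    rw [f0, f2, f4, f7, L4.z4, e0] at this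
    simp only [T12]
    linear_combination this
  have e3 : α (b 1) (b 2) (b 6) (b 7) = -T22 := by
    have := F 0 2 6 7
    rw [f0, f2, f6, f7, D.hα.z3, L4.z4] at this
    simp only [T22]
    linear_combination this
  have v03 : C (b 0) (b 3) = -2 * A0 + 2 * T11 + 2 * T22 := by
    rw [hCeq]
    have u1 : α (b 0) (b 3) (b 0) (b 3) = 0 := by rw [D.hα.w2, D.hα.z1, neg_zero]
    have u2 : α (b 1) (b 2) (b 0) (b 3) = A0 := by
      rw [D.hα.w2, D.hα.w1 (b 1) (b 0)]; ring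
    have u3 : α (b 4) (b 5) (b 0) (b 3) = T11 := by
      rw [D.hα.w2, D.hα.w1 (b 4) (b 0), D.hα.w3, D.hα.w2 (b 0) (b 4)]; ring
    have u4 : α (b 6) (b 7) (b 0) (b 3) = T22 := by
      rw [D.hα.w2, D.hα.w1 (b 6) (b 0), D.hα.w3, D.hα.w2 (b 0) (b 6)]; ring
    rw [u1, u2, u3, u4]
    ring
  have v12 : C (b 1) (b 2) = -C (b 0) (b 3) := by
    have := hC.2 f D.fL (b 0) (b 2)
    rw [f0, f2] at this
    exact eq_neg_of_add_eq_zero_left this
  have v45 : C (b 4) (b 5) = 4 * T11 + 2 * C0 := by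
    rw [hCeq, e1]
    have u1 : α (b 4) (b 5) (b 4) (b 5) = 0 := by rw [D.hα.w2, D.hα.z1, neg_zero]
    have u2 : α (b 6) (b 7) (b 4) (b 5) = C0 := by
      rw [D.hα.w2, D.hα.w1 (b 6) (b 4), D.hα.w3, D.hα.w2 (b 4) (b 6)]; ring
    rw [u1, u2]
    simp only [T11]
    ring
  have v47 : C (b 4) (b 7) = 4 * T12 := by
    rw [hCeq, e2]
    have u1 : α (b 4) (b 5) (b 4) (b 7) = 0 := by rw [D.hα.w2, D.hα.z1, neg_zero]
    have u2 : α (b 6) (b 7) (b 4) (b 7) = 0 := by rw [D.hα.w3, D.hα.z2, neg_zero]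
    rw [u1, u2]
    simp only [T12]
    ring
  have v67 : C (b 6) (b 7) = 4 * T22 + 2 * C0 := by
    rw [hCeq, e3]
    have u1 : α (b 4) (b 5) (b 6) (b 7) = C0 := rfl
    have u2 : α (b 6) (b 7) (b 6) (b 7) = 0 := by rw [D.hα.w2, D.hα.z1, neg_zero]
    rw [u1, u2]
    simp only [T22]
    ring
  let x0 := C (b 0) (b 3)
  have r03 : R (b 0) (b 3) = 0 := by
    rw [hReq, hG]; simp [G422]
  have r12 : R (b 1) (b 2) = 0 := by
    rw [hReq, hG, v12]; simp [G422]
  have r45 : R (b 4) (b 5) = 2 * T11 - 2 * T22 + 2 * C0 + 2 * A0 := by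
    rw [hReq, hG, v45, v03]; simp [G422]; ring
  have r47 : R (b 4) (b 7) = 4 * T12 := by
    rw [hReq, hG, v47]; simp [G422]
  have r67 : R (b 6) (b 7) = 2 * T22 - 2 * T11 + 2 * C0 + 2 * A0 := by
    rw [hReq, hG, v67, v03]; simp [G422]; ring
  let σ := (T11 + T22 - C0 + A0) / 2
  let Φ : V → V → V → V → ℂ := (1 / 4 : ℂ) • wd ω R + (-A0 / 2) • wd ω ω +
    σ • wd (om3 ω b) ω'
  have g3 : ∀ i j, om3 ω b (b i) (b j) = (G422 i 0 * G422 j 3 - G422 i 3 * G422 j 0) -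
      (G422 i 1 * G422 j 2 - G422 i 2 * G422 j 1) := fun i j => by
    rw [om3_apply, hG, hG, hG, hG, hG, hG, hG, hG]
  have g' : ∀ i j, ω' (b i) (b j) = G422 i j - ((G422 i 0 * G422 j 3 - G422 i 3 * G422 j 0) -
      (G422 i 1 * G422 j 2 - G422 i 2 * G422 j 1)) := fun i j => by
    rw [h'eq, g3, hG]
  have key : α = Φ := by
    have hA : α - Φ ∈ AltS V := Submodule.sub_mem _ D.hα (Submodule.add_mem _
      (Submodule.add_mem _ (Submodule.smul_mem _ _ (wd_AltS D.alt hR.1))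
        (Submodule.smul_mem _ _ D.wA)) (Submodule.smul_mem _ _ (wd_AltS h3alt h'alt)))
    have hIh : α - Φ ∈ InvS h := Submodule.sub_mem _ (D.inv h D.hL) (Submodule.add_mem _
      (Submodule.add_mem _ (Submodule.smul_mem _ _ (wd_InvS (D.sk h D.hL) (hR.2 h D.hL)))
        (Submodule.smul_mem _ _ (D.wI D.hL))) (Submodule.smul_mem _ _ (wd_InvS h3h h'h)))
    have hIf : α - Φ ∈ InvS f := Submodule.sub_mem _ (D.inv f D.fL) (Submodule.add_mem _
      (Submodule.add_mem _ (Submodule.smul_mem _ _ (wd_InvS (D.sk f D.fL) (hR.2 f D.fL)))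
        (Submodule.smul_mem _ _ (D.wI D.fL))) (Submodule.smul_mem _ _ (wd_InvS h3f h'f)))
    refine eq_of_vanish hb hA (case422 hA hIh hIf hw f0 f1 f2 f3 f4 f5 f6 f7 ?_ ?_ ?_ ?_ ?_)
    · simp only [Φ, Pi.sub_apply, Pi.add_apply, Pi.smul_apply, wd, hG, g3, g', smul_eq_mul, r03,
        r12]
      simp [G422, A0]
      try ring
    · simp only [Φ, Pi.sub_apply, Pi.add_apply, Pi.smul_apply, wd, hG, g3, g', smul_eq_mul, r03,
        r45]
      simp [G422, A0, T11, σ]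
      try ring
    · simp only [Φ, Pi.sub_apply, Pi.add_apply, Pi.smul_apply, wd, hG, g3, g', smul_eq_mul, r03,
        r47]
      simp [G422, T12]
      try ring
    · simp only [Φ, Pi.sub_apply, Pi.add_apply, Pi.smul_apply, wd, hG, g3, g', smul_eq_mul, r03,
        r67]
      simp [G422, A0, T22, σ]
      try ring
    · simp only [Φ, Pi.sub_apply, Pi.add_apply, Pi.smul_apply, wd, hG, g3, g', smul_eq_mul, r45,
        r67]
      simp [G422, A0, C0]
      try ring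
  by_cases hσ : σ = 0
  · rw [key]
    simp only [Φ]
    rw [hσ, zero_smul, add_zero]
    exact Submodule.add_mem _ (Submodule.smul_mem _ _ (wd_mem D.om hR))
      (Submodule.smul_mem _ _ D.wom)
  have hE : ∀ X ∈ L, wd (om3 ω b) ω' ∈ InvS X := by
    intro X hX
    have h1 : wd (om3 ω b) ω' = σ⁻¹ • (α - ((1 / 4 : ℂ) • wd ω R + (-A0 / 2) • wd ω ω)) := by
      have h2 : α - ((1 / 4 : ℂ) • wd ω R + (-A0 / 2) • wd ω ω) = σ • wd (om3 ω b) ω' := by
        conv_lhs => rw [key]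
        simp only [Φ]
        abel
      rw [h2, smul_smul, inv_mul_cancel₀ hσ, one_smul]
    rw [h1]
    exact Submodule.smul_mem _ _ (Submodule.sub_mem _ (D.inv X hX) (Submodule.add_mem _
      (Submodule.smul_mem _ _ (wd_InvS (D.sk X hX) (hR.2 X hX)))
      (Submodule.smul_mem _ _ (D.wI hX))))
  have hg3 : om3 ω b ∈ GS L := by
    refine ⟨h3alt, fun X hX => B.inv2 D.alt hb (D.sk X hX) ?_⟩
    intro i u hi hu
    -- the values which vanish
    have k1 : ∀ j : Fin 8, j < 4 → ∀ y, ω' (b j) y = 0 := fun j hj y => B.lo' hj y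
    have k2 : ∀ y, om3 ω b y (b u) = 0 := fun y => by
      rw [anti h3alt, B.hi u hu, neg_zero]
    have k3 : ∀ j : Fin 8, j < 4 → ∀ y, ω' y (b j) = 0 := fun j hj y => by
      rw [anti h'alt, k1 j hj, neg_zero]
    have k4 : ∀ y, ω' y (b u) = ω y (b u) := fun y => by rw [h'eq, k2, sub_zero]
    have main : ∀ i j k : Fin 8, i < 4 → j < 4 → k < 4 →
        om3 ω b (b j) (b k) * ω (X (b i)) (b u) - om3 ω b (b i) (b k) * ω (X (b j)) (b u) +
          om3 ω b (b i) (b j) * ω (X (b k)) (b u) = 0 := by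
      intro i j k hi hj hk
      have h1 := hE X hX (b i) (b j) (b k) (b u)
      simp only [wd, k1 i hi, k1 j hj, k1 k hk, k2, k3 i hi, k3 j hj, k3 k hk, k4] at h1
      linear_combination h1
    obtain rfl | rfl | rfl | rfl : i = 0 ∨ i = 1 ∨ i = 2 ∨ i = 3 := by
      revert i; decide
    · have h1 := main 0 1 2 (by decide) (by decide) (by decide)
      rw [g3, g3, g3] at h1
      simp [G422] at h1
      exact h1
    · have h1 := main 1 0 3 (by decide) (by decide) (by decide)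
      rw [g3, g3, g3] at h1
      simp [G422] at h1
      exact h1
    · have h1 := main 2 0 3 (by decide) (by decide) (by decide)
      rw [g3, g3, g3] at h1
      simp [G422] at h1
      exact h1
    · have h1 := main 3 1 2 (by decide) (by decide) (by decide)
      rw [g3, g3, g3] at h1
      simp [G422] at h1
      exact h1
  have hg' : ω' ∈ GS L := Submodule.sub_mem _ D.om hg3
  rw [key]
  exact Submodule.add_mem _ (Submodule.add_mem _ (Submodule.smul_mem _ _ (wd_mem D.om hR))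
    (Submodule.smul_mem _ _ D.wom)) (Submodule.smul_mem _ _ (wd_mem hg3 hg'))

end Pool.Agent.L0h12.FF
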