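import Pool.Agent.L0h12.FF.Fin422

set_option autoImplicit false
set_option linter.unusedSectionVars false
set_option linter.unusedSimpArgs false
set_option maxRecDepth 100000

/-!
# The invariants in the fourth case
-/

open Module

noncomputable section

namespace Pool.Agent.L0h12.FF

variable {V : Type} [AddCommGroup V] [Module ℂ V] [FiniteDimensional ℂ V]

/-- the Gram matrix -/
def G44 : Fin 8 → Fin 8 → ℂ := ![![0, 0, 0, 1, 0, 0, 0, 0], ![0, 0, -1, 0, 0, 0, 0, 0],
  ![0, 1, 0, 0, 0, 0, 0, 0], ![-1, 0, 0, 0, 0, 0, 0, 0], ![0, 0, 0, 0, 0, 0, 0, 1],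
  ![0, 0, 0, 0, 0, 0, -1, 0], ![0, 0, 0, 0, 0, 1, 0, 0], ![0, 0, 0, 0, -1, 0, 0, 0]]

theorem G44_cross : ∀ i j : Fin 8, 4 ≤ i → j < 4 → G44 i j = 0 := by
  intro i j hi hj
  fin_cases i <;> fin_cases j <;> first | rfl | (exfalso; revert hi hj; decide)

theorem four_lo : ∀ i : Fin 8, i < 4 → i = 0 ∨ i = 1 ∨ i = 2 ∨ i = 3 := by decide

theorem four_hi : ∀ i : Fin 8, 4 ≤ i → i = 4 ∨ i = 5 ∨ i = 6 ∨ i = 7 := by decide

/-- The form which pairs the two strings. -/
def tau (ω : V →ₗ[ℂ] V →ₗ[ℂ] ℂ) (b : Fin 8 → V) : V →ₗ[ℂ] V →ₗ[ℂ] ℂ :=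
  el ω (b 0) (b 7) - el ω (b 1) (b 6) + el ω (b 2) (b 5) - el ω (b 3) (b 4)

theorem tau_apply (ω : V →ₗ[ℂ] V →ₗ[ℂ] ℂ) (b : Fin 8 → V) (x y : V) :
    tau ω b x y = (ω x (b 0) * ω y (b 7) - ω x (b 7) * ω y (b 0)) -
      (ω x (b 1) * ω y (b 6) - ω x (b 6) * ω y (b 1)) +
      (ω x (b 2) * ω y (b 5) - ω x (b 5) * ω y (b 2)) -
      (ω x (b 3) * ω y (b 4) - ω x (b 4) * ω y (b 3)) := rfl

theorem tau_alt (ω : V →ₗ[ℂ] V →ₗ[ℂ] ℂ) (b : Fin 8 → V) (x : V) : tau ω b x x = 0 := by
  rw [tau_apply]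
  ring

theorem tau_h {ω : V →ₗ[ℂ] V →ₗ[ℂ] ℂ} {h : Module.End ℂ V} (hsk : Skew ω h) {b : Fin 8 → V}
    (h0 : h (b 0) = (3 : ℂ) • b 0) (h1 : h (b 1) = (1 : ℂ) • b 1) (h2 : h (b 2) = (-1 : ℂ) • b 2)
    (h3 : h (b 3) = (-3 : ℂ) • b 3)
    (h4 : h (b 4) = (3 : ℂ) • b 4) (h5 : h (b 5) = (1 : ℂ) • b 5) (h6 : h (b 6) = (-1 : ℂ) • b 6)
    (h7 : h (b 7) = (-3 : ℂ) • b 7) : Inv2 h (tau ω b) := by
  intro x y
  have e1 := el_inv hsk (b 0) (b 7) x y
  have e2 := el_inv hsk (b 1) (b 6) x y
  have e3 := el_inv hsk (b 2) (b 5) x y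
  have e4 := el_inv hsk (b 3) (b 4) x y
  rw [h0, h7] at e1
  rw [h1, h6] at e2
  rw [h2, h5] at e3
  rw [h3, h4] at e4
  simp only [el_apply, map_smul, LinearMap.smul_apply, smul_eq_mul] at e1 e2 e3 e4
  simp only [tau_apply]
  linear_combination e1 - e2 + e3 - e4

theorem tau_f {ω : V →ₗ[ℂ] V →ₗ[ℂ] ℂ} {f : Module.End ℂ V} (hsk : Skew ω f) {b : Fin 8 → V}
    (f0 : f (b 0) = b 1) (f1 : f (b 1) = b 2) (f2 : f (b 2) = b 3) (f3 : f (b 3) = 0)
    (f4 : f (b 4) = b 5) (f5 : f (b 5) = b 6) (f6 : f (b 6) = b 7) (f7 : f (b 7) = 0) :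
    Inv2 f (tau ω b) := by
  intro x y
  have e1 := el_inv hsk (b 0) (b 7) x y
  have e2 := el_inv hsk (b 1) (b 6) x y
  have e3 := el_inv hsk (b 2) (b 5) x y
  have e4 := el_inv hsk (b 3) (b 4) x y
  rw [f0, f7] at e1
  rw [f1, f6] at e2
  rw [f2, f5] at e3
  rw [f3, f4] at e4
  simp only [el_apply, map_zero] at e1 e2 e3 e4
  simp only [tau_apply]
  linear_combination e1 - e2 + e3 - e4

theorem fin44 {L : Submodule ℂ (Module.End ℂ V)} {ω : V →ₗ[ℂ] V →ₗ[ℂ] ℂ} {h f : Module.End ℂ V}
    {α : V → V → V → V → ℂ} (D : Dat L ω h f α) {b : Fin 8 → V}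
    (hb : (⊤ : Submodule ℂ V) ≤ Submodule.span ℂ (Set.range b))
    (hw : ∀ i, h (b i) = (w44 i : ℂ) • b i)
    (f0 : f (b 0) = b 1) (f1 : f (b 1) = b 2) (f2 : f (b 2) = b 3) (f3 : f (b 3) = 0)
    (f4 : f (b 4) = b 5) (f5 : f (b 5) = b 6) (f6 : f (b 6) = b 7) (f7 : f (b 7) = 0)
    (hG : ∀ i j, ω (b i) (b j) = G44 i j)
    (hz : ∀ X ∈ L, ∀ i u : Fin 8, i < 4 → 4 ≤ u → ω (X (b i)) (b u) = 0) : α ∈ WS L := by
  have B : Blk ω b := by
    refine Blk.mk' D.alt hG ?_ ?_ ?_ ?_ ?_ ?_ ?_ ?_ ?_ ?_ ?_ ?_ ?_ ?_ ?_ ?_ G44_cross <;>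
      simp [G44]
  have h1alt := om3_alt ω b
  have hg1 : om3 ω b ∈ GS L := ⟨h1alt, fun X hX => B.inv2 D.alt hb (D.sk X hX) (hz X hX)⟩
  let ω2 := ω - om3 ω b
  have h2eq : ∀ x y, ω2 x y = ω x y - om3 ω b x y := fun _ _ => rfl
  have hg2 : ω2 ∈ GS L := Submodule.sub_mem _ D.om hg1
  have h2alt : ∀ x, ω2 x x = 0 := hg2.1
  have htalt := tau_alt ω b
  have hth : Inv2 h (tau ω b) := by
    refine tau_h (D.sk h D.hL) ?_ ?_ ?_ ?_ ?_ ?_ ?_ ?_ <;> rw [hw] <;> simp [w44]
  have htf : Inv2 f (tau ω b) := tau_f (D.sk f D.fL) f0 f1 f2 f3 f4 f5 f6 f7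
  -- values
  let A0 := α (b 0) (b 1) (b 2) (b 3)
  let B0 := α (b 4) (b 5) (b 6) (b 7)
  let e0 := -α (b 0) (b 1) (b 2) (b 7)
  let g0 := -α (b 0) (b 5) (b 6) (b 7)
  let d0 := -α (b 0) (b 1) (b 6) (b 7) / 2
  let c0 := α (b 0) (b 3) (b 4) (b 7) + 2 * d0
  have g1 : ∀ i j, om3 ω b (b i) (b j) = (G44 i 0 * G44 j 3 - G44 i 3 * G44 j 0) -
      (G44 i 1 * G44 j 2 - G44 i 2 * G44 j 1) := fun i j => by
    rw [om3_apply, hG, hG, hG, hG, hG, hG, hG, hG]
  have g2 : ∀ i j, ω2 (b i) (b j) = G44 i j - ((G44 i 0 * G44 j 3 - G44 i 3 * G44 j 0) -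
      (G44 i 1 * G44 j 2 - G44 i 2 * G44 j 1)) := fun i j => by
    rw [h2eq, g1, hG]
  have gt : ∀ i j, tau ω b (b i) (b j) = (G44 i 0 * G44 j 7 - G44 i 7 * G44 j 0) -
      (G44 i 1 * G44 j 6 - G44 i 6 * G44 j 1) +
      (G44 i 2 * G44 j 5 - G44 i 5 * G44 j 2) -
      (G44 i 3 * G44 j 4 - G44 i 4 * G44 j 3) := fun i j => by
    rw [tau_apply]
    simp only [hG]
  let Φ1 : V → V → V → V → ℂ := (-A0 / 2) • wd (om3 ω b) (om3 ω b) + (-B0 / 2) • wd ω2 ω2 +
    c0 • wd (om3 ω b) ω2
  let Φ2 : V → V → V → V → ℂ := e0 • wd (om3 ω b) (tau ω b) + g0 • wd ω2 (tau ω b) +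
    d0 • wd (tau ω b) (tau ω b)
  have hΦ1 : Φ1 ∈ WS L := Submodule.add_mem _ (Submodule.add_mem _
    (Submodule.smul_mem _ _ (wd_mem hg1 hg1)) (Submodule.smul_mem _ _ (wd_mem hg2 hg2)))
    (Submodule.smul_mem _ _ (wd_mem hg1 hg2))
  have hΦ1I : ∀ X ∈ L, Φ1 ∈ InvS X := fun X hX => Submodule.add_mem _ (Submodule.add_mem _
    (Submodule.smul_mem _ _ (wd_InvS (hg1.2 X hX) (hg1.2 X hX)))
    (Submodule.smul_mem _ _ (wd_InvS (hg2.2 X hX) (hg2.2 X hX))))
    (Submodule.smul_mem _ _ (wd_InvS (hg1.2 X hX) (hg2.2 X hX)))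
  have hΦ2I : ∀ X ∈ L, Inv2 X (tau ω b) → Φ2 ∈ InvS X := fun X hX ht => Submodule.add_mem _
    (Submodule.add_mem _ (Submodule.smul_mem _ _ (wd_InvS (hg1.2 X hX) ht))
    (Submodule.smul_mem _ _ (wd_InvS (hg2.2 X hX) ht))) (Submodule.smul_mem _ _ (wd_InvS ht ht))
  have key : α = Φ1 + Φ2 := by
    have hA : α - (Φ1 + Φ2) ∈ AltS V := Submodule.sub_mem _ D.hα (Submodule.add_mem _
      (Submodule.add_mem _ (Submodule.add_mem _
      (Submodule.smul_mem _ _ (wd_AltS h1alt h1alt)) (Submodule.smul_mem _ _ (wd_AltS h2alt h2alt)))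
      (Submodule.smul_mem _ _ (wd_AltS h1alt h2alt)))
      (Submodule.add_mem _ (Submodule.add_mem _
      (Submodule.smul_mem _ _ (wd_AltS h1alt htalt)) (Submodule.smul_mem _ _ (wd_AltS h2alt htalt)))
      (Submodule.smul_mem _ _ (wd_AltS htalt htalt))))
    have hIh : α - (Φ1 + Φ2) ∈ InvS h := Submodule.sub_mem _ (D.inv h D.hL)
      (Submodule.add_mem _ (hΦ1I h D.hL) (hΦ2I h D.hL hth))
    have hIf : α - (Φ1 + Φ2) ∈ InvS f := Submodule.sub_mem _ (D.inv f D.fL)
      (Submodule.add_mem _ (hΦ1I f D.fL) (hΦ2I f D.fL htf))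
    refine eq_of_vanish hb hA (case44 hA hIh hIf hw f0 f1 f2 f3 f4 f5 f6 f7 ?_ ?_ ?_ ?_ ?_ ?_)
    all_goals
      simp only [Φ1, Φ2, Pi.sub_apply, Pi.add_apply, Pi.smul_apply, wd, hG, g1, g2, gt,
        smul_eq_mul]
      simp [G44, A0, B0, e0, g0, d0, c0]
      try ring
  rw [key]
  refine Submodule.add_mem _ hΦ1 ?_
  by_cases hzero : e0 = 0 ∧ g0 = 0 ∧ d0 = 0
  · obtain ⟨he, hg, hd⟩ := hzero
    simp only [Φ2]
    rw [he, hg, hd, zero_smul, zero_smul, zero_smul, add_zero, add_zero]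
    exact Submodule.zero_mem _
  -- the form `tau` is invariant
  have hgt : tau ω b ∈ GS L := by
    refine ⟨htalt, fun X hX => ?_⟩
    have hΦ2 : Φ2 ∈ InvS X := by
      have h1 : Φ2 = α - Φ1 := by
        conv_rhs => rw [key]
        abel
      rw [h1]
      exact Submodule.sub_mem _ (D.inv X hX) (hΦ1I X hX)
    let κ := lb X (tau ω b)
    have hκ : ∀ x y, κ x y = tau ω b (X x) y + tau ω b x (X y) := fun _ _ => rfl
    have hκa : ∀ x y, κ x y = -κ y x := fun x y => by
      rw [hκ, hκ, anti htalt (X x) y, anti htalt x (X y)]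
      ring
    have l1 : lb X (om3 ω b) = 0 := LinearMap.ext fun x => LinearMap.ext fun y => hg1.2 X hX x y
    have l2 : lb X ω2 = 0 := LinearMap.ext fun x => LinearMap.ext fun y => hg2.2 X hX x y
    have z0 : ∀ (γ : V →ₗ[ℂ] V →ₗ[ℂ] ℂ) x y z w, wd 0 γ x y z w = 0 := by
      intro γ x y z w
      simp [wd]
    have main : ∀ x y z w, e0 * wd (om3 ω b) κ x y z w + g0 * wd ω2 κ x y z w +
        d0 * (wd κ (tau ω b) x y z w + wd (tau ω b) κ x y z w) = 0 := by
      intro x y z w
      have h1 := hΦ2 x y z w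
      have h2 := wd_lb X (om3 ω b) (tau ω b) x y z w
      have h3 := wd_lb X ω2 (tau ω b) x y z w
      have h4 := wd_lb X (tau ω b) (tau ω b) x y z w
      rw [l1, z0, zero_add] at h2
      rw [l2, z0, zero_add] at h3
      simp only [Φ2, Pi.add_apply, Pi.smul_apply, smul_eq_mul] at h1
      linear_combination h1 - e0 * h2 - g0 * h3 - d0 * h4
    -- stability of the two blocks
    have hz2 : ∀ u i : Fin 8, 4 ≤ u → i < 4 → ω (X (b u)) (b i) = 0 := fun u i hu hi => by
      have h1 := D.sk X hX (b u) (b i)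
      rw [anti D.alt (b u), hz X hX i u hi hu, neg_zero, add_zero] at h1
      exact h1
    -- the derivative vanishes on each of the two blocks
    have hκlo : ∀ i j : Fin 8, i < 4 → j < 4 → κ (b i) (b j) = 0 := by
      intro i j hi hj
      rw [hκ, anti htalt (b i), tau_apply, tau_apply]
      have hc := fun k : Fin 8 => fun hk : 4 ≤ k => B.cross hi hk
      have hc' := fun k : Fin 8 => fun hk : 4 ≤ k => B.cross hj hk
      have hd := fun k : Fin 8 => fun hk : 4 ≤ k => hz X hX i k hi hk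
      have hd' := fun k : Fin 8 => fun hk : 4 ≤ k => hz X hX j k hj hk
      rw [hc 4 (by decide), hc 5 (by decide), hc 6 (by decide), hc 7 (by decide),
        hc' 4 (by decide), hc' 5 (by decide), hc' 6 (by decide), hc' 7 (by decide),
        hd 4 (by decide), hd 5 (by decide), hd 6 (by decide), hd 7 (by decide),
        hd' 4 (by decide), hd' 5 (by decide), hd' 6 (by decide), hd' 7 (by decide)]
      ring
    have hκhi : ∀ i j : Fin 8, 4 ≤ i → 4 ≤ j → κ (b i) (b j) = 0 := by
      intro i j hi hj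
      rw [hκ, anti htalt (b i), tau_apply, tau_apply]
      have hcc : ∀ k u : Fin 8, k < 4 → 4 ≤ u → ω (b u) (b k) = 0 := fun k u hk hu => by
        rw [anti D.alt, B.cross hk hu, neg_zero]
      have hc := fun k : Fin 8 => fun hk : k < 4 => hcc k i hk hi
      have hc' := fun k : Fin 8 => fun hk : k < 4 => hcc k j hk hj
      have hd := fun k : Fin 8 => fun hk : k < 4 => hz2 i k hi hk
      have hd' := fun k : Fin 8 => fun hk : k < 4 => hz2 j k hj hk
      rw [hc 0 (by decide), hc 1 (by decide), hc 2 (by decide), hc 3 (by decide),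
        hc' 0 (by decide), hc' 1 (by decide), hc' 2 (by decide), hc' 3 (by decide),
        hd 0 (by decide), hd 1 (by decide), hd 2 (by decide), hd 3 (by decide),
        hd' 0 (by decide), hd' 1 (by decide), hd' 2 (by decide), hd' 3 (by decide)]
      ring
    -- the values of the other forms
    have o1 : ∀ i u : Fin 8, 4 ≤ u → om3 ω b (b i) (b u) = 0 := fun i u hu => by
      rw [anti h1alt, B.hi u hu, neg_zero]
    have o2 : ∀ i u : Fin 8, i < 4 → ω2 (b i) (b u) = 0 := fun i u hi => B.lo' hi _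
    have o2' : ∀ i u : Fin 8, u < 4 → ω2 (b i) (b u) = 0 := fun i u hu => by
      rw [anti h2alt, o2 u i hu, neg_zero]
    have t1 : ∀ i j : Fin 8, i < 4 → j < 4 → tau ω b (b i) (b j) = 0 := by
      intro i j hi hj
      have hc := fun k : Fin 8 => fun hk : 4 ≤ k => B.cross hi hk
      have hc' := fun k : Fin 8 => fun hk : 4 ≤ k => B.cross hj hk
      rw [tau_apply, hc 4 (by decide), hc 5 (by decide), hc 6 (by decide), hc 7 (by decide),
        hc' 4 (by decide), hc' 5 (by decide), hc' 6 (by decide), hc' 7 (by decide)]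
      ring
    have t2 : ∀ i j : Fin 8, 4 ≤ i → 4 ≤ j → tau ω b (b i) (b j) = 0 := by
      intro i j hi hj
      have hcc : ∀ k u : Fin 8, k < 4 → 4 ≤ u → ω (b u) (b k) = 0 := fun k u hk hu => by
        rw [anti D.alt, B.cross hk hu, neg_zero]
      have hc := fun k : Fin 8 => fun hk : k < 4 => hcc k i hk hi
      have hc' := fun k : Fin 8 => fun hk : k < 4 => hcc k j hk hj
      rw [tau_apply, hc 0 (by decide), hc 1 (by decide), hc 2 (by decide), hc 3 (by decide),
        hc' 0 (by decide), hc' 1 (by decide), hc' 2 (by decide), hc' 3 (by decide)]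
      ring
    have hcross : ∀ i u : Fin 8, i < 4 → 4 ≤ u → κ (b i) (b u) = 0 := by
      intro i u hi hu
      by_cases he : e0 = 0
      · by_cases hg : g0 = 0
        · have hd : d0 ≠ 0 := fun h0 => hzero ⟨he, hg, h0⟩
          -- products of two forms of mixed type
          have m2 : ∀ i j k l : Fin 8, i < 4 → j < 4 → 4 ≤ k → 4 ≤ l →
              -κ (b i) (b k) * tau ω b (b j) (b l) - tau ω b (b i) (b k) * κ (b j) (b l) +
              κ (b i) (b l) * tau ω b (b j) (b k) + tau ω b (b i) (b l) * κ (b j) (b k) = 0 := by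
            intro i j k l hi hj hk hl
            have h1 := main (b i) (b j) (b k) (b l)
            rw [he, hg] at h1
            simp only [wd, hκlo i j hi hj, hκhi k l hk hl, t1 i j hi hj, t2 k l hk hl] at h1
            have h2 : d0 * (2 * (-κ (b i) (b k) * tau ω b (b j) (b l) -
              tau ω b (b i) (b k) * κ (b j) (b l) +
              κ (b i) (b l) * tau ω b (b j) (b k) + tau ω b (b i) (b l) * κ (b j) (b k))) = 0 := by
              linear_combination h1
            have h3 := (mul_eq_zero.1 h2).resolve_left hd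
            exact (mul_eq_zero.1 h3).resolve_left two_ne_zero
          have m3 : ∀ i j k l : Fin 8, i < 4 → j < 4 → 4 ≤ k → 4 ≤ l →
              -κ (b i) (b k) * ((G44 j 0 * G44 l 7 - G44 j 7 * G44 l 0) -
      (G44 j 1 * G44 l 6 - G44 j 6 * G44 l 1) +
      (G44 j 2 * G44 l 5 - G44 j 5 * G44 l 2) -
      (G44 j 3 * G44 l 4 - G44 j 4 * G44 l 3)) - ((G44 i 0 * G44 k 7 - G44 i 7 * G44 k 0) -
      (G44 i 1 * G44 k 6 - G44 i 6 * G44 k 1) +
      (G44 i 2 * G44 k 5 - G44 i 5 * G44 k 2) -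
      (G44 i 3 * G44 k 4 - G44 i 4 * G44 k 3)) * κ (b j) (b l) +
              κ (b i) (b l) * ((G44 j 0 * G44 k 7 - G44 j 7 * G44 k 0) -
      (G44 j 1 * G44 k 6 - G44 j 6 * G44 k 1) +
      (G44 j 2 * G44 k 5 - G44 j 5 * G44 k 2) -
      (G44 j 3 * G44 k 4 - G44 j 4 * G44 k 3)) + ((G44 i 0 * G44 l 7 - G44 i 7 * G44 l 0) -
      (G44 i 1 * G44 l 6 - G44 i 6 * G44 l 1) +
      (G44 i 2 * G44 l 5 - G44 i 5 * G44 l 2) -
      (G44 i 3 * G44 l 4 - G44 i 4 * G44 l 3)) * κ (b j) (b k) = 0 := by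
            intro i j k l hi hj hk hl
            have := m2 i j k l hi hj hk hl
            rwa [gt, gt, gt, gt] at this
          -- diagonal entries
          have r1 := m3 0 1 7 6 (by decide) (by decide) (by decide) (by decide)
          have r2 := m3 0 2 7 5 (by decide) (by decide) (by decide) (by decide)
          have r3 := m3 1 2 6 5 (by decide) (by decide) (by decide) (by decide)
          have r4 := m3 0 3 7 4 (by decide) (by decide) (by decide) (by decide)
          -- other entries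
          have s01 := m3 0 2 6 5 (by decide) (by decide) (by decide) (by decide)
          have s02 := m3 0 1 5 6 (by decide) (by decide) (by decide) (by decide)
          have s03 := m3 0 1 4 6 (by decide) (by decide) (by decide) (by decide)
          have s10 := m3 1 2 7 5 (by decide) (by decide) (by decide) (by decide)
          have s12 := m3 1 0 5 7 (by decide) (by decide) (by decide) (by decide)
          have s13 := m3 1 0 4 7 (by decide) (by decide) (by decide) (by decide)
          have s20 := m3 2 1 7 6 (by decide) (by decide) (by decide) (by decide)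
          have s21 := m3 2 0 6 7 (by decide) (by decide) (by decide) (by decide)
          have s23 := m3 2 0 4 7 (by decide) (by decide) (by decide) (by decide)
          have s30 := m3 3 1 7 6 (by decide) (by decide) (by decide) (by decide)
          have s31 := m3 3 0 6 7 (by decide) (by decide) (by decide) (by decide)
          have s32 := m3 3 0 5 7 (by decide) (by decide) (by decide) (by decide)
          simp [G44] at r1 r2 r3 r4 s01 s02 s03 s10 s12 s13 s20 s21 s23 s30 s31 s32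
          have hi' := four_lo i hi
          have hu' := four_hi u hu
          rcases hi' with rfl | rfl | rfl | rfl <;> rcases hu' with rfl | rfl | rfl | rfl <;>
            first | assumption | (grind)
        · -- the component of type (1, 3)
          have m1 : ∀ v w : Fin 8, 4 ≤ v → 4 ≤ w → κ (b i) (b u) * ω2 (b v) (b w) -
              κ (b i) (b v) * ω2 (b u) (b w) + κ (b i) (b w) * ω2 (b u) (b v) = 0 := by
            intro v w hv hw'
            have h1 := main (b i) (b u) (b v) (b w)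
            simp only [wd, he, o2 i _ hi, hκhi u v hu hv, hκhi u w hu hw', hκhi v w hv hw',
              t2 u v hu hv, t2 u w hu hw', t2 v w hv hw'] at h1
            have h2 : g0 * (κ (b i) (b u) * ω2 (b v) (b w) -
              κ (b i) (b v) * ω2 (b u) (b w) + κ (b i) (b w) * ω2 (b u) (b v)) = 0 := by
              linear_combination h1
            exact (mul_eq_zero.1 h2).resolve_left hg
          have hu' := four_hi u hu
          rcases hu' with rfl | rfl | rfl | rfl
          · have h1 := m1 5 6 (by decide) (by decide)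
            rw [g2, g2, g2] at h1
            simp [G44] at h1
            exact h1
          · have h1 := m1 4 7 (by decide) (by decide)
            rw [g2, g2, g2] at h1
            simp [G44] at h1
            exact h1
          · have h1 := m1 4 7 (by decide) (by decide)
            rw [g2, g2, g2] at h1
            simp [G44] at h1
            exact h1
          · have h1 := m1 5 6 (by decide) (by decide)
            rw [g2, g2, g2] at h1
            simp [G44] at h1
            exact h1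
      · -- the component of type (3, 1)
        have m1 : ∀ j k : Fin 8, j < 4 → k < 4 → om3 ω b (b j) (b k) * κ (b i) (b u) -
            om3 ω b (b i) (b k) * κ (b j) (b u) + om3 ω b (b i) (b j) * κ (b k) (b u) = 0 := by
          intro j k hj hk
          have h1 := main (b i) (b j) (b k) (b u)
          simp only [wd, o1 _ u hu, o2 i _ hi, o2 j _ hj, o2 k _ hk, hκlo i j hi hj,
            hκlo i k hi hk, hκlo j k hj hk, t1 i j hi hj, t1 i k hi hk, t1 j k hj hk] at h1
          have h2 : e0 * (om3 ω b (b j) (b k) * κ (b i) (b u) -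
            om3 ω b (b i) (b k) * κ (b j) (b u) + om3 ω b (b i) (b j) * κ (b k) (b u)) = 0 := by
            linear_combination h1
          exact (mul_eq_zero.1 h2).resolve_left he
        have hi' := four_lo i hi
        rcases hi' with rfl | rfl | rfl | rfl
        · have h1 := m1 1 2 (by decide) (by decide)
          rw [g1, g1, g1] at h1
          simp [G44] at h1
          exact h1
        · have h1 := m1 0 3 (by decide) (by decide)
          rw [g1, g1, g1] at h1
          simp [G44] at h1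
          exact h1
        · have h1 := m1 0 3 (by decide) (by decide)
          rw [g1, g1, g1] at h1
          simp [G44] at h1
          exact h1
        · have h1 := m1 1 2 (by decide) (by decide)
          rw [g1, g1, g1] at h1
          simp [G44] at h1
          exact h1
    refine inv2_of hb fun i j => ?_
    change κ (b i) (b j) = 0
    rcases lt_or_ge i 4 with hi | hi <;> rcases lt_or_ge j 4 with hj | hj
    · exact hκlo i j hi hj
    · exact hcross i j hi hj
    · rw [hκa, hcross j i hj hi, neg_zero]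
    · exact hκhi i j hi hj
  exact Submodule.add_mem _ (Submodule.add_mem _
    (Submodule.smul_mem _ _ (wd_mem hg1 hgt)) (Submodule.smul_mem _ _ (wd_mem hg2 hgt)))
    (Submodule.smul_mem _ _ (wd_mem hgt hgt))

end Pool.Agent.L0h12.FF
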