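import Pool.Agent.L0h12.FF.Contr

set_option autoImplicit false
set_option linter.unusedSectionVars false
set_option linter.unusedSimpArgs false
set_option maxRecDepth 100000

/-!
# The invariants in the first two cases
-/

open Module

noncomputable section

namespace Pool.Agent.L0h12.FF

variable {V : Type} [AddCommGroup V] [Module ℂ V] [FiniteDimensional ℂ V]

/-- The data common to all cases. -/
structure Dat (L : Submodule ℂ (Module.End ℂ V)) (ω : V →ₗ[ℂ] V →ₗ[ℂ] ℂ) (h f : Module.End ℂ V)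
    (α : V → V → V → V → ℂ) : Prop where
  alt : ∀ x, ω x x = 0
  sk : ∀ X ∈ L, Skew ω X
  hL : h ∈ L
  fL : f ∈ L
  hα : Alt4 ℂ α
  inv : ∀ X ∈ L, Inv4 X α

namespace Dat

variable {L : Submodule ℂ (Module.End ℂ V)} {ω : V →ₗ[ℂ] V →ₗ[ℂ] ℂ} {h f : Module.End ℂ V}
  {α : V → V → V → V → ℂ} (D : Dat L ω h f α)
include D

theorem om : ω ∈ GS L := ⟨D.alt, fun X hX x y => D.sk X hX x y⟩

theorem wom : wd ω ω ∈ WS L := wd_mem D.om D.om

theorem wA : wd ω ω ∈ AltS V := wd_AltS D.alt D.alt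

theorem wI {X : Module.End ℂ V} (hX : X ∈ L) : wd ω ω ∈ InvS X :=
  wd_InvS (D.sk X hX) (D.sk X hX)

end Dat

/-- the Gram matrix -/
def G8 : Fin 8 → Fin 8 → ℂ := ![![0, 0, 0, 0, 0, 0, 0, 1], ![0, 0, 0, 0, 0, 0, -1, 0],
  ![0, 0, 0, 0, 0, 1, 0, 0], ![0, 0, 0, 0, -1, 0, 0, 0], ![0, 0, 0, 1, 0, 0, 0, 0],
  ![0, 0, -1, 0, 0, 0, 0, 0], ![0, 1, 0, 0, 0, 0, 0, 0], ![-1, 0, 0, 0, 0, 0, 0, 0]]

theorem fin8 {L : Submodule ℂ (Module.End ℂ V)} {ω : V →ₗ[ℂ] V →ₗ[ℂ] ℂ} {h f : Module.End ℂ V}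
    {α : V → V → V → V → ℂ} (D : Dat L ω h f α) {b : Fin 8 → V}
    (hb : (⊤ : Submodule ℂ V) ≤ Submodule.span ℂ (Set.range b))
    (hw : ∀ i, h (b i) = (w8 i : ℂ) • b i)
    (f0 : f (b 0) = b 1) (f1 : f (b 1) = b 2) (f2 : f (b 2) = b 3) (f3 : f (b 3) = b 4)
    (f4 : f (b 4) = b 5) (f5 : f (b 5) = b 6) (f6 : f (b 6) = b 7) (f7 : f (b 7) = 0)
    (hG : ∀ i j, ω (b i) (b j) = G8 i j) : α ∈ WS L := by
  have key : α = (-(α (b 0) (b 1) (b 6) (b 7)) / 2) • wd ω ω := by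
    have hA : α - (-(α (b 0) (b 1) (b 6) (b 7)) / 2) • wd ω ω ∈ AltS V :=
      Submodule.sub_mem _ D.hα (Submodule.smul_mem _ _ D.wA)
    have hI : ∀ X ∈ L, α - (-(α (b 0) (b 1) (b 6) (b 7)) / 2) • wd ω ω ∈ InvS X := fun X hX =>
      Submodule.sub_mem _ (D.inv X hX) (Submodule.smul_mem _ _ (D.wI hX))
    refine eq_of_vanish hb hA (case8 hA (hI h D.hL) (hI f D.fL) hw f0 f1 f2 f3 f4 f5 f6 f7 ?_)
    simp only [Pi.sub_apply, Pi.smul_apply, wd, hG, smul_eq_mul]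
    simp [G8]
    ring
  rw [key]
  exact Submodule.smul_mem _ _ D.wom

/-- the Gram matrix -/
def G62 : Fin 8 → Fin 8 → ℂ := ![![0, 0, 0, 0, 0, 1, 0, 0], ![0, 0, 0, 0, -1, 0, 0, 0],
  ![0, 0, 0, 1, 0, 0, 0, 0], ![0, 0, -1, 0, 0, 0, 0, 0], ![0, 1, 0, 0, 0, 0, 0, 0],
  ![-1, 0, 0, 0, 0, 0, 0, 0], ![0, 0, 0, 0, 0, 0, 0, 1], ![0, 0, 0, 0, 0, 0, -1, 0]]

theorem fin62 {L : Submodule ℂ (Module.End ℂ V)} {ω : V →ₗ[ℂ] V →ₗ[ℂ] ℂ} {h f : Module.End ℂ V}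
    {α : V → V → V → V → ℂ} (D : Dat L ω h f α) {b : Fin 8 → V}
    (hb : (⊤ : Submodule ℂ V) ≤ Submodule.span ℂ (Set.range b))
    (hw : ∀ i, h (b i) = (w62 i : ℂ) • b i)
    (f0 : f (b 0) = b 1) (f1 : f (b 1) = b 2) (f2 : f (b 2) = b 3) (f3 : f (b 3) = b 4)
    (f4 : f (b 4) = b 5) (f5 : f (b 5) = 0) (f6 : f (b 6) = b 7) (f7 : f (b 7) = 0)
    (hG : ∀ i j, ω (b i) (b j) = G62 i j) : α ∈ WS L := by
  let ω1 := el ω (b 6) (b 7)
  have h1alt : ∀ x, ω1 x x = 0 := el_alt _ _ _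
  have h1eq : ∀ x y, ω1 x y = ω x (b 6) * ω y (b 7) - ω x (b 7) * ω y (b 6) := fun _ _ => rfl
  let ω5 := ω - ω1
  have h5eq : ∀ x y, ω5 x y = ω x y - ω1 x y := fun _ _ => rfl
  have h5alt : ∀ x, ω5 x x = 0 := fun x => by rw [h5eq, D.alt, h1alt, sub_zero]
  -- values
  have z1 : ∀ i j, ω1 (b i) (b j) = G62 i 6 * G62 j 7 - G62 i 7 * G62 j 6 := fun i j => by
    rw [h1eq, hG, hG, hG, hG]
  have z5 : ∀ i j, ω5 (b i) (b j) = G62 i j - (G62 i 6 * G62 j 7 - G62 i 7 * G62 j 6) :=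
    fun i j => by rw [h5eq, z1, hG]
  have h1h : Inv2 h ω1 := by
    intro x y
    rw [el_inv (D.sk h D.hL), hw, hw]
    simp only [el_apply, map_smul, LinearMap.smul_apply, smul_eq_mul, w62]
    simp
  have h1f : Inv2 f ω1 := by
    intro x y
    rw [el_inv (D.sk f D.fL), f6, f7, el_apply, el_apply, map_zero, map_zero]
    ring
  have h5h : Inv2 h ω5 := fun x y => by
    rw [h5eq, h5eq]
    linear_combination D.sk h D.hL x y - h1h x y
  have h5f : Inv2 f ω5 := fun x y => by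
    rw [h5eq, h5eq]
    linear_combination D.sk f D.fL x y - h1f x y
  let A := α (b 0) (b 1) (b 4) (b 5)
  let R := α (b 0) (b 5) (b 6) (b 7)
  let Φ : V → V → V → V → ℂ := (-A / 2) • wd ω ω + (R + A) • wd ω5 ω1
  have key : α = Φ := by
    have hA : α - Φ ∈ AltS V := Submodule.sub_mem _ D.hα (Submodule.add_mem _
      (Submodule.smul_mem _ _ D.wA) (Submodule.smul_mem _ _ (wd_AltS h5alt h1alt)))
    have hIh : α - Φ ∈ InvS h := Submodule.sub_mem _ (D.inv h D.hL) (Submodule.add_mem _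
      (Submodule.smul_mem _ _ (D.wI D.hL)) (Submodule.smul_mem _ _ (wd_InvS h5h h1h)))
    have hIf : α - Φ ∈ InvS f := Submodule.sub_mem _ (D.inv f D.fL) (Submodule.add_mem _
      (Submodule.smul_mem _ _ (D.wI D.fL)) (Submodule.smul_mem _ _ (wd_InvS h5f h1f)))
    refine eq_of_vanish hb hA (case62 hA hIh hIf hw f0 f1 f2 f3 f4 f5 f6 f7 ?_ ?_)
    · simp only [Φ, Pi.sub_apply, Pi.add_apply, Pi.smul_apply, wd, hG, z1, z5, smul_eq_mul]
      simp [G62, A, R]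
      ring
    · simp only [Φ, Pi.sub_apply, Pi.add_apply, Pi.smul_apply, wd, hG, z1, z5, smul_eq_mul]
      simp [G62, A, R]
      ring
  by_cases hRA : R + A = 0
  · rw [key]
    simp only [Φ]
    rw [hRA, zero_smul, add_zero]
    exact Submodule.smul_mem _ _ D.wom
  -- the forms are invariant
  have hE : ∀ X ∈ L, wd ω5 ω1 ∈ InvS X := by
    intro X hX
    have h1 : wd ω5 ω1 = (R + A)⁻¹ • (α - (-A / 2) • wd ω ω) := by
      have h2 : α - (-A / 2) • wd ω ω = (R + A) • wd ω5 ω1 := by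
        conv_lhs => rw [key]
        simp only [Φ]
        abel
      rw [h2, smul_smul, inv_mul_cancel₀ hRA, one_smul]
    rw [h1]
    exact Submodule.smul_mem _ _ (Submodule.sub_mem _ (D.inv X hX)
      (Submodule.smul_mem _ _ (D.wI hX)))
  let b' : Fin 8 → V := ![b 5, -b 4, b 3, -b 2, b 1, -b 0, b 7, -b 6]
  have hDu : Du ω ⊤ b b' := by
    refine Du.mk' (fun _ => Submodule.mem_top) (fun _ => Submodule.mem_top) hb ?_ ?_
    · refine hb.trans (Submodule.span_le.2 ?_)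
      rintro _ ⟨i, rfl⟩
      have hm : ∀ j, b' j ∈ Submodule.span ℂ (Set.range b') := fun j =>
        Submodule.subset_span ⟨j, rfl⟩
      have hn : ∀ j, -b' j ∈ Submodule.span ℂ (Set.range b') := fun j =>
        Submodule.neg_mem _ (hm j)
      fin_cases i
      · simpa [b'] using hn 5
      · simpa [b'] using hm 4
      · simpa [b'] using hn 3
      · simpa [b'] using hm 2
      · simpa [b'] using hn 1
      · simpa [b'] using hm 0
      · simpa [b'] using hn 7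
      · simpa [b'] using hm 6
    · intro i j
      fin_cases i <;> fin_cases j <;> simp [b', hG, G62]
  have hCTinv : ∀ X ∈ L, Inv2 X (CT b b' (wd_alt h5alt h1alt)) := fun X hX =>
    hDu.ct _ (hE X hX) (D.sk X hX) fun _ _ => Submodule.mem_top
  have q0 : ∀ y, ω1 (b 0) y = 0 := fun y => by rw [h1eq, hG, hG]; simp [G62]
  have q1 : ∀ y, ω1 (b 1) y = 0 := fun y => by rw [h1eq, hG, hG]; simp [G62]
  have q2 : ∀ y, ω1 (b 2) y = 0 := fun y => by rw [h1eq, hG, hG]; simp [G62]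
  have q3 : ∀ y, ω1 (b 3) y = 0 := fun y => by rw [h1eq, hG, hG]; simp [G62]
  have q4 : ∀ y, ω1 (b 4) y = 0 := fun y => by rw [h1eq, hG, hG]; simp [G62]
  have q5 : ∀ y, ω1 (b 5) y = 0 := fun y => by rw [h1eq, hG, hG]; simp [G62]
  have q6 : ∀ y, ω5 (b 6) y = 0 := fun y => by
    rw [h5eq, h1eq, hG, hG, anti D.alt (b 6) y]; simp [G62]
  have q7 : ∀ y, ω5 (b 7) y = 0 := fun y => by
    rw [h5eq, h1eq, hG, hG, anti D.alt (b 7) y]; simp [G62]
  have hCT : ∀ x y, CT b b' (wd_alt h5alt h1alt) x y = 2 * ω5 x y + 6 * ω1 x y := by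
    intro x y
    rw [CT_apply, Fin.sum_univ_eight]
    have hb' : b' 0 = b 5 ∧ b' 1 = -b 4 ∧ b' 2 = b 3 ∧ b' 3 = -b 2 ∧ b' 4 = b 1 ∧ b' 5 = -b 0 ∧
        b' 6 = b 7 ∧ b' 7 = -b 6 := ⟨rfl, rfl, rfl, rfl, rfl, rfl, rfl, rfl⟩
    obtain ⟨c0, c1, c2, c3, c4, c5, c6, c7⟩ := hb'
    have g05 : ω5 (b 0) (b 5) = 1 := by rw [z5]; simp [G62]
    have g14 : ω5 (b 1) (b 4) = -1 := by rw [z5]; simp [G62]
    have g23 : ω5 (b 2) (b 3) = 1 := by rw [z5]; simp [G62]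
    have g32 : ω5 (b 3) (b 2) = -1 := by rw [z5]; simp [G62]
    have g41 : ω5 (b 4) (b 1) = 1 := by rw [z5]; simp [G62]
    have g50 : ω5 (b 5) (b 0) = -1 := by rw [z5]; simp [G62]
    have g67 : ω1 (b 6) (b 7) = 1 := by rw [z1]; simp [G62]
    have g76 : ω1 (b 7) (b 6) = -1 := by rw [z1]; simp [G62]
    simp only [c0, c1, c2, c3, c4, c5, c6, c7, wd, map_neg, LinearMap.neg_apply, q0, q1, q2, q3,
      q4, q5, q6, q7, g05, g14, g23, g32, g41, g50, g67, g76]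
    ring
  have hg1 : ω1 ∈ GS L := by
    refine ⟨h1alt, fun X hX x y => ?_⟩
    have h1 := hCTinv X hX x y
    rw [hCT, hCT] at h1
    have h2 := D.sk X hX x y
    simp only [h5eq] at h1
    linear_combination (1 / 4 : ℂ) * h1 - (1 / 2 : ℂ) * h2
  have hg5 : ω5 ∈ GS L := Submodule.sub_mem _ D.om hg1
  rw [key]
  exact Submodule.add_mem _ (Submodule.smul_mem _ _ D.wom) (Submodule.smul_mem _ _ (wd_mem hg5 hg1))

end Pool.Agent.L0h12.FF
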