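import Pool.Agent.L0h12.FF.Small

set_option autoImplicit false
set_option linter.unusedSectionVars false
set_option linter.unusedSimpArgs false

/-!
# The complex form given by an alternating form in four variables
-/

open Module Function Polynomial TensorProduct

noncomputable section

namespace Pool.Agent.L0h12.FF

open Pool.Agent.Y102 Pool.Agent.W516.DR Pool.Agent.H204R3.GP Pool.Agent.W516.KC
  Pool.Agent.H204R3.SP

section pt

variable {V : Type}

/-- Four vectors. -/
def pt (x y z w : V) (k : Fin 2 × Fin 2) : V :=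
  if k = (0, 0) then x else if k = (0, 1) then y else if k = (1, 0) then z else w

theorem pt00 (x y z w : V) : pt x y z w (0, 0) = x := rfl
theorem pt01 (x y z w : V) : pt x y z w (0, 1) = y := rfl
theorem pt10 (x y z w : V) : pt x y z w (1, 0) = z := rfl
theorem pt11 (x y z w : V) : pt x y z w (1, 1) = w := rfl

theorem up00 (x y z w t : V) : update (pt x y z w) (0, 0) t = pt t y z w := by
  funext ⟨i, j⟩
  fin_cases i <;> fin_cases j <;> rfl

theorem up01 (x y z w t : V) : update (pt x y z w) (0, 1) t = pt x t z w := by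
  funext ⟨i, j⟩
  fin_cases i <;> fin_cases j <;> rfl

theorem up10 (x y z w t : V) : update (pt x y z w) (1, 0) t = pt x y t w := by
  funext ⟨i, j⟩
  fin_cases i <;> fin_cases j <;> rfl

theorem up11 (x y z w t : V) : update (pt x y z w) (1, 1) t = pt x y z t := by
  funext ⟨i, j⟩
  fin_cases i <;> fin_cases j <;> rfl

theorem pt_eta (v : Fin 2 × Fin 2 → V) : pt (v (0, 0)) (v (0, 1)) (v (1, 0)) (v (1, 1)) = v := by
  funext ⟨i, j⟩
  fin_cases i <;> fin_cases j <;> rfl

end pt

section form

variable {V : Type} [AddCommGroup V] [Module ℂ V]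

theorem lin4_of (Φ : MultilinearMap ℂ (fun _ : Fin 2 × Fin 2 => V) ℂ) :
    Lin4 ℂ (fun x y z w => Φ (pt x y z w)) where
  a1 x x' y z w := by
    have := Φ.map_update_add (pt x y z w) (0, 0) x x'
    rwa [up00, up00, up00] at this
  a2 x y y' z w := by
    have := Φ.map_update_add (pt x y z w) (0, 1) y y'
    rwa [up01, up01, up01] at this
  a3 x y z z' w := by
    have := Φ.map_update_add (pt x y z w) (1, 0) z z'
    rwa [up10, up10, up10] at this
  a4 x y z w w' := by
    have := Φ.map_update_add (pt x y z w) (1, 1) w w'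
    rwa [up11, up11, up11] at this
  s1 c x y z w := by
    have := Φ.map_update_smul (pt x y z w) (0, 0) c x
    rwa [up00, up00] at this
  s2 c x y z w := by
    have := Φ.map_update_smul (pt x y z w) (0, 1) c y
    rwa [up01, up01] at this
  s3 c x y z w := by
    have := Φ.map_update_smul (pt x y z w) (1, 0) c z
    rwa [up10, up10] at this
  s4 c x y z w := by
    have := Φ.map_update_smul (pt x y z w) (1, 1) c w
    rwa [up11, up11] at this

theorem alt4_of (Φ : MultilinearMap ℂ (fun _ : Fin 2 × Fin 2 => V) ℂ)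
    (h : ∀ (v : Fin 2 × Fin 2 → V) (i j : Fin 2 × Fin 2), v i = v j → i ≠ j → Φ v = 0) :
    Alt4 ℂ (fun x y z w => Φ (pt x y z w)) where
  toLin4 := lin4_of Φ
  z1 x z w := h _ (0, 0) (0, 1) rfl (by decide)
  z2 x y w := h _ (0, 1) (1, 0) rfl (by decide)
  z3 x y z := h _ (1, 0) (1, 1) rfl (by decide)

theorem inv4_of (Φ : MultilinearMap ℂ (fun _ : Fin 2 × Fin 2 => V) ℂ) {X : Module.End ℂ V}
    (h : Kills X Φ) : Inv4 X (fun x y z w => Φ (pt x y z w)) := by
  intro x y z w
  have h1 := h (pt x y z w)
  rw [Fintype.sum_prod_type] at h1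
  simp only [Fin.sum_univ_two, up00, up01, up10, up11, pt00, pt01, pt10, pt11] at h1
  linear_combination h1

end form

section bc

variable {W : Type} [AddCommGroup W] [Module ℚ W] {ν : Type} [Fintype ν] [DecidableEq ν]
  (b : Basis ν ℚ W)

/-- The extension of an alternating form is alternating. -/
theorem bcm_alt {κ : Type} [Fintype κ] [DecidableEq κ] (φ : W [⋀^κ]→ₗ[ℚ] ℚ)
    (v : κ → ℂ ⊗[ℚ] W) (i j : κ) (hv : v i = v j) (hij : i ≠ j) :
    bcm (Ω := ℂ) b φ.toMultilinearMap v = 0 := by
  have h1 : (bcm (Ω := ℂ) b φ.toMultilinearMap).domDomCongr (Equiv.swap i j) =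
      -bcm (Ω := ℂ) b φ.toMultilinearMap := by
    refine Basis.ext_multilinear (fun _ => b.baseChange ℂ) fun I => ?_
    rw [MultilinearMap.domDomCongr_apply, neg_apply]
    have h2 := bcm_basis (Ω := ℂ) b φ.toMultilinearMap (fun l => I (Equiv.swap i j l))
    have h3 := bcm_basis (Ω := ℂ) b φ.toMultilinearMap I
    rw [h2, h3, ← map_neg]
    congr 1
    exact φ.map_swap (fun l => b (I l)) hij
  have h2 := congrArg (fun F : MultilinearMap ℂ (fun _ : κ => ℂ ⊗[ℚ] W) ℂ => F v) h1
  simp only [MultilinearMap.domDomCongr_apply, neg_apply] at h2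
  have h3 : (fun l => v (Equiv.swap i j l)) = v := by
    funext l
    by_cases h4 : l = i
    · rw [h4, Equiv.swap_apply_left, hv]
    · by_cases h5 : l = j
      · rw [h5, Equiv.swap_apply_right, hv]
      · rw [Equiv.swap_apply_of_ne_of_ne h4 h5]
  rw [h3] at h2
  have h4 : (2 : ℂ) * bcm (Ω := ℂ) b φ.toMultilinearMap v = 0 := by linear_combination h2
  exact (mul_eq_zero.1 h4).resolve_left two_ne_zero

end bc

end Pool.Agent.L0h12.FF
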