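import Mathlib

set_option autoImplicit false
set_option linter.unusedSectionVars false

/-!
# Alternating forms in four variables
-/

open Module

noncomputable section

namespace Pool.Agent.L0h12.FF

variable {k : Type} [Field k] {V : Type} [AddCommGroup V] [Module k V]

/-- A form in four variables which is linear in each of them. -/
structure Lin4 (k : Type) [Field k] {V : Type} [AddCommGroup V] [Module k V]
    (α : V → V → V → V → k) : Prop where
  a1 : ∀ x x' y z w, α (x + x') y z w = α x y z w + α x' y z w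
  a2 : ∀ x y y' z w, α x (y + y') z w = α x y z w + α x y' z w
  a3 : ∀ x y z z' w, α x y (z + z') w = α x y z w + α x y z' w
  a4 : ∀ x y z w w', α x y z (w + w') = α x y z w + α x y z w'
  s1 : ∀ (c : k) x y z w, α (c • x) y z w = c * α x y z w
  s2 : ∀ (c : k) x y z w, α x (c • y) z w = c * α x y z w
  s3 : ∀ (c : k) x y z w, α x y (c • z) w = c * α x y z w
  s4 : ∀ (c : k) x y z w, α x y z (c • w) = c * α x y z w

/-- The form is alternating. -/
structure Alt4 (k : Type) [Field k] {V : Type} [AddCommGroup V] [Module k V]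
    (α : V → V → V → V → k) : Prop extends Lin4 k α where
  z1 : ∀ x z w, α x x z w = 0
  z2 : ∀ x y w, α x y y w = 0
  z3 : ∀ x y z, α x y z z = 0

/-- The operator annihilates the form. -/
def Inv4 (X : Module.End k V) (α : V → V → V → V → k) : Prop :=
  ∀ x y z w, α (X x) y z w + α x (X y) z w + α x y (X z) w + α x y z (X w) = 0

/-- The operator annihilates the bilinear form. -/
def Inv2 (X : Module.End k V) (β : V →ₗ[k] V →ₗ[k] k) : Prop :=
  ∀ x y, β (X x) y + β x (X y) = 0

/-- The exterior product of two alternating bilinear forms. -/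
def wd (β γ : V →ₗ[k] V →ₗ[k] k) (x y z w : V) : k :=
  β x y * γ z w - β x z * γ y w + β x w * γ y z + γ x y * β z w - γ x z * β y w + γ x w * β y z

namespace Lin4

variable {α α' : V → V → V → V → k}

theorem z1 (h : Lin4 k α) (y z w : V) : α 0 y z w = 0 := by
  have := h.s1 0 0 y z w
  rwa [zero_smul, zero_mul] at this
theorem z2 (h : Lin4 k α) (x z w : V) : α x 0 z w = 0 := by
  have := h.s2 0 x 0 z w
  rwa [zero_smul, zero_mul] at this
theorem z3 (h : Lin4 k α) (x y w : V) : α x y 0 w = 0 := by
  have := h.s3 0 x y 0 w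
  rwa [zero_smul, zero_mul] at this
theorem z4 (h : Lin4 k α) (x y z : V) : α x y z 0 = 0 := by
  have := h.s4 0 x y z 0
  rwa [zero_smul, zero_mul] at this

theorem sub (h : Lin4 k α) (h' : Lin4 k α') : Lin4 k (fun x y z w => α x y z w - α' x y z w) where
  a1 _ _ _ _ _ := by rw [h.a1, h'.a1]; ring
  a2 _ _ _ _ _ := by rw [h.a2, h'.a2]; ring
  a3 _ _ _ _ _ := by rw [h.a3, h'.a3]; ring
  a4 _ _ _ _ _ := by rw [h.a4, h'.a4]; ring
  s1 _ _ _ _ _ := by rw [h.s1, h'.s1]; ring
  s2 _ _ _ _ _ := by rw [h.s2, h'.s2]; ring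
  s3 _ _ _ _ _ := by rw [h.s3, h'.s3]; ring
  s4 _ _ _ _ _ := by rw [h.s4, h'.s4]; ring

theorem smul (h : Lin4 k α) (c : k) : Lin4 k (fun x y z w => c * α x y z w) where
  a1 _ _ _ _ _ := by rw [h.a1]; ring
  a2 _ _ _ _ _ := by rw [h.a2]; ring
  a3 _ _ _ _ _ := by rw [h.a3]; ring
  a4 _ _ _ _ _ := by rw [h.a4]; ring
  s1 _ _ _ _ _ := by rw [h.s1]; ring
  s2 _ _ _ _ _ := by rw [h.s2]; ring
  s3 _ _ _ _ _ := by rw [h.s3]; ring
  s4 _ _ _ _ _ := by rw [h.s4]; ring

/-- A form which vanishes on a spanning set is zero. -/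
theorem ext {ι : Type} {b : ι → V} (hb : (⊤ : Submodule k V) ≤ Submodule.span k (Set.range b))
    (h : Lin4 k α) (h0 : ∀ i j l m, α (b i) (b j) (b l) (b m) = 0) (x y z w : V) :
    α x y z w = 0 := by
  have e4 : ∀ i j l w, α (b i) (b j) (b l) w = 0 := by
    intro i j l w
    have hw := hb (Submodule.mem_top (x := w))
    induction hw using Submodule.span_induction with
    | mem w hw => obtain ⟨m, rfl⟩ := hw; exact h0 i j l m
    | zero => exact h.z4 _ _ _
    | add a b _ _ ha hb => rw [h.a4, ha, hb, add_zero]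
    | smul c a _ ha => rw [h.s4, ha, mul_zero]
  have e3 : ∀ i j z w, α (b i) (b j) z w = 0 := by
    intro i j z w
    have hw := hb (Submodule.mem_top (x := z))
    induction hw using Submodule.span_induction with
    | mem w hw => obtain ⟨m, rfl⟩ := hw; exact e4 i j m _
    | zero => exact h.z3 _ _ _
    | add a b _ _ ha hb => rw [h.a3, ha, hb, add_zero]
    | smul c a _ ha => rw [h.s3, ha, mul_zero]
  have e2 : ∀ i y z w, α (b i) y z w = 0 := by
    intro i y z w
    have hw := hb (Submodule.mem_top (x := y))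
    induction hw using Submodule.span_induction with
    | mem w hw => obtain ⟨m, rfl⟩ := hw; exact e3 i m _ _
    | zero => exact h.z2 _ _ _
    | add a b _ _ ha hb => rw [h.a2, ha, hb, add_zero]
    | smul c a _ ha => rw [h.s2, ha, mul_zero]
  have hw := hb (Submodule.mem_top (x := x))
  induction hw using Submodule.span_induction with
  | mem w hw => obtain ⟨m, rfl⟩ := hw; exact e2 m _ _ _
  | zero => exact h.z1 _ _ _
  | add a b _ _ ha hb => rw [h.a1, ha, hb, add_zero]
  | smul c a _ ha => rw [h.s1, ha, mul_zero]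

end Lin4

namespace Alt4

variable {α α' : V → V → V → V → k} (h : Alt4 k α)
include h

theorem w1 (x y z w : V) : α x y z w = -α y x z w := by
  have := h.z1 (x + y) z w
  rw [h.a1, h.a2, h.a2, h.z1, h.z1] at this
  linear_combination this

theorem w2 (x y z w : V) : α x y z w = -α x z y w := by
  have := h.z2 x (y + z) w
  rw [h.a2, h.a3, h.a3, h.z2, h.z2] at this
  linear_combination this

theorem w3 (x y z w : V) : α x y z w = -α x y w z := by
  have := h.z3 x y (z + w)
  rw [h.a3, h.a4, h.a4, h.z3, h.z3] at this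
  linear_combination this

theorem sub (h' : Alt4 k α') : Alt4 k (fun x y z w => α x y z w - α' x y z w) where
  toLin4 := h.toLin4.sub h'.toLin4
  z1 _ _ _ := by rw [h.z1, h'.z1, sub_zero]
  z2 _ _ _ := by rw [h.z2, h'.z2, sub_zero]
  z3 _ _ _ := by rw [h.z3, h'.z3, sub_zero]

theorem smul (c : k) : Alt4 k (fun x y z w => c * α x y z w) where
  toLin4 := h.toLin4.smul c
  z1 _ _ _ := by rw [h.z1, mul_zero]
  z2 _ _ _ := by rw [h.z2, mul_zero]
  z3 _ _ _ := by rw [h.z3, mul_zero]

/-- It suffices to consider increasing indices. -/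
theorem sorted {n : ℕ} (b : Fin n → V)
    (h0 : ∀ i j l m : Fin n, i < j → j < l → l < m → α (b i) (b j) (b l) (b m) = 0)
    (i j l m : Fin n) : α (b i) (b j) (b l) (b m) = 0 := by
  -- three increasing indices and an arbitrary one
  have e1 : ∀ i j l m : Fin n, i < j → j < l → α (b i) (b j) (b l) (b m) = 0 := by
    intro i j l m hij hjl
    rcases lt_trichotomy l m with h1 | rfl | h1
    · exact h0 i j l m hij hjl h1
    · exact h.z3 _ _ _
    · rw [h.w3, neg_eq_zero]
      rcases lt_trichotomy j m with h2 | rfl | h2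
      · exact h0 i j m l hij h2 h1
      · exact h.z2 _ _ _
      · rw [h.w2, neg_eq_zero]
        rcases lt_trichotomy i m with h3 | rfl | h3
        · exact h0 i m j l h3 h2 hjl
        · exact h.z1 _ _ _
        · rw [h.w1, neg_eq_zero]
          exact h0 m i j l h3 hij hjl
  have e2 : ∀ i j l m : Fin n, i < j → α (b i) (b j) (b l) (b m) = 0 := by
    intro i j l m hij
    rcases lt_trichotomy j l with h1 | rfl | h1
    · exact e1 i j l m hij h1
    · exact h.z2 _ _ _
    · rw [h.w2, neg_eq_zero]
      rcases lt_trichotomy i l with h2 | rfl | h2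
      · exact e1 i l j m h2 h1
      · exact h.z1 _ _ _
      · rw [h.w1, neg_eq_zero]
        exact e1 l i j m h2 hij
  rcases lt_trichotomy i j with h1 | rfl | h1
  · exact e2 i j l m h1
  · exact h.z1 _ _ _
  · rw [h.w1, neg_eq_zero]
    exact e2 j i l m h1

end Alt4

section wedge

variable {β γ : V →ₗ[k] V →ₗ[k] k}

theorem wd_alt (hβ : ∀ x, β x x = 0) (hγ : ∀ x, γ x x = 0) : Alt4 k (wd β γ) := by
  have aβ : ∀ x y, β x y = -β y x := by
    intro x y
    have h1 := hβ (x + y)
    simp only [map_add, LinearMap.add_apply, hβ, zero_add, add_zero] at h1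
    exact eq_neg_of_add_eq_zero_right h1
  have aγ : ∀ x y, γ x y = -γ y x := by
    intro x y
    have h1 := hγ (x + y)
    simp only [map_add, LinearMap.add_apply, hγ, zero_add, add_zero] at h1
    exact eq_neg_of_add_eq_zero_right h1
  refine ⟨⟨?_, ?_, ?_, ?_, ?_, ?_, ?_, ?_⟩, ?_, ?_, ?_⟩
  · intros; simp only [wd, map_add, LinearMap.add_apply]; ring
  · intros; simp only [wd, map_add, LinearMap.add_apply]; ring
  · intros; simp only [wd, map_add, LinearMap.add_apply]; ring
  · intros; simp only [wd, map_add, LinearMap.add_apply]; ring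
  · intros; simp only [wd, map_smul, LinearMap.smul_apply, smul_eq_mul]; ring
  · intros; simp only [wd, map_smul, LinearMap.smul_apply, smul_eq_mul]; ring
  · intros; simp only [wd, map_smul, LinearMap.smul_apply, smul_eq_mul]; ring
  · intros; simp only [wd, map_smul, LinearMap.smul_apply, smul_eq_mul]; ring
  · intro x z w
    simp only [wd, hβ, hγ]
    ring
  · intro x y w
    simp only [wd, hβ, hγ]
    ring
  · intro x y z
    simp only [wd, hβ, hγ]
    ring

theorem wd_inv {X : Module.End k V} (hβ : Inv2 X β) (hγ : Inv2 X γ) : Inv4 X (wd β γ) := by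
  intro x y z w
  have b1 := hβ x y
  have b2 := hβ x z
  have b3 := hβ x w
  have b4 := hβ y z
  have b5 := hβ y w
  have b6 := hβ z w
  have c1 := hγ x y
  have c2 := hγ x z
  have c3 := hγ x w
  have c4 := hγ y z
  have c5 := hγ y w
  have c6 := hγ z w
  simp only [wd]
  linear_combination γ z w * b1 - γ y w * b2 + γ y z * b3 + γ x w * b4 - γ x z * b5 + γ x y * b6 +
    β z w * c1 - β y w * c2 + β y z * c3 + β x w * c4 - β x z * c5 + β x y * c6

end wedge

end Pool.Agent.L0h12.FF
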