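import Pool.Agent.L0h12.FF.Glue

set_option autoImplicit false
set_option linter.unusedSectionVars false
set_option linter.unusedVariables false
set_option linter.unusedSimpArgs false

/-!
# Homology generated by few elements
-/

open Module Function Polynomial TensorProduct

noncomputable section

namespace Pool.Agent.L0h12.FF

open Pool.Agent.Y102 Pool.Agent.W516.DR Pool.Agent.H204R3.GP Pool.Agent.W516.KC
  Pool.Agent.H204R3.SP

variable {g : ℕ} {A : AbVar g}

/-- If the homology is generated by `n` elements over the endomorphisms, the eigenspaces are of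
dimension at most `n`. -/
theorem finrank_EE_le {P : Fin 0 → Module.End ℚ A.H1} (H : Sys A P) {n : ℕ} (x : Fin n → A.H1)
    (hx : Submodule.span ℚ {y | ∃ Q ∈ A.EA, ∃ k, y = Q (x k)} = ⊤) (j : JJ A P) :
    finrank ℂ (EE A P j.1) ≤ n := by
  classical
  let C : Submodule ℂ (ℂ ⊗[ℚ] A.H1) := ⨆ i ≠ j, EE A P i.1
  have hd : Disjoint (EE A P j.1) C := H.indep_JJ j
  -- the quotient by the other eigenspaces
  have hinj : Injective ((C.mkQ).comp (EE A P j.1).subtype) := by
    rw [← LinearMap.ker_eq_bot, LinearMap.ker_comp, Submodule.ker_mkQ]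
    rw [eq_bot_iff]
    intro u hu
    have h1 : (u : ℂ ⊗[ℚ] A.H1) ∈ EE A P j.1 ⊓ C := ⟨u.2, hu⟩
    rw [hd.eq_bot] at h1
    exact Subtype.ext ((Submodule.mem_bot ℂ).1 h1)
  have hC : ∀ (Q : ZZ A P) (z : ℂ ⊗[ℚ] A.H1),
      C.mkQ ((Q : Module.End ℚ A.H1).baseChange ℂ z) = j.1 Q • C.mkQ z := by
    intro Q z
    have hz : z ∈ ⨆ i : JJ A P, EE A P i.1 := by rw [H.iSup_JJ]; trivial
    induction hz using Submodule.iSup_induction' with
    | mem i z hz =>
      rw [mem_EE.1 hz Q]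
      by_cases hij : i = j
      · rw [hij, map_smul]
      · have h1 : z ∈ C := Submodule.mem_iSup_of_mem i (Submodule.mem_iSup_of_mem hij hz)
        have h2 : C.mkQ z = 0 := (Submodule.Quotient.mk_eq_zero C).2 h1
        rw [map_smul, h2, smul_zero, smul_zero]
    | zero => simp
    | add a b _ _ ha hb => rw [map_add, map_add, ha, hb, map_add, smul_add]
  -- it is generated by the images of the given elements
  have hs : (⊤ : Submodule ℂ ((ℂ ⊗[ℚ] A.H1) ⧸ C)) ≤
      Submodule.span ℂ (Set.range fun k => C.mkQ ((1 : ℂ) ⊗ₜ[ℚ] x k)) := by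
    intro q hq
    obtain ⟨z, rfl⟩ := C.mkQ_surjective q
    clear hq
    induction z using TensorProduct.induction_on with
    | zero => rw [map_zero]; exact Submodule.zero_mem _
    | add a b ha hb => rw [map_add]; exact Submodule.add_mem _ ha hb
    | tmul c y =>
      have h1 : c ⊗ₜ[ℚ] y = c • ((1 : ℂ) ⊗ₜ[ℚ] y) := by
        rw [TensorProduct.smul_tmul', smul_eq_mul, mul_one]
      rw [h1, map_smul]
      refine Submodule.smul_mem _ _ ?_
      clear h1
      have hy : y ∈ Submodule.span ℚ {y | ∃ Q ∈ A.EA, ∃ k, y = Q (x k)} := by rw [hx]; trivial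
      induction hy using Submodule.span_induction with
      | mem y hy =>
        obtain ⟨Q, hQ, k, rfl⟩ := hy
        have h2 := hC ⟨Q, hQ, fun i => i.elim0⟩ ((1 : ℂ) ⊗ₜ[ℚ] x k)
        rw [LinearMap.baseChange_tmul] at h2
        rw [h2]
        exact Submodule.smul_mem _ _ (Submodule.subset_span ⟨k, rfl⟩)
      | zero => rw [TensorProduct.tmul_zero, map_zero]; exact Submodule.zero_mem _
      | add a b _ _ ha hb =>
        rw [TensorProduct.tmul_add, map_add]
        exact Submodule.add_mem _ ha hb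
      | smul c a _ ha =>
        rw [TensorProduct.tmul_smul]
        have h3 : c • ((1 : ℂ) ⊗ₜ[ℚ] a) = (c : ℂ) • ((1 : ℂ) ⊗ₜ[ℚ] a) :=
          (Rat.cast_smul_eq_qsmul ℂ c _).symm
        rw [h3, map_smul]
        exact Submodule.smul_mem _ _ ha
  calc finrank ℂ (EE A P j.1) ≤ finrank ℂ ((ℂ ⊗[ℚ] A.H1) ⧸ C) :=
        LinearMap.finrank_le_finrank_of_injective hinj
    _ = finrank ℂ (⊤ : Submodule ℂ ((ℂ ⊗[ℚ] A.H1) ⧸ C)) := (finrank_top ℂ _).symm
    _ ≤ finrank ℂ (Submodule.span ℂ (Set.range fun k => C.mkQ ((1 : ℂ) ⊗ₜ[ℚ] x k))) :=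
        Submodule.finrank_mono hs
    _ ≤ Fintype.card (Fin n) := finrank_range_le_card _
    _ = n := Fintype.card_fin n

/-- **De Rham-Betti forms.** -/
theorem dRB_small (A : AbVar g) (hsym : ∀ Q ∈ A.EA, ∀ u v, A.om (Q u) v = A.om u (Q v))
    (x : Fin 4 → A.H1) (hx : Submodule.span ℚ {y | ∃ Q ∈ A.EA, ∃ k, y = Q (x k)} = ⊤) {m : ℕ}
    (φ : A.H1 [⋀^Fin m × Fin 2]→ₗ[ℚ] ℚ)
    (hφ : IsDeRhamBettiForm QBar A.dR Pool.Agent.Y102.tau m φ.toMultilinearMap) :
    φ.toMultilinearMap ∈ Submodule.span ℚ (AbVar.LefProd A A.EA m) :=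
  lef_of_small (sys0 hsym) (fun j => finrank_EE_le (sys0 hsym) x hx j) φ
    fun X hX => A.kills_of_mem hφ hX

end Pool.Agent.L0h12.FF
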