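import Pool.Agent.L0h12.FF.Prods2
import Pool.Agent.L0h12.FF.Desc

set_option autoImplicit false
set_option linter.unusedSectionVars false
set_option linter.unusedVariables false
set_option linter.unusedSimpArgs false

/-!
# Abelian varieties with large totally real endomorphism algebras: all classes are Lefschetz classes
-/

open Module Function Polynomial TensorProduct

noncomputable section

namespace Pool.Agent.L0h12.FF

open Pool.Agent.Y102 Pool.Agent.W516.DR Pool.Agent.H204R3.GP Pool.Agent.W516.KC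
  Pool.Agent.H204R3.SP

attribute [local instance 100] LieRing.ofAssociativeRing

/-- A small irreducible subspace consists of one string. -/
theorem exists_sb {V : Type} [AddCommGroup V] [Module ℂ V] [FiniteDimensional ℂ V]
    {L : LieSubalgebra ℂ (Module.End ℂ V)} {ω : V →ₗ[ℂ] V →ₗ[ℂ] ℂ} (P : Prin L)
    (alt : ∀ x, ω x x = 0) (hsk : ∀ X ∈ L, Skew ω X) {W : Submodule ℂ V}
    (hW : Irr L.toSubmodule W) (hnd : Nd ω W) (h4 : finrank ℂ W ≤ 4) :
    ∃ (v : V) (d : ℕ), SB P ω W v d ∧ (d = 1 ∨ d = 3) := by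
  have S := P.sl alt hsk
  obtain ⟨hnice, v, d, T, hlt⟩ := hW.strings P alt hsk hnd
  have h1 := T.finrank_rest S hnice.mf
  have hodd := T.odd
  have hR := T.rest_nice S hnice
  have h0 : Rest ω P.of W v d = ⊥ := by
    by_contra hne
    obtain ⟨v1, d1, T1, _⟩ := hR.exists_str S hne
    have hv10 : v1 ≠ 0 := by
      rintro rfl
      have := T1.one
      rw [map_zero, LinearMap.zero_apply] at this
      exact zero_ne_one this
    obtain ⟨m, h2, h3⟩ := hlt _ v1 T1.mem hv10 T1.hv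
    have h5 : (d1 : ℤ) = m := by exact_mod_cast h2
    have h6 := T1.finrank_rest S hR.mf
    have h7 := T1.odd
    obtain ⟨k, hk⟩ := hodd
    obtain ⟨k', hk'⟩ := h7
    omega
  refine ⟨v, d, ⟨T, fun u hu => ?_, hW.st, alt, hsk⟩, ?_⟩
  · have h2 := T.rest_mem S hu hnice.mf
    rw [h0, Submodule.mem_bot] at h2
    exact sub_eq_zero.1 h2
  · obtain ⟨k, hk⟩ := hodd
    rw [h0, finrank_bot] at h1
    omega

variable {g : ℕ} {A : AbVar g}

/-- The system without endomorphisms. -/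
theorem sys0 (hs : ∀ Q ∈ A.EA, ∀ u v, A.om (Q u) v = A.om u (Q v)) :
    Sys A (fun i : Fin 0 => (i.elim0 : Module.End ℚ A.H1)) where
  mem i := i.elim0
  comm i := i.elim0
  sym i := i.elim0
  real Q hQ _ := hs Q hQ

theorem mult0 {P : Fin 0 → Module.End ℚ A.H1} (H : Sys A P) (U : Submodule ℂ (ℂ ⊗[ℚ] A.H1))
    (hU : Stable (LC A).toSubmodule U) (i k : JJ A P) (hik : i ≠ k) (w : ℂ ⊗[ℚ] A.H1)
    (hw : w ∈ EE A P i.1) (w' : ℂ ⊗[ℚ] A.H1) (hw' : w' ∈ EE A P k.1) (hww : w + w' ∈ U) :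
    w ∈ U := by
  obtain ⟨R, hR⟩ : ∃ R, i.1 R ≠ k.1 R := Function.ne_iff.1 fun h => hik (Subtype.ext h)
  let T : Module.End ℂ (ℂ ⊗[ℚ] A.H1) :=
    (i.1 R - k.1 R)⁻¹ • ((R : Module.End ℚ A.H1).baseChange ℂ - k.1 R • (1 : Module.End ℂ _))
  have hT : ∀ x, T x = (i.1 R - k.1 R)⁻¹ • ((R : Module.End ℚ A.H1).baseChange ℂ x - k.1 R • x) :=
    fun _ => rfl
  have h1 : T (w + w') ∈ U := by
    refine cx_mem_of_ZZ H (T := T) (fun Q hQ => ?_) U hU (fun j => j.elim0) _ hww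
    have h2 : (R : Module.End ℚ A.H1).baseChange ℂ * Q.baseChange ℂ =
        Q.baseChange ℂ * (R : Module.End ℚ A.H1).baseChange ℂ := by
      rw [← bc_mul, ← bc_mul, H.commZ R.2 hQ]
    refine LinearMap.ext fun x => ?_
    have h3 := LinearMap.congr_fun h2 x
    rw [Module.End.mul_apply, Module.End.mul_apply] at h3
    rw [Module.End.mul_apply, Module.End.mul_apply, hT, hT, h3, map_smul, map_sub, map_smul]
  have h2 : T (w + w') = w := by
    rw [hT, map_add, mem_EE.1 hw R, mem_EE.1 hw' R, smul_add, add_sub_add_comm, sub_self, add_zero,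
      ← sub_smul, smul_smul, inv_mul_cancel₀ (sub_ne_zero.2 hR), one_smul]
  rwa [h2] at h1

/-- The family of the blocks. -/
theorem exists_fam {P : Fin 0 → Module.End ℚ A.H1} (H : Sys A P)
    (hb : ∀ j : JJ A P, finrank ℂ (EE A P j.1) ≤ 4) :
    ∃ (_ : LieAlgebra.IsKilling ℂ (LC A)) (p : Prin (LC A)) (v : JJ A P → ℂ ⊗[ℚ] A.H1)
      (d : JJ A P → ℕ), Fam p (omC A) (fun j : JJ A P => EE A P j.1) v d := by
  have hsk : ∀ X ∈ LC A, Skew (omC A) X := fun X hX => omC_skew A hX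
  have hW : ∀ j : JJ A P, Irr (LC A).toSubmodule (EE A P j.1) := fun j => H.EE_irr j.2
  have hN : ∀ j : JJ A P, Nd (omC A) (EE A P j.1) := fun j => H.EE_nd j.1
  have hK : LieAlgebra.IsKilling ℂ (LC A) := isKilling hW hN H.iSup_JJ hsk
  obtain ⟨p⟩ : Nonempty (Prin (LC A)) := exists_prin (LC A)
  choose v d hB hd using fun j : JJ A P => exists_sb p (omC_alt A) hsk (hW j) (hN j) (hb j)
  exact ⟨hK, p, v, d, omC_alt A, hsk, hB, hd, hW, hN, H.orth_JJ, H.iSup_JJ,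
    fun U hU i k hik w hw w' hw' hww => mult0 H U hU i k hik w hw w' hw' hww⟩

theorem mem_BQ' {β : ℂ ⊗[ℚ] A.H1 →ₗ[ℂ] ℂ ⊗[ℚ] A.H1 →ₗ[ℂ] ℂ}
    (hβ : β ∈ IB (LC A).toSubmodule) :
    (fun u v => β ((1 : ℂ) ⊗ₜ[ℚ] u) ((1 : ℂ) ⊗ₜ[ℚ] v)) ∈ BQ A := by
  obtain ⟨T, hT⟩ := exists_end A β
  have h1 : T ∈ extEnd ℂ (fun Q => Q ∈ A.EA) := by
    refine end_mem_span _ T fun lam X hX => ?_
    refine (comm_cmp ?_ lam).symm
    refine LinearMap.ext fun x => ?_
    rw [← sub_eq_zero]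
    apply omC_nondeg
    intro y
    have hXs := omC_skew A (bc_mem hX) (T x) y
    have hb := hβ _ (bc_mem hX) x y
    rw [← hT, ← hT] at hb
    rw [Module.End.mul_apply, Module.End.mul_apply, map_sub, LinearMap.sub_apply]
    linear_combination hb - hXs
  have h2 : (fun u v => β ((1 : ℂ) ⊗ₜ[ℚ] u) ((1 : ℂ) ⊗ₜ[ℚ] v)) =
      fun u v => omC A (T ((1 : ℂ) ⊗ₜ[ℚ] u)) ((1 : ℂ) ⊗ₜ[ℚ] v) := by
    funext u v
    rw [hT]
  rw [h2]
  clear hT h2
  unfold extEnd at h1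
  induction h1 using Submodule.span_induction with
  | mem T hT =>
    obtain ⟨Q, hQ, rfl⟩ := hT
    refine Submodule.subset_span ⟨Q, hQ, ?_⟩
    funext u v
    rw [LinearMap.baseChange_tmul, omC_one]
  | zero =>
    simp only [LinearMap.zero_apply, map_zero]
    exact Submodule.zero_mem _
  | add a b _ _ ha hb =>
    have h3 : (fun u v => omC A ((a + b) ((1 : ℂ) ⊗ₜ[ℚ] u)) ((1 : ℂ) ⊗ₜ[ℚ] v)) =
        (fun u v => omC A (a ((1 : ℂ) ⊗ₜ[ℚ] u)) ((1 : ℂ) ⊗ₜ[ℚ] v)) +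
        fun u v => omC A (b ((1 : ℂ) ⊗ₜ[ℚ] u)) ((1 : ℂ) ⊗ₜ[ℚ] v) := by
      funext u v
      rw [Pi.add_apply, Pi.add_apply, LinearMap.add_apply, map_add, LinearMap.add_apply]
    rw [h3]
    exact Submodule.add_mem _ ha hb
  | smul c a _ ha =>
    have h3 : (fun u v => omC A ((c • a) ((1 : ℂ) ⊗ₜ[ℚ] u)) ((1 : ℂ) ⊗ₜ[ℚ] v)) =
        c • fun u v => omC A (a ((1 : ℂ) ⊗ₜ[ℚ] u)) ((1 : ℂ) ⊗ₜ[ℚ] v) := by
      funext u v
      rw [Pi.smul_apply, Pi.smul_apply, LinearMap.smul_apply, map_smul, LinearMap.smul_apply]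
    rw [h3]
    exact Submodule.smul_mem _ _ ha

variable (A)

/-- The functions given by products. -/
def SPm (m : ℕ) : Submodule ℂ ((Fin m × Fin 2 → A.H1) → ℂ) :=
  Submodule.span ℂ {f | ∃ ψ ∈ AbVar.LefProd A A.EA m, f = fun v => algebraMap ℚ ℂ (ψ v)}

variable {A}

theorem BQ_coord {n : ℕ} (z : Basis (Fin n) ℚ A.EA) {f : A.H1 → A.H1 → ℂ} (hf : f ∈ BQ A) :
    ∃ c : Fin n → ℂ, ∀ u v, f u v = ∑ i, c i * algebraMap ℚ ℂ (A.om ((z i : Module.End ℚ A.H1) u) v) := by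
  unfold BQ at hf
  induction hf using Submodule.span_induction with
  | mem f hf =>
    obtain ⟨Q, hQ, rfl⟩ := hf
    refine ⟨fun i => algebraMap ℚ ℂ (z.repr ⟨Q, hQ⟩ i), fun u v => ?_⟩
    have h1 : Q = ∑ i, z.repr ⟨Q, hQ⟩ i • (z i : Module.End ℚ A.H1) := by
      have h2 := congrArg Subtype.val (z.sum_repr ⟨Q, hQ⟩)
      rw [Submodule.coe_sum] at h2
      exact h2.symm
    change algebraMap ℚ ℂ (A.om (Q u) v) = _
    conv_lhs => rw [h1]
    rw [LinearMap.sum_apply, map_sum, LinearMap.sum_apply, map_sum]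
    refine Finset.sum_congr rfl fun i _ => ?_
    rw [LinearMap.smul_apply, map_smul, LinearMap.smul_apply, smul_eq_mul, map_mul]
  | zero => exact ⟨0, fun u v => by simp⟩
  | add a b _ _ ha hb =>
    obtain ⟨c, hc⟩ := ha
    obtain ⟨c', hc'⟩ := hb
    refine ⟨c + c', fun u v => ?_⟩
    rw [Pi.add_apply, Pi.add_apply, hc, hc', ← Finset.sum_add_distrib]
    refine Finset.sum_congr rfl fun i _ => ?_
    rw [Pi.add_apply, add_mul]
  | smul t a _ ha =>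
    obtain ⟨c, hc⟩ := ha
    refine ⟨t • c, fun u v => ?_⟩
    rw [Pi.smul_apply, Pi.smul_apply, hc, smul_eq_mul, Finset.mul_sum]
    refine Finset.sum_congr rfl fun i _ => ?_
    rw [Pi.smul_apply, smul_eq_mul, mul_assoc]

theorem prod_memG {m : ℕ} (σ : Equiv.Perm (Fin m × Fin 2)) {f : Fin m → A.H1 → A.H1 → ℂ}
    (hf : ∀ s, f s ∈ BQ A) :
    (fun v : Fin m × Fin 2 → A.H1 => ∏ s, f s (v (σ (s, 0))) (v (σ (s, 1)))) ∈ SPm A m := by
  classical
  obtain ⟨z⟩ := exists_bas A.EA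
  choose c hc using fun s => BQ_coord z (hf s)
  have h1 : (fun v : Fin m × Fin 2 → A.H1 => ∏ s, f s (v (σ (s, 0))) (v (σ (s, 1)))) =
      ∑ p : Fin m → Fin (finrank ℚ A.EA), (∏ s, c s (p s)) •
        fun v : Fin m × Fin 2 → A.H1 => algebraMap ℚ ℂ
          (mmG σ (fun s => A.om.comp (z (p s) : Module.End ℚ A.H1)) v) := by
    funext v
    rw [Finset.prod_congr rfl fun s _ => hc s _ _, Finset.prod_univ_sum, Fintype.piFinset_univ,
      Finset.sum_apply]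
    refine Finset.sum_congr rfl fun p _ => ?_
    rw [Pi.smul_apply, smul_eq_mul, mmG_apply, map_prod, Finset.prod_mul_distrib]
    rfl
  rw [h1]
  refine Submodule.sum_mem _ fun p _ => Submodule.smul_mem _ _ (Submodule.subset_span ?_)
  exact ⟨_, ⟨σ, fun s => (z (p s) : Module.End ℚ A.H1), fun l => (z (p l)).2, fun v => by
    rw [mmG_apply]
    rfl⟩, rfl⟩

/-- Descent. -/
theorem descendG {m : ℕ} {φ : MultilinearMap ℚ (fun _ : Fin m × Fin 2 => A.H1) ℚ}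
    (h : (fun v => algebraMap ℚ ℂ (φ v)) ∈ SPm A m) :
    φ ∈ Submodule.span ℚ (AbVar.LefProd A A.EA m) := by
  let inc : MultilinearMap ℚ (fun _ : Fin m × Fin 2 => A.H1) ℚ →ₗ[ℚ]
      ((Fin m × Fin 2 → A.H1) → ℚ) :=
    { toFun := fun ψ v => ψ v
      map_add' := fun _ _ => rfl
      map_smul' := fun _ _ => rfl }
  have h1 : (fun v => φ v) ∈ Submodule.span ℚ (inc '' AbVar.LefProd A A.EA m) := by
    refine span_descent_k (k := ℚ) (Ω := ℂ) _ _ ?_
    refine Submodule.span_mono ?_ h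
    rintro _ ⟨ψ, hψ, rfl⟩
    exact ⟨_, ⟨ψ, hψ, rfl⟩, rfl⟩
  rw [← Submodule.map_span] at h1
  obtain ⟨ψ, hψ, hψ'⟩ := h1
  have h2 : ψ = φ := MultilinearMap.ext fun v => congrFun hψ' v
  rw [← h2]
  exact hψ

/-- **Alternating forms killed by the Lie algebra.** -/
theorem lef_of_small {P : Fin 0 → Module.End ℚ A.H1} (H : Sys A P)
    (hb : ∀ j : JJ A P, finrank ℂ (EE A P j.1) ≤ 4) {m : ℕ} (φ : A.H1 [⋀^Fin m × Fin 2]→ₗ[ℚ] ℚ)
    (hφ : ∀ X ∈ A.LA, Kills X φ.toMultilinearMap) :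
    φ.toMultilinearMap ∈ Submodule.span ℚ (AbVar.LefProd A A.EA m) := by
  classical
  obtain ⟨hK, p, v, d, F⟩ := exists_fam H hb
  obtain ⟨inst, _⟩ := H.card_JJ
  let b : Basis (Fin (2 * g)) ℚ A.H1 := Pi.basisFun ℚ (Fin (2 * g))
  let Φ := bcm (Ω := ℂ) b φ.toMultilinearMap
  have hinv : ∀ X ∈ LC A, Kills X Φ := by
    intro X hX
    refine (kills_bcm_iff b φ.toMultilinearMap X).2 fun lam => ?_
    exact hφ _ (cmp_of_ext A.LA hX lam)
  have h1 := F.prods Φ (fun x i j hij hne => bcm_alt b φ x i j hij hne) hinv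
  refine descendG ?_
  let res : MultilinearMap ℂ (fun _ : Fin m × Fin 2 => ℂ ⊗[ℚ] A.H1) ℂ →ₗ[ℂ]
      ((Fin m × Fin 2 → A.H1) → ℂ) :=
    { toFun := fun ψ v => ψ fun l => (1 : ℂ) ⊗ₜ[ℚ] v l
      map_add' := fun _ _ => rfl
      map_smul' := fun _ _ => rfl }
  have h2 : (fun v => algebraMap ℚ ℂ (φ.toMultilinearMap v)) = res Φ := by
    funext v
    exact (bcm_one (Ω := ℂ) b φ.toMultilinearMap v).symm
  rw [h2]
  have h3 := Submodule.mem_map_of_mem (f := res) h1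
  rw [Submodule.map_span] at h3
  refine (Submodule.span_le.2 ?_) h3
  rintro _ ⟨_, ⟨e, B, hB, rfl⟩, rfl⟩
  exact prod_memG e (f := fun s u v => B s ((1 : ℂ) ⊗ₜ[ℚ] u) ((1 : ℂ) ⊗ₜ[ℚ] v))
    fun s => mem_BQ' (hB s)

end Pool.Agent.L0h12.FF
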