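import Pool.Agent.L0h12.FF.Desc

set_option autoImplicit false
set_option linter.unusedSectionVars false
set_option linter.unusedSimpArgs false

/-!
# De Rham-Betti classes of degree four on abelian fourfolds
-/

open Module Function Polynomial TensorProduct

noncomputable section

namespace Pool.Agent.L0h12.FF

open Pool.Agent.Y102 Pool.Agent.W516.DR Pool.Agent.H204R3.GP Pool.Agent.W516.KC
  Pool.Agent.H204R3.SP

attribute [local instance 100] LieRing.ofAssociativeRing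

theorem lef_of_fourfold {g : ℕ} (hg4 : g = 4) (A : AbVar g) {r : ℕ}
    {P : Fin r → Module.End ℚ A.H1} (H : Sys A P) (φ : A.H1 [⋀^Fin 2 × Fin 2]→ₗ[ℚ] ℚ)
    (hφ : IsDeRhamBettiForm QBar A.dR Pool.Agent.Y102.tau 2 φ.toMultilinearMap) :
    φ.toMultilinearMap ∈ Submodule.span ℚ (AbVar.LefProd A A.EA 2) := by
  by_cases hg : ∀ j : JJ A P, finrank ℂ (EE A P j.1) < 4
  · exact H.products_of_small hg _ hφ
  push Not at hg
  obtain ⟨j0, hj0⟩ := hg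
  let b : Basis (Fin (2 * g)) ℚ A.H1 := Pi.basisFun ℚ (Fin (2 * g))
  let Φ := bcm (Ω := ℂ) b φ.toMultilinearMap
  let α : ℂ ⊗[ℚ] A.H1 → ℂ ⊗[ℚ] A.H1 → ℂ ⊗[ℚ] A.H1 → ℂ ⊗[ℚ] A.H1 → ℂ :=
    fun x y z w => Φ (pt x y z w)
  have hα : Alt4 ℂ α := alt4_of Φ fun v i j hv hij => bcm_alt b φ v i j hv hij
  have hinv : ∀ X ∈ LC A, Inv4 X α := by
    intro X hX
    refine inv4_of Φ ((kills_bcm_iff b φ.toMultilinearMap X).2 fun lam => ?_)
    exact A.kills_of_mem hφ (cmp_of_ext A.LA hX lam)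
  have hV : finrank ℂ (ℂ ⊗[ℚ] A.H1) = 8 := by
    rw [Module.finrank_baseChange, Module.finrank_fin_fun, hg4]
  have hW := main_cx (L := LC A) (ω := omC A) hV (omC_alt A) (fun X hX => omC_skew A hX)
    (fun j : JJ A P => H.EE_irr j.2) (fun j => H.EE_nd j.1) H.orth_JJ H.iSup_JJ j0 hj0 hα hinv
  have h1 := resQ_mem A hW
  refine descend A ?_
  have h2 : (fun v => algebraMap ℚ ℂ (φ.toMultilinearMap v)) = resQ A α := by
    funext v
    rw [← bcm_one (Ω := ℂ) b φ.toMultilinearMap v]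
    change _ = Φ (pt ((1 : ℂ) ⊗ₜ[ℚ] v (0, 0)) ((1 : ℂ) ⊗ₜ[ℚ] v (0, 1)) ((1 : ℂ) ⊗ₜ[ℚ] v (1, 0))
      ((1 : ℂ) ⊗ₜ[ℚ] v (1, 1)))
    exact congrArg Φ (pt_eta (fun l => (1 : ℂ) ⊗ₜ[ℚ] v l)).symm
  rw [h2]
  exact h1

end Pool.Agent.L0h12.FF
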