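import Mathlib

set_option autoImplicit false

/-!
# The principal triple of a semisimple Lie algebra
-/

open LieAlgebra LieAlgebra.IsKilling LieModule Module

noncomputable section

namespace Pool.Agent.L0h12.FF

variable (L : Type) [LieRing L] [LieAlgebra ℂ L] [FiniteDimensional ℂ L]

/-- A Cartan subalgebra and the element `h` on which the simple roots have the value two, and the
nilpotent elements `e`, `f`. -/
structure Prin where
  H : LieSubalgebra ℂ L
  ab : ∀ x ∈ H, ∀ y ∈ H, ⁅x, y⁆ = 0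
  h : L
  e : L
  f : L
  hH : h ∈ H
  he : ⁅h, e⁆ = (2 : ℂ) • e
  hf : ⁅h, f⁆ = (-2 : ℂ) • f
  ef : ⁅e, f⁆ = h
  dec : (⊤ : Submodule ℂ L) ≤ Submodule.span ℂ {y | ∃ m : ℕ, 1 ≤ m ∧ ⁅h, y⁆ = (-(2 * m) : ℂ) • y} ⊔
    (H.toSubmodule ⊔ Submodule.span ℂ {y | ∃ m : ℕ, 1 ≤ m ∧ ⁅h, y⁆ = (2 * m : ℂ) • y})

theorem exists_prin [IsKilling ℂ L] : Nonempty (Prin L) := by
  classical
  obtain ⟨x, hx⟩ := exists_isCartanSubalgebra_engel ℂ L
  set H := LieSubalgebra.engel ℂ x with hH
  have hab : IsLieAbelian H := inferInstance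
  let P := rootSystem H
  obtain ⟨b⟩ : Nonempty P.Base := RootPairing.nonempty_base P
  -- the element h
  let φ : Dual ℂ H →ₗ[ℂ] ℂ := b.toWeightBasis.constr ℂ (fun _ => (2 : ℂ))
  let h : H := (Module.evalEquiv ℂ H).symm φ
  have hh : ∀ f : Dual ℂ H, f h = φ f := by
    intro f
    have h1 : Module.evalEquiv ℂ H h = φ := LinearEquiv.apply_symm_apply _ _
    exact congrArg (fun g : Dual ℂ (Dual ℂ H) => g f) h1
  have hφ : ∀ i : b.support, φ (P.root i) = 2 := by
    intro i
    have h1 : φ (b.toWeightBasis i) = 2 := Module.Basis.constr_basis _ _ _ _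
    rwa [RootPairing.Base.toWeightBasis_apply] at h1
  -- the values on the roots
  have hval : ∀ α : H.root, ∃ m : ℕ, 1 ≤ m ∧
      ((α : Weight ℂ H L) h = (2 * m : ℂ) ∨ (α : Weight ℂ H L) h = (-(2 * m) : ℂ)) := by
    intro α
    obtain ⟨f, hf, h1⟩ := b.exists_root_eq_sum_nat_or_neg α
    have h2 : φ (∑ j ∈ b.support, f j • P.root j) = 2 * ((∑ j ∈ b.support, f j : ℕ) : ℂ) := by
      rw [map_sum, Nat.cast_sum, Finset.mul_sum]
      refine Finset.sum_congr rfl fun j hj => ?_
      rw [map_nsmul, hφ ⟨j, hj⟩, nsmul_eq_mul, mul_comm]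
    have h3 : (α : Weight ℂ H L) h = φ (P.root α) := hh (P.root α)
    refine ⟨∑ j ∈ b.support, f j, ?_, ?_⟩
    · by_contra h4
      have h5 : ∑ j ∈ b.support, f j = 0 := by omega
      rw [Finset.sum_eq_zero_iff] at h5
      have h6 : ∑ j ∈ b.support, f j • P.root j = 0 := by
        refine Finset.sum_eq_zero fun j hj => ?_
        rw [h5 j hj, zero_smul]
      apply P.ne_zero α
      rcases h1 with h1 | h1
      · rw [h1, h6]
      · rw [h1, h6, neg_zero]
    · rcases h1 with h1 | h1
      · left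
        rw [h3, h1, h2]
      · right
        rw [h3, h1, map_neg, h2]
  -- the triples
  have htr : ∀ i : b.support, ∃ e f : L, IsSl2Triple ((coroot ((i : H.root) : Weight ℂ H L) : H) : L) e f ∧
      e ∈ rootSpace H ((i : H.root) : Weight ℂ H L) ∧
        f ∈ rootSpace H (-((i : H.root) : Weight ℂ H L)) := by
    intro i
    have hn := LieSubalgebra.isNonZero_coe_root (i : H.root)
    obtain ⟨h', e, f, h1, h2, h3⟩ := exists_isSl2Triple_of_weight_isNonZero hn
    refine ⟨e, f, ?_, h2, h3⟩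
    rw [← h1.h_eq_coroot hn h2 h3]
    exact h1
  choose E F hE1 hE2 hE3 using htr
  let c : b.support → ℂ := fun i => b.toCoweightBasis.repr h i
  have hc : h = ∑ i, c i • P.coroot i := by
    have h1 := b.toCoweightBasis.sum_repr h
    conv_lhs => rw [← h1]
    refine Finset.sum_congr rfl fun i _ => ?_
    rw [RootPairing.Base.toCoweightBasis_apply]
  have hcL : (h : L) = ∑ i, c i • ((coroot ((i : H.root) : Weight ℂ H L) : H) : L) := by
    have h1 : (h : L) = ((∑ i, c i • P.coroot i : H) : L) := congrArg (fun x : H => (x : L)) hc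
    rw [h1, AddSubmonoidClass.coe_finsetSum]
    rfl
  refine ⟨⟨H, ?_, h, ∑ i, E i, ∑ i, c i • F i, h.2, ?_, ?_, ?_, ?_⟩⟩
  · intro x hx y hy
    have h1 : ⁅(⟨x, hx⟩ : H), (⟨y, hy⟩ : H)⁆ = 0 := LieModule.IsTrivial.trivial _ _
    exact congrArg (fun x : H => (x : L)) h1
  · rw [lie_sum, Finset.smul_sum]
    refine Finset.sum_congr rfl fun i _ => ?_
    have h1 : ⁅(h : L), E i⁆ = _ := lie_eq_smul_of_mem_rootSpace (hE2 i) h
    rw [h1]
    congr 1
    have h3 : ((i : H.root) : Weight ℂ H L) h = φ (P.root i) := hh (P.root i)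
    rw [h3, hφ]
  · rw [lie_sum, Finset.smul_sum]
    refine Finset.sum_congr rfl fun i _ => ?_
    have h1 : ⁅(h : L), F i⁆ = _ := lie_eq_smul_of_mem_rootSpace (hE3 i) h
    rw [lie_smul, h1, smul_comm]
    congr 2
    have h3 : ((i : H.root) : Weight ℂ H L) h = φ (P.root i) := hh (P.root i)
    rw [h3, hφ]
  · rw [hcL, sum_lie]
    refine Finset.sum_congr rfl fun i _ => ?_
    rw [lie_sum, Finset.sum_eq_single i]
    · rw [lie_smul, (hE1 i).lie_e_f]
    · intro j _ hji
      rw [lie_smul]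
      have h1 : ⁅E i, F j⁆ ∈ rootSpace H (((i : H.root) : Weight ℂ H L) +
          -((j : H.root) : Weight ℂ H L) : H → ℂ) :=
        lie_mem_genWeightSpace_of_mem_genWeightSpace (hE2 i) (hE3 j)
      have h2 : rootSpace H (((i : H.root) : Weight ℂ H L) +
          -((j : H.root) : Weight ℂ H L) : H → ℂ) = ⊥ := by
        by_contra h3
        let β : Weight ℂ H L := ⟨_, h3⟩
        by_cases hβ : β.IsZero
        · apply hji
          have h4 : (((i : H.root) : Weight ℂ H L) : H → ℂ) = ((j : H.root) : Weight ℂ H L) := by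
            have h5 : (((i : H.root) : Weight ℂ H L) + -((j : H.root) : Weight ℂ H L) : H → ℂ) = 0 := hβ
            rwa [add_neg_eq_zero] at h5
          exact (Subtype.ext (Subtype.ext (DFunLike.coe_injective h4))).symm
        · have h4 : P.root i - P.root j = P.root ⟨β, by simpa using hβ⟩ := by
            ext x
            change ((i : H.root) : Weight ℂ H L) x - ((j : H.root) : Weight ℂ H L) x = β x
            change _ = ((i : H.root) : Weight ℂ H L) x + -((j : H.root) : Weight ℂ H L) x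
            ring
          exact b.sub_notMem_range_root i.2 j.2 (h4 ▸ Set.mem_range_self _)
      rw [h2, LieSubmodule.mem_bot] at h1
      rw [h1, smul_zero]
    · intro h1
      exact absurd (Finset.mem_univ _) h1
  · have h1 : (⨆ χ : Weight ℂ H L, rootSpace H χ) = ⊤ := iSup_genWeightSpace_eq_top' ℂ H L
    have h2 : ∀ χ : Weight ℂ H L, (rootSpace H χ : Submodule ℂ L) ≤
        Submodule.span ℂ {y | ∃ m : ℕ, 1 ≤ m ∧ ⁅(h : L), y⁆ = (-(2 * m) : ℂ) • y} ⊔
        (H.toSubmodule ⊔ Submodule.span ℂ {y | ∃ m : ℕ, 1 ≤ m ∧ ⁅(h : L), y⁆ = (2 * m : ℂ) • y}) := by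
      intro χ
      by_cases hχ : χ.IsZero
      · have h3 : (χ : H → ℂ) = 0 := hχ
        rw [h3]
        have h4 : (rootSpace H (0 : H → ℂ)) = H.toLieSubmodule := rootSpace_zero_eq ℂ L H
        rw [h4]
        exact le_sup_of_le_right le_sup_left
      · obtain ⟨m, hm, h3⟩ := hval ⟨χ, by simpa using hχ⟩
        rcases h3 with h3 | h3
        · refine le_sup_of_le_right (le_sup_of_le_right fun y hy => Submodule.subset_span ⟨m, hm, ?_⟩)
          have h4 : ⁅(h : L), y⁆ = _ := lie_eq_smul_of_mem_rootSpace hy h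
          rw [h4]
          congr 1
        · refine le_sup_of_le_left fun y hy => Submodule.subset_span ⟨m, hm, ?_⟩
          have h4 : ⁅(h : L), y⁆ = _ := lie_eq_smul_of_mem_rootSpace hy h
          rw [h4]
          congr 1
    have h3 : (⊤ : Submodule ℂ L) = ⨆ χ : Weight ℂ H L, (rootSpace H χ : Submodule ℂ L) := by
      have := congrArg (fun N : LieSubmodule ℂ H L => (N : Submodule ℂ L)) h1
      simp only [LieSubmodule.iSup_toSubmodule, LieSubmodule.top_toSubmodule] at this
      exact this.symm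
    rw [h3]
    exact iSup_le h2

end Pool.Agent.L0h12.FF
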