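import Pool.Agent.L0h12.FF.Sep
import Pool.Agent.L0h12.FF.Comb3
import Pool.Agent.H204R3.GP.TateG
import Pool.Agent.H204R3.GP.FFT
import Pool.Agent.H204R3.SP.Lie

set_option autoImplicit false
set_option linter.unusedSectionVars false
set_option linter.unusedVariables false

/-!
# Alternating invariants are products of forms of degree two
-/

open Module Function

noncomputable section

namespace Pool.Agent.L0h12.FF

open Pool.Agent.H204R3.GP Pool.Agent.H204R3.SP

attribute [local instance 100] LieRing.ofAssociativeRing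

variable {V : Type} [AddCommGroup V] [Module ℂ V] [FiniteDimensional ℂ V]
  {L : LieSubalgebra ℂ (Module.End ℂ V)} {ω : V →ₗ[ℂ] V →ₗ[ℂ] ℂ}

/-- The invariant bilinear forms. -/
def IB (L : Submodule ℂ (Module.End ℂ V)) : Set (V →ₗ[ℂ] V →ₗ[ℂ] ℂ) :=
  {β | ∀ X ∈ L, ∀ x y, β (X x) y + β x (X y) = 0}

namespace Fam

variable {P : Prin L} {J : Type} {W : J → Submodule ℂ V} {v : J → V} {d : J → ℕ}
  (H : Fam P ω W v d)

/-- The vectors of the strings. -/
def gv (P : Prin L) (v : J → V) (x : J × ℕ) : V := (P.of ^ x.2) (v x.1)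

include H

theorem gv_big {x : J × ℕ} (hx : d x.1 < x.2) : gv P v x = 0 := by
  unfold gv
  obtain ⟨k, hk⟩ := Nat.exists_eq_add_of_lt hx
  rw [hk, show d x.1 + k + 1 = k + (d x.1 + 1) by ring, pow_add, Module.End.mul_apply,
    (H.sb x.1).str.fv, map_zero]

theorem gv_mem (x : J × ℕ) : gv P v x ∈ W x.1 := (H.sb x.1).pm x.2

open Classical in
theorem cb [LieAlgebra.IsKilling ℂ L] {κ : Type} [Fintype κ] [DecidableEq κ]
    (α : MultilinearMap ℂ (fun _ : κ => V) ℂ)
    (halt : ∀ (x : κ → V) (i j : κ), x i = x j → i ≠ j → α x = 0)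
    (hinv : ∀ X ∈ L, Kills X α) :
    ∃ S : J → J → Prop, Cb d S (fun I : κ → J × ℕ => α fun a => gv P v (I a)) := by
  choose π hC hj hS using H.sep
  have hup : ∀ (I : κ → J × ℕ) (a : κ) (y : J × ℕ) ,
      (fun x => gv P v (update I a y x)) = update (fun x => gv P v (I x)) a (gv P v y) := by
    intro I a y
    funext x
    by_cases hx : x = a
    · rw [hx, update_self, update_self]
    · rw [update_of_ne hx, update_of_ne hx]
  refine ⟨fun j i => Val P (π j) (W i) 1, ⟨H.hd, hj, hS, ?_, ?_, ?_, ?_, ?_⟩⟩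
  · intro I a ha
    exact α.map_coord_zero a (H.gv_big ha)
  · intro I a b hab hI
    refine halt _ a b ?_ hab
    rw [hI]
  · intro I a b hab
    -- alternating implies antisymmetric
    let A : V [⋀^κ]→ₗ[ℂ] ℂ := { α with map_eq_zero_of_eq' := fun x i j h hij => halt x i j h hij }
    exact A.map_swap (fun x => gv P v (I x)) hab
  · intro j I
    have h1 := hinv _ (π j P.h).2 fun a => gv P v (I a)
    refine Eq.trans ?_ h1
    rw [Finset.sum_mul]
    refine Finset.sum_congr rfl fun a _ => ?_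
    have h2 : (π j P.h).1 (gv P v (I a)) = (if Val P (π j) (W (I a).1) 1 then
        ((d (I a).1 : ℂ) - 2 * (I a).2) else 0) • gv P v (I a) := by
      split_ifs with h
      · rw [h.vh _ (H.gv_mem _), one_smul]
        exact (H.sb (I a).1).sl.h_pow (H.sb (I a).1).str.hv (I a).2
      · rw [((H.val01 (hC j) (I a).1).resolve_right h).vh _ (H.gv_mem _), zero_smul, zero_smul]
    rw [h2, α.map_update_smul, smul_eq_mul, update_eq_self]
  · intro j I
    have h1 := hinv _ (π j P.f).2 fun a => gv P v (I a)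
    refine Eq.trans ?_ h1
    refine Finset.sum_congr rfl fun a _ => ?_
    split_ifs with h
    · rw [hup, h.vf _ (H.gv_mem _), one_smul]
      congr 2
      unfold gv
      rw [pow_succ', Module.End.mul_apply]
    · rw [((H.val01 (hC j) (I a).1).resolve_right h).vf _ (H.gv_mem _), zero_smul]
      exact (α.map_coord_zero a (update_self a _ _)).symm

omit H in
/-- The vectors of the basis. -/
def bv (P : Prin L) (v : J → V) (d : J → ℕ) (x : Σ j, Fin (d j + 1)) : V := (P.of ^ (x.2 : ℕ)) (v x.1)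

omit H in
/-- The dual index. -/
def iv (d : J → ℕ) (x : Σ j, Fin (d j + 1)) : Σ j, Fin (d j + 1) := ⟨x.1, Fin.rev x.2⟩

omit H in
/-- The sign. -/
def sg (d : J → ℕ) (x : Σ j, Fin (d j + 1)) : ℂ := (-1) ^ (x.2 : ℕ)

theorem form [DecidableEq J] (x y : Σ j, Fin (d j + 1)) :
    ω (bv P v d x) (bv P v d y) = JJ (iv d) (sg d) x y := by
  obtain ⟨i, r⟩ := x
  obtain ⟨k, s⟩ := y
  unfold bv JJ iv sg
  by_cases hik : i = k
  · subst hik
    simp only
    rw [(H.sb i).str.form (H.sb i).sl]
    have h1 : ((⟨i, s⟩ : Σ j, Fin (d j + 1)) = ⟨i, Fin.rev r⟩) ↔ ((r : ℕ) + s = d i) := by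
      constructor
      · intro h
        have h2 : s = Fin.rev r := by
          injection h
        rw [h2, Fin.val_rev]
        omega
      · intro h
        have h2 : s = Fin.rev r := by
          apply Fin.ext
          rw [Fin.val_rev]
          omega
        rw [h2]
    by_cases h2 : (r : ℕ) + s = d i
    · rw [if_pos h2, if_pos (h1.2 h2)]
    · rw [if_neg h2, if_neg fun h => h2 (h1.1 h)]
  · rw [if_neg]
    · exact H.orth i k hik _ ((H.sb i).pm _) _ ((H.sb k).pm _)
    · intro h
      exact hik (congrArg Sigma.fst h).symm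

omit H in
theorem iv_iv (x : Σ j, Fin (d j + 1)) : iv d (iv d x) = x := by
  obtain ⟨i, r⟩ := x
  unfold iv
  rw [Fin.rev_rev]

theorem sg_iv (x : Σ j, Fin (d j + 1)) : sg d (iv d x) = -sg d x := by
  obtain ⟨i, r⟩ := x
  unfold iv sg
  simp only
  rw [Fin.val_rev]
  have hodd : Odd (d i) := by
    rcases H.hd i with h | h <;> rw [h] <;> decide
  have h1 : (-1 : ℂ) ^ (d i + 1 - ((r : ℕ) + 1)) * (-1) ^ (r : ℕ) = -1 := by
    rw [← pow_add, show d i + 1 - ((r : ℕ) + 1) + (r : ℕ) = d i by omega, hodd.neg_one_pow]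
  have h2 : (-1 : ℂ) ^ (r : ℕ) * (-1) ^ (r : ℕ) = 1 := by
    rw [← mul_pow]
    simp
  linear_combination (-1 : ℂ) ^ (r : ℕ) * h1 - (-1 : ℂ) ^ (d i + 1 - ((r : ℕ) + 1)) * h2

omit H in
theorem sg_ne (x : Σ j, Fin (d j + 1)) : sg d x ≠ 0 := pow_ne_zero _ (by norm_num)

/-- The basis. -/
theorem exists_basis [Fintype J] [DecidableEq J] :
    ∃ b : Basis (Σ j, Fin (d j + 1)) ℂ V, ∀ x, b x = bv P v d x := by
  have hli : LinearIndependent ℂ (bv P v d) := by
    rw [Fintype.linearIndependent_iff]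
    intro c hc y
    have h1 := congrArg (fun z => ω z (bv P v d (iv d y))) hc
    simp only [map_sum, map_smul, LinearMap.sum_apply, LinearMap.smul_apply, map_zero,
      LinearMap.zero_apply, smul_eq_mul, H.form] at h1
    rw [Finset.sum_eq_single y] at h1
    · unfold JJ at h1
      rw [if_pos rfl] at h1
      exact (mul_eq_zero.1 h1).resolve_right (sg_ne y)
    · intro x _ hxy
      unfold JJ
      rw [if_neg, mul_zero]
      intro h
      apply hxy
      rw [← iv_iv x, ← iv_iv y, h]
    · intro h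
      exact absurd (Finset.mem_univ _) h
  have hsp : (⊤ : Submodule ℂ V) ≤ Submodule.span ℂ (Set.range (bv P v d)) := by
    rw [← H.sup]
    refine iSup_le fun j w hw => ?_
    rw [(H.sb j).full w hw, Str.prj_apply]
    refine Submodule.sum_mem _ fun i hi => Submodule.smul_mem _ _ (Submodule.subset_span ?_)
    rw [Finset.mem_range] at hi
    exact ⟨⟨j, ⟨i, hi⟩⟩, rfl⟩
  exact ⟨Basis.mk hli hsp, fun x => Basis.mk_apply hli hsp x⟩

/-- The forms of the blocks. -/
theorem exists_forms [Fintype J] [DecidableEq J] :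
    ∃ β : J → V →ₗ[ℂ] V →ₗ[ℂ] ℂ, (∀ c, β c ∈ IB L.toSubmodule) ∧
      ∀ c x y, β c (bv P v d x) (bv P v d y) = if x.1 = c then JJ (iv d) (sg d) x y else 0 := by
  obtain ⟨b, hb⟩ := H.exists_basis
  let pr : J → V →ₗ[ℂ] V := fun c => b.constr ℂ fun x => if x.1 = c then b x else 0
  have hpr : ∀ c x, pr c (b x) = if x.1 = c then b x else 0 := fun c x => Basis.constr_basis _ _ _ _
  have hprW : ∀ c i, ∀ w ∈ W i, pr c w = if i = c then w else 0 := by
    intro c i w hw
    have h1 := (H.sb i).ext (X := pr c) (Y := if i = c then LinearMap.id else 0) (fun k hk => by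
      have h2 := hpr c ⟨i, ⟨k, Nat.lt_succ_of_le hk⟩⟩
      rw [hb] at h2
      change pr c ((P.of ^ k) (v i)) = if i = c then (P.of ^ k) (v i) else 0 at h2
      rw [h2]
      split_ifs <;> rfl) w hw
    rw [h1]
    split_ifs <;> rfl
  have hcomm : ∀ c, ∀ X ∈ L, ∀ x, pr c (X x) = X (pr c x) := by
    intro c X hX x
    have h1 : (pr c).comp X = X.comp (pr c) := by
      refine b.ext fun y => ?_
      rw [LinearMap.comp_apply, LinearMap.comp_apply, hpr, hb]
      have h2 := hprW c y.1 (X (bv P v d y)) ((H.irr y.1).st X hX _ ((H.sb y.1).pm _))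
      rw [h2]
      split_ifs
      · rfl
      · rw [map_zero]
    exact LinearMap.congr_fun h1 x
  refine ⟨fun c => ω.comp (pr c), fun c X hX x y => ?_, fun c x y => ?_⟩
  · rw [LinearMap.comp_apply, LinearMap.comp_apply, hcomm c X hX]
    exact H.sk X hX _ _
  · rw [LinearMap.comp_apply, ← hb x, hpr, hb x]
    split_ifs
    · exact H.form x y
    · rw [map_zero, LinearMap.zero_apply]

end Fam

end Pool.Agent.L0h12.FF
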