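import Pool.Agent.L0h12.FF.Prods

set_option autoImplicit false
set_option linter.unusedSectionVars false
set_option linter.unusedVariables false

/-!
# Alternating invariants are products of forms of degree two, continued
-/

open Module Function

noncomputable section

namespace Pool.Agent.L0h12.FF

open Pool.Agent.H204R3.GP Pool.Agent.H204R3.SP

attribute [local instance 100] LieRing.ofAssociativeRing

variable {V : Type} [AddCommGroup V] [Module ℂ V] [FiniteDimensional ℂ V]
  {L : LieSubalgebra ℂ (Module.End ℂ V)} {ω : V →ₗ[ℂ] V →ₗ[ℂ] ℂ}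

namespace Fam

variable {P : Prin L} {J : Type} {W : J → Submodule ℂ V} {v : J → V} {d : J → ℕ}
  (H : Fam P ω W v d)

include H

open Classical in
/-- The components of the coefficient function are invariant under the symplectic Lie algebras. -/
theorem mem_InvG [LieAlgebra.IsKilling ℂ L] [Fintype J] {κ : Type} [Fintype κ] [DecidableEq κ]
    (α : MultilinearMap ℂ (fun _ : κ => V) ℂ)
    (halt : ∀ (x : κ → V) (i j : κ), x i = x j → i ≠ j → α x = 0)
    (hinv : ∀ X ∈ L, Kills X α) (t : κ → J) :
    (fun I : κ → Σ j, Fin (d j + 1) => if ∀ k, (I k).1 = t k then α (fun a => bv P v d (I a)) else 0) ∈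
      InvG (fun x : Σ j, Fin (d j + 1) => x.1) (iv d) (sg d) κ t := by
  obtain ⟨S, C⟩ := H.cb α halt hinv
  let F : (κ → J × ℕ) → ℂ := fun I => α fun a => gv P v (I a)
  let q : (Σ j, Fin (d j + 1)) → J × ℕ := fun x => (x.1, x.2)
  have hF : ∀ I : κ → Σ j, Fin (d j + 1), (α fun a => bv P v d (I a)) = F fun a => q (I a) :=
    fun I => rfl
  refine ⟨?_, ?_⟩
  · rintro ⟨j, p⟩ ⟨j', r⟩ hjj I
    have hjj' : j = j' := hjj
    subst hjj'
    have hp : (p : ℕ) ≤ d j := Nat.lt_succ_iff.1 p.2
    have hr : (r : ℕ) ≤ d j := Nat.lt_succ_iff.1 r.2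
    have hupd : ∀ (k : κ) (y : Σ j, Fin (d j + 1)), (fun a => q (update I k y a)) =
        update (fun a => q (I a)) k (q y) := by
      intro k y
      funext a
      by_cases ha : a = k
      · rw [ha, update_self, update_self]
      · rw [update_of_ne ha, update_of_ne ha]
    have hJ : ∀ (p : Fin (d j + 1)) (k : κ), JJ (iv d) (sg d) ⟨j, p⟩ (I k) =
        if (I k).1 = j ∧ (p : ℕ) + (I k).2 = d j then (-1) ^ (p : ℕ) else 0 := by
      intro p k
      unfold JJ
      have h1 : (I k = iv d ⟨j, p⟩) ↔ ((I k).1 = j ∧ (p : ℕ) + (I k).2 = d j) := by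
        generalize I k = z
        obtain ⟨i, s⟩ := z
        unfold iv
        constructor
        · intro h
          have h2 : i = j := congrArg Sigma.fst h
          subst h2
          have h3 : s = Fin.rev p := by injection h
          refine ⟨rfl, ?_⟩
          simp only
          rw [h3, Fin.val_rev]
          have := p.2
          omega
        · rintro ⟨h2, h3⟩
          have h2' : i = j := h2
          subst h2'
          have h4 : s = Fin.rev p := by
            apply Fin.ext
            rw [Fin.val_rev]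
            have h5 : (p : ℕ) + (s : ℕ) = d i := h3
            have := p.2
            omega
          rw [h4]
      by_cases h2 : (I k).1 = j ∧ (p : ℕ) + (I k).2 = d j
      · rw [if_pos h2, if_pos (h1.2 h2)]
        rfl
      · rw [if_neg h2, if_neg fun h => h2 (h1.1 h)]
    by_cases hI : ∀ k, (I k).1 = t k
    · have h1 := C.inv j hp hr (fun a => q (I a))
      refine Eq.trans ?_ h1
      refine Finset.sum_congr rfl fun k _ => ?_
      rw [hJ p k, hJ r k]
      have h2 : ∀ y : Fin (d j + 1), (I k).1 = j → (∀ l, (update I k ⟨j, y⟩ l).1 = t l) := by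
        intro y hk l
        by_cases hl : l = k
        · rw [hl, update_self, ← hI k, hk]
        · rw [update_of_ne hl, hI l]
      congr 1
      · change _ = if (I k).1 = j ∧ (p : ℕ) + (I k).2 = d j then
          (-1) ^ (p : ℕ) * F (update (fun a => q (I a)) k (j, r)) else 0
        by_cases h3 : (I k).1 = j ∧ (p : ℕ) + (I k).2 = d j
        · rw [if_pos h3, if_pos h3]
          have h4 := h2 r h3.1
          simp only [if_pos h4]
          rw [hF, hupd]
        · rw [if_neg h3, if_neg h3, zero_mul]
      · change _ = if (I k).1 = j ∧ (r : ℕ) + (I k).2 = d j then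
          (-1) ^ (r : ℕ) * F (update (fun a => q (I a)) k (j, p)) else 0
        by_cases h3 : (I k).1 = j ∧ (r : ℕ) + (I k).2 = d j
        · rw [if_pos h3, if_pos h3]
          have h4 := h2 p h3.1
          simp only [if_pos h4]
          rw [hF, hupd]
        · rw [if_neg h3, if_neg h3, zero_mul]
    · refine Finset.sum_eq_zero fun k _ => ?_
      rw [hJ p k, hJ r k]
      have h2 : ∀ y : Fin (d j + 1), (I k).1 = j → ¬ (∀ l, (update I k ⟨j, y⟩ l).1 = t l) := by
        intro y hk hall
        apply hI
        intro l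
        have h3 := hall l
        by_cases hl : l = k
        · rw [hl, update_self] at h3
          rw [hl, hk]
          exact h3
        · rwa [update_of_ne hl] at h3
      have h5 : ∀ (y z : Fin (d j + 1)), (if (I k).1 = j ∧ (y : ℕ) + (I k).2 = d j then
          (-1 : ℂ) ^ (y : ℕ) else 0) * (if ∀ l, (update I k ⟨j, z⟩ l).1 = t l then
            α (fun a => bv P v d (update I k ⟨j, z⟩ a)) else 0) = 0 := by
        intro y z
        by_cases h3 : (I k).1 = j ∧ (y : ℕ) + (I k).2 = d j
        · rw [if_neg (h2 z h3.1), mul_zero]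
        · rw [if_neg h3, zero_mul]
      rw [h5 p r, h5 r p, add_zero]
  · intro I hI k
    by_contra h
    apply hI
    exact if_neg fun h1 => h (h1 k)

/-- **The alternating invariants of the family are combinations of products of invariant bilinear
forms.** -/
theorem prods [LieAlgebra.IsKilling ℂ L] [Fintype J] {m : ℕ}
    (α : MultilinearMap ℂ (fun _ : Fin m × Fin 2 => V) ℂ)
    (halt : ∀ (x : Fin m × Fin 2 → V) (i j : Fin m × Fin 2), x i = x j → i ≠ j → α x = 0)
    (hinv : ∀ X ∈ L, Kills X α) :
    α ∈ Submodule.span ℂ {φ : MultilinearMap ℂ (fun _ : Fin m × Fin 2 => V) ℂ |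
      ∃ (e : Equiv.Perm (Fin m × Fin 2)) (B : Fin m → V →ₗ[ℂ] V →ₗ[ℂ] ℂ),
        (∀ s, B s ∈ IB L.toSubmodule) ∧ φ = mmG e B} := by
  classical
  obtain ⟨b, hb⟩ := H.exists_basis
  obtain ⟨β, hβ1, hβ2⟩ := H.exists_forms
  have h1 : ∀ t : Fin m × Fin 2 → J, (fun I : Fin m × Fin 2 → Σ j, Fin (d j + 1) =>
      if ∀ k, (I k).1 = t k then α (fun a => bv P v d (I a)) else 0) ∈
      MatG (fun x : Σ j, Fin (d j + 1) => x.1) (iv d) (sg d) (Fin m × Fin 2) m := by
    intro t
    refine fftG (cls := fun x : Σ j, Fin (d j + 1) => x.1) (fun x => iv_iv x)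
      (fun x => H.sg_iv x) (fun x => sg_ne x) (fun x y h => h) m
      (Fin m × Fin 2) (by rw [Fintype.card_prod, Fintype.card_fin, Fintype.card_fin, mul_comm]) t
      (H.mem_InvG α halt hinv t)
  have h2 : (fun I : Fin m × Fin 2 → Σ j, Fin (d j + 1) => α (fun a => bv P v d (I a))) ∈
      MatG (fun x : Σ j, Fin (d j + 1) => x.1) (iv d) (sg d) (Fin m × Fin 2) m := by
    have h3 : (fun I : Fin m × Fin 2 → Σ j, Fin (d j + 1) => α (fun a => bv P v d (I a))) =
        ∑ t : Fin m × Fin 2 → J, fun I : Fin m × Fin 2 → Σ j, Fin (d j + 1) =>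
          if ∀ k, (I k).1 = t k then α (fun a => bv P v d (I a)) else 0 := by
      funext I
      rw [Finset.sum_apply, Finset.sum_eq_single (fun k => (I k).1)]
      · rw [if_pos fun _ => rfl]
      · intro t _ ht
        rw [if_neg]
        intro h4
        exact ht (funext fun k => (h4 k).symm)
      · intro h4
        exact absurd (Finset.mem_univ _) h4
    rw [h3]
    exact Submodule.sum_mem _ fun t _ => h1 t
  let Θ : MultilinearMap ℂ (fun _ : Fin m × Fin 2 => V) ℂ →ₗ[ℂ]
      ((Fin m × Fin 2 → Σ j, Fin (d j + 1)) → ℂ) :=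
    { toFun := fun φ I => φ fun a => b (I a)
      map_add' := fun _ _ => rfl
      map_smul' := fun _ _ => rfl }
  have hΘ : Injective Θ := by
    intro φ ψ h
    exact Basis.ext_multilinear (fun _ => b) fun I => congrFun h I
  have h4 : Θ α ∈ Submodule.map Θ (Submodule.span ℂ
      {φ : MultilinearMap ℂ (fun _ : Fin m × Fin 2 => V) ℂ |
      ∃ (e : Equiv.Perm (Fin m × Fin 2)) (B : Fin m → V →ₗ[ℂ] V →ₗ[ℂ] ℂ),
        (∀ s, B s ∈ IB L.toSubmodule) ∧ φ = mmG e B}) := by
    have h5 : Θ α = fun I : Fin m × Fin 2 → Σ j, Fin (d j + 1) => α (fun a => bv P v d (I a)) := by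
      funext I
      change α (fun a => b (I a)) = _
      congr 1
      funext a
      exact hb (I a)
    rw [h5, Submodule.map_span]
    refine Submodule.span_mono ?_ h2
    rintro _ ⟨e, c, rfl⟩
    refine ⟨mmG e fun s => β (c s), ⟨e, fun s => β (c s), fun s => hβ1 (c s), rfl⟩, ?_⟩
    funext I
    change mmG e (fun s => β (c s)) (fun a => b (I a)) = _
    rw [mmG_apply]
    unfold matG
    refine Finset.prod_congr rfl fun s _ => ?_
    rw [hb, hb, hβ2]
  obtain ⟨ψ, hψ, h5⟩ := h4
  rw [← hΘ h5]
  exact hψ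

end Fam

end Pool.Agent.L0h12.FF
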