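import Pool.Agent.L0h12.FF.Twin

set_option autoImplicit false
set_option linter.unusedSectionVars false
set_option linter.unusedVariables false

/-!
# Separation of the strings by ideals
-/

open Module

noncomputable section

namespace Pool.Agent.L0h12.FF

attribute [local instance 100] LieRing.ofAssociativeRing

variable {V : Type} [AddCommGroup V] [Module ℂ V] [FiniteDimensional ℂ V]
  {L : LieSubalgebra ℂ (Module.End ℂ V)} {ω : V →ₗ[ℂ] V →ₗ[ℂ] ℂ}

/-- The blocks: pairwise orthogonal strings, without multiplicities. -/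
structure Fam (P : Prin L) (ω : V →ₗ[ℂ] V →ₗ[ℂ] ℂ) {J : Type} (W : J → Submodule ℂ V)
    (v : J → V) (d : J → ℕ) : Prop where
  alt : ∀ x, ω x x = 0
  sk : ∀ X ∈ L, Skew ω X
  sb : ∀ j, SB P ω (W j) (v j) (d j)
  hd : ∀ j, d j = 1 ∨ d j = 3
  irr : ∀ j, Irr L.toSubmodule (W j)
  nd : ∀ j, Nd ω (W j)
  orth : ∀ i j, i ≠ j → ∀ x ∈ W i, ∀ y ∈ W j, ω x y = 0
  sup : ⨆ j, W j = ⊤
  mult : ∀ U : Submodule ℂ V, Stable L.toSubmodule U → ∀ i k, i ≠ k → ∀ w ∈ W i, ∀ w' ∈ W k,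
    w + w' ∈ U → w ∈ U

namespace Fam

variable {P : Prin L} {J : Type} {W : J → Submodule ℂ V} {v : J → V} {d : J → ℕ}
  (H : Fam P ω W v d)
include H

theorem disj {i k : J} (hik : i ≠ k) : W i ⊓ W k = ⊥ := by
  rw [eq_bot_iff]
  rintro x ⟨hx, hx'⟩
  rw [Submodule.mem_bot]
  refine H.nd i x hx fun w hw => ?_
  have h1 := H.orth i k hik w hw x hx'
  rw [anti H.alt, h1, neg_zero]

theorem val01 {π : L →ₗ[ℂ] L} (C : Cen L π) (i : J) : Val P π (W i) 0 ∨ Val P π (W i) 1 := by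
  obtain ⟨b, hb, h⟩ := (H.sb i).exists_val C
  rcases hb with rfl | rfl
  · exact Or.inl h
  · exact Or.inr h

theorem not01 {π : L →ₗ[ℂ] L} {i : J} (h0 : Val P π (W i) 0) (h1 : Val P π (W i) 1) : False :=
  zero_ne_one ((H.sb i).val_uniq h0 h1)

/-- Strings which are not separated. -/
theorem ker_le [LieAlgebra.IsKilling ℂ L] {i k : J}
    (h : ∀ π : L →ₗ[ℂ] L, Cen L π → (Val P π (W i) 1 ↔ Val P π (W k) 1)) (x : L)
    (hx : ∀ w ∈ W i, x.1 w = 0) : ∀ w ∈ W k, x.1 w = 0 := by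
  obtain ⟨q, C, hq1, hq2⟩ := exists_cen (kerI (H.irr i).st)
  have h0 : Val P q (W i) 0 := by
    refine ⟨fun w hw => ?_, fun w hw => ?_, fun w hw => ?_⟩
    · rw [zero_smul]; exact (mem_kerI _).1 (hq1 P.f) w hw
    · rw [zero_smul]; exact (mem_kerI _).1 (hq1 P.h) w hw
    · rw [zero_smul]; exact (mem_kerI _).1 (hq1 P.e) w hw
  have h1 : Val P q (W k) 0 := by
    refine (H.val01 C k).resolve_right fun h1 => ?_
    exact H.not01 h0 ((h q C).2 h1)
  have h2 := val_zero (H.irr k) (H.nd k) H.sk C h1 x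
  rw [hq2 x ((mem_kerI _).2 hx)] at h2
  exact h2

/-- There is an ideal with small support which contains a given block. -/
theorem sep [LieAlgebra.IsKilling ℂ L] (j : J) : ∃ π : L →ₗ[ℂ] L, Cen L π ∧ Val P π (W j) 1 ∧
    ∀ i k, Val P π (W i) 1 → Val P π (W k) 1 → d i = d k → i = k := by
  classical
  have hex : ∃ n, ∃ π : L →ₗ[ℂ] L, Cen L π ∧ Val P π (W j) 1 ∧
      finrank ℂ (LinearMap.range π) = n := by
    refine ⟨_, LinearMap.id, ⟨fun _ => rfl, fun _ _ => rfl⟩, ⟨fun w _ => ?_, fun w _ => ?_,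
      fun w _ => ?_⟩, rfl⟩
    · rw [one_smul]; rfl
    · rw [one_smul]; rfl
    · rw [one_smul]; rfl
  obtain ⟨π, C, hj, hn⟩ := Nat.find_spec hex
  have hmin : ∀ π' : L →ₗ[ℂ] L, Cen L π' → Val P π' (W j) 1 →
      finrank ℂ (LinearMap.range π) ≤ finrank ℂ (LinearMap.range π') := by
    intro π' C' h'
    rw [hn]
    exact Nat.find_min' hex ⟨π', C', h', rfl⟩
  have hcomp : ∀ π' : L →ₗ[ℂ] L, Cen L π' → Val P π' (W j) 1 → π' ∘ₗ π = π := by
    intro π' C' h'
    have h1 := (H.sb j).val_mul C' C h' hj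
    rw [mul_one] at h1
    have h2 := hmin _ (C'.mul C) h1
    have h3 : LinearMap.range (π' ∘ₗ π) ≤ LinearMap.range π := by
      rintro _ ⟨x, rfl⟩
      rw [LinearMap.comp_apply, C'.comm C]
      exact ⟨_, rfl⟩
    have h4 : LinearMap.range (π' ∘ₗ π) = LinearMap.range π :=
      Submodule.eq_of_le_of_finrank_le h3 h2
    refine LinearMap.ext fun x => ?_
    have h5 : π x ∈ LinearMap.range (π' ∘ₗ π) := by
      rw [h4]
      exact ⟨x, rfl⟩
    obtain ⟨y, hy⟩ := h5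
    rw [LinearMap.comp_apply] at hy
    rw [LinearMap.comp_apply, ← hy, C'.idem]
  have hU1 : ∀ i, Val P π (W i) 1 → ∀ π' : L →ₗ[ℂ] L, Cen L π' → Val P π' (W j) 1 →
      Val P π' (W i) 1 := by
    intro i hi π' C' h'
    refine (H.val01 C' i).resolve_left fun h0 => ?_
    have h1 := (H.sb i).val_mul C' C h0 hi
    rw [hcomp π' C' h', zero_mul] at h1
    exact H.not01 h1 hi
  have hU2 : ∀ i, Val P π (W i) 1 → ∀ π' : L →ₗ[ℂ] L, Cen L π' →
      (Val P π' (W j) 1 ↔ Val P π' (W i) 1) := by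
    intro i hi π' C'
    refine ⟨hU1 i hi π' C', fun h1 => ?_⟩
    refine (H.val01 C' j).resolve_left fun h0 => ?_
    have h2 := h0.compl
    rw [sub_zero] at h2
    have h3 := hU1 i hi _ C'.compl h2
    have h4 := h1.compl
    rw [sub_self] at h4
    exact H.not01 h4 h3
  refine ⟨π, C, hj, fun i k hi hk hik => ?_⟩
  by_contra hne
  have h1 : ∀ π' : L →ₗ[ℂ] L, Cen L π' → (Val P π' (W i) 1 ↔ Val P π' (W k) 1) :=
    fun π' C' => (hU2 i hi π' C').symm.trans (hU2 k hk π' C')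
  have B := H.sb i
  have B' : SB P ω (W k) (v k) (d i) := by
    rw [hik]
    exact H.sb k
  exact no_twin B B' (H.hd i) (fun x => ⟨H.ker_le h1 x, H.ker_le (fun π' C' => (h1 π' C').symm) x⟩)
    (H.disj hne) fun U hU w hw w' hw' => H.mult U hU i k hne w hw w' hw'

end Fam

end Pool.Agent.L0h12.FF
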