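import Pool.Agent.L0h12.FF.Blocks3

set_option autoImplicit false
set_option linter.unusedSectionVars false
set_option linter.unusedSimpArgs false

/-!
# Blocks of dimension two
-/

open Module Function Polynomial TensorProduct

noncomputable section

namespace Pool.Agent.L0h12.FF

open Pool.Agent.Y102 Pool.Agent.W516.DR Pool.Agent.H204R3.GP Pool.Agent.W516.KC
  Pool.Agent.H204R3.SP

attribute [local instance 100] LieRing.ofAssociativeRing

/-- Commutation with a basis. -/
theorem comm_of_basis {W : Type} [AddCommGroup W] [Module ℚ W] {n : ℕ}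
    {S : Submodule ℚ (Module.End ℚ W)} (z : Basis (Fin n) ℚ S) {Q : Module.End ℚ W}
    (hQ : ∀ i, Q * (z i : Module.End ℚ W) = z i * Q) {R : Module.End ℚ W} (hR : R ∈ S) :
    Q * R = R * Q := by
  have h1 : R = ∑ i, z.repr ⟨R, hR⟩ i • (z i : Module.End ℚ W) := by
    have h2 := congrArg Subtype.val (z.sum_repr ⟨R, hR⟩)
    rw [Submodule.coe_sum] at h2
    exact h2.symm
  rw [h1, Finset.mul_sum, Finset.sum_mul]
  refine Finset.sum_congr rfl fun i _ => ?_
  rw [mul_smul_comm, smul_mul_assoc, hQ]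

namespace Sys

variable {g : ℕ} {A : AbVar g} {r : ℕ} {P : Fin r → Module.End ℚ A.H1} (H : Sys A P)
include H

/-- The blocks have even dimension. -/
theorem even_JJ (j : JJ A P) : Even (finrank ℂ (EE A P j.1)) := by
  have hsk : ∀ X ∈ LC A, Skew (omC A) X := fun X hX => omC_skew A hX
  have hW : ∀ j : JJ A P, Irr (LC A).toSubmodule (EE A P j.1) := fun j => H.EE_irr j.2
  have hN : ∀ j : JJ A P, Nd (omC A) (EE A P j.1) := fun j => H.EE_nd j.1
  have hK : LieAlgebra.IsKilling ℂ (LC A) := isKilling hW hN H.iSup_JJ hsk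
  obtain ⟨p⟩ : Nonempty (Prin (LC A)) := exists_prin (LC A)
  exact ((hW j).strings p (omC_alt A) hsk (hN j)).1.even (p.sl (omC_alt A) hsk) _ _ rfl

/-- If all blocks are of dimension less than four then the products of the classes of degree two
generate. -/
theorem small (hg : ∀ j : JJ A P, finrank ℂ (EE A P j.1) < 4) : finrank ℚ (ZZ A P) = g := by
  obtain ⟨inst, hcard⟩ := H.card_JJ
  have h2 : ∀ j : JJ A P, finrank ℂ (EE A P j.1) = 2 := by
    intro j
    have h1 := H.even_JJ j
    have h3 := hg j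
    have h4 : finrank ℂ (EE A P j.1) ≠ 0 := by
      intro h0
      exact j.2 (Submodule.finrank_eq_zero.1 h0)
    obtain ⟨k, hk⟩ := h1
    omega
  have h3 := H.sum_finrank
  rw [Finset.sum_congr rfl fun j _ => h2 j, Finset.sum_const, Finset.card_univ, hcard,
    smul_eq_mul] at h3
  omega

theorem products_of_small (hg : ∀ j : JJ A P, finrank ℂ (EE A P j.1) < 4) {m : ℕ}
    (φ : MultilinearMap ℚ (fun _ : Fin m × Fin 2 => A.H1) ℚ)
    (hφ : IsDeRhamBettiForm QBar A.dR Pool.Agent.Y102.tau m φ) :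
    φ ∈ Submodule.span ℚ (AbVar.LefProd A A.EA m) := by
  obtain ⟨z⟩ := exists_bas (ZZ A P)
  rw [H.small hg] at z
  refine A.products_of_real (fun i => (z i : Module.End ℚ A.H1))
    (fun i => A.mem_EA.1 (z i).2.1) (fun i j => H.commZ (z i).2 (z j).2)
    (fun i u v => H.symZ (z i).2 u v) (li_sub z) (fun Q hQ hc u v => ?_) φ hφ
  exact H.symZ ⟨A.mem_EA.2 hQ, fun i => comm_of_basis z hc (H.memZ i)⟩ u v

end Sys

end Pool.Agent.L0h12.FF
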