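import Pool.Agent.L0h12.FF.Prin

set_option autoImplicit false
set_option linter.unusedSectionVars false

/-!
# The highest weight vector of an irreducible space
-/

open Module

noncomputable section

namespace Pool.Agent.L0h12.FF

attribute [local instance 100] LieRing.ofAssociativeRing

variable {V : Type} [AddCommGroup V] [Module ℂ V] [FiniteDimensional ℂ V]

/-- A subspace stable under the Lie algebra. -/
def Stable (L : Submodule ℂ (Module.End ℂ V)) (U : Submodule ℂ V) : Prop :=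
  ∀ X ∈ L, ∀ u ∈ U, X u ∈ U

/-- An irreducible stable subspace. -/
structure Irr (L : Submodule ℂ (Module.End ℂ V)) (W : Submodule ℂ V) : Prop where
  ne : W ≠ ⊥
  st : Stable L W
  irr : ∀ U : Submodule ℂ V, U ≤ W → Stable L U → U = ⊥ ∨ U = W

/-- Commuting operators have a common eigenvector. -/
theorem exists_common (S : Set (Module.End ℂ V)) (hS : ∀ x ∈ S, ∀ y ∈ S, x * y = y * x) (n : ℕ) :
    ∀ U : Submodule ℂ V, finrank ℂ U = n → U ≠ ⊥ → (∀ x ∈ S, ∀ u ∈ U, x u ∈ U) →
    ∃ v ∈ U, v ≠ 0 ∧ ∀ x ∈ S, ∃ c : ℂ, x v = c • v := by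
  induction n using Nat.strong_induction_on with
  | _ n ih =>
    intro U hn hU hst
    by_cases hsc : ∀ x ∈ S, ∃ c : ℂ, ∀ u ∈ U, x u = c • u
    · obtain ⟨v, hv, hv0⟩ := Submodule.exists_mem_ne_zero_of_ne_bot hU
      exact ⟨v, hv, hv0, fun x hx => by
        obtain ⟨c, hc⟩ := hsc x hx
        exact ⟨c, hc v hv⟩⟩
    · push Not at hsc
      obtain ⟨x, hx, hxc⟩ := hsc
      -- an eigenvector of x in U
      have : Nontrivial U := Submodule.nontrivial_iff_ne_bot.2 hU
      obtain ⟨c, hc⟩ := Module.End.exists_eigenvalue (x.restrict (hst x hx))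
      obtain ⟨⟨w, hwU⟩, hw⟩ := hc.exists_hasEigenvector
      have hw1 : x w = c • w := by
        have := hw.apply_eq_smul
        exact congrArg (fun z : U => (z : V)) this
      have hw0 : w ≠ 0 := by
        intro h
        exact hw.2 (Subtype.ext h)
      let U' : Submodule ℂ V := U ⊓ Module.End.eigenspace x c
      have hU' : U' ≠ ⊥ := by
        intro h
        apply hw0
        have h1 : w ∈ U' := ⟨hwU, Module.End.mem_eigenspace_iff.2 hw1⟩
        rwa [h, Submodule.mem_bot] at h1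
      have hlt : U' < U := by
        refine lt_of_le_of_ne inf_le_left fun h => ?_
        obtain ⟨u, hu, hne⟩ := hxc c
        apply hne
        have h1 : u ∈ U' := by rw [h]; exact hu
        exact Module.End.mem_eigenspace_iff.1 h1.2
      have hst' : ∀ y ∈ S, ∀ u ∈ U', y u ∈ U' := by
        intro y hy u hu
        refine ⟨hst y hy u hu.1, Module.End.mem_eigenspace_iff.2 ?_⟩
        have h1 := congrArg (fun z : Module.End ℂ V => z u) (hS x hx y hy)
        simp only [Module.End.mul_apply] at h1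
        rw [h1, Module.End.mem_eigenspace_iff.1 hu.2, map_smul]
      obtain ⟨v, hv, h1, h2⟩ := ih _ (by rw [← hn]; exact Submodule.finrank_lt_finrank_of_lt hlt) U'
        rfl hU' hst'
      exact ⟨v, hv.1, h1, h2⟩

variable {L : LieSubalgebra ℂ (Module.End ℂ V)} (P : Prin L)

/-- The operators. -/
def Prin.oh : Module.End ℂ V := P.h.1
def Prin.oe : Module.End ℂ V := P.e.1
def Prin.of : Module.End ℂ V := P.f.1

theorem br_eq (X Y : L) : (⁅X, Y⁆ : L).1 = X.1 * Y.1 - Y.1 * X.1 := rfl

theorem Prin.rel_e : P.oh * P.oe - P.oe * P.oh = (2 : ℂ) • P.oe :=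
  congrArg (fun z : L => (z : Module.End ℂ V)) P.he

theorem Prin.rel_f : P.oh * P.of - P.of * P.oh = (-2 : ℂ) • P.of :=
  congrArg (fun z : L => (z : Module.End ℂ V)) P.hf

theorem Prin.rel_ef : P.oe * P.of - P.of * P.oe = P.oh :=
  congrArg (fun z : L => (z : Module.End ℂ V)) P.ef

theorem Prin.shift {y : L} {c : ℂ} (hy : ⁅P.h, y⁆ = c • y) {w : V} {a : ℂ} (hw : P.oh w = a • w) :
    P.oh (y.1 w) = (a + c) • y.1 w := by
  have h1 : P.oh (y.1 w) - y.1 (P.oh w) = c • y.1 w :=
    congrArg (fun z : L => (z : Module.End ℂ V) w) hy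
  rw [hw, map_smul] at h1
  rw [add_smul, add_comm, ← h1]
  abel

theorem top (W : Submodule ℂ V) (hW : Irr L.toSubmodule W) :
    ∃ v ∈ W, v ≠ 0 ∧ ∃ n : ℂ, P.oh v = n • v ∧ P.oe v = 0 ∧
      W ≤ Submodule.span ℂ ({v} ∪ {w | w ∈ W ∧ ∃ m : ℕ, 1 ≤ m ∧ P.oh w = (n - 2 * m : ℂ) • w}) := by
  classical
  have hstW : ∀ (x : L), ∀ w ∈ W, x.1 w ∈ W := fun x w hw => hW.st x.1 x.2 w hw
  -- the top eigenvalue
  let S : Set ℂ := {c | ∃ w ∈ W, w ≠ 0 ∧ P.oh w = c • w}
  have hSfin : S.Finite := by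
    refine (Module.End.finite_hasEigenvalue P.oh).subset ?_
    rintro c ⟨w, _, hw0, hw⟩
    exact Module.End.hasEigenvalue_of_hasEigenvector (x := w) ⟨Module.End.mem_eigenspace_iff.2 hw, hw0⟩
  have hSne : S.Nonempty := by
    have : Nontrivial W := Submodule.nontrivial_iff_ne_bot.2 hW.ne
    obtain ⟨c, hc⟩ := Module.End.exists_eigenvalue (P.oh.restrict (fun w hw => hstW P.h w hw))
    obtain ⟨⟨w, hwU⟩, hw⟩ := hc.exists_hasEigenvector
    exact ⟨c, w, hwU, fun h => hw.2 (Subtype.ext h),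
      congrArg (fun z : W => (z : V)) hw.apply_eq_smul⟩
  obtain ⟨n, hn, hmax⟩ := hSfin.exists_maximalFor Complex.re S hSne
  have hmax' : ∀ c : ℂ, n.re < c.re → ∀ w ∈ W, P.oh w = c • w → w = 0 := by
    intro c hc w hw h1
    by_contra h2
    have h3 := hmax (j := c) ⟨w, hw, h2, h1⟩ hc.le
    exact absurd h3 (not_le.2 hc)
  -- the common eigenvector
  let U0 : Submodule ℂ V := W ⊓ Module.End.eigenspace P.oh n
  have hU0 : U0 ≠ ⊥ := by
    obtain ⟨w, hwW, hw0, hw⟩ := hn
    intro h
    apply hw0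
    have h1 : w ∈ U0 := ⟨hwW, Module.End.mem_eigenspace_iff.2 hw⟩
    rwa [h, Submodule.mem_bot] at h1
  have hHcomm : ∀ x y : L, x ∈ P.H → y ∈ P.H → x.1 * y.1 = y.1 * x.1 := by
    intro x y hx hy
    have h1 := congrArg (fun z : L => (z : Module.End ℂ V)) (P.ab x hx y hy)
    change x.1 * y.1 - y.1 * x.1 = 0 at h1
    exact sub_eq_zero.1 h1
  obtain ⟨v, hv, hv0, hvH⟩ := exists_common {x : Module.End ℂ V | ∃ y : L, y ∈ P.H ∧ x = y.1}
    (by rintro _ ⟨x, hx, rfl⟩ _ ⟨y, hy, rfl⟩; exact hHcomm x y hx hy) _ U0 rfl hU0 (by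
      rintro _ ⟨x, hx, rfl⟩ u hu
      refine ⟨hstW x u hu.1, Module.End.mem_eigenspace_iff.2 ?_⟩
      have h1 := hHcomm P.h x P.hH hx
      have h2 := congrArg (fun z : Module.End ℂ V => z u) h1
      simp only [Module.End.mul_apply] at h2
      change P.h.1 (x.1 u) = n • x.1 u
      rw [h2]
      have h3 : P.h.1 u = n • u := Module.End.mem_eigenspace_iff.1 hu.2
      rw [h3, map_smul])
  have hvW : v ∈ W := hv.1
  have hvn : P.oh v = n • v := Module.End.mem_eigenspace_iff.1 hv.2
  have hpos : ∀ x : L, x ∈ Submodule.span ℂ {y | ∃ m : ℕ, 1 ≤ m ∧ ⁅P.h, y⁆ = (2 * m : ℂ) • y} →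
      x.1 v = 0 := by
    intro x hx
    induction hx using Submodule.span_induction with
    | mem y hy =>
      obtain ⟨m, hm, hy⟩ := hy
      refine hmax' (n + 2 * m) ?_ _ (hstW y v hvW) (P.shift hy hvn)
      have h1 : (1 : ℝ) ≤ m := by exact_mod_cast hm
      have h2 : (n + 2 * (m : ℂ)).re = n.re + 2 * m := by simp
      rw [h2]
      linarith
    | zero => rfl
    | add a b _ _ ha hb =>
      change a.1 v + b.1 v = 0
      rw [ha, hb, add_zero]
    | smul c a _ ha =>
      change c • a.1 v = 0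
      rw [ha, smul_zero]
  -- the generated subspace
  let N : Submodule ℂ L := Submodule.span ℂ {y | ∃ m : ℕ, 1 ≤ m ∧ ⁅P.h, y⁆ = (-(2 * m) : ℂ) • y}
  let B : Submodule ℂ L := P.H.toSubmodule ⊔
    Submodule.span ℂ {y | ∃ m : ℕ, 1 ≤ m ∧ ⁅P.h, y⁆ = (2 * m : ℂ) • y}
  have hdec : ∀ x : L, ∃ y ∈ N, ∃ b ∈ B, y + b = x := fun x =>
    Submodule.mem_sup.1 (P.dec (Submodule.mem_top (x := x)))
  have hBv : ∀ b ∈ B, ∃ c : ℂ, b.1 v = c • v := by
    intro b hb
    obtain ⟨x, hx, y, hy, rfl⟩ := Submodule.mem_sup.1 hb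
    obtain ⟨c, hc⟩ := hvH x.1 ⟨x, hx, rfl⟩
    refine ⟨c, ?_⟩
    change x.1 v + y.1 v = _
    rw [hpos y hy, add_zero, hc]
  let K : ℕ → Submodule ℂ V := fun k => Nat.rec (Submodule.span ℂ {v})
    (fun _ U => U ⊔ Submodule.span ℂ {z | ∃ y ∈ N, ∃ w ∈ U, z = y.1 w}) k
  have hK0 : K 0 = Submodule.span ℂ {v} := rfl
  have hKs : ∀ k, K (k + 1) = K k ⊔ Submodule.span ℂ {z | ∃ y ∈ N, ∃ w ∈ K k, z = y.1 w} :=
    fun _ => rfl
  have hmono : Monotone K := monotone_nat_of_le_succ fun k => by rw [hKs]; exact le_sup_left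
  have hNK : ∀ k, ∀ y ∈ N, ∀ w ∈ K k, y.1 w ∈ K (k + 1) := fun k y hy w hw => by
    rw [hKs]
    exact Submodule.mem_sup_right (Submodule.subset_span ⟨y, hy, w, hw, rfl⟩)
  have hBK : ∀ k, ∀ b ∈ B, ∀ w ∈ K k, b.1 w ∈ K k := by
    intro k
    induction k with
    | zero =>
      intro b hb w hw
      rw [hK0, Submodule.mem_span_singleton] at hw ⊢
      obtain ⟨a, rfl⟩ := hw
      obtain ⟨c, hc⟩ := hBv b hb
      exact ⟨a * c, by rw [map_smul, hc, smul_smul]⟩
    | succ k ih =>
      intro b hb w hw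
      rw [hKs] at hw
      obtain ⟨w1, hw1, w2, hw2, rfl⟩ := Submodule.mem_sup.1 hw
      rw [map_add]
      refine Submodule.add_mem _ (hmono (Nat.le_succ k) (ih b hb w1 hw1)) ?_
      clear hw hw1
      induction hw2 using Submodule.span_induction with
      | mem z hz =>
        obtain ⟨y, hy, u, hu, rfl⟩ := hz
        obtain ⟨y', hy', b', hb', h1⟩ := hdec ⁅b, y⁆
        have h2 : b.1 (y.1 u) = y.1 (b.1 u) + (y'.1 u + b'.1 u) := by
          have h3 := congrArg (fun z : L => (z : Module.End ℂ V) u) h1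
          change y'.1 u + b'.1 u = b.1 (y.1 u) - y.1 (b.1 u) at h3
          rw [h3]
          abel
        rw [h2]
        exact Submodule.add_mem _ (hNK k y hy _ (ih b hb u hu))
          (Submodule.add_mem _ (hNK k y' hy' u hu) (hmono (Nat.le_succ k) (ih b' hb' u hu)))
      | zero => rw [map_zero]; exact Submodule.zero_mem _
      | add a b' _ _ ha hb' => rw [map_add]; exact Submodule.add_mem _ ha hb'
      | smul c a _ ha => rw [map_smul]; exact Submodule.smul_mem _ _ ha
  have hKW : ∀ k, K k ≤ W := by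
    intro k
    induction k with
    | zero =>
      rw [hK0, Submodule.span_singleton_le_iff_mem]
      exact hvW
    | succ k ih =>
      rw [hKs, sup_le_iff]
      refine ⟨ih, Submodule.span_le.2 ?_⟩
      rintro _ ⟨y, _, w, hw, rfl⟩
      exact hstW y w (ih hw)
  have hst : Stable L.toSubmodule (⨆ k, K k) := by
    intro X hX u hu
    obtain ⟨k, hk⟩ := (Submodule.mem_iSup_of_directed K hmono.directed_le).1 hu
    obtain ⟨y, hy, b, hb, h1⟩ := hdec ⟨X, hX⟩
    have h2 : X u = y.1 u + b.1 u := congrArg (fun z : L => (z : Module.End ℂ V) u) h1.symm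
    rw [h2]
    exact Submodule.add_mem _ (Submodule.mem_iSup_of_mem (k + 1) (hNK k y hy u hk))
      (Submodule.mem_iSup_of_mem k (hBK k b hb u hk))
  have hall : (⨆ k, K k) = W := by
    refine (hW.irr _ (iSup_le hKW) hst).resolve_left fun h => ?_
    apply hv0
    have h1 : v ∈ ⨆ k, K k := Submodule.mem_iSup_of_mem 0 (by
      rw [hK0]
      exact Submodule.mem_span_singleton_self v)
    rwa [h, Submodule.mem_bot] at h1
  refine ⟨v, hvW, hv0, n, hvn, ?_, ?_⟩
  · refine hpos P.e (Submodule.subset_span ⟨1, le_rfl, ?_⟩)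
    rw [P.he, Nat.cast_one, mul_one]
  · set U := Submodule.span ℂ ({v} ∪ {w | w ∈ W ∧ ∃ m : ℕ, 1 ≤ m ∧
      P.oh w = (n - 2 * m : ℂ) • w}) with hU
    have hNU : ∀ y ∈ N, ∀ w ∈ U, y.1 w ∈ U := by
      intro y hy w hw
      induction hy using Submodule.span_induction with
      | mem y hy =>
        obtain ⟨m, hm, hy⟩ := hy
        induction hw using Submodule.span_induction with
        | mem w hw =>
          rcases hw with hw | ⟨hwW, m', hm', hw⟩
          · rw [Set.mem_singleton_iff] at hw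
            subst hw
            refine Submodule.subset_span (Or.inr ⟨hstW y w hvW, m, hm, ?_⟩)
            rw [P.shift hy hvn]
            congr 1
          · refine Submodule.subset_span (Or.inr ⟨hstW y w hwW, m' + m, by omega, ?_⟩)
            rw [P.shift hy hw]
            congr 1
            push_cast
            ring
        | zero => rw [map_zero]; exact Submodule.zero_mem _
        | add a b' _ _ ha hb' => rw [map_add]; exact Submodule.add_mem _ ha hb'
        | smul c a _ ha => rw [map_smul]; exact Submodule.smul_mem _ _ ha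
      | zero => exact Submodule.zero_mem _
      | add a b' _ _ ha hb' => exact Submodule.add_mem _ ha hb'
      | smul c a _ ha => exact Submodule.smul_mem _ _ ha
    have hKU : ∀ k, K k ≤ U := by
      intro k
      induction k with
      | zero =>
        rw [hK0, Submodule.span_singleton_le_iff_mem]
        exact Submodule.subset_span (Or.inl rfl)
      | succ k ih =>
        rw [hKs, sup_le_iff]
        refine ⟨ih, Submodule.span_le.2 ?_⟩
        rintro _ ⟨y, hy, w, hw, rfl⟩
        exact hNU y hy w (ih hw)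
    rw [← hall]
    exact iSup_le hKU

end Pool.Agent.L0h12.FF
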