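import Pool.Agent.L0h12.FF.Cen

set_option autoImplicit false
set_option linter.unusedSectionVars false
set_option linter.unusedVariables false

/-!
# Two strings of the same length with the same kernel are isomorphic
-/

open Module

noncomputable section

namespace Pool.Agent.L0h12.FF

attribute [local instance 100] LieRing.ofAssociativeRing

variable {V : Type} [AddCommGroup V] [Module ℂ V] [FiniteDimensional ℂ V]
  {L : LieSubalgebra ℂ (Module.End ℂ V)} {ω : V →ₗ[ℂ] V →ₗ[ℂ] ℂ}

/-- The subspace generated by a vector of highest weight. -/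
theorem gen (P : Prin L) {v : V} {n : ℂ} (hvn : P.oh v = n • v)
    (hpos : ∀ x : L, x ∈ Submodule.span ℂ {y | ∃ m : ℕ, 1 ≤ m ∧ ⁅P.h, y⁆ = (2 * m : ℂ) • y} →
      x.1 v = 0)
    (hvH : ∀ x ∈ P.H, ∃ c : ℂ, x.1 v = c • v) :
    ∃ U : Submodule ℂ V, Stable L.toSubmodule U ∧ v ∈ U ∧
      U ≤ Submodule.span ℂ ({v} ∪ {w | ∃ m : ℕ, 1 ≤ m ∧ P.oh w = (n - 2 * m : ℂ) • w}) := by
  classical
  let N : Submodule ℂ L := Submodule.span ℂ {y | ∃ m : ℕ, 1 ≤ m ∧ ⁅P.h, y⁆ = (-(2 * m) : ℂ) • y}
  let B : Submodule ℂ L := P.H.toSubmodule ⊔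
    Submodule.span ℂ {y | ∃ m : ℕ, 1 ≤ m ∧ ⁅P.h, y⁆ = (2 * m : ℂ) • y}
  have hdec : ∀ x : L, ∃ y ∈ N, ∃ b ∈ B, y + b = x := fun x =>
    Submodule.mem_sup.1 (P.dec (Submodule.mem_top (x := x)))
  have hBv : ∀ b ∈ B, ∃ c : ℂ, b.1 v = c • v := by
    intro b hb
    obtain ⟨x, hx, y, hy, rfl⟩ := Submodule.mem_sup.1 hb
    obtain ⟨c, hc⟩ := hvH x hx
    refine ⟨c, ?_⟩
    change x.1 v + y.1 v = _
    rw [hpos y hy, add_zero, hc]
  let K : ℕ → Submodule ℂ V := fun k => Nat.rec (Submodule.span ℂ {v})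
    (fun _ U => U ⊔ Submodule.span ℂ {z | ∃ y ∈ N, ∃ w ∈ U, z = y.1 w}) k
  have hK0 : K 0 = Submodule.span ℂ {v} := rfl
  have hKs : ∀ k, K (k + 1) = K k ⊔ Submodule.span ℂ {z | ∃ y ∈ N, ∃ w ∈ K k, z = y.1 w} :=
    fun _ => rfl
  have hmono : Monotone K := monotone_nat_of_le_succ fun k => by rw [hKs]; exact le_sup_left
  have hNK : ∀ k, ∀ y ∈ N, ∀ w ∈ K k, y.1 w ∈ K (k + 1) := fun k y hy w hw => by
    rw [hKs]
    exact Submodule.mem_sup_right (Submodule.subset_span ⟨y, hy, w, hw, rfl⟩)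
  have hBK : ∀ k, ∀ b ∈ B, ∀ w ∈ K k, b.1 w ∈ K k := by
    intro k
    induction k with
    | zero =>
      intro b hb w hw
      rw [hK0, Submodule.mem_span_singleton] at hw ⊢
      obtain ⟨a, rfl⟩ := hw
      obtain ⟨c, hc⟩ := hBv b hb
      exact ⟨a * c, by rw [map_smul, hc, smul_smul]⟩
    | succ k ih =>
      intro b hb w hw
      rw [hKs] at hw
      obtain ⟨w1, hw1, w2, hw2, rfl⟩ := Submodule.mem_sup.1 hw
      rw [map_add]
      refine Submodule.add_mem _ (hmono (Nat.le_succ k) (ih b hb w1 hw1)) ?_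
      clear hw hw1
      induction hw2 using Submodule.span_induction with
      | mem z hz =>
        obtain ⟨y, hy, u, hu, rfl⟩ := hz
        obtain ⟨y', hy', b', hb', h1⟩ := hdec ⁅b, y⁆
        have h2 : b.1 (y.1 u) = y.1 (b.1 u) + (y'.1 u + b'.1 u) := by
          have h3 := congrArg (fun z : L => (z : Module.End ℂ V) u) h1
          change y'.1 u + b'.1 u = b.1 (y.1 u) - y.1 (b.1 u) at h3
          rw [h3]
          abel
        rw [h2]
        exact Submodule.add_mem _ (hNK k y hy _ (ih b hb u hu))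
          (Submodule.add_mem _ (hNK k y' hy' u hu) (hmono (Nat.le_succ k) (ih b' hb' u hu)))
      | zero => rw [map_zero]; exact Submodule.zero_mem _
      | add a b' _ _ ha hb' => rw [map_add]; exact Submodule.add_mem _ ha hb'
      | smul c a _ ha => rw [map_smul]; exact Submodule.smul_mem _ _ ha
  have hst : Stable L.toSubmodule (⨆ k, K k) := by
    intro X hX u hu
    obtain ⟨k, hk⟩ := (Submodule.mem_iSup_of_directed K hmono.directed_le).1 hu
    obtain ⟨y, hy, b, hb, h1⟩ := hdec ⟨X, hX⟩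
    have h2 : X u = y.1 u + b.1 u := congrArg (fun z : L => (z : Module.End ℂ V) u) h1.symm
    rw [h2]
    exact Submodule.add_mem _ (Submodule.mem_iSup_of_mem (k + 1) (hNK k y hy u hk))
      (Submodule.mem_iSup_of_mem k (hBK k b hb u hk))
  refine ⟨⨆ k, K k, hst, Submodule.mem_iSup_of_mem 0 (by
      rw [hK0]
      exact Submodule.mem_span_singleton_self v), ?_⟩
  set U := Submodule.span ℂ ({v} ∪ {w | ∃ m : ℕ, 1 ≤ m ∧ P.oh w = (n - 2 * m : ℂ) • w}) with hU
  have hNU : ∀ y ∈ N, ∀ w ∈ U, y.1 w ∈ U := by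
    intro y hy w hw
    induction hy using Submodule.span_induction with
    | mem y hy =>
      obtain ⟨m, hm, hy⟩ := hy
      induction hw using Submodule.span_induction with
      | mem w hw =>
        rcases hw with hw | ⟨m', hm', hw⟩
        · rw [Set.mem_singleton_iff] at hw
          subst hw
          refine Submodule.subset_span (Or.inr ⟨m, hm, ?_⟩)
          rw [P.shift hy hvn]
          congr 1
        · refine Submodule.subset_span (Or.inr ⟨m' + m, by omega, ?_⟩)
          rw [P.shift hy hw]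
          congr 1
          push_cast
          ring
      | zero => rw [map_zero]; exact Submodule.zero_mem _
      | add a b' _ _ ha hb' => rw [map_add]; exact Submodule.add_mem _ ha hb'
      | smul c a _ ha => rw [map_smul]; exact Submodule.smul_mem _ _ ha
    | zero => exact Submodule.zero_mem _
    | add a b' _ _ ha hb' => exact Submodule.add_mem _ ha hb'
    | smul c a _ ha => exact Submodule.smul_mem _ _ ha
  have hKU : ∀ k, K k ≤ U := by
    intro k
    induction k with
    | zero =>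
      rw [hK0, Submodule.span_singleton_le_iff_mem]
      exact Submodule.subset_span (Or.inl rfl)
    | succ k ih =>
      rw [hKs, sup_le_iff]
      refine ⟨ih, Submodule.span_le.2 ?_⟩
      rintro _ ⟨y, hy, w, hw, rfl⟩
      exact hNU y hy w (ih hw)
  exact iSup_le hKU

namespace SB

variable {P : Prin L} {W : Submodule ℂ V} {v : V} {d : ℕ} (B : SB P ω W v d)
include B

theorem pos_zero {x : L} {c : ℂ} (hx : ⁅P.h, x⁆ = c • x) {k : ℕ}
    (h : ∀ i ≤ d, (d : ℂ) - 2 * k + c ≠ (d : ℂ) - 2 * i) : x.1 ((P.of ^ k) v) = 0 := by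
  refine B.wt_zero (B.st _ x.2 _ (B.pm k)) (P.shift hx (B.sl.h_pow B.str.hv k)) h

theorem diag {x : L} (hx : x ∈ P.H) {k : ℕ} (hk : k ≤ d) :
    ∃ a : ℂ, x.1 ((P.of ^ k) v) = a • (P.of ^ k) v := by
  have h1 : ⁅P.h, x⁆ = (0 : ℂ) • x := by rw [zero_smul]; exact P.ab _ P.hH _ hx
  have h2 := P.shift h1 (B.sl.h_pow B.str.hv k)
  rw [add_zero] at h2
  exact B.wt_one (B.st _ x.2 _ (B.pm k)) hk h2

theorem skew_diag {x : L} {i k : ℕ} (hik : i + k = d) {a b : ℂ}
    (ha : x.1 ((P.of ^ i) v) = a • (P.of ^ i) v) (hb : x.1 ((P.of ^ k) v) = b • (P.of ^ k) v) :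
    a + b = 0 := by
  have h1 := B.sk _ x.2 ((P.of ^ i) v) ((P.of ^ k) v)
  rw [ha, hb, map_smul, map_smul, LinearMap.smul_apply, B.str.form B.sl, if_pos hik, smul_eq_mul,
    smul_eq_mul, ← add_mul] at h1
  exact (mul_eq_zero.1 h1).resolve_right (pow_ne_zero _ (by norm_num))

theorem kills {x : L} (h : ∀ k ≤ d, x.1 ((P.of ^ k) v) = 0) : ∀ w ∈ W, x.1 w = 0 :=
  B.ext (X := x.1) (Y := (0 : V →ₗ[ℂ] V)) h

end SB

theorem lie_eig {P : Prin L} {x y : L} {a b : ℂ} (hx : ⁅P.h, x⁆ = a • x) (hy : ⁅P.h, y⁆ = b • y) :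
    ⁅P.h, ⁅x, y⁆⁆ = (a + b) • ⁅x, y⁆ := by
  rw [leibniz_lie, hx, hy, smul_lie, lie_smul, add_smul]

/-- The highest weights agree. -/
theorem same_weight {P : Prin L} {W W' : Submodule ℂ V} {v v' : V} {d : ℕ} (B : SB P ω W v d)
    (B' : SB P ω W' v' d) (hd : d = 1 ∨ d = 3)
    (hK : ∀ x : L, (∀ w ∈ W, x.1 w = 0) ↔ ∀ w ∈ W', x.1 w = 0) {x : L} (hx : x ∈ P.H) {a a' : ℂ}
    (ha : x.1 v = a • v) (ha' : x.1 v' = a' • v') : a = a' := by
  have hh : ∀ {W : Submodule ℂ V} {v : V} (B : SB P ω W v d) (k : ℕ),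
      P.h.1 ((P.of ^ k) v) = ((d : ℂ) - 2 * k) • (P.of ^ k) v := fun B k => B.sl.h_pow B.str.hv k
  -- if `x - b h` acts as zero
  have fin : ∀ b : ℂ, (∀ k ≤ d, x.1 ((P.of ^ k) v) = b • P.h.1 ((P.of ^ k) v)) → a = a' := by
    intro b hb
    have h1 : ∀ w ∈ W, (x - b • P.h).1 w = 0 := B.kills fun k hk => by
      change x.1 ((P.of ^ k) v) - b • P.h.1 ((P.of ^ k) v) = 0
      rw [hb k hk, sub_self]
    have h2 := (hK _).1 h1 v' B'.str.mem
    change x.1 v' - b • P.h.1 v' = 0 at h2
    have h3 : P.h.1 v' = (d : ℂ) • v' := B'.str.hv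
    have h4 : P.h.1 v = (d : ℂ) • v := B.str.hv
    have h5 := hb 0 (Nat.zero_le _)
    rw [pow_zero, Module.End.one_apply, h4, ha, smul_smul] at h5
    have h6 : (a - b * d) • v = 0 := by rw [sub_smul, h5, sub_self]
    have h7 := (smul_eq_zero.1 h6).resolve_right B.v0
    rw [h3, ha', smul_smul, ← sub_smul] at h2
    have h8 := (smul_eq_zero.1 h2).resolve_right B'.v0
    linear_combination h7 - h8
  rcases hd with rfl | rfl
  · obtain ⟨b, hb⟩ := B.diag hx (k := 1) le_rfl
    have hab : a + b = 0 := B.skew_diag (i := 0) (k := 1) rfl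
      (by rw [pow_zero, Module.End.one_apply]; exact ha) hb
    refine fin a fun k hk => ?_
    rw [hh B k, smul_smul]
    have hk' : k = 0 ∨ k = 1 := by omega
    rcases hk' with rfl | rfl
    · rw [pow_zero, Module.End.one_apply, ha]
      congr 1
      push_cast
      ring
    · rw [hb]
      congr 1
      push_cast
      linear_combination hab
  · obtain ⟨b, hb⟩ := B.diag hx (k := 1) (by norm_num)
    obtain ⟨c, hc⟩ := B.diag hx (k := 2) (by norm_num)
    obtain ⟨t, ht⟩ := B.diag hx (k := 3) le_rfl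
    obtain ⟨b', hb'⟩ := B'.diag hx (k := 1) (by norm_num)
    obtain ⟨c', hc'⟩ := B'.diag hx (k := 2) (by norm_num)
    obtain ⟨t', ht'⟩ := B'.diag hx (k := 3) le_rfl
    have ha0 : x.1 ((P.of ^ 0) v) = a • (P.of ^ 0) v := by
      rw [pow_zero, Module.End.one_apply]; exact ha
    have ha0' : x.1 ((P.of ^ 0) v') = a' • (P.of ^ 0) v' := by
      rw [pow_zero, Module.End.one_apply]; exact ha'
    have hat : a + t = 0 := B.skew_diag (i := 0) (k := 3) rfl ha0 ht
    have hbc : b + c = 0 := B.skew_diag (i := 1) (k := 2) rfl hb hc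
    have hat' : a' + t' = 0 := B'.skew_diag (i := 0) (k := 3) rfl ha0' ht'
    by_cases h0 : a = 3 * b
    · refine fin b fun k hk => ?_
      rw [hh B k, smul_smul]
      have hk' : k = 0 ∨ k = 1 ∨ k = 2 ∨ k = 3 := by omega
      rcases hk' with rfl | rfl | rfl | rfl
      · rw [ha0]
        congr 1
        push_cast
        linear_combination h0
      · rw [hb]
        congr 1
        push_cast
        ring
      · rw [hc]
        congr 1
        push_cast
        linear_combination hbc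
      · rw [ht]
        congr 1
        push_cast
        linear_combination hat - h0
    · -- the operator of weight six
      let y : L := ⁅P.e, ⁅P.e, ⁅P.e, x⁆⁆⁆
      have hx0 : ⁅P.h, x⁆ = (0 : ℂ) • x := by rw [zero_smul]; exact P.ab _ P.hH _ hx
      have hy6 : ⁅P.h, y⁆ = (6 : ℂ) • y := by
        have := lie_eig P.he (lie_eig P.he (lie_eig P.he hx0))
        rw [this]
        congr 1
        norm_num
      have hyz : ∀ {W : Submodule ℂ V} {v : V} (B : SB P ω W v 3) (k : ℕ), k < 3 →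
          y.1 ((P.of ^ k) v) = 0 := by
        intro W v B k hk
        refine B.pos_zero hy6 fun i hi h1 => ?_
        have h2 : ((2 * i + 6 : ℕ) : ℂ) = ((2 * k : ℕ) : ℂ) := by
          push_cast at h1 ⊢
          linear_combination h1
        have h3 : 2 * i + 6 = 2 * k := by exact_mod_cast h2
        omega
      have hy3 : ∀ {W : Submodule ℂ V} {v : V} (B : SB P ω W v 3), ∃ s : ℂ,
          y.1 ((P.of ^ 3) v) = s • v := by
        intro W v B
        have h1 := P.shift hy6 (B.sl.h_pow B.str.hv 3)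
        obtain ⟨s, hs⟩ := B.wt_one (i := 0) (B.st _ y.2 _ (B.pm 3)) (by norm_num) (by
          rw [h1]
          congr 1
          push_cast
          ring)
        exact ⟨s, by rw [hs, pow_zero, Module.End.one_apply]⟩
      obtain ⟨s', hs'⟩ := hy3 B'
      -- the value on the first string
      have he1 : P.e.1 ((P.of ^ 1) v) = (3 : ℂ) • (P.of ^ 0) v := by
        have := B.sl.e_pow B.str.hv B.str.ev 0
        rw [zero_add] at this
        change P.oe _ = _
        rw [this]
        congr 1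
        push_cast
        ring
      have he2 : P.e.1 ((P.of ^ 2) v) = (4 : ℂ) • (P.of ^ 1) v := by
        have := B.sl.e_pow B.str.hv B.str.ev 1
        change P.oe _ = _
        rw [this]
        congr 1
        push_cast
        ring
      have he3 : P.e.1 ((P.of ^ 3) v) = (3 : ℂ) • (P.of ^ 2) v := by
        have := B.sl.e_pow B.str.hv B.str.ev 2
        change P.oe _ = _
        rw [this]
        congr 1
        push_cast
        ring
      have y11 : (⁅P.e, x⁆ : L).1 ((P.of ^ 1) v) = (3 * (b - a)) • (P.of ^ 0) v := by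
        rw [lie_one, hb, map_smul, he1, map_smul, ha0, smul_smul, smul_smul, ← sub_smul]
        congr 1
        ring
      have y12 : (⁅P.e, x⁆ : L).1 ((P.of ^ 2) v) = (4 * (c - b)) • (P.of ^ 1) v := by
        rw [lie_one, hc, map_smul, he2, map_smul, hb, smul_smul, smul_smul, ← sub_smul]
        congr 1
        ring
      have y13 : (⁅P.e, x⁆ : L).1 ((P.of ^ 3) v) = (3 * (t - c)) • (P.of ^ 2) v := by
        rw [lie_one, ht, map_smul, he3, map_smul, hc, smul_smul, smul_smul, ← sub_smul]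
        congr 1
        ring
      have y22 : (⁅P.e, ⁅P.e, x⁆⁆ : L).1 ((P.of ^ 2) v) = (12 * (c - 2 * b + a)) • (P.of ^ 0) v := by
        rw [lie_one, y12, map_smul, he1, he2, map_smul, y11, smul_smul, smul_smul, ← sub_smul]
        congr 1
        ring
      have y23 : (⁅P.e, ⁅P.e, x⁆⁆ : L).1 ((P.of ^ 3) v) = (12 * (t - 2 * c + b)) • (P.of ^ 1) v := by
        rw [lie_one, y13, map_smul, he2, he3, map_smul, y12, smul_smul, smul_smul, ← sub_smul]
        congr 1
        ring
      have y33 : y.1 ((P.of ^ 3) v) = (72 * (3 * b - a)) • (P.of ^ 0) v := by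
        change (⁅P.e, ⁅P.e, ⁅P.e, x⁆⁆⁆ : L).1 ((P.of ^ 3) v) = _
        rw [lie_one, y23, map_smul, he1, he3, map_smul, y22, smul_smul, smul_smul, ← sub_smul]
        congr 1
        linear_combination 36 * hat - 108 * hbc
      have hs0 : 72 * (3 * b - a) ≠ 0 := by
        refine mul_ne_zero (by norm_num) fun h1 => h0 ?_
        linear_combination -h1
      have hs0' : s' ≠ 0 := by
        rintro rfl
        have h1 : ∀ w ∈ W', y.1 w = 0 := B'.kills fun k hk => by
          rcases lt_or_eq_of_le hk with h2 | h2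
          · exact hyz B' k h2
          · rw [h2, hs', zero_smul]
        have h2 := (hK y).2 h1 _ (B.pm 3)
        rw [y33, pow_zero, Module.End.one_apply] at h2
        exact (smul_ne_zero hs0 B.v0) h2
      -- the relation
      have h1 : ∀ w ∈ W, (⁅x, y⁆ - (2 * a) • y).1 w = 0 := B.kills fun k hk => by
        change (⁅x, y⁆ : L).1 ((P.of ^ k) v) - (2 * a) • y.1 ((P.of ^ k) v) = 0
        rw [lie_one]
        rcases lt_or_eq_of_le hk with h2 | h2
        · rw [hyz B k h2, map_zero, smul_zero, sub_zero]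
          obtain ⟨r, hr⟩ := B.diag hx hk
          rw [hr, map_smul, hyz B k h2, smul_zero, sub_zero]
        · rw [h2, y33, map_smul, ha0, ht, map_smul, y33, smul_smul, smul_smul, smul_smul,
            ← sub_smul, ← sub_smul]
          have h3 : 72 * (3 * b - a) * a - t * (72 * (3 * b - a)) - 2 * a * (72 * (3 * b - a)) = 0 := by
            linear_combination (-(72 * (3 * b - a))) * hat
          rw [h3, zero_smul]
      have h2 := (hK _).1 h1 _ (B'.pm 3)
      change (⁅x, y⁆ : L).1 ((P.of ^ 3) v') - (2 * a) • y.1 ((P.of ^ 3) v') = 0 at h2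
      rw [lie_one, hs', map_smul, ha', ht', map_smul, hs', smul_smul, smul_smul, smul_smul,
        ← sub_smul, ← sub_smul] at h2
      have h3 := (smul_eq_zero.1 h2).resolve_right B'.v0
      have h4 : s' * (2 * (a' - a)) = 0 := by linear_combination h3 + s' * hat'
      have h5 := (mul_eq_zero.1 h4).resolve_left hs0'
      linear_combination (-1 / 2 : ℂ) * h5

/-- If there are no multiplicities then two strings of the same length have different kernels. -/
theorem no_twin {P : Prin L} {W W' : Submodule ℂ V} {v v' : V} {d : ℕ} (B : SB P ω W v d)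
    (B' : SB P ω W' v' d) (hd : d = 1 ∨ d = 3)
    (hK : ∀ x : L, (∀ w ∈ W, x.1 w = 0) ↔ ∀ w ∈ W', x.1 w = 0) (hdis : W ⊓ W' = ⊥)
    (hm : ∀ U : Submodule ℂ V, Stable L.toSubmodule U → ∀ w ∈ W, ∀ w' ∈ W', w + w' ∈ U → w ∈ U) :
    False := by
  have h1 : P.oh (v + v') = (d : ℂ) • (v + v') := by
    rw [map_add, B.str.hv, B'.str.hv, smul_add]
  have hz : ∀ {W : Submodule ℂ V} {v : V} (B : SB P ω W v d) (x : L),
      x ∈ Submodule.span ℂ {y | ∃ m : ℕ, 1 ≤ m ∧ ⁅P.h, y⁆ = (2 * m : ℂ) • y} → x.1 v = 0 := by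
    intro W v B x hx
    induction hx using Submodule.span_induction with
    | mem y hy =>
      obtain ⟨m, hm, hy⟩ := hy
      have h2 := B.pos_zero hy (k := 0) fun i hi h3 => by
        have h4 : ((m + i : ℕ) : ℂ) = ((0 : ℕ) : ℂ) := by
          push_cast at h3 ⊢
          linear_combination (1 / 2 : ℂ) * h3
        have h5 : m + i = 0 := by exact_mod_cast h4
        omega
      rwa [pow_zero, Module.End.one_apply] at h2
    | zero => rfl
    | add a b _ _ ha hb =>
      change a.1 v + b.1 v = 0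
      rw [ha, hb, add_zero]
    | smul c a _ ha =>
      change c • a.1 v = 0
      rw [ha, smul_zero]
  obtain ⟨U, hU, hvU, hUle⟩ := gen P h1 (fun x hx => by
      rw [map_add, hz B x hx, hz B' x hx, add_zero]) fun x hx => by
    obtain ⟨a, ha⟩ := B.diag hx (k := 0) (Nat.zero_le _)
    obtain ⟨a', ha'⟩ := B'.diag hx (k := 0) (Nat.zero_le _)
    rw [pow_zero, Module.End.one_apply] at ha ha'
    have h2 := same_weight B B' hd hK hx ha ha'
    exact ⟨a, by rw [map_add, ha, ha', ← h2, smul_add]⟩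
  have h2 := hUle (hm U hU v B.str.mem v' B'.str.mem hvU)
  rw [Submodule.span_union] at h2
  obtain ⟨y, hy, r, hr, h3⟩ := Submodule.mem_sup.1 h2
  obtain ⟨t, rfl⟩ := Submodule.mem_span_singleton.1 hy
  have h4 : r = 0 := by
    refine eig_zero (h := P.oh) (C := {c : ℂ | ∃ m : ℕ, 1 ≤ m ∧ c = (d : ℂ) - 2 * m}) (a := d)
      ?_ hr ?_ ?_
    · rintro w ⟨m, hm, hwm⟩
      exact ⟨_, ⟨m, hm, rfl⟩, hwm⟩
    · rintro ⟨m, hm, h4⟩
      have h5 : (m : ℂ) = 0 := by linear_combination (1 / 2 : ℂ) * h4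
      have h6 : m = 0 := by exact_mod_cast h5
      omega
    · have h5 : r = v - t • (v + v') := eq_sub_of_add_eq' h3
      rw [h5, map_sub, map_smul, h1, B.str.hv, smul_sub, smul_comm]
  rw [h4, add_zero] at h3
  have h5 : (1 - t) • v = t • v' := by
    rw [sub_smul, one_smul]
    nth_rw 1 [← h3]
    rw [smul_add]
    abel
  have h6 : (1 - t) • v ∈ W ⊓ W' := ⟨W.smul_mem _ B.str.mem, by
    rw [h5]; exact W'.smul_mem _ B'.str.mem⟩
  rw [hdis, Submodule.mem_bot] at h6
  have h7 := (smul_eq_zero.1 h6).resolve_right B.v0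
  rw [h6] at h5
  have h8 := (smul_eq_zero.1 h5.symm).resolve_right B'.v0
  rw [h8, sub_zero] at h7
  exact one_ne_zero h7

end Pool.Agent.L0h12.FF
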